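import Pool.Agent.H282R5.PC.Defs
import Pool.Agent.H282R5.PC.LinkRho
import Pool.Agent.H282R3.SQ.ClosePair
import Pool.Agent.H282R4.PK.Cluster

/-! Module ClosePair: pigeonhole + link. -/

set_option autoImplicit false

namespace H282R5.PC

open MeasureTheory
open scoped Real ENNReal
open H282R3.SQ (USq Inside)
open H282R4.PK (slope rho tr F FH cell Rg Kg C0 Bx U V)

namespace ClosePair

theorem rho_rot (Q Q' : USq) : rho Q.rot Q' = rho Q Q' := by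
  unfold rho
  rw [← abs_neg ((Q.a * Q'.a + Q.b * Q'.b) * (Q.a * Q'.b - Q.b * Q'.a))]
  congr 1
  simp only [USq.rot]
  ring

theorem rho_rot_iter (Q Q' : USq) (k : ℕ) : rho (USq.rot^[k] Q) Q' = rho Q Q' := by
  induction k with
  | zero => rfl
  | succ k ih => rw [Function.iterate_succ', Function.comp_apply, rho_rot, ih]

end ClosePair

theorem close_pair_rho {ι : Type} [Fintype ι] (M : ℕ) (hM : Fintype.card ι ≤ M)
    (Fm : ι → USq) (S : Set (ℝ × ℝ)) (hS : Convex ℝ S)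
    (hcov : ∀ x ∈ S, ∃ i, x ∈ (Fm i).C) (τ : ℝ) (hτ0 : 0 ≤ τ) (hτ : τ < 1 / 16)
    (htri : ∀ i j, i ≠ j → ∀ z1 z2 z3 : ℝ × ℝ, z1 ∈ (Fm i).C ∩ (Fm j).C →
      z2 ∈ (Fm i).C ∩ (Fm j).C → z3 ∈ (Fm i).C ∩ (Fm j).C → |H282R3.SQ.det3 z1 z2 z3| ≤ τ)
    (T : Set ι) (A B : ι) (hA : A ∈ T) (hB : B ∉ T) (hAS : (Fm A).C ⊆ S) (hBS : (Fm B).C ⊆ S) :
    ∃ i ∈ T, ∃ j ∉ T, rho (Fm i) (Fm j) ≤ 128 * (M : ℝ) ^ 4 * τ := by
  have hM1 : 1 ≤ M := by
    have : 0 < Fintype.card ι := Fintype.card_pos_iff.mpr ⟨A⟩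
    omega
  have hMr : (1 : ℝ) ≤ (M : ℝ) := by exact_mod_cast hM1
  obtain ⟨v, hv, hperp⟩ := H282R3.SQ.exists_perp ((Fm B).p - (Fm A).p) ((Fm B).q - (Fm A).q)
  let s : Fin (4 * M ^ 2 + 1) → ℝ := fun m => -1 / 4 + (m : ℕ) / (8 * (M : ℝ) ^ 2)
  have hs : ∀ m, |s m| ≤ 1 / 4 := by
    intro m
    have h8 : (0 : ℝ) < 8 * (M : ℝ) ^ 2 := by positivity
    have hm0 : (0 : ℝ) ≤ ((m : ℕ) : ℝ) / (8 * (M : ℝ) ^ 2) := by positivity
    have hm1 : ((m : ℕ) : ℝ) / (8 * (M : ℝ) ^ 2) ≤ 1 / 2 := by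
      rw [div_le_iff₀ h8]
      have : ((m : ℕ) : ℝ) ≤ ((4 * M ^ 2 : ℕ) : ℝ) := by
        exact_mod_cast Nat.lt_succ_iff.mp m.2
      push_cast at this
      linarith
    rw [abs_le]
    constructor
    · show -(1 / 4) ≤ -1 / 4 + _
      linarith
    · show -1 / 4 + _ ≤ 1 / 4
      linarith
  have key := fun m => H282R3.SQ.contact Fm S hS hcov τ hτ0 hτ htri T A B hA hB hAS hBS v hv hperp (s m) (hs m)
  choose i hi j hj σ z hz1 hz2 hX hz3 using key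
  have hcard : Fintype.card (ι × ι × Fin 4) < Fintype.card (Fin (4 * M ^ 2 + 1)) := by
    simp only [Fintype.card_prod, Fintype.card_fin]
    have := Nat.mul_le_mul hM hM
    nlinarith
  obtain ⟨m, m', hne, heq⟩ := Fintype.exists_ne_map_eq_of_card_lt (fun m => (i m, j m, σ m)) hcard
  simp only [Prod.mk.injEq] at heq
  obtain ⟨e1, e2, e3⟩ := heq
  have hij : i m ≠ j m := fun h => hj m (h ▸ hi m)
  set Q := USq.rot^[(σ m : ℕ)] (Fm (j m)) with hQ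
  have hQC : Q.C = (Fm (j m)).C := H282R3.SQ.rot_iter_C _ _
  have hQr : rho Q (Fm (i m)) = rho (Fm (j m)) (Fm (i m)) := ClosePair.rho_rot_iter _ _ _
  have hXm : Q.X (z m) = 1 / 2 := hX m
  have hXm' : Q.X (z m') = 1 / 2 := by
    have := hX m'
    rw [← e2, ← e3] at this
    exact this
  have hsep : 1 / (8 * (M : ℝ) ^ 2) ≤ |s m - s m'| := by
    have h8 : (0 : ℝ) < 8 * (M : ℝ) ^ 2 := by positivity
    have e : s m - s m' = (((m : ℕ) : ℝ) - ((m' : ℕ) : ℝ)) / (8 * (M : ℝ) ^ 2) := by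
      show -1 / 4 + ((m : ℕ) : ℝ) / (8 * (M : ℝ) ^ 2) - (-1 / 4 + ((m' : ℕ) : ℝ) / (8 * (M : ℝ) ^ 2)) = _
      ring
    rw [e, abs_div, abs_of_pos h8]
    apply div_le_div_of_nonneg_right _ h8.le
    have hne' : ((m : ℕ) : ℤ) - ((m' : ℕ) : ℤ) ≠ 0 := by
      intro h
      apply hne
      apply Fin.ext
      omega
    have := Int.one_le_abs hne'
    exact_mod_cast this
  have hd : |s m - s m'| ≤ |Q.Y (z m) - Q.Y (z m')| := by
    apply sq_le_sq.mp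
    have h1 := hz3 m
    have h2 := hz3 m'
    have hu := Q.unit
    have hx : Q.a * ((z m).1 - (z m').1) + Q.b * ((z m).2 - (z m').2) = 0 := by
      have a1 := hXm
      have a2 := hXm'
      unfold USq.X at a1 a2
      linarith
    have hy : Q.Y (z m) - Q.Y (z m') = -Q.b * ((z m).1 - (z m').1) + Q.a * ((z m).2 - (z m').2) := by
      unfold USq.Y; ring
    have hss : s m - s m' = v.1 * ((z m).1 - (z m').1) + v.2 * ((z m).2 - (z m').2) := by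
      rw [← h1, ← h2]; ring
    rw [hy, hss]
    generalize (z m).1 - (z m').1 = d1 at *
    generalize (z m).2 - (z m').2 = d2 at *
    have e1 : (-Q.b * d1 + Q.a * d2) ^ 2 = d1 ^ 2 + d2 ^ 2 := by
      have : (-Q.b * d1 + Q.a * d2) ^ 2 + (Q.a * d1 + Q.b * d2) ^ 2 =
          (Q.a ^ 2 + Q.b ^ 2) * (d1 ^ 2 + d2 ^ 2) := by ring
      rw [hx, hu] at this
      linarith
    rw [e1]
    have : (v.1 ^ 2 + v.2 ^ 2) * (d1 ^ 2 + d2 ^ 2) =
      (v.1 * d1 + v.2 * d2) ^ 2 + (v.1 * d2 - v.2 * d1) ^ 2 := by ring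
    rw [hv, one_mul] at this
    nlinarith [sq_nonneg (v.1 * d2 - v.2 * d1)]
  have hl := link_rho Q (Fm (i m)) τ (1 / (8 * (M : ℝ) ^ 2)) (by positivity)
    (by
      intro z1 z2 z3 h1 h2 h3
      rw [hQC] at h1 h2 h3
      exact htri (j m) (i m) hij.symm z1 z2 z3 h1 h2 h3)
    (z m) (z m') ⟨by rw [hQC]; exact hz2 m, hz1 m⟩
    ⟨by rw [hQC, e2]; exact hz2 m', by rw [e1]; exact hz1 m'⟩ hXm hXm' (hsep.trans hd)
  refine ⟨i m, hi m, j m, hj m, ?_⟩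
  rw [H282R4.PK.rho_comm, ← hQr]
  refine hl.trans (le_of_eq ?_)
  field_simp
  ring

end H282R5.PC
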