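import Pool.Agent.H282R5.PC.Defs
import Pool.Agent.H282R4.PK.Cluster
import Pool.Agent.H282R5.PC.ClosePair

/-! Task 06: clusters (adapted from `H282R4.PK.Cluster`). -/

namespace H282R5.PC

open MeasureTheory
open scoped Real ENNReal
open H282R3.SQ (USq Inside)
open H282R4.PK (slope rho tr F FH cell Rg Kg C0 Bx U V)

theorem cluster_rho {ι : Type} [Fintype ι] (M : ℕ) (hM : Fintype.card ι ≤ M)
    (Fm : ι → USq) (S : Set (ℝ × ℝ)) (hS : Convex ℝ S)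
    (hcov : ∀ x ∈ S, ∃ i, x ∈ (Fm i).C) (τ : ℝ) (hτ0 : 0 ≤ τ) (hτ : τ < 1 / 16)
    (htri : ∀ i j, i ≠ j → ∀ z1 z2 z3 : ℝ × ℝ, z1 ∈ (Fm i).C ∩ (Fm j).C →
      z2 ∈ (Fm i).C ∩ (Fm j).C → z3 ∈ (Fm i).C ∩ (Fm j).C → |H282R3.SQ.det3 z1 z2 z3| ≤ τ)
    (A B : ι) (hAS : (Fm A).C ⊆ S) (hBS : (Fm B).C ⊆ S) :
    rho (Fm A) (Fm B) ≤ 128 * (M : ℝ) ^ 5 * τ := by
  classical
  set δ : ℝ := 128 * (M : ℝ) ^ 4 * τ with hδ
  have hδ0 : 0 ≤ δ := by positivity
  let Γ : SimpleGraph ι :=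
    { Adj := fun i j => i ≠ j ∧ rho (Fm i) (Fm j) ≤ δ
      symm := ⟨fun i j h => ⟨h.1.symm, by rw [H282R4.PK.rho_comm]; exact h.2⟩⟩
      loopless := ⟨fun i h => h.1 rfl⟩ }
  have hreach : Γ.Reachable A B := by
    by_contra hne
    obtain ⟨i, hi, j, hj, hij⟩ := close_pair_rho M hM Fm S hS hcov τ hτ0 hτ htri
      {i | Γ.Reachable A i} A B (SimpleGraph.Reachable.refl A) hne hAS hBS
    apply hj
    have hne' : i ≠ j := by
      rintro rfl
      exact hj hi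
    have : Γ.Adj i j := ⟨hne', hij⟩
    exact SimpleGraph.Reachable.trans hi this.reachable
  have hwalk : ∀ (u v : ι) (p : Γ.Walk u v), rho (Fm u) (Fm v) ≤ p.length * δ := by
    intro u v p
    induction p with
    | nil => simp [H282R4.PK.rho_self]
    | @cons u v w h p ih =>
      rw [SimpleGraph.Walk.length_cons]
      push_cast
      have := H282R4.PK.rho_tri (Fm u) (Fm v) (Fm w)
      have h2 := h.2
      linarith
  obtain ⟨p, hp⟩ := hreach.exists_isPath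
  have hlen : p.length < Fintype.card ι := hp.length_lt
  have h1 := hwalk A B p
  have h2 : (p.length : ℝ) * δ ≤ (M : ℝ) * δ :=
    mul_le_mul_of_nonneg_right (by exact_mod_cast (hlen.le.trans hM)) hδ0
  calc rho (Fm A) (Fm B) ≤ p.length * δ := h1
    _ ≤ (M : ℝ) * δ := h2
    _ = 128 * (M : ℝ) ^ 5 * τ := by rw [hδ]; ring

end H282R5.PC
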