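import Pool.Agent.H282R5.PC.Defs
import Pool.Agent.H282R4.PK.Geo

/-!
Project PC, module Geo: the mirror image of a covering, points covered by the squares.
-/

namespace H282R5.PC

open MeasureTheory
open scoped Real ENNReal
open H282R3.SQ (USq Inside)
open H282R4.PK (slope rho tr F FH cell Rg Kg C0 Bx U V)

namespace Geo

theorem mult_tr {ι : Type} (Q : ι → USq) (z : ℝ × ℝ) :
    mult (fun i => tr (Q i)) z = mult Q (z.2, z.1) := by
  unfold mult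
  refine tsum_congr fun i => ?_
  by_cases h : z ∈ (tr (Q i)).O
  · rw [Set.indicator_of_mem h, Set.indicator_of_mem ((H282R4.PK.mem_tr_O _ _).1 h)]
  · rw [Set.indicator_of_notMem h,
      Set.indicator_of_notMem (fun h' => h ((H282R4.PK.mem_tr_O _ _).2 h'))]

theorem lam_swap : lam.map (MeasurableEquiv.prodComm : ℝ × ℝ ≃ᵐ ℝ × ℝ) = lam := by
  have hm : Measurable (MeasurableEquiv.prodComm : ℝ × ℝ ≃ᵐ ℝ × ℝ) :=
    MeasurableEquiv.measurable _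
  have h : (volume : Measure (ℝ × ℝ)).map (MeasurableEquiv.prodComm : ℝ × ℝ ≃ᵐ ℝ × ℝ) =
      volume := by
    have := Measure.measurePreserving_swap (μ := (volume : Measure ℝ)) (ν := (volume : Measure ℝ))
    exact this.map_eq
  unfold lam
  rw [Measure.map_add _ _ hm, Measure.map_add _ _ hm, h, Measure.map_sum hm.aemeasurable,
    Measure.map_sum hm.aemeasurable]
  have e1 : ∀ k : ℤ, ((volume : Measure ℝ).map fun X => (X, (k : ℝ))).map
      (MeasurableEquiv.prodComm : ℝ × ℝ ≃ᵐ ℝ × ℝ) =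
      (volume : Measure ℝ).map fun Y => ((k : ℝ), Y) := by
    intro k
    rw [Measure.map_map hm (by fun_prop)]
    rfl
  have e2 : ∀ k : ℤ, ((volume : Measure ℝ).map fun Y => ((k : ℝ), Y)).map
      (MeasurableEquiv.prodComm : ℝ × ℝ ≃ᵐ ℝ × ℝ) =
      (volume : Measure ℝ).map fun X => (X, (k : ℝ)) := by
    intro k
    rw [Measure.map_map hm (by fun_prop)]
    rfl
  simp only [e1, e2]
  rw [add_assoc, add_assoc, add_comm (Measure.sum fun k : ℤ => (volume : Measure ℝ).map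
    fun Y => ((k : ℝ), Y))]

theorem mem_box_swap (n : ℕ) (o z : ℝ × ℝ) : z ∈ box n (o.2, o.1) ↔ (z.2, z.1) ∈ box n o := by
  simp only [box, Set.mem_ofPred_eq]
  tauto

theorem tr_gsq (o : ℝ × ℝ) (c : ℤ × ℤ) : tr (gsq o c) = gsq (o.2, o.1) (c.2, c.1) := by
  unfold tr gsq
  simp

theorem tr_tr (Q : USq) : tr (tr Q) = Q := by
  cases Q
  simp [tr]

theorem inside_swap (n : ℕ) (c : ℤ × ℤ) : Inside n (c.2, c.1) ↔ Inside n c := by
  unfold Inside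
  tauto

theorem Rg_swap (c : ℤ × ℤ) (z : ℝ × ℝ) : (z.2, z.1) ∈ Rg (c.2, c.1) ↔ z ∈ Rg c := by
  simp only [Rg, Set.mem_ofPred_eq]
  tauto

end Geo

/-- the multiplicity of the mirror image -/
theorem ov_tr {ι : Type} (Q : ι → USq) (z : ℝ × ℝ) : ov (fun i => tr (Q i)) z = ov Q (z.2, z.1) := by
  unfold ov
  rw [Geo.mult_tr]

theorem Cvr.trans {n : ℕ} {o : ℝ × ℝ} {ι : Type} [Countable ι] {I : Finset ι} {Q : ι → USq} {W : ℝ}
    (h : Cvr n o I Q W) :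
    Cvr n (o.2, o.1) I (fun i => tr (Q i)) W where
  o1 := h.o2
  o1' := h.o2'
  o2 := h.o1
  o2' := h.o1'
  norm i := by
    have := h.norm i
    show |-(Q i).b| ≤ (Q i).a
    rwa [abs_neg]
  W_nonneg := h.W_nonneg
  waste := by
    have e : ∫⁻ z, ov (fun i => tr (Q i)) z ∂lam = ∫⁻ z, ov Q z ∂lam := by
      conv_rhs => rw [← Geo.lam_swap, lintegral_map_equiv]
      refine lintegral_congr fun z => ?_
      rw [ov_tr]
      rfl
    rw [e]
    exact h.waste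
  out i hi := by
    obtain ⟨c, hc, hQ⟩ := h.out i hi
    refine ⟨(c.2, c.1), fun h' => hc ((Geo.inside_swap n c).1 h'), ?_⟩
    show tr (Q i) = _
    rw [hQ, Geo.tr_gsq]
  out_ex c hc := by
    obtain ⟨i, hi, hQ⟩ := h.out_ex (c.2, c.1) (fun h' => hc ((Geo.inside_swap n c).1 h'))
    refine ⟨i, hi, ?_⟩
    show tr (Q i) = _
    rw [hQ, Geo.tr_gsq]
  out_inj i j hi hj hij := by
    apply h.out_inj i j hi hj
    have := congrArg tr hij
    simpa only [Geo.tr_tr] using this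
  inner_cov z hz := by
    rw [Geo.mem_box_swap] at hz
    obtain ⟨i, hi, hz'⟩ := h.inner_cov _ hz
    exact ⟨i, hi, (H282R4.PK.mem_tr_O _ _).2 hz'⟩
  inner_near i hi := by
    obtain ⟨z, hz, hb⟩ := h.inner_near i hi
    refine ⟨(z.2, z.1), (H282R4.PK.mem_tr_C _ _).2 hz, ?_⟩
    rw [Geo.mem_box_swap]
    exact hb

theorem om_tr {ι : Type} (Q : ι → USq) (c : ℤ × ℤ) : om (fun i => tr (Q i)) c = om Q (c.2, c.1) := by
  unfold om wst
  congr 1
  conv_rhs => rw [← Geo.lam_swap, MeasurableEquiv.restrict_map, lintegral_map_equiv]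
  have hs : (MeasurableEquiv.prodComm : ℝ × ℝ ≃ᵐ ℝ × ℝ) ⁻¹' (Rg (c.2, c.1)) = Rg c := by
    ext z
    exact Geo.Rg_swap c z
  rw [hs]
  refine lintegral_congr fun z => ?_
  rw [ov_tr]
  rfl

/-- outside the box there is an outer square -/
theorem cov_out {n : ℕ} {o : ℝ × ℝ} {ι : Type} [Countable ι] {I : Finset ι} {Q : ι → USq} {W : ℝ}
    (h : Cvr n o I Q W) (z : ℝ × ℝ)
    (hz : z ∉ box n o) : ∃ i, i ∉ I ∧ z ∈ (Q i).C ∧ (Q i).a = 1 ∧ (Q i).b = 0 := by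
  have f1 := Int.floor_le (z.1 - o.1)
  have f2 := Int.lt_floor_add_one (z.1 - o.1)
  have f3 := Int.floor_le (z.2 - o.2)
  have f4 := Int.lt_floor_add_one (z.2 - o.2)
  have hc : ¬ Inside n (⌊z.1 - o.1⌋, ⌊z.2 - o.2⌋) := by
    rintro ⟨h1, h2, h3, h4⟩
    apply hz
    simp only at h1 h2 h3 h4
    have h1' : (0 : ℝ) ≤ (⌊z.1 - o.1⌋ : ℤ) := by exact_mod_cast h1
    have h2' : ((⌊z.1 - o.1⌋ : ℤ) : ℝ) + 1 ≤ n := by exact_mod_cast h2
    have h3' : (0 : ℝ) ≤ (⌊z.2 - o.2⌋ : ℤ) := by exact_mod_cast h3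
    have h4' : ((⌊z.2 - o.2⌋ : ℤ) : ℝ) + 1 ≤ n := by exact_mod_cast h4
    refine ⟨?_, ?_, ?_, ?_⟩ <;> linarith
  obtain ⟨i, hi, hQ⟩ := h.out_ex _ hc
  refine ⟨i, hi, ?_, ?_, ?_⟩
  · rw [hQ]
    simp only [USq.C, USq.X, USq.Y, gsq, Set.mem_ofPred_eq]
    refine ⟨?_, ?_⟩ <;> rw [abs_le] <;> constructor <;> linarith
  · rw [hQ]
    rfl
  · rw [hQ]
    rfl

theorem cov {n : ℕ} {o : ℝ × ℝ} {ι : Type} [Countable ι] {I : Finset ι} {Q : ι → USq} {W : ℝ}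
    (h : Cvr n o I Q W) (z : ℝ × ℝ) :
    ∃ i, z ∈ (Q i).C := by
  by_cases hz : z ∈ box n o
  · obtain ⟨i, _, hi⟩ := h.inner_cov z hz
    exact ⟨i, hi.1.le, hi.2.le⟩
  · obtain ⟨i, _, hi, _⟩ := cov_out h z hz
    exact ⟨i, hi⟩

/-- the squares of `I` are near the box -/
theorem inner_sub {n : ℕ} {o : ℝ × ℝ} {ι : Type} [Countable ι] {I : Finset ι} {Q : ι → USq} {W : ℝ}
    (h : Cvr n o I Q W) (i : ι)
    (hi : i ∈ I) (z : ℝ × ℝ) (hz : z ∈ (Q i).C) :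
    1 / 2 < z.1 ∧ z.1 < n + 9 / 2 ∧ 1 / 2 < z.2 ∧ z.2 < n + 9 / 2 := by
  obtain ⟨y, hy, hb1, hb2, hb3, hb4⟩ := h.inner_near i hi
  obtain ⟨h1, h2⟩ := H282R4.PK.diam (Q i) z y hz hy
  rw [abs_lt] at h1 h2
  have := h.o1
  have := h.o1'
  have := h.o2
  have := h.o2'
  refine ⟨?_, ?_, ?_, ?_⟩ <;> linarith

/-- tilted squares are in `I` -/
theorem tilted {n : ℕ} {o : ℝ × ℝ} {ι : Type} [Countable ι] {I : Finset ι} {Q : ι → USq} {W : ℝ}
    (h : Cvr n o I Q W) (i : ι)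
    (hi : (Q i).b ≠ 0) : i ∈ I := by
  by_contra hI
  obtain ⟨c, _, hQ⟩ := h.out i hI
  apply hi
  rw [hQ]
  rfl

end H282R5.PC
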