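import Pool.Agent.H282R5.PC.Defs
import Pool.Agent.H282R5.PC.Geo
import Pool.Agent.H282R4.PK.Fin

/-! Module Fin (helper415): local finiteness, measurability and size of the waste. -/

namespace H282R5.PC

open MeasureTheory
open scoped Real ENNReal
open H282R3.SQ (USq Inside)
open H282R4.PK (slope rho tr F FH cell Rg Kg C0 Bx U V)

namespace Fin

open Classical in
/-- the cell of an outer square -/
noncomputable def cf {ι : Type} (o : ℝ × ℝ) (Q : ι → USq) (i : ι) : ℤ × ℤ :=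
  if h : ∃ c : ℤ × ℤ, Q i = gsq o c then h.choose else 0

lemma cf_spec {ι : Type} (o : ℝ × ℝ) (Q : ι → USq) (i : ι) (h : ∃ c : ℤ × ℤ, Q i = gsq o c) :
    Q i = gsq o (cf o Q i) := by
  unfold cf
  rw [dif_pos h]
  exact h.choose_spec

lemma mem_gsq (o : ℝ × ℝ) (c : ℤ × ℤ) (z : ℝ × ℝ) (hz : z ∈ (gsq o c).C) :
    o.1 + c.1 ≤ z.1 ∧ z.1 ≤ o.1 + c.1 + 1 ∧ o.2 + c.2 ≤ z.2 ∧ z.2 ≤ o.2 + c.2 + 1 := by
  obtain ⟨h1, h2⟩ := hz
  simp only [gsq, USq.X, USq.Y, abs_le] at h1 h2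
  obtain ⟨a1, a2⟩ := h1
  obtain ⟨b1, b2⟩ := h2
  refine ⟨by linarith, by linarith, by linarith, by linarith⟩

lemma vol_le_lam : (volume : Measure (ℝ × ℝ)) ≤ lam := by
  unfold lam
  exact Measure.le_add_right (Measure.le_add_right le_rfl)

lemma hor_le_lam (k : ℤ) : (volume : Measure ℝ).map (fun X => (X, (k : ℝ))) ≤ lam := by
  unfold lam
  refine Measure.le_add_right (Measure.le_add_left ?_)
  exact Measure.le_sum (fun k : ℤ => (volume : Measure ℝ).map fun X => (X, (k : ℝ))) k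

lemma ver_le_lam (k : ℤ) : (volume : Measure ℝ).map (fun Y => ((k : ℝ), Y)) ≤ lam := by
  unfold lam
  refine Measure.le_add_left ?_
  exact Measure.le_sum (fun k : ℤ => (volume : Measure ℝ).map fun Y => ((k : ℝ), Y)) k

lemma null_CO (Q : USq) : volume (Q.C \ Q.O) = 0 := by
  rw [measure_sdiff (H282R3.SQ.O_subset_C Q) (H282R3.SQ.isOpen_O Q).measurableSet.nullMeasurableSet
    (by rw [H282R4.PK.Fin.volume_O]; exact ENNReal.one_ne_top), H282R4.PK.Fin.volume_O,
    H282R3.SQ.volume_C, tsub_self]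

lemma measurable_ind (Q : USq) : Measurable (Q.O.indicator (fun _ => (1 : ℝ≥0∞))) :=
  measurable_const.indicator (H282R3.SQ.isOpen_O Q).measurableSet

lemma sum_le_mult {ι : Type} (Q : ι → USq) (J : Finset ι) (z : ℝ × ℝ) :
    ∑ i ∈ J, (Q i).O.indicator (fun _ => (1 : ℝ≥0∞)) z ≤ mult Q z :=
  ENNReal.sum_le_tsum J

end Fin

/-- local finiteness (area; all overlaps together have area at most `W`) -/
theorem fin_meet {n : ℕ} {o : ℝ × ℝ} {ι : Type} [Countable ι] {I : Finset ι} {Q : ι → USq} {W : ℝ}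
    (h : Cvr n o I Q W)
    (B : Set (ℝ × ℝ)) (hB : Bornology.IsBounded B) : {i | ((Q i).C ∩ B).Nonempty}.Finite := by
  obtain ⟨r, hr⟩ := hB.subset_closedBall 0
  obtain ⟨N, hN⟩ := exists_nat_ge (r + 5)
  have h1 : {i | ((Q i).C ∩ B).Nonempty} ⊆ (I : Set ι) ∪ {i | i ∉ I ∧ ((Q i).C ∩ B).Nonempty} := by
    intro i hi
    by_cases hiI : i ∈ I
    · exact Or.inl hiI
    · exact Or.inr ⟨hiI, hi⟩
  refine Set.Finite.subset (Set.Finite.union I.finite_toSet ?_) h1
  have hex : ∀ i, i ∉ I → ∃ c : ℤ × ℤ, Q i = gsq o c := fun i hi => by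
    obtain ⟨c, _, hc⟩ := h.out i hi
    exact ⟨c, hc⟩
  refine Set.Finite.of_injOn (f := Fin.cf o Q)
    (t := ((Finset.Icc (-(N : ℤ)) N ×ˢ Finset.Icc (-(N : ℤ)) N : Finset (ℤ × ℤ)) : Set (ℤ × ℤ))) ?_ ?_
    (Finset.finite_toSet _)
  · rintro i ⟨hiI, y, hyC, hyB⟩
    have h2 := Fin.cf_spec o Q i (hex i hiI)
    rw [h2] at hyC
    obtain ⟨a1, a2, a3, a4⟩ := Fin.mem_gsq _ _ _ hyC
    have h3 := hr hyB
    rw [mem_closedBall_zero_iff, Prod.norm_def, max_le_iff, Real.norm_eq_abs, Real.norm_eq_abs,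
      abs_le, abs_le] at h3
    obtain ⟨⟨b1, b2⟩, b3, b4⟩ := h3
    have o1 := h.o1
    have o1' := h.o1'
    have o2 := h.o2
    have o2' := h.o2'
    rw [Finset.coe_product, Set.mem_prod, Finset.coe_Icc, Set.mem_Icc, Set.mem_Icc]
    refine ⟨⟨?_, ?_⟩, ?_, ?_⟩
    · have : (-(N : ℝ)) ≤ ((Fin.cf o Q i).1 : ℝ) := by linarith
      exact_mod_cast this
    · have : ((Fin.cf o Q i).1 : ℝ) ≤ (N : ℝ) := by linarith
      exact_mod_cast this
    · have : (-(N : ℝ)) ≤ ((Fin.cf o Q i).2 : ℝ) := by linarith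
      exact_mod_cast this
    · have : ((Fin.cf o Q i).2 : ℝ) ≤ (N : ℝ) := by linarith
      exact_mod_cast this
  · rintro i ⟨hiI, _⟩ j ⟨hjI, _⟩ hij
    apply h.out_inj i j hiI hjI
    rw [Fin.cf_spec o Q i (hex i hiI), Fin.cf_spec o Q j (hex j hjI), hij]

theorem measurable_ov {ι : Type} [Countable ι] (Q : ι → USq) : Measurable (ov Q) := by
  have h1 : Measurable (mult Q) := Measurable.tsum fun i => Fin.measurable_ind (Q i)
  exact h1.sub measurable_const

/-- the waste is finite -/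
theorem wst_ne_top {n : ℕ} {o : ℝ × ℝ} {ι : Type} [Countable ι] {I : Finset ι} {Q : ι → USq} {W : ℝ}
    (h : Cvr n o I Q W)
    (B : Set (ℝ × ℝ)) : ∫⁻ z in B, ov Q z ∂lam ≠ ⊤ := by
  refine ne_top_of_le_ne_top ENNReal.ofReal_ne_top (le_trans ?_ h.waste)
  exact setLIntegral_le_lintegral B _

theorem ofReal_wst {n : ℕ} {o : ℝ × ℝ} {ι : Type} [Countable ι] {I : Finset ι} {Q : ι → USq} {W : ℝ}
    (h : Cvr n o I Q W)
    (B : Set (ℝ × ℝ)) : ENNReal.ofReal (wst Q B) = ∫⁻ z in B, ov Q z ∂lam :=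
  ENNReal.ofReal_toReal (wst_ne_top h B)

theorem wst_nonneg {ι : Type} (Q : ι → USq) (B : Set (ℝ × ℝ)) : 0 ≤ wst Q B :=
  ENNReal.toReal_nonneg

theorem wst_mono {n : ℕ} {o : ℝ × ℝ} {ι : Type} [Countable ι] {I : Finset ι} {Q : ι → USq} {W : ℝ}
    (h : Cvr n o I Q W)
    (A B : Set (ℝ × ℝ)) (hAB : A ⊆ B) : wst Q A ≤ wst Q B :=
  ENNReal.toReal_mono (wst_ne_top h B) (lintegral_mono_set hAB)

/-- area part -/
theorem area_le {n : ℕ} {o : ℝ × ℝ} {ι : Type} [Countable ι] {I : Finset ι} {Q : ι → USq} {W : ℝ}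
    (h : Cvr n o I Q W)
    (B : Set (ℝ × ℝ)) : ∫⁻ z in B, ov Q z ≤ ENNReal.ofReal (wst Q B) := by
  rw [ofReal_wst h]
  exact lintegral_mono' (Measure.restrict_mono subset_rfl Fin.vol_le_lam) le_rfl

/-- horizontal line part -/
theorem hor_le {n : ℕ} {o : ℝ × ℝ} {ι : Type} [Countable ι] {I : Finset ι} {Q : ι → USq} {W : ℝ}
    (h : Cvr n o I Q W) (k : ℤ)
    (A : Set ℝ) (hA : MeasurableSet A) (B : Set (ℝ × ℝ)) (hB : MeasurableSet B)
    (hAB : ∀ X ∈ A, (X, (k : ℝ)) ∈ B) :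
    ∫⁻ X in A, ov Q (X, (k : ℝ)) ≤ ENNReal.ofReal (wst Q B) := by
  have _ := hA
  rw [ofReal_wst h]
  have hf : Measurable (fun X : ℝ => (X, (k : ℝ))) := measurable_id.prodMk measurable_const
  calc ∫⁻ X in A, ov Q (X, (k : ℝ)) ≤ ∫⁻ X in (fun X : ℝ => (X, (k : ℝ))) ⁻¹' B, ov Q (X, (k : ℝ)) :=
        lintegral_mono_set fun X hX => hAB X hX
    _ = ∫⁻ z in B, ov Q z ∂((volume : Measure ℝ).map (fun X => (X, (k : ℝ)))) :=
        (setLIntegral_map hB (measurable_ov Q) hf).symm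
    _ ≤ ∫⁻ z in B, ov Q z ∂lam :=
        lintegral_mono' (Measure.restrict_mono subset_rfl (Fin.hor_le_lam k)) le_rfl

/-- vertical line part -/
theorem ver_le {n : ℕ} {o : ℝ × ℝ} {ι : Type} [Countable ι] {I : Finset ι} {Q : ι → USq} {W : ℝ}
    (h : Cvr n o I Q W) (k : ℤ)
    (A : Set ℝ) (hA : MeasurableSet A) (B : Set (ℝ × ℝ)) (hB : MeasurableSet B)
    (hAB : ∀ Y ∈ A, ((k : ℝ), Y) ∈ B) :
    ∫⁻ Y in A, ov Q ((k : ℝ), Y) ≤ ENNReal.ofReal (wst Q B) := by
  have _ := hA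
  rw [ofReal_wst h]
  have hf : Measurable (fun Y : ℝ => ((k : ℝ), Y)) := measurable_const.prodMk measurable_id
  calc ∫⁻ Y in A, ov Q ((k : ℝ), Y) ≤ ∫⁻ Y in (fun Y : ℝ => ((k : ℝ), Y)) ⁻¹' B, ov Q ((k : ℝ), Y) :=
        lintegral_mono_set fun Y hY => hAB Y hY
    _ = ∫⁻ z in B, ov Q z ∂((volume : Measure ℝ).map (fun Y => ((k : ℝ), Y))) :=
        (setLIntegral_map hB (measurable_ov Q) hf).symm
    _ ≤ ∫⁻ z in B, ov Q z ∂lam :=
        lintegral_mono' (Measure.restrict_mono subset_rfl (Fin.ver_le_lam k)) le_rfl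

/-- the number of squares in a window -/
theorem card_Rg {n : ℕ} {o : ℝ × ℝ} {ι : Type} [Countable ι] {I : Finset ι} {Q : ι → USq} {W : ℝ}
    (h : Cvr n o I Q W)
    (c : ℤ × ℤ) (J : Finset ι) (hJ : ∀ i ∈ J, (Q i).C ⊆ Rg c) : (J.card : ℝ) ≤ 121 + om Q c := by
  have h1 : (J.card : ℝ≥0∞) ≤ 121 + ENNReal.ofReal (om Q c) := by
    calc (J.card : ℝ≥0∞) = ∑ i ∈ J, volume (Q i).O := by
          rw [Finset.sum_congr rfl fun i _ => H282R4.PK.Fin.volume_O (Q i)]
          simp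
      _ = ∑ i ∈ J, ∫⁻ z in Rg c, (Q i).O.indicator (fun _ => (1 : ℝ≥0∞)) z := by
          apply Finset.sum_congr rfl
          intro i hi
          rw [lintegral_indicator (H282R3.SQ.isOpen_O _).measurableSet, Measure.restrict_restrict
            (H282R3.SQ.isOpen_O _).measurableSet,
            Set.inter_eq_left.2 ((H282R3.SQ.O_subset_C _).trans (hJ i hi)), setLIntegral_one]
      _ = ∫⁻ z in Rg c, ∑ i ∈ J, (Q i).O.indicator (fun _ => (1 : ℝ≥0∞)) z :=
          (lintegral_finsetSum _ fun i _ => Fin.measurable_ind (Q i)).symm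
      _ ≤ ∫⁻ z in Rg c, (1 + ov Q z) := by
          apply lintegral_mono
          intro z
          exact (Fin.sum_le_mult Q J z).trans le_add_tsub
      _ = volume (Rg c) + ∫⁻ z in Rg c, ov Q z := by
          rw [lintegral_add_left measurable_const, setLIntegral_one]
      _ ≤ 121 + ENNReal.ofReal (om Q c) := by
          rw [H282R4.PK.Fin.volume_Rg]
          gcongr
          exact area_le h (Rg c)
  have h2 := ENNReal.toReal_mono (by simp) h1
  have h3 : 0 ≤ om Q c := wst_nonneg Q (Rg c)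
  rw [ENNReal.toReal_add (by simp) (by simp), ENNReal.toReal_ofReal h3] at h2
  simpa using h2

/-- overlap of two squares -/
theorem overlap {n : ℕ} {o : ℝ × ℝ} {ι : Type} [Countable ι] {I : Finset ι} {Q : ι → USq} {W : ℝ}
    (h : Cvr n o I Q W)
    (c : ℤ × ℤ) (i j : ι) (hij : i ≠ j) (hi : (Q i).C ⊆ Rg c) :
    (volume ((Q i).C ∩ (Q j).C)).toReal ≤ om Q c := by
  have hm : MeasurableSet ((Q i).O ∩ (Q j).O) :=
    (H282R3.SQ.isOpen_O _).measurableSet.inter (H282R3.SQ.isOpen_O _).measurableSet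
  have h1 : volume ((Q i).C ∩ (Q j).C) ≤ ENNReal.ofReal (om Q c) := by
    calc volume ((Q i).C ∩ (Q j).C)
        ≤ volume ((Q i).O ∩ (Q j).O ∪ ((Q i).C \ (Q i).O ∪ (Q j).C \ (Q j).O)) := by
          apply measure_mono
          rintro z ⟨hz1, hz2⟩
          by_cases h1 : z ∈ (Q i).O
          · by_cases h2 : z ∈ (Q j).O
            · exact Or.inl ⟨h1, h2⟩
            · exact Or.inr (Or.inr ⟨hz2, h2⟩)
          · exact Or.inr (Or.inl ⟨hz1, h1⟩)
      _ ≤ volume ((Q i).O ∩ (Q j).O) + (volume ((Q i).C \ (Q i).O) + volume ((Q j).C \ (Q j).O)) :=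
          (measure_union_le _ _).trans (add_le_add le_rfl (measure_union_le _ _))
      _ = volume ((Q i).O ∩ (Q j).O) := by rw [Fin.null_CO, Fin.null_CO]; simp
      _ = ∫⁻ z in Rg c, ((Q i).O ∩ (Q j).O).indicator (fun _ => (1 : ℝ≥0∞)) z := by
          rw [lintegral_indicator hm, Measure.restrict_restrict hm,
            Set.inter_eq_left.2 ((Set.inter_subset_left.trans (H282R3.SQ.O_subset_C _)).trans hi),
            setLIntegral_one]
      _ ≤ ∫⁻ z in Rg c, ov Q z := by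
          apply lintegral_mono
          intro z
          by_cases hz : z ∈ (Q i).O ∩ (Q j).O
          · rw [Set.indicator_of_mem hz]
            have h2 : (2 : ℝ≥0∞) ≤ mult Q z := by
              classical
              have h3 := Fin.sum_le_mult Q {i, j} z
              rw [Finset.sum_pair hij, Set.indicator_of_mem hz.1, Set.indicator_of_mem hz.2] at h3
              refine le_trans (le_of_eq ?_) h3
              norm_num
            have h4 : (2 : ℝ≥0∞) - 1 ≤ mult Q z - 1 := tsub_le_tsub_right h2 1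
            refine le_trans (le_of_eq ?_) h4
            have : (2 : ℝ≥0∞) = 1 + 1 := by norm_num
            rw [this, ENNReal.add_sub_cancel_right ENNReal.one_ne_top]
          · rw [Set.indicator_of_notMem hz]
            exact zero_le
      _ ≤ ENNReal.ofReal (om Q c) := area_le h (Rg c)
  exact ENNReal.toReal_le_of_le_ofReal (wst_nonneg Q (Rg c)) h1

/-- almost every point lies in an open square -/
theorem one_le_mult {n : ℕ} {o : ℝ × ℝ} {ι : Type} [Countable ι] {I : Finset ι} {Q : ι → USq} {W : ℝ}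
    (h : Cvr n o I Q W) :
    ∀ᵐ z : ℝ × ℝ, 1 ≤ mult Q z := by
  have h1 : volume (⋃ i, (Q i).C \ (Q i).O) = 0 := measure_iUnion_null fun i => Fin.null_CO (Q i)
  rw [ae_iff]
  refine measure_mono_null ?_ h1
  intro z hz
  rw [Set.mem_ofPred_eq, not_le] at hz
  obtain ⟨i, hi⟩ := cov h z
  rw [Set.mem_iUnion]
  refine ⟨i, hi, fun hzO => ?_⟩
  have h2 := Fin.sum_le_mult Q {i} z
  rw [Finset.sum_singleton, Set.indicator_of_mem hzO] at h2
  exact absurd h2 (not_le.2 hz)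

end H282R5.PC
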