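import Pool.Agent.H282R5.PC.Defs
import Pool.Agent.H282R5.PC.Fin
import Pool.Agent.H282R5.PC.Geo
import Pool.Agent.H282R5.PC.Cluster
import Pool.Agent.H282R4.PK.Rig

/-! Rigidity: two squares in the same `7 × 7` block have the same tilt up to the local waste. -/

namespace H282R5.PC

open MeasureTheory
open scoped Real ENNReal
open H282R3.SQ (USq Inside)
open H282R4.PK (slope rho tr F FH cell Rg Kg C0 Bx U V)

namespace Rig

theorem rho_half (A B : USq) : rho A B ≤ 1 / 2 := by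
  unfold rho
  have hA := A.unit
  have hB := B.unit
  have h : (A.a * B.a + A.b * B.b) ^ 2 + (A.a * B.b - A.b * B.a) ^ 2 = 1 := by
    have : (A.a * B.a + A.b * B.b) ^ 2 + (A.a * B.b - A.b * B.a) ^ 2 =
      (A.a ^ 2 + A.b ^ 2) * (B.a ^ 2 + B.b ^ 2) := by ring
    rw [this]
    have hA' : A.a ^ 2 + A.b ^ 2 = 1 := by nlinarith
    have hB' : B.a ^ 2 + B.b ^ 2 = 1 := by nlinarith
    rw [hA', hB', one_mul]
  rw [abs_le]
  constructor <;> nlinarith [sq_nonneg (A.a * B.a + A.b * B.b + (A.a * B.b - A.b * B.a)),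
    sq_nonneg (A.a * B.a + A.b * B.b - (A.a * B.b - A.b * B.a))]

end Rig

/-- rigidity -/
theorem rig {n : ℕ} {o : ℝ × ℝ} {ι : Type} [Countable ι] {I : Finset ι} {Q : ι → USq} {W : ℝ}
    (h : Cvr n o I Q W)
    (c : ℤ × ℤ) (i j : ι) (hi : (Q i).C ⊆ Kg c) (hj : (Q j).C ⊆ Kg c) :
    rho (Q i) (Q j) ≤ C0 * om Q c := by
  classical
  by_cases hbig : 1 / 2 ≤ C0 * om Q c
  · exact (Rig.rho_half _ _).trans hbig
  have hω : 0 ≤ om Q c := wst_nonneg _ _
  have hωs : om Q c < 1 / (2 * 10 ^ 15) := by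
    have h1 : C0 * om Q c < 1 / 2 := not_le.1 hbig
    unfold C0 at h1
    rw [lt_div_iff₀ (by norm_num)]
    linarith
  have hfin : {i | (Q i).C ⊆ Rg c}.Finite := by
    refine (fin_meet h (Rg c) (H282R4.PK.Rig.isBounded_Rg c)).subset ?_
    intro i hi
    exact ⟨_, H282R4.PK.Rig.centre_mem (Q i), hi (H282R4.PK.Rig.centre_mem (Q i))⟩
  haveI : Fintype {i | (Q i).C ⊆ Rg c} := hfin.fintype
  have hcard : Fintype.card {i | (Q i).C ⊆ Rg c} ≤ 121 := by
    have h1 := card_Rg h c (hfin.toFinset) (by intro i hi; simpa using hi)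
    rw [hfin.card_toFinset] at h1
    have h2 : ((Fintype.card {i | (Q i).C ⊆ Rg c} : ℕ) : ℝ) < ((122 : ℕ) : ℝ) := by
      push_cast
      have : (1 : ℝ) / (2 * 10 ^ 15) < 1 := by norm_num
      linarith
    have h3 : Fintype.card {i | (Q i).C ⊆ Rg c} < 122 := by exact_mod_cast h2
    omega
  have key := cluster_rho (ι := {i | (Q i).C ⊆ Rg c}) 121 hcard
    (fun i => Q i.1) (Kg c) (H282R4.PK.Rig.convex_Kg c)
    (by
      intro x hx
      obtain ⟨k, hk⟩ := cov h x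
      refine ⟨⟨k, ?_⟩, hk⟩
      intro y hy
      obtain ⟨h1, h2⟩ := H282R4.PK.diam (Q k) x y hk hy
      obtain ⟨k1, k2, k3, k4⟩ := hx
      rw [abs_lt] at h1 h2
      refine ⟨?_, ?_, ?_, ?_⟩ <;> linarith [h1.1, h1.2, h2.1, h2.2])
    (4 * om Q c) (by linarith)
    (by
      have : (1 : ℝ) / (2 * 10 ^ 15) < 1 / 64 := by norm_num
      linarith)
    (by
      intro i j hij z1 z2 z3 h1 h2 h3
      have hne : (i : ι) ≠ j := fun h' => hij (Subtype.ext h')
      have hov := overlap h c i.1 j.1 hne i.2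
      have hconv : Convex ℝ ((Q i.1).C ∩ (Q j.1).C) :=
        (H282R3.SQ.convex_C _).inter (H282R3.SQ.convex_C _)
      have hvol : volume ((Q i.1).C ∩ (Q j.1).C) ≠ ⊤ := by
        refine ne_of_lt (lt_of_le_of_lt (measure_mono Set.inter_subset_left) ?_)
        rw [H282R3.SQ.volume_C]
        exact ENNReal.one_lt_top
      have := H282R3.SQ.tri_area _ hconv hvol z1 z2 z3 h1 h2 h3
      linarith)
    ⟨i, hi.trans (H282R4.PK.Rig.Kg_sub_Rg c)⟩ ⟨j, hj.trans (H282R4.PK.Rig.Kg_sub_Rg c)⟩ hi hj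
  refine key.trans ?_
  unfold C0
  have e : (128 : ℝ) * ((121 : ℕ) : ℝ) ^ 5 * (4 * om Q c) = (128 * 121 ^ 5 * 4) * om Q c := by
    push_cast; ring
  rw [e]
  exact mul_le_mul_of_nonneg_right (by norm_num) hω

end H282R5.PC
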