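import Pool.Agent.H282R5.PC.Defs
import Pool.Agent.H282R5.PC.Slopes

/-! Slopes of the cells of one column and of one row. -/

namespace H282R5.PC

open MeasureTheory
open scoped Real ENNReal
open H282R3.SQ (USq Inside)
open H282R4.PK (slope rho tr F FH cell Rg Kg C0 Bx U V)

namespace ColRow

private theorem C0_pos : (0 : ℝ) < C0 := by unfold C0; positivity

private theorem om_nonneg {ι : Type} (Q : ι → USq) (c : ℤ × ℤ) : 0 ≤ om Q c :=
  ENNReal.toReal_nonneg

private theorem sum_succ (f : ℤ → ℝ) (a k : ℤ) (h : a ≤ k) :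
    ∑ j ∈ Finset.Icc a (k + 1), f j = ∑ j ∈ Finset.Icc a k, f j + f (k + 1) := by
  have e : Finset.Icc a (k + 1) = insert (k + 1) (Finset.Icc a k) := by
    ext j
    rw [Finset.mem_insert, Finset.mem_Icc, Finset.mem_Icc]
    omega
  rw [e, Finset.sum_insert, add_comm]
  rw [Finset.mem_Icc]
  omega

private theorem col_aux {n : ℕ} {o : ℝ × ℝ} {ι : Type} [Countable ι] {I : Finset ι} {Q : ι → USq}
    {W : ℝ} (h : Cvr n o I Q W) (m k : ℤ) (hk : -1 ≤ k) :
    gam Q (m, k) ≤ 4 * C0 * om Q (m, -1) + 8 * C0 * ∑ j ∈ Finset.Icc (-1) k, om Q (m, j) -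
      4 * C0 * om Q (m, k) := by
  have hC := C0_pos
  induction k, hk using Int.leInduction with
  | base =>
    have hw := (wall h (m, -1) ((m : ℝ), -1 / 2) (by
      intro hb
      have h2 := hb.2.2.1
      have h3 := h.o2
      simp only at h2
      linarith) (by simp only; linarith) (by simp only; linarith) (by norm_num)
      (by norm_num)).1
    rw [Finset.Icc_self, Finset.sum_singleton]
    have h1 : 0 ≤ C0 * om Q (m, -1) := mul_nonneg hC.le (om_nonneg Q _)
    linarith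
  | succ k hk ih =>
    rw [sum_succ (fun j => om Q (m, j)) (-1) k hk]
    have h1 := gam_close h (m, k + 1) (m, k) (by simp) (by simp)
    have h2 := le_abs_self (gam Q (m, k + 1) - gam Q (m, k))
    have h3 : 4 * C0 * (om Q (m, k + 1) + om Q (m, k)) =
      4 * C0 * om Q (m, k + 1) + 4 * C0 * om Q (m, k) := by ring
    have h4 : 8 * C0 * (∑ j ∈ Finset.Icc (-1) k, om Q (m, j) + om Q (m, k + 1)) =
      8 * C0 * ∑ j ∈ Finset.Icc (-1) k, om Q (m, j) + 8 * C0 * om Q (m, k + 1) := by ring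
    rw [h4]
    linarith

private theorem row_aux {n : ℕ} {o : ℝ × ℝ} {ι : Type} [Countable ι] {I : Finset ι} {Q : ι → USq}
    {W : ℝ} (h : Cvr n o I Q W) (m m' k : ℤ) (hm : m ≤ m') :
    |gam Q (m, k) - gam Q (m', k)| ≤ 8 * C0 * ∑ j ∈ Finset.Icc m m', om Q (j, k) -
      4 * C0 * om Q (m', k) := by
  have hC := C0_pos
  induction m', hm using Int.leInduction with
  | base =>
    rw [Finset.Icc_self, Finset.sum_singleton, sub_self, abs_zero]
    have h1 : 0 ≤ C0 * om Q (m, k) := mul_nonneg hC.le (om_nonneg Q _)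
    linarith
  | succ m' hm ih =>
    rw [sum_succ (fun j => om Q (j, k)) m m' hm]
    have h1 := gam_close h (m', k) (m' + 1, k) (by simp) (by simp)
    have h2 := abs_sub_le (gam Q (m, k)) (gam Q (m', k)) (gam Q (m' + 1, k))
    have h3 : 4 * C0 * (om Q (m', k) + om Q (m' + 1, k)) =
      4 * C0 * om Q (m', k) + 4 * C0 * om Q (m' + 1, k) := by ring
    have h4 : 8 * C0 * (∑ j ∈ Finset.Icc m m', om Q (j, k) + om Q (m' + 1, k)) =
      8 * C0 * ∑ j ∈ Finset.Icc m m', om Q (j, k) + 8 * C0 * om Q (m' + 1, k) := by ring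
    rw [h4]
    linarith

end ColRow

open ColRow

theorem col_gam {n : ℕ} {o : ℝ × ℝ} {ι : Type} [Countable ι] {I : Finset ι} {Q : ι → USq} {W : ℝ}
    (h : Cvr n o I Q W)
    (m k : ℤ) (hk : -1 ≤ k) (hk2 : k ≤ n + 6) : gam Q (m, k) ≤ 12 * C0 * cw n Q m := by
  have hC := C0_pos
  have h1 := col_aux h m k hk
  have h2 : ∑ j ∈ Finset.Icc (-1) k, om Q (m, j) ≤ cw n Q m := by
    unfold cw
    refine Finset.sum_le_sum_of_subset_of_nonneg ?_ fun j _ _ => om_nonneg Q _
    exact Finset.Icc_subset_Icc le_rfl hk2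
  have h3 : om Q (m, -1) ≤ cw n Q m := by
    unfold cw
    refine Finset.single_le_sum (f := fun j => om Q (m, j)) (fun j _ => om_nonneg Q _) ?_
    rw [Finset.mem_Icc]
    omega
  have h4 : C0 * om Q (m, -1) ≤ C0 * cw n Q m := mul_le_mul_of_nonneg_left h3 hC.le
  have h5 : C0 * ∑ j ∈ Finset.Icc (-1) k, om Q (m, j) ≤ C0 * cw n Q m :=
    mul_le_mul_of_nonneg_left h2 hC.le
  have h6 : 0 ≤ C0 * om Q (m, k) := mul_nonneg hC.le (om_nonneg Q _)
  linarith

theorem row_gam {n : ℕ} {o : ℝ × ℝ} {ι : Type} [Countable ι] {I : Finset ι} {Q : ι → USq} {W : ℝ}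
    (h : Cvr n o I Q W)
    (m m' k : ℤ) : |gam Q (m, k) - gam Q (m', k)| ≤ 8 * C0 * ∑ j ∈ Finset.uIcc m m', om Q (j, k) := by
  have hC := C0_pos
  rcases le_total m m' with hm | hm
  · rw [Finset.uIcc_of_le hm]
    have h1 := row_aux h m m' k hm
    have h6 : 0 ≤ C0 * om Q (m', k) := mul_nonneg hC.le (om_nonneg Q _)
    linarith
  · rw [Finset.uIcc_of_ge hm, abs_sub_comm]
    have h1 := row_aux h m' m k hm
    have h6 : 0 ≤ C0 * om Q (m, k) := mul_nonneg hC.le (om_nonneg Q _)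
    linarith

end H282R5.PC
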