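import Pool.Agent.H282R5.PC.Defs
import Pool.Agent.H282R5.PC.ColRow

/-!
Discrete Sobolev inequality: the energy of the slopes above `2 t` near a good column.
-/

namespace H282R5.PC

open MeasureTheory
open scoped Real ENNReal
open H282R3.SQ (USq Inside)
open H282R4.PK (slope rho tr F FH cell Rg Kg C0 Bx U V)

private theorem om_nonneg' {ι : Type} (Q : ι → USq) (c : ℤ × ℤ) : 0 ≤ om Q c :=
  ENNReal.toReal_nonneg

private theorem gam_nonneg' {ι : Type} (Q : ι → USq) (c : ℤ × ℤ) : 0 ≤ gam Q c := by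
  unfold gam
  split_ifs
  · exact abs_nonneg _
  · norm_num

open Classical in
/-- discrete Sobolev inequality: the energy of the slopes above `2 t` near a good column -/
theorem high_energy {n : ℕ} {o : ℝ × ℝ} {ι : Type} [Countable ι] {I : Finset ι} {Q : ι → USq} {W : ℝ}
    (h : Cvr n o I Q W)
    (j1 j2 u : ℤ) (hu : u ∈ Finset.Icc j1 j2) (t : ℝ) (ht : 12 * C0 * cw n Q u ≤ t) :
    ∑ m ∈ Finset.Icc j1 j2, ∑ k ∈ Finset.Icc (-1 : ℤ) (n + 6),
        (if 2 * t < gam Q (m, k) then gam Q (m, k) ^ 2 else 0) ≤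
      200 * C0 ^ 2 * (∑ m ∈ Finset.Icc j1 j2, cw n Q m) ^ 2 := by
  have hC0 : 0 < C0 := by unfold C0; norm_num
  set a : ℤ → ℝ := fun k => 8 * C0 * ∑ j ∈ Finset.Icc j1 j2, om Q (j, k) with ha
  have ha0 : ∀ k, 0 ≤ a k := fun k =>
    mul_nonneg (by positivity) (Finset.sum_nonneg fun j _ => om_nonneg' Q _)
  have hcw0 : ∀ m, 0 ≤ cw n Q m := fun m => Finset.sum_nonneg fun k _ => om_nonneg' Q _
  have hterm : ∀ m ∈ Finset.Icc j1 j2, ∀ k ∈ Finset.Icc (-1 : ℤ) (n + 6),
      (if 2 * t < gam Q (m, k) then gam Q (m, k) ^ 2 else 0) ≤ 2 * a k * (12 * C0 * cw n Q m) := by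
    intro m hm k hk
    rw [Finset.mem_Icc] at hk
    split_ifs with hg
    · have h1 := col_gam h m k hk.1 hk.2
      have h2 := (col_gam h u k hk.1 hk.2).trans ht
      have h3 := row_gam h m u k
      have h4 : 8 * C0 * ∑ j ∈ Finset.uIcc m u, om Q (j, k) ≤ a k := by
        refine mul_le_mul_of_nonneg_left ?_ (by positivity)
        refine Finset.sum_le_sum_of_subset_of_nonneg ?_ fun j _ _ => om_nonneg' Q _
        intro j hj
        rw [Finset.mem_uIcc] at hj
        rw [Finset.mem_Icc] at hm hu ⊢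
        omega
      have h5 := (abs_le.1 (h3.trans h4)).2
      have h0 := gam_nonneg' Q (m, k)
      have h6 : gam Q (m, k) ≤ 2 * a k := by linarith
      calc gam Q (m, k) ^ 2 = gam Q (m, k) * gam Q (m, k) := by ring
        _ ≤ 2 * a k * (12 * C0 * cw n Q m) := mul_le_mul h6 h1 h0 (by have := ha0 k; positivity)
    · have := ha0 k
      have := hcw0 m
      positivity
  calc ∑ m ∈ Finset.Icc j1 j2, ∑ k ∈ Finset.Icc (-1 : ℤ) (n + 6),
        (if 2 * t < gam Q (m, k) then gam Q (m, k) ^ 2 else 0)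
      ≤ ∑ m ∈ Finset.Icc j1 j2, ∑ k ∈ Finset.Icc (-1 : ℤ) (n + 6),
          2 * a k * (12 * C0 * cw n Q m) :=
        Finset.sum_le_sum fun m hm => Finset.sum_le_sum fun k hk => hterm m hm k hk
    _ = 24 * C0 * (∑ k ∈ Finset.Icc (-1 : ℤ) (n + 6), a k) * ∑ m ∈ Finset.Icc j1 j2, cw n Q m := by
        rw [Finset.mul_sum]
        refine Finset.sum_congr rfl fun m _ => ?_
        rw [Finset.mul_sum, Finset.sum_mul]
        refine Finset.sum_congr rfl fun k _ => ?_
        ring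
    _ = 192 * C0 ^ 2 * (∑ m ∈ Finset.Icc j1 j2, cw n Q m) ^ 2 := by
        have : ∑ k ∈ Finset.Icc (-1 : ℤ) (n + 6), a k = 8 * C0 * ∑ m ∈ Finset.Icc j1 j2, cw n Q m := by
          simp only [ha, cw]
          rw [← Finset.mul_sum, Finset.sum_comm]
        rw [this]
        ring
    _ ≤ 200 * C0 ^ 2 * (∑ m ∈ Finset.Icc j1 j2, cw n Q m) ^ 2 := by
        have : 0 ≤ C0 ^ 2 * (∑ m ∈ Finset.Icc j1 j2, cw n Q m) ^ 2 := by positivity
        nlinarith

end H282R5.PC
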