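import Pool.Agent.H282R5.PC.Defs
import Pool.Agent.H282R5.PC.Slopes
import Pool.Agent.H282R5.PC.Fin

/-!
SqCell: sums over squares are bounded by sums over cells.
-/

namespace H282R5.PC

open MeasureTheory
open scoped Real ENNReal
open H282R3.SQ (USq Inside)
open H282R4.PK (slope rho tr F FH cell Rg Kg C0 Bx U V)

namespace SqCell

theorem sub_Kg (Q : USq) : Q.C ⊆ Kg (cc Q) := by
  rintro ⟨x, y⟩ ⟨h1, h2⟩
  have hu := Q.unit
  unfold USq.X at h1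
  unfold USq.Y at h2
  simp only at h1 h2
  rw [abs_le] at h1 h2
  have hd : (x - Q.p) ^ 2 + (y - Q.q) ^ 2 ≤ 1 / 2 := by
    have e : (x - Q.p) ^ 2 + (y - Q.q) ^ 2 = (Q.a * (x - Q.p) + Q.b * (y - Q.q)) ^ 2 +
        (-Q.b * (x - Q.p) + Q.a * (y - Q.q)) ^ 2 := by
      have : (Q.a * (x - Q.p) + Q.b * (y - Q.q)) ^ 2 +
        (-Q.b * (x - Q.p) + Q.a * (y - Q.q)) ^ 2 =
          (Q.a ^ 2 + Q.b ^ 2) * ((x - Q.p) ^ 2 + (y - Q.q) ^ 2) := by ring
      rw [this, hu, one_mul]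
    rw [e]
    nlinarith
  have hx : (x - Q.p) ^ 2 ≤ 1 := by nlinarith [sq_nonneg (y - Q.q)]
  have hy : (y - Q.q) ^ 2 ≤ 1 := by nlinarith [sq_nonneg (x - Q.p)]
  have hx' := abs_le.1 (abs_le_one_iff_mul_self_le_one.2 (by nlinarith : (x - Q.p) * (x - Q.p) ≤ 1))
  have hy' := abs_le.1 (abs_le_one_iff_mul_self_le_one.2 (by nlinarith : (y - Q.q) * (y - Q.q) ≤ 1))
  have f1 := Int.floor_le Q.p
  have f2 := Int.lt_floor_add_one Q.p
  have f3 := Int.floor_le Q.q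
  have f4 := Int.lt_floor_add_one Q.q
  refine ⟨?_, ?_, ?_, ?_⟩
  · show ((⌊Q.p⌋ : ℤ) : ℝ) - 3 ≤ x
    linarith [hx'.1]
  · show x ≤ ((⌊Q.p⌋ : ℤ) : ℝ) + 4
    linarith [hx'.2]
  · show ((⌊Q.q⌋ : ℤ) : ℝ) - 3 ≤ y
    linarith [hy'.1]
  · show y ≤ ((⌊Q.q⌋ : ℤ) : ℝ) + 4
    linarith [hy'.2]

theorem Kg_sub_Rg (c : ℤ × ℤ) : Kg c ⊆ Rg c := by
  rintro z ⟨h1, h2, h3, h4⟩
  exact ⟨by linarith, by linarith, by linarith, by linarith⟩

theorem basic (Q : USq) (hn : |Q.b| ≤ Q.a) : 0 < Q.a ∧ Q.a ≤ 1 ∧ |Q.b| ≤ |slope Q| ∧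
    Q.g ≤ |Q.b| ∧ Q.g ≤ 1 / 2 ∧ |Q.b| ≤ 1 ∧ 0 ≤ Q.g := by
  have hu := Q.unit
  have h0 : 0 ≤ Q.a := (abs_nonneg _).trans hn
  have hb2 : Q.b ^ 2 = |Q.b| ^ 2 := (sq_abs _).symm
  have ha : 0 < Q.a := by
    rcases h0.eq_or_lt with h | h
    · exfalso
      rw [← h] at hn hu
      have : |Q.b| = 0 := le_antisymm hn (abs_nonneg _)
      rw [hb2, this] at hu
      norm_num at hu
    · exact h
  have ha1 : Q.a ≤ 1 := by nlinarith [sq_nonneg Q.b]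
  have hb1 : |Q.b| ≤ 1 := hn.trans ha1
  have hg : Q.g = Q.a * |Q.b| := by
    unfold USq.g
    rw [abs_mul, abs_of_pos ha]
  refine ⟨ha, ha1, ?_, ?_, ?_, hb1, ?_⟩
  · unfold H282R4.PK.slope
    rw [abs_div, abs_of_pos ha, le_div_iff₀ ha]
    nlinarith [abs_nonneg Q.b]
  · rw [hg]
    nlinarith [abs_nonneg Q.b]
  · rw [hg]
    rw [hb2] at hu
    nlinarith [sq_nonneg (Q.a - |Q.b|)]
  · rw [hg]; exact mul_nonneg ha.le (abs_nonneg _)

theorem om_nonneg {ι : Type} (Q : ι → USq) (c : ℤ × ℤ) : 0 ≤ om Q c := ENNReal.toReal_nonneg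

theorem gam_nonneg {ι : Type} (Q : ι → USq) (c : ℤ × ℤ) : 0 ≤ gam Q c := by
  unfold gam
  split_ifs
  · exact abs_nonneg _
  · norm_num

theorem C0_pos : (1 : ℝ) ≤ C0 := by
  unfold C0
  norm_num

theorem b_le {n : ℕ} {o : ℝ × ℝ} {ι : Type} [Countable ι] {I : Finset ι} {Q : ι → USq} {W : ℝ}
    (h : Cvr n o I Q W) (i : ι) : |(Q i).b| ≤ 4 * gam Q (cc (Q i)) + 2 * C0 * om Q (cc (Q i)) := by
  obtain ⟨h1, h2, h3, h4, h5, h6, h7⟩ := basic (Q i) (h.norm i)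
  have hom := om_nonneg Q (cc (Q i))
  have hC := C0_pos
  have hprod : 0 ≤ C0 * om Q (cc (Q i)) := mul_nonneg (by linarith) hom
  by_cases hc : nice Q (cc (Q i))
  · have hs := slope_close h (cc (Q i)) hc i (sub_Kg (Q i))
    have hg : gam Q (cc (Q i)) = |bet Q (cc (Q i))| := if_pos hc
    have h8 : |slope (Q i)| ≤ |bet Q (cc (Q i))| + 2 * C0 * om Q (cc (Q i)) := by
      have := abs_sub_abs_le_abs_sub (slope (Q i)) (bet Q (cc (Q i)))
      linarith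
    have h9 := abs_nonneg (bet Q (cc (Q i)))
    rw [hg]
    linarith
  · have hg : gam Q (cc (Q i)) = 1 / 4 := if_neg hc
    rw [hg]
    linarith

theorem g_le {n : ℕ} {o : ℝ × ℝ} {ι : Type} [Countable ι] {I : Finset ι} {Q : ι → USq} {W : ℝ}
    (h : Cvr n o I Q W) (i : ι) :
    (Q i).g ^ 2 ≤ 4 * gam Q (cc (Q i)) ^ 2 + C0 * om Q (cc (Q i)) := by
  obtain ⟨h1, h2, h3, h4, h5, h6, h7⟩ := basic (Q i) (h.norm i)
  have hom := om_nonneg Q (cc (Q i))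
  have hC := C0_pos
  have hprod : 0 ≤ C0 * om Q (cc (Q i)) := mul_nonneg (by linarith) hom
  by_cases hc : nice Q (cc (Q i))
  · have hs := slope_close h (cc (Q i)) hc i (sub_Kg (Q i))
    have hg : gam Q (cc (Q i)) = |bet Q (cc (Q i))| := if_pos hc
    have h8 : |slope (Q i)| ≤ |bet Q (cc (Q i))| + 2 * C0 * om Q (cc (Q i)) := by
      have := abs_sub_abs_le_abs_sub (slope (Q i)) (bet Q (cc (Q i)))
      linarith
    have h9 := abs_nonneg (bet Q (cc (Q i)))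
    have h10 : (Q i).g ≤ |bet Q (cc (Q i))| + 2 * C0 * om Q (cc (Q i)) := by linarith
    have h11 : C0 * om Q (cc (Q i)) ≤ 1 / 16 := by
      have := hc.1
      rw [le_div_iff₀ (by linarith)] at this
      linarith
    rw [hg]
    have h12 : (Q i).g ^ 2 ≤ (|bet Q (cc (Q i))| + 2 * (C0 * om Q (cc (Q i)))) ^ 2 :=
      pow_le_pow_left₀ h7 (by linarith) 2
    set x := |bet Q (cc (Q i))|
    set y := C0 * om Q (cc (Q i))
    nlinarith [sq_nonneg (x - 2 * y)]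
  · have hg : gam Q (cc (Q i)) = 1 / 4 := if_neg hc
    rw [hg]
    nlinarith

/-- the general sum -/
theorem sum_gen {n : ℕ} {o : ℝ × ℝ} {ι : Type} [Countable ι] {I : Finset ι} {Q : ι → USq} {W : ℝ}
    (h : Cvr n o I Q W)
    (Z : Finset (ℤ × ℤ)) (T : Finset ι) (hT : ∀ i ∈ T, cc (Q i) ∈ Z) (f : ι → ℝ)
    (K : ℝ) (M' : ℤ × ℤ → ℝ) (hf : ∀ i, f i ≤ M' (cc (Q i)))
    (hf1 : ∀ i, f i ≤ K) (hK : 0 ≤ K) (hM0 : ∀ c, 0 ≤ M' c) (R : ℤ × ℤ → ℝ)
    (hR : ∀ c, 122 * M' c ≤ R c) (hR2 : ∀ c, 122 * K * om Q c ≤ R c) :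
    ∑ i ∈ T, f i ≤ ∑ c ∈ Z, R c := by
  classical
  rw [← Finset.sum_fiberwise_of_maps_to hT]
  refine Finset.sum_le_sum fun c _ => ?_
  have hcard := card_Rg h c (T.filter fun i => cc (Q i) = c) (fun i hi => by
    have := (Finset.mem_filter.1 hi).2
    rw [← this]
    exact (sub_Kg (Q i)).trans (Kg_sub_Rg _))
  have hom := om_nonneg Q c
  rcases le_or_gt (om Q c) 1 with h1 | h1
  · have h2 : ∑ i ∈ T.filter (fun i => cc (Q i) = c), f i ≤
        ((T.filter fun i => cc (Q i) = c).card : ℝ) * M' c := by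
      rw [← nsmul_eq_mul]
      refine Finset.sum_le_card_nsmul _ _ _ fun i hi => ?_
      have := (Finset.mem_filter.1 hi).2
      rw [← this]
      exact hf i
    have h3 := hM0 c
    have h4 := hR c
    nlinarith
  · have h2 : ∑ i ∈ T.filter (fun i => cc (Q i) = c), f i ≤
        ((T.filter fun i => cc (Q i) = c).card : ℝ) * K := by
      rw [← nsmul_eq_mul]
      exact Finset.sum_le_card_nsmul _ _ _ fun i hi => hf1 i
    have h4 := hR2 c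
    have h5 : ((T.filter fun i => cc (Q i) = c).card : ℝ) ≤ 122 * om Q c := by linarith
    have h6 := mul_le_mul_of_nonneg_right h5 hK
    linarith

end SqCell

theorem sum_g {n : ℕ} {o : ℝ × ℝ} {ι : Type} [Countable ι] {I : Finset ι} {Q : ι → USq} {W : ℝ}
    (h : Cvr n o I Q W)
    (Z : Finset (ℤ × ℤ)) (T : Finset ι) (hT : ∀ i ∈ T, cc (Q i) ∈ Z) :
    ∑ i ∈ T, (Q i).g ^ 2 ≤ 500 * ∑ c ∈ Z, (gam Q c ^ 2 + C0 * om Q c) := by
  rw [Finset.mul_sum]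
  have hC := SqCell.C0_pos
  refine SqCell.sum_gen h Z T hT (fun i => (Q i).g ^ 2) (1 / 4)
    (fun c => 4 * gam Q c ^ 2 + C0 * om Q c) (fun i => SqCell.g_le h i) (fun i => ?_)
    (by norm_num) (fun c => ?_) _ (fun c => ?_) (fun c => ?_)
  · obtain ⟨h1, h2, h3, h4, h5, h6, h7⟩ := SqCell.basic (Q i) (h.norm i)
    nlinarith
  · have := SqCell.om_nonneg Q c
    positivity
  · have h1 := mul_nonneg (by linarith : (0 : ℝ) ≤ C0) (SqCell.om_nonneg Q c)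
    have h2 := sq_nonneg (gam Q c)
    linarith
  · have h0 := SqCell.om_nonneg Q c
    have h1 := mul_le_mul_of_nonneg_right hC h0
    have h2 := sq_nonneg (gam Q c)
    linarith

theorem sum_b {n : ℕ} {o : ℝ × ℝ} {ι : Type} [Countable ι] {I : Finset ι} {Q : ι → USq} {W : ℝ}
    (h : Cvr n o I Q W)
    (Z : Finset (ℤ × ℤ)) (T : Finset ι) (hT : ∀ i ∈ T, cc (Q i) ∈ Z) :
    ∑ i ∈ T, |(Q i).b| ≤ 2000 * ∑ c ∈ Z, (gam Q c + C0 * om Q c) := by
  rw [Finset.mul_sum]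
  have hC := SqCell.C0_pos
  refine SqCell.sum_gen h Z T hT (fun i => |(Q i).b|) 1
    (fun c => 4 * gam Q c + 2 * C0 * om Q c) (fun i => SqCell.b_le h i) (fun i => ?_)
    (by norm_num) (fun c => ?_) _ (fun c => ?_) (fun c => ?_)
  · obtain ⟨h1, h2, h3, h4, h5, h6, h7⟩ := SqCell.basic (Q i) (h.norm i)
    exact h6
  · have := SqCell.om_nonneg Q c
    have := SqCell.gam_nonneg Q c
    positivity
  · have h1 := mul_nonneg (by linarith : (0 : ℝ) ≤ C0) (SqCell.om_nonneg Q c)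
    have h2 := SqCell.gam_nonneg Q c
    linarith
  · have h0 := SqCell.om_nonneg Q c
    have h1 := mul_le_mul_of_nonneg_right hC h0
    have h2 := SqCell.gam_nonneg Q c
    linarith

end H282R5.PC
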