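import Pool.Agent.H282R5.PC.Defs
import Pool.Agent.H282R5.PC.Geo
import Pool.Agent.H282R5.PC.Fin
import Pool.Agent.H282R5.PC.ChordPart
import Pool.Agent.H282R4.PK.Fin
import Pool.Agent.H282R3.SQ.Chord
import Pool.Agent.H282R3.SQ.Area
import Pool.Agent.H282R3.SQ.Contact

/-! Module Window (helper831): lengths and areas in a vertical strip. -/

namespace H282R5.PC

open MeasureTheory
open scoped Real ENNReal
open H282R3.SQ (USq Inside)
open H282R4.PK (slope rho tr F FH cell Rg Kg C0 Bx U V)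

namespace Window

theorem null_bd (Q : USq) : volume (Q.C \ Q.O) = 0 := by
  rw [measure_sdiff (H282R3.SQ.O_subset_C Q) (H282R3.SQ.isOpen_O Q).measurableSet.nullMeasurableSet
    (by rw [H282R4.PK.Fin.volume_O]; exact ENNReal.one_ne_top), H282R4.PK.Fin.volume_O,
    H282R3.SQ.volume_C, tsub_self]

/-- a chord in a strip has finite length -/
theorem fin_chord (Q : USq) (u1 u2 y : ℝ) :
    volume {x : ℝ | x ∈ Set.Icc u1 u2 ∧ (x, y) ∈ Q.O} ≠ ⊤ := by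
  refine ne_top_of_le_ne_top ?_ (measure_mono (t := Set.Icc u1 u2) fun x hx => hx.1)
  rw [Real.volume_Icc]
  exact ENNReal.ofReal_ne_top

/-- one line -/
theorem one_line {n : ℕ} {o : ℝ × ℝ} {ι : Type} [Countable ι] {I : Finset ι} {Q : ι → USq} {W : ℝ}
    (h : Cvr n o I Q W) (u1 u2 : ℝ) (h1 : o.1 ≤ u1) (h12 : u1 ≤ u2) (h2 : u2 ≤ o.1 + n) (j : ℕ)
    (hj : j ≤ n) :
    u2 - u1 ≤ ∑ i ∈ I,
      (volume {x : ℝ | x ∈ Set.Icc u1 u2 ∧ (x, o.2 + (j : ℝ)) ∈ (Q i).O}).toReal := by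
  have hsub : Set.Icc u1 u2 ⊆
      ⋃ i ∈ I, {x : ℝ | x ∈ Set.Icc u1 u2 ∧ (x, o.2 + (j : ℝ)) ∈ (Q i).O} := by
    intro x hx
    have hjn : (j : ℝ) ≤ n := by exact_mod_cast hj
    have hj0 : (0 : ℝ) ≤ j := Nat.cast_nonneg j
    obtain ⟨i, hi, hz⟩ := h.inner_cov (x, o.2 + (j : ℝ))
      ⟨h1.trans hx.1, hx.2.trans h2, by simp only; linarith, by simp only; linarith⟩
    exact Set.mem_iUnion₂.2 ⟨i, hi, hx, hz⟩
  have hle : volume (Set.Icc u1 u2) ≤
      ∑ i ∈ I, volume {x : ℝ | x ∈ Set.Icc u1 u2 ∧ (x, o.2 + (j : ℝ)) ∈ (Q i).O} :=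
    (measure_mono hsub).trans (measure_biUnion_finset_le _ _)
  rw [← ENNReal.toReal_sum fun i _ => fin_chord (Q i) u1 u2 _]
  have h3 : (volume (Set.Icc u1 u2)).toReal = u2 - u1 := by
    rw [Real.volume_Icc, ENNReal.toReal_ofReal (by linarith)]
  rw [← h3]
  refine ENNReal.toReal_mono ?_ hle
  exact ENNReal.sum_ne_top.2 fun i _ => fin_chord (Q i) u1 u2 _

/-- a square meeting the strip but not its boundary lines is inside the strip -/
theorem inside (Q : USq) (u1 u2 : ℝ)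
    (hS : (Q.C ∩ {z | z.1 ∈ Set.Icc u1 u2}).Nonempty)
    (h1 : ¬ (Q.C ∩ {z | z.1 = u1}).Nonempty) (h2 : ¬ (Q.C ∩ {z | z.1 = u2}).Nonempty) :
    Q.C ⊆ {z | z.1 ∈ Set.Icc u1 u2} := by
  obtain ⟨w, hw, hw1, hw2⟩ := hS
  have key : ∀ z ∈ Q.C, ∀ u : ℝ, (z.1 < u ∧ u ≤ w.1 ∨ w.1 ≤ u ∧ u < z.1) →
      (Q.C ∩ {z | z.1 = u}).Nonempty := by
    intro z hz u hu
    have hne : w.1 - z.1 ≠ 0 := by
      rcases hu with ⟨a, b⟩ | ⟨a, b⟩
      · linarith
      · intro h0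
        linarith
    have ht0 : 0 ≤ (u - z.1) / (w.1 - z.1) := by
      rcases hu with ⟨a, b⟩ | ⟨a, b⟩
      · exact div_nonneg (by linarith) (by linarith)
      · exact div_nonneg_of_nonpos (by linarith) (by linarith)
    have ht1 : (u - z.1) / (w.1 - z.1) ≤ 1 := by
      rcases hu with ⟨a, b⟩ | ⟨a, b⟩
      · rw [div_le_one (by linarith)]
        linarith
      · rw [div_le_one_of_neg (by linarith)]
        linarith
    refine ⟨(1 - (u - z.1) / (w.1 - z.1)) • z + ((u - z.1) / (w.1 - z.1)) • w,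
      H282R3.SQ.convex_C Q hz hw (by linarith) ht0 (by ring), ?_⟩
    show _ = u
    simp only [Prod.fst_add, Prod.smul_fst, smul_eq_mul]
    field_simp
    ring
  intro z hz
  refine ⟨?_, ?_⟩
  · by_contra hlt
    exact h1 (key z hz u1 (Or.inl ⟨not_le.1 hlt, hw1⟩))
  · by_contra hlt
    exact h2 (key z hz u2 (Or.inr ⟨hw2, not_le.1 hlt⟩))

open Classical in
/-- all lines, one square -/
theorem one_square (Q : USq) (hb : |Q.b| ≤ Q.a) (y0 : ℝ) (m : ℕ) (u1 u2 : ℝ) (hu : u1 ≤ u2) :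
    ∑ j ∈ Finset.range (m + 1),
        (volume {x : ℝ | x ∈ Set.Icc u1 u2 ∧ (x, y0 + (j : ℝ)) ∈ Q.O}).toReal ≤
      (volume (Q.C ∩ {z | z.1 ∈ Set.Icc u1 u2})).toReal +
        (if (Q.C ∩ {z | z.1 ∈ Set.Icc u1 u2}).Nonempty then 2 * Q.g ^ 2 else 0) +
        (if (Q.C ∩ {z | z.1 = u1}).Nonempty then 6 * |Q.b| else 0) +
        (if (Q.C ∩ {z | z.1 = u2}).Nonempty then 6 * |Q.b| else 0) := by
  have hg : 0 ≤ 2 * Q.g ^ 2 := by positivity
  have hB : 0 ≤ 6 * |Q.b| := by positivity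
  have i1 : 0 ≤ (if (Q.C ∩ {z | z.1 ∈ Set.Icc u1 u2}).Nonempty then 2 * Q.g ^ 2 else 0) := by
    split_ifs <;> linarith
  have i2 : 0 ≤ (if (Q.C ∩ {z | z.1 = u1}).Nonempty then 6 * |Q.b| else 0) := by
    split_ifs <;> linarith
  have i3 : 0 ≤ (if (Q.C ∩ {z | z.1 = u2}).Nonempty then 6 * |Q.b| else 0) := by
    split_ifs <;> linarith
  by_cases c1 : (Q.C ∩ {z | z.1 = u1}).Nonempty
  · have := chord_part Q hb y0 m u1 u2 hu
    rw [if_pos c1]
    linarith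
  by_cases c2 : (Q.C ∩ {z | z.1 = u2}).Nonempty
  · have := chord_part Q hb y0 m u1 u2 hu
    rw [if_pos c2]
    linarith
  by_cases c3 : (Q.C ∩ {z | z.1 ∈ Set.Icc u1 u2}).Nonempty
  · rw [if_pos c3, if_neg c1, if_neg c2, add_zero, add_zero]
    have hin := inside Q u1 u2 c3 c1 c2
    rw [Set.inter_eq_left.2 hin, H282R3.SQ.volume_C, ENNReal.toReal_one]
    refine le_trans (Finset.sum_le_sum fun j _ => ?_)
      (H282R3.SQ.chord_sum (⟨Q.p, Q.q - y0, Q.a, Q.b, Q.unit⟩ : USq) m)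
    have hset : {x : ℝ | (x, (j : ℝ)) ∈ (⟨Q.p, Q.q - y0, Q.a, Q.b, Q.unit⟩ : USq).O} =
        {x : ℝ | (x, y0 + (j : ℝ)) ∈ Q.O} := by
      ext x
      simp only [USq.O, USq.X, USq.Y, Set.mem_ofPred_eq]
      have e : (j : ℝ) - (Q.q - y0) = y0 + j - Q.q := by ring
      rw [e]
    rw [hset]
    have hset2 : {x : ℝ | x ∈ Set.Icc u1 u2 ∧ (x, y0 + (j : ℝ)) ∈ Q.O} =
        {x : ℝ | (x, y0 + (j : ℝ)) ∈ Q.O} := by
      ext x
      simp only [Set.mem_ofPred_eq, and_iff_right_iff_imp]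
      intro hx
      exact hin (H282R3.SQ.O_subset_C Q hx)
    rw [hset2]
  · have h0 : ∀ j ∈ Finset.range (m + 1),
        (volume {x : ℝ | x ∈ Set.Icc u1 u2 ∧ (x, y0 + (j : ℝ)) ∈ Q.O}).toReal = 0 := by
      intro j _
      have he : {x : ℝ | x ∈ Set.Icc u1 u2 ∧ (x, y0 + (j : ℝ)) ∈ Q.O} = ∅ := by
        ext x
        simp only [Set.mem_ofPred_eq, Set.mem_empty_iff_false, iff_false]
        rintro ⟨hx, hx2⟩
        exact c3 ⟨_, H282R3.SQ.O_subset_C Q hx2, hx⟩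
      rw [he]
      simp
    rw [Finset.sum_eq_zero h0]
    have := ENNReal.toReal_nonneg (a := volume (Q.C ∩ {z | z.1 ∈ Set.Icc u1 u2}))
    linarith

/-- almost everywhere, the number of inner squares is at most the overlap plus one, and at most the
overlap outside the box -/
theorem ae_count {n : ℕ} {o : ℝ × ℝ} {ι : Type} [Countable ι] {I : Finset ι} {Q : ι → USq} {W : ℝ}
    (h : Cvr n o I Q W) :
    ∀ᵐ z : ℝ × ℝ, ∑ i ∈ I, (Q i).C.indicator (fun _ => (1 : ℝ≥0∞)) z ≤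
      ov Q z + (box n o).indicator (fun _ => (1 : ℝ≥0∞)) z := by
  classical
  have hnull : volume (⋃ i, (Q i).C \ (Q i).O) = 0 := measure_iUnion_null fun i => null_bd (Q i)
  filter_upwards [compl_mem_ae_iff.2 hnull] with z hz
  have hz' : ∀ i, z ∈ (Q i).C → z ∈ (Q i).O := by
    intro i hi
    by_contra hO
    exact hz (Set.mem_iUnion.2 ⟨i, hi, hO⟩)
  have hind : ∀ i, (Q i).C.indicator (fun _ => (1 : ℝ≥0∞)) z =
      (Q i).O.indicator (fun _ => (1 : ℝ≥0∞)) z := by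
    intro i
    by_cases hi : z ∈ (Q i).C
    · rw [Set.indicator_of_mem hi, Set.indicator_of_mem (hz' i hi)]
    · rw [Set.indicator_of_notMem hi,
        Set.indicator_of_notMem fun hO => hi (H282R3.SQ.O_subset_C (Q i) hO)]
  simp only [hind]
  by_cases hb : z ∈ box n o
  · rw [Set.indicator_of_mem hb]
    have hle : ∑ i ∈ I, (Q i).O.indicator (fun _ => (1 : ℝ≥0∞)) z ≤ mult Q z :=
      ENNReal.sum_le_tsum I
    exact hle.trans le_tsub_add
  · rw [Set.indicator_of_notMem hb, add_zero]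
    obtain ⟨i0, hi0, hzC, -, -⟩ := cov_out h z hb
    have hle : ∑ i ∈ insert i0 I, (Q i).O.indicator (fun _ => (1 : ℝ≥0∞)) z ≤ mult Q z :=
      ENNReal.sum_le_tsum _
    rw [Finset.sum_insert hi0, Set.indicator_of_mem (hz' i0 hzC)] at hle
    unfold ov
    refine ENNReal.le_sub_of_add_le_left ENNReal.one_ne_top hle

/-- areas -/
theorem areas {n : ℕ} {o : ℝ × ℝ} {ι : Type} [Countable ι] {I : Finset ι} {Q : ι → USq} {W : ℝ}
    (h : Cvr n o I Q W) (u1 u2 : ℝ) (h12 : u1 ≤ u2) :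
    ∑ i ∈ I, (volume ((Q i).C ∩ {z | z.1 ∈ Set.Icc u1 u2})).toReal ≤
      (∫⁻ z in {z : ℝ × ℝ | z.1 ∈ Set.Icc u1 u2}, ov Q z).toReal + n * (u2 - u1) := by
  have hSm : MeasurableSet {z : ℝ × ℝ | z.1 ∈ Set.Icc u1 u2} :=
    measurable_fst measurableSet_Icc
  have hfin : ∀ i, volume ((Q i).C ∩ {z | z.1 ∈ Set.Icc u1 u2}) ≠ ⊤ := fun i =>
    ne_top_of_le_ne_top (by rw [H282R3.SQ.volume_C]; exact ENNReal.one_ne_top)
      (measure_mono (Set.inter_subset_left (s := (Q i).C)))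
  rw [← ENNReal.toReal_sum fun i _ => hfin i]
  have e1 : ∑ i ∈ I, volume ((Q i).C ∩ {z | z.1 ∈ Set.Icc u1 u2}) =
      ∫⁻ z in {z : ℝ × ℝ | z.1 ∈ Set.Icc u1 u2},
        ∑ i ∈ I, (Q i).C.indicator (fun _ => (1 : ℝ≥0∞)) z := by
    rw [lintegral_finsetSum I fun i _ =>
      measurable_const.indicator (H282R3.SQ.measurableSet_C (Q i))]
    refine Finset.sum_congr rfl fun i _ => ?_
    rw [lintegral_indicator (H282R3.SQ.measurableSet_C (Q i)), lintegral_const,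
      Measure.restrict_restrict (H282R3.SQ.measurableSet_C (Q i)), Measure.restrict_apply_univ,
      one_mul]
  have hbox : MeasurableSet (box n o) := by
    have : box n o = {z : ℝ × ℝ | z.1 ∈ Set.Icc o.1 (o.1 + n)} ∩
        {z : ℝ × ℝ | z.2 ∈ Set.Icc o.2 (o.2 + n)} := by
      ext z
      simp only [box, Set.mem_ofPred_eq, Set.mem_inter_iff, Set.mem_Icc]
      tauto
    rw [this]
    exact (measurable_fst measurableSet_Icc).inter (measurable_snd measurableSet_Icc)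
  have e2 : ∫⁻ z in {z : ℝ × ℝ | z.1 ∈ Set.Icc u1 u2},
        ∑ i ∈ I, (Q i).C.indicator (fun _ => (1 : ℝ≥0∞)) z ≤
      (∫⁻ z in {z : ℝ × ℝ | z.1 ∈ Set.Icc u1 u2}, ov Q z) + ENNReal.ofReal (n * (u2 - u1)) := by
    calc ∫⁻ z in {z : ℝ × ℝ | z.1 ∈ Set.Icc u1 u2},
          ∑ i ∈ I, (Q i).C.indicator (fun _ => (1 : ℝ≥0∞)) z
        ≤ ∫⁻ z in {z : ℝ × ℝ | z.1 ∈ Set.Icc u1 u2},
            (ov Q z + (box n o).indicator (fun _ => (1 : ℝ≥0∞)) z) :=
          lintegral_mono_ae (ae_restrict_of_ae (ae_count h))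
      _ = (∫⁻ z in {z : ℝ × ℝ | z.1 ∈ Set.Icc u1 u2}, ov Q z) +
            ∫⁻ z in {z : ℝ × ℝ | z.1 ∈ Set.Icc u1 u2},
              (box n o).indicator (fun _ => (1 : ℝ≥0∞)) z :=
          lintegral_add_left (measurable_ov Q) _
      _ ≤ _ := by
          refine add_le_add le_rfl ?_
          rw [lintegral_indicator hbox, lintegral_const, Measure.restrict_restrict hbox,
            Measure.restrict_apply_univ, one_mul]
          have hsub : box n o ∩ {z : ℝ × ℝ | z.1 ∈ Set.Icc u1 u2} ⊆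
              Set.Icc u1 u2 ×ˢ Set.Icc o.2 (o.2 + n) := by
            rintro z ⟨hz1, hz2⟩
            exact ⟨hz2, hz1.2.2.1, hz1.2.2.2⟩
          refine (measure_mono hsub).trans ?_
          rw [Measure.volume_eq_prod, Measure.prod_prod, Real.volume_Icc, Real.volume_Icc,
            ← ENNReal.ofReal_mul (by linarith)]
          refine ENNReal.ofReal_le_ofReal (le_of_eq ?_)
          ring
  have hS : (∫⁻ z in {z : ℝ × ℝ | z.1 ∈ Set.Icc u1 u2}, ov Q z) ≠ ⊤ :=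
    ne_top_of_le_ne_top ENNReal.ofReal_ne_top (area_le h _)
  have hn : (0 : ℝ) ≤ n * (u2 - u1) := mul_nonneg (Nat.cast_nonneg n) (by linarith)
  rw [e1]
  refine (ENNReal.toReal_mono (ENNReal.add_ne_top.2 ⟨hS, ENNReal.ofReal_ne_top⟩) e2).trans ?_
  rw [ENNReal.toReal_add hS ENNReal.ofReal_ne_top, ENNReal.toReal_ofReal hn]

end Window

open Classical in
/-- inequality between lengths and areas in a vertical strip -/
theorem window_ineq {n : ℕ} {o : ℝ × ℝ} {ι : Type} [Countable ι] {I : Finset ι} {Q : ι → USq} {W : ℝ}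
    (h : Cvr n o I Q W)
    (u1 u2 : ℤ) (h1 : 3 ≤ u1) (h2 : u1 < u2) (h3 : u2 ≤ n + 2) :
    (u2 : ℝ) - u1 ≤ (∫⁻ z in {z : ℝ × ℝ | z.1 ∈ Set.Icc (u1 : ℝ) u2}, ov Q z).toReal +
      2 * ∑ i ∈ I.filter (fun i => ((Q i).C ∩ {z | z.1 ∈ Set.Icc (u1 : ℝ) u2}).Nonempty),
        (Q i).g ^ 2 +
      6 * ∑ i ∈ I.filter (fun i => ((Q i).C ∩ {z | z.1 = (u1 : ℝ)}).Nonempty), |(Q i).b| +
      6 * ∑ i ∈ I.filter (fun i => ((Q i).C ∩ {z | z.1 = (u2 : ℝ)}).Nonempty), |(Q i).b| := by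
  have h12 : (u1 : ℝ) ≤ u2 := by exact_mod_cast h2.le
  have ho1 : o.1 ≤ (u1 : ℝ) := by
    have : (3 : ℝ) ≤ u1 := by exact_mod_cast h1
    linarith [h.o1']
  have ho2 : (u2 : ℝ) ≤ o.1 + n := by
    have : (u2 : ℝ) ≤ n + 2 := by exact_mod_cast h3
    linarith [h.o1]
  have s1 : ∑ _j ∈ Finset.range (n + 1), ((u2 : ℝ) - u1) ≤ ∑ j ∈ Finset.range (n + 1),
      ∑ i ∈ I, (volume {x : ℝ | x ∈ Set.Icc (u1 : ℝ) u2 ∧ (x, o.2 + (j : ℝ)) ∈ (Q i).O}).toReal :=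
    Finset.sum_le_sum fun j hj => Window.one_line h u1 u2 ho1 h12 ho2 j
      (Nat.lt_succ_iff.1 (Finset.mem_range.1 hj))
  rw [Finset.sum_const, Finset.card_range, nsmul_eq_mul, Finset.sum_comm] at s1
  have s2 : ∑ i ∈ I, ∑ j ∈ Finset.range (n + 1),
      (volume {x : ℝ | x ∈ Set.Icc (u1 : ℝ) u2 ∧ (x, o.2 + (j : ℝ)) ∈ (Q i).O}).toReal ≤
      ∑ i ∈ I, ((volume ((Q i).C ∩ {z | z.1 ∈ Set.Icc (u1 : ℝ) u2})).toReal +
        (if ((Q i).C ∩ {z | z.1 ∈ Set.Icc (u1 : ℝ) u2}).Nonempty then 2 * (Q i).g ^ 2 else 0) +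
        (if ((Q i).C ∩ {z | z.1 = (u1 : ℝ)}).Nonempty then 6 * |(Q i).b| else 0) +
        (if ((Q i).C ∩ {z | z.1 = (u2 : ℝ)}).Nonempty then 6 * |(Q i).b| else 0)) :=
    Finset.sum_le_sum fun i _ => Window.one_square (Q i) (h.norm i) o.2 n u1 u2 h12
  have s3 := Window.areas h u1 u2 h12
  rw [Finset.sum_add_distrib, Finset.sum_add_distrib, Finset.sum_add_distrib,
    ← Finset.sum_filter, ← Finset.sum_filter, ← Finset.sum_filter, ← Finset.mul_sum,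
    ← Finset.mul_sum, ← Finset.mul_sum] at s2
  push_cast at s1
  linarith

end H282R5.PC
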