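import Pool.Agent.H282R5.PC.Defs
import Pool.Agent.H282R5.PC.Fin
import Pool.Agent.H282R5.PC.Geo
import Pool.Agent.H282R5.PC.Window
import Pool.Agent.H282R5.PC.ColRow
import Pool.Agent.H282R5.PC.High
import Pool.Agent.H282R5.PC.SqCell
import Pool.Agent.H282R5.PC.Slopes
import Pool.Agent.H282R4.PK.Rig
import Pool.Agent.H282R4.PK.Geo

/-! The energy of the small slopes in one window. -/

namespace H282R5.PC

open MeasureTheory
open scoped Real ENNReal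
open H282R3.SQ (USq Inside)
open H282R4.PK (slope rho tr F FH cell Rg Kg C0 Bx U V)

namespace WindowLow

/-- two different outer squares do not overlap -/
theorem gsq_disj (o : ℝ × ℝ) (c c' : ℤ × ℤ) (z : ℝ × ℝ) (h : z ∈ (gsq o c).O)
    (h' : z ∈ (gsq o c').O) : c = c' := by
  obtain ⟨h1, h2⟩ := h
  obtain ⟨h3, h4⟩ := h'
  simp only [gsq, USq.X, USq.Y, one_mul, zero_mul, add_zero, neg_zero, zero_add, abs_lt] at h1 h2 h3 h4
  have e1 : c.1 = c'.1 := by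
    have a1 : (c.1 : ℝ) < c'.1 + 1 := by linarith [h1.1, h1.2, h3.1, h3.2]
    have a2 : (c'.1 : ℝ) < c.1 + 1 := by linarith [h1.1, h1.2, h3.1, h3.2]
    have a1' : c.1 < c'.1 + 1 := by exact_mod_cast a1
    have a2' : c'.1 < c.1 + 1 := by exact_mod_cast a2
    omega
  have e2 : c.2 = c'.2 := by
    have a1 : (c.2 : ℝ) < c'.2 + 1 := by linarith [h2.1, h2.2, h4.1, h4.2]
    have a2 : (c'.2 : ℝ) < c.2 + 1 := by linarith [h2.1, h2.2, h4.1, h4.2]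
    have a1' : c.2 < c'.2 + 1 := by exact_mod_cast a1
    have a2' : c'.2 < c.2 + 1 := by exact_mod_cast a2
    omega
  exact Prod.ext e1 e2

/-- overlaps come from two squares -/
theorem two_of_ov {ι : Type} (Q : ι → USq) (z : ℝ × ℝ) (h : ov Q z ≠ 0) :
    ∃ i j, i ≠ j ∧ z ∈ (Q i).O ∧ z ∈ (Q j).O := by
  classical
  by_contra hcon
  push Not at hcon
  apply h
  unfold ov
  rw [tsub_eq_zero_iff_le]
  unfold mult
  by_cases hex : ∃ i, z ∈ (Q i).O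
  · obtain ⟨i, hi⟩ := hex
    rw [tsum_eq_single i]
    · rw [Set.indicator_of_mem hi]
    · intro j hj
      rw [Set.indicator_of_notMem]
      exact hcon i j (Ne.symm hj) hi
  · push Not at hex
    have : ∀ i, (Q i).O.indicator (fun _ => (1 : ℝ≥0∞)) z = 0 := by
      intro i
      rw [Set.indicator_of_notMem (hex i)]
    simp [this]

theorem O_sub_C (Q : USq) (z : ℝ × ℝ) (h : z ∈ Q.O) : z ∈ Q.C := ⟨h.1.le, h.2.le⟩

/-- the overlaps are near the box -/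
theorem near_of_ov {n : ℕ} {o : ℝ × ℝ} {ι : Type} [Countable ι] {I : Finset ι} {Q : ι → USq} {W : ℝ}
    (h : Cvr n o I Q W) (z : ℝ × ℝ) (hz : ov Q z ≠ 0) : 1 / 2 < z.2 ∧ z.2 < n + 9 / 2 := by
  obtain ⟨i, j, hij, hi, hj⟩ := two_of_ov Q z hz
  by_cases hI : i ∈ I
  · have := inner_sub h i hI z (O_sub_C _ _ hi)
    exact ⟨this.2.2.1, this.2.2.2⟩
  by_cases hJ : j ∈ I
  · have := inner_sub h j hJ z (O_sub_C _ _ hj)
    exact ⟨this.2.2.1, this.2.2.2⟩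
  exfalso
  obtain ⟨c, hc, hc'⟩ := h.out i hI
  obtain ⟨d, hd, hd'⟩ := h.out j hJ
  rw [hc'] at hi
  rw [hd'] at hj
  have e := gsq_disj o c d z hi hj
  apply hij
  apply h.out_inj i j hI hJ
  rw [hc', hd', e]

theorem om_nonneg {ι : Type} (Q : ι → USq) (c : ℤ × ℤ) : 0 ≤ om Q c := wst_nonneg _ _

theorem cw_nonneg {ι : Type} (n : ℕ) (Q : ι → USq) (m : ℤ) : 0 ≤ cw n Q m :=
  Finset.sum_nonneg fun _ _ => om_nonneg _ _

theorem strip_le {n : ℕ} {o : ℝ × ℝ} {ι : Type} [Countable ι] {I : Finset ι} {Q : ι → USq} {W : ℝ}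
    (h : Cvr n o I Q W) (u1 u2 : ℤ) :
    (∫⁻ z in {z : ℝ × ℝ | z.1 ∈ Set.Icc (u1 : ℝ) u2}, ov Q z).toReal ≤
      ∑ m ∈ Finset.Icc (u1 - 2) (u2 + 2), cw n Q m := by
  have hS : 0 ≤ ∑ m ∈ Finset.Icc (u1 - 2) (u2 + 2), cw n Q m :=
    Finset.sum_nonneg fun _ _ => cw_nonneg _ _ _
  apply ENNReal.toReal_le_of_le_ofReal hS
  have hms : MeasurableSet {z : ℝ × ℝ | z.1 ∈ Set.Icc (u1 : ℝ) u2} :=
    measurable_fst measurableSet_Icc
  rw [← lintegral_indicator hms]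
  set Z := Finset.Icc (u1 - 2) (u2 + 2) ×ˢ Finset.Icc (-1 : ℤ) (n + 6) with hZ
  calc ∫⁻ z, {z : ℝ × ℝ | z.1 ∈ Set.Icc (u1 : ℝ) u2}.indicator (fun z => ov Q z) z
      ≤ ∫⁻ z, ∑ c ∈ Z, (Rg c).indicator (ov Q) z := by
        apply lintegral_mono
        intro z
        by_cases hz : z ∈ {z : ℝ × ℝ | z.1 ∈ Set.Icc (u1 : ℝ) u2}
        · show {z : ℝ × ℝ | z.1 ∈ Set.Icc (u1 : ℝ) u2}.indicator (fun z => ov Q z) z ≤ _
          rw [Set.indicator_of_mem hz]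
          by_cases h0 : ov Q z = 0
          · rw [h0]; exact zero_le
          · obtain ⟨hy1, hy2⟩ := near_of_ov h z h0
            have hx : (u1 : ℝ) ≤ z.1 ∧ z.1 ≤ u2 := hz
            have f1 := Int.floor_le z.1
            have f2 := Int.lt_floor_add_one z.1
            have f3 := Int.floor_le z.2
            have f4 := Int.lt_floor_add_one z.2
            have m1 : u1 ≤ ⌊z.1⌋ := Int.le_floor.2 hx.1
            have m2 : ⌊z.1⌋ ≤ u2 := by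
              have : (⌊z.1⌋ : ℝ) ≤ u2 := f1.trans hx.2
              exact_mod_cast this
            have k1 : 0 ≤ ⌊z.2⌋ := Int.le_floor.2 (by push_cast; linarith)
            have k2 : ⌊z.2⌋ < (n : ℤ) + 5 := by
              have : (⌊z.2⌋ : ℝ) < (((n : ℤ) + 5 : ℤ) : ℝ) := by push_cast; linarith
              exact_mod_cast this
            have hmem : ((⌊z.1⌋, ⌊z.2⌋) : ℤ × ℤ) ∈ Z := by
              rw [hZ, Finset.mem_product, Finset.mem_Icc, Finset.mem_Icc]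
              refine ⟨⟨?_, ?_⟩, ?_, ?_⟩ <;> simp only <;> omega
            have hR : z ∈ Rg (⌊z.1⌋, ⌊z.2⌋) := by
              refine ⟨?_, ?_, ?_, ?_⟩ <;> simp only <;> linarith
            calc ov Q z = (Rg (⌊z.1⌋, ⌊z.2⌋)).indicator (ov Q) z := by
                  rw [Set.indicator_of_mem hR]
              _ ≤ _ := Finset.single_le_sum (f := fun c => (Rg c).indicator (ov Q) z)
                  (fun _ _ => zero_le) hmem
        · show {z : ℝ × ℝ | z.1 ∈ Set.Icc (u1 : ℝ) u2}.indicator (fun z => ov Q z) z ≤ _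
          rw [Set.indicator_of_notMem hz]
          exact zero_le
    _ = ∑ c ∈ Z, ∫⁻ z in Rg c, ov Q z := by
        rw [lintegral_finsetSum]
        · apply Finset.sum_congr rfl
          intro c _
          rw [lintegral_indicator (H282R4.PK.Rig.measurableSet_Rg c)]
        · intro c _
          exact (measurable_ov Q).indicator (H282R4.PK.Rig.measurableSet_Rg c)
    _ ≤ ∑ c ∈ Z, ENNReal.ofReal (om Q c) := by
        apply Finset.sum_le_sum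
        intro c _
        exact area_le h (Rg c)
    _ = ENNReal.ofReal (∑ m ∈ Finset.Icc (u1 - 2) (u2 + 2), cw n Q m) := by
        rw [← ENNReal.ofReal_sum_of_nonneg (fun c _ => om_nonneg Q c), hZ, Finset.sum_product]
        rfl

theorem cc_mem {n : ℕ} {o : ℝ × ℝ} {ι : Type} [Countable ι] {I : Finset ι} {Q : ι → USq} {W : ℝ}
    (h : Cvr n o I Q W) (v1 v2 : ℤ) (i : ι) (hi : i ∈ I) (z : ℝ × ℝ) (hz : z ∈ (Q i).C)
    (hz1 : (v1 : ℝ) ≤ z.1) (hz2 : z.1 ≤ v2) :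
    cc (Q i) ∈ Finset.Icc (v1 - 2) (v2 + 2) ×ˢ Finset.Icc (-1 : ℤ) (n + 6) := by
  have hc := H282R4.PK.Rig.centre_mem (Q i)
  obtain ⟨d1, d2⟩ := H282R4.PK.diam (Q i) ((Q i).p, (Q i).q) z hc hz
  obtain ⟨-, -, y1, y2⟩ := inner_sub h i hi _ hc
  simp only at d1 d2 y1 y2
  rw [abs_lt] at d1
  have f1 := Int.floor_le (Q i).p
  have f3 := Int.floor_le (Q i).q
  have m1 : v1 - 2 ≤ ⌊(Q i).p⌋ := Int.le_floor.2 (by push_cast; linarith [d1.1, d1.2])
  have m2 : ⌊(Q i).p⌋ < v2 + 2 := by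
    have : (⌊(Q i).p⌋ : ℝ) < ((v2 + 2 : ℤ) : ℝ) := by push_cast; linarith [d1.1, d1.2]
    exact_mod_cast this
  have k1 : 0 ≤ ⌊(Q i).q⌋ := Int.le_floor.2 (by push_cast; linarith)
  have k2 : ⌊(Q i).q⌋ < (n : ℤ) + 5 := by
    have : (⌊(Q i).q⌋ : ℝ) < (((n : ℤ) + 5 : ℤ) : ℝ) := by push_cast; linarith
    exact_mod_cast this
  unfold cc
  rw [Finset.mem_product, Finset.mem_Icc, Finset.mem_Icc]
  refine ⟨⟨?_, ?_⟩, ?_, ?_⟩ <;> simp only <;> omega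

theorem sum_col {n : ℕ} {o : ℝ × ℝ} {ι : Type} [Countable ι] {I : Finset ι} {Q : ι → USq} {W : ℝ}
    (h : Cvr n o I Q W) (hn : 1 ≤ n) (u : ℤ) (w0 : ℝ)
    (hg : ∑ m ∈ Finset.Icc (u - 2) (u + 2), cw n Q m ≤ w0) (T : Finset ι)
    (hT : ∀ i ∈ T, i ∈ I ∧ ((Q i).C ∩ {z | z.1 = (u : ℝ)}).Nonempty) :
    ∑ i ∈ T, |(Q i).b| ≤ 2000 * (109 * n * (C0 * w0)) := by
  have h1 := sum_b h (Finset.Icc (u - 2) (u + 2) ×ˢ Finset.Icc (-1 : ℤ) (n + 6)) T
    (by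
      intro i hi
      obtain ⟨hI, z, hz, hz'⟩ := hT i hi
      have hz'' : z.1 = (u : ℝ) := hz'
      exact cc_mem h u u i hI z hz hz''.ge hz''.le)
  refine h1.trans ?_
  have hC0 : (0 : ℝ) ≤ C0 := by unfold C0; positivity
  have hw0 : 0 ≤ w0 := (Finset.sum_nonneg fun _ _ => cw_nonneg _ _ _).trans hg
  rw [Finset.sum_add_distrib, Finset.sum_product, Finset.sum_product]
  have e2 : ∑ m ∈ Finset.Icc (u - 2) (u + 2), ∑ k ∈ Finset.Icc (-1 : ℤ) (n + 6), C0 * om Q (m, k)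
      = C0 * ∑ m ∈ Finset.Icc (u - 2) (u + 2), cw n Q m := by
    rw [Finset.mul_sum]
    apply Finset.sum_congr rfl
    intro m _
    unfold cw
    rw [Finset.mul_sum]
  have e1 : ∑ m ∈ Finset.Icc (u - 2) (u + 2), ∑ k ∈ Finset.Icc (-1 : ℤ) (n + 6), gam Q (m, k)
      ≤ ∑ m ∈ Finset.Icc (u - 2) (u + 2), ((n : ℝ) + 8) * (12 * C0 * cw n Q m) := by
    apply Finset.sum_le_sum
    intro m _
    have hcard : ((Finset.Icc (-1 : ℤ) (n + 6)).card : ℝ) = (n : ℝ) + 8 := by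
      rw [Int.card_Icc]
      have : ((n : ℤ) + 6 + 1 - -1).toNat = n + 8 := by omega
      rw [this]
      push_cast
      ring
    rw [← hcard, ← nsmul_eq_mul]
    apply Finset.sum_le_card_nsmul
    intro k hk
    rw [Finset.mem_Icc] at hk
    exact col_gam h m k hk.1 hk.2
  rw [e2]
  rw [← Finset.mul_sum, ← Finset.mul_sum] at e1
  have hn' : (1 : ℝ) ≤ n := by exact_mod_cast hn
  have h3 : ((n : ℝ) + 8) * (12 * C0 * ∑ m ∈ Finset.Icc (u - 2) (u + 2), cw n Q m) ≤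
      ((n : ℝ) + 8) * (12 * C0 * w0) := by
    apply mul_le_mul_of_nonneg_left _ (by linarith)
    exact mul_le_mul_of_nonneg_left hg (by linarith)
  have h4 : C0 * ∑ m ∈ Finset.Icc (u - 2) (u + 2), cw n Q m ≤ C0 * w0 :=
    mul_le_mul_of_nonneg_left hg hC0
  have h5 : 0 ≤ C0 * w0 := mul_nonneg hC0 hw0
  nlinarith

end WindowLow

open WindowLow in
open Classical in
/-- the energy of the small slopes in one window -/
theorem window_low {n : ℕ} {o : ℝ × ℝ} {ι : Type} [Countable ι] {I : Finset ι} {Q : ι → USq} {W : ℝ}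
    (h : Cvr n o I Q W)
    (hn : 1 ≤ n) (u1 u2 : ℤ) (h1 : 3 ≤ u1) (h2 : u1 < u2) (h3 : u2 ≤ n + 2) (w0 : ℝ)
    (hg1 : ∑ m ∈ Finset.Icc (u1 - 2) (u1 + 2), cw n Q m ≤ w0)
    (hg2 : ∑ m ∈ Finset.Icc (u2 - 2) (u2 + 2), cw n Q m ≤ w0)
    (τ : ℝ) (hτ : 24 * C0 * w0 ≤ τ) :
    (u2 : ℝ) - u1 ≤
      1000 * ∑ m ∈ Finset.Icc (u1 - 2) (u2 + 2), ∑ k ∈ Finset.Icc (-1 : ℤ) (n + 6),
        (if gam Q (m, k) ≤ τ then gam Q (m, k) ^ 2 else 0) +
      2 * 10 ^ 5 * C0 ^ 2 * (∑ m ∈ Finset.Icc (u1 - 2) (u2 + 2), cw n Q m) ^ 2 +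
      (1 + 1000 * C0) * (∑ m ∈ Finset.Icc (u1 - 2) (u2 + 2), cw n Q m) +
      3 * 10 ^ 6 * C0 * n * w0 := by
  have hC0 : (0 : ℝ) ≤ C0 := by unfold C0; positivity
  have key := window_ineq h u1 u2 h1 h2 h3
  have s1 := strip_le h u1 u2
  have c1 := sum_col h hn u1 w0 hg1
    (I.filter (fun i => ((Q i).C ∩ {z | z.1 = (u1 : ℝ)}).Nonempty))
    (by intro i hi; exact Finset.mem_filter.1 hi)
  have c2 := sum_col h hn u2 w0 hg2
    (I.filter (fun i => ((Q i).C ∩ {z | z.1 = (u2 : ℝ)}).Nonempty))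
    (by intro i hi; exact Finset.mem_filter.1 hi)
  have g1 := sum_g h (Finset.Icc (u1 - 2) (u2 + 2) ×ˢ Finset.Icc (-1 : ℤ) (n + 6))
    (I.filter (fun i => ((Q i).C ∩ {z | z.1 ∈ Set.Icc (u1 : ℝ) u2}).Nonempty))
    (by
      intro i hi
      obtain ⟨hI, z, hz, hz'⟩ := Finset.mem_filter.1 hi
      have hz'' : (u1 : ℝ) ≤ z.1 ∧ z.1 ≤ u2 := hz'
      exact cc_mem h u1 u2 i hI z hz hz''.1 hz''.2)
  have hcwu : cw n Q u1 ≤ w0 := by
    refine le_trans ?_ hg1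
    exact Finset.single_le_sum (f := fun m => cw n Q m) (fun _ _ => cw_nonneg _ _ _)
      (Finset.mem_Icc.2 ⟨by omega, by omega⟩)
  have he := high_energy h (u1 - 2) (u2 + 2) u1 (Finset.mem_Icc.2 ⟨by omega, by omega⟩) (τ / 2)
    (by
      have : 12 * C0 * cw n Q u1 ≤ 12 * C0 * w0 := mul_le_mul_of_nonneg_left hcwu (by linarith)
      linarith)
  have e2 : (2 : ℝ) * (τ / 2) = τ := by ring
  rw [e2] at he
  have hsplit : ∑ c ∈ Finset.Icc (u1 - 2) (u2 + 2) ×ˢ Finset.Icc (-1 : ℤ) (n + 6),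
      (gam Q c ^ 2 + C0 * om Q c) =
      ∑ m ∈ Finset.Icc (u1 - 2) (u2 + 2), ∑ k ∈ Finset.Icc (-1 : ℤ) (n + 6),
        (if gam Q (m, k) ≤ τ then gam Q (m, k) ^ 2 else 0) +
      ∑ m ∈ Finset.Icc (u1 - 2) (u2 + 2), ∑ k ∈ Finset.Icc (-1 : ℤ) (n + 6),
        (if τ < gam Q (m, k) then gam Q (m, k) ^ 2 else 0) +
      C0 * ∑ m ∈ Finset.Icc (u1 - 2) (u2 + 2), cw n Q m := by
    rw [Finset.sum_add_distrib, Finset.sum_product, Finset.sum_product]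
    have a1 : ∑ m ∈ Finset.Icc (u1 - 2) (u2 + 2), ∑ k ∈ Finset.Icc (-1 : ℤ) (n + 6),
        gam Q (m, k) ^ 2 =
        ∑ m ∈ Finset.Icc (u1 - 2) (u2 + 2), ∑ k ∈ Finset.Icc (-1 : ℤ) (n + 6),
          (if gam Q (m, k) ≤ τ then gam Q (m, k) ^ 2 else 0) +
        ∑ m ∈ Finset.Icc (u1 - 2) (u2 + 2), ∑ k ∈ Finset.Icc (-1 : ℤ) (n + 6),
          (if τ < gam Q (m, k) then gam Q (m, k) ^ 2 else 0) := by
      rw [← Finset.sum_add_distrib]
      apply Finset.sum_congr rfl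
      intro m _
      rw [← Finset.sum_add_distrib]
      apply Finset.sum_congr rfl
      intro k _
      by_cases hh : gam Q (m, k) ≤ τ
      · rw [if_pos hh, if_neg (not_lt.2 hh), add_zero]
      · rw [if_neg hh, if_pos (not_le.1 hh), zero_add]
    have a2 : ∑ m ∈ Finset.Icc (u1 - 2) (u2 + 2), ∑ k ∈ Finset.Icc (-1 : ℤ) (n + 6),
        C0 * om Q (m, k) = C0 * ∑ m ∈ Finset.Icc (u1 - 2) (u2 + 2), cw n Q m := by
      rw [Finset.mul_sum]
      apply Finset.sum_congr rfl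
      intro m _
      unfold cw
      rw [Finset.mul_sum]
    rw [a1, a2]
  rw [hsplit] at g1
  have hw0 : 0 ≤ w0 := (Finset.sum_nonneg fun _ _ => cw_nonneg _ _ _).trans hg1
  have hnn : (0 : ℝ) ≤ n := Nat.cast_nonneg n
  have h5 : 0 ≤ (n : ℝ) * (C0 * w0) := mul_nonneg hnn (mul_nonneg hC0 hw0)
  nlinarith

end H282R5.PC
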