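import Pool.Agent.H282R5.PC.Defs
import Pool.Agent.H282R5.PC.Fin
import Pool.Agent.H282R5.PC.SumOm
import Pool.Agent.H282R5.PC.WindowLow

/-! Module Energy of project PC. -/

namespace H282R5.PC

open MeasureTheory
open scoped Real ENNReal
open H282R3.SQ (USq Inside)
open H282R4.PK (slope rho tr F FH cell Rg Kg C0 Bx U V)

namespace Energy

theorem five {cw : ℤ → ℝ} (h : ∀ m, 0 ≤ cw m) (a b lo hi : ℤ) (h1 : lo ≤ a - 2)
    (h2 : b + 2 ≤ hi) :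
    ∑ u ∈ Finset.Icc a b, ∑ m ∈ Finset.Icc (u - 2) (u + 2), cw m ≤
      5 * ∑ m ∈ Finset.Icc lo hi, cw m := by
  rw [Finset.sum_comm' (t' := Finset.Icc lo hi)
    (s' := fun m => Finset.Icc (max a (m - 2)) (min b (m + 2))) (by
      intro u m
      simp only [Finset.mem_Icc]
      omega)]
  rw [Finset.mul_sum]
  refine Finset.sum_le_sum ?_
  intro m _
  rw [Finset.sum_const, nsmul_eq_mul]
  have h3 : (Finset.Icc (max a (m - 2)) (min b (m + 2))).card ≤ 5 := by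
    rw [Int.card_Icc]
    omega
  have h4 : ((Finset.Icc (max a (m - 2)) (min b (m + 2))).card : ℝ) ≤ 5 := by exact_mod_cast h3
  exact mul_le_mul_of_nonneg_right h4 (h m)

/-- a cheap column -/
theorem cheap {cw : ℤ → ℝ} (h : ∀ m, 0 ≤ cw m) (a b lo hi : ℤ) (h1 : lo ≤ a - 2)
    (h2 : b + 2 ≤ hi) (θ : ℝ) (L : ℕ) (hL : 4 ≤ L) (hab : b + 1 - a = (L : ℤ) - 2)
    (hθ : ∑ m ∈ Finset.Icc lo hi, cw m ≤ θ) (hθ0 : 0 < θ) :
    ∃ u ∈ Finset.Icc a b, ∑ m ∈ Finset.Icc (u - 2) (u + 2), cw m ≤ 10 * θ / L := by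
  by_contra hcon
  push Not at hcon
  have hne : (Finset.Icc a b).Nonempty := Finset.nonempty_Icc.2 (by omega)
  have hL0 : (0 : ℝ) < L := by
    have : 0 < L := by omega
    exact_mod_cast this
  have h3 : ∑ u ∈ Finset.Icc a b, (10 * θ / L) <
      ∑ u ∈ Finset.Icc a b, ∑ m ∈ Finset.Icc (u - 2) (u + 2), cw m :=
    Finset.sum_lt_sum_of_nonempty hne hcon
  have h4 := five h a b lo hi h1 h2
  rw [Finset.sum_const, nsmul_eq_mul, Int.card_Icc, hab] at h3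
  have h5 : (((L : ℤ) - 2).toNat : ℝ) = (L : ℝ) - 2 := by
    have : ((L : ℤ) - 2).toNat = L - 2 := by omega
    rw [this, Nat.cast_sub (by omega)]
    norm_num
  rw [h5] at h3
  have h6 : ((L : ℝ) - 2) * (10 * θ / L) < 5 * θ := by linarith
  have h7 : ((L : ℝ) - 2) * (10 * θ / L) = (10 * (L - 2) * θ) / L := by ring
  rw [h7, div_lt_iff₀ hL0] at h6
  have hL4 : (4 : ℝ) ≤ L := by exact_mod_cast hL
  nlinarith

/-- the counting argument -/
theorem count (n : ℕ) (hn : 1 ≤ n) (W τ : ℝ) (hW : 1 ≤ W)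
    (hWn : 10 ^ 200 * W ^ 5 ≤ (n : ℝ) ^ 3) (hτ : 10 ^ 30 * W ≤ τ * n) (cw g : ℤ → ℝ)
    (hcw : ∀ m, 0 ≤ cw m) (hg : ∀ m, 0 ≤ g m)
    (hsum : ∑ m ∈ Finset.Icc (1 : ℤ) n, cw m ≤ 121 * W)
    (hwin : ∀ u1 u2 : ℤ, 3 ≤ u1 → u1 < u2 → u2 ≤ n + 2 → ∀ w0 : ℝ,
      ∑ m ∈ Finset.Icc (u1 - 2) (u1 + 2), cw m ≤ w0 →
      ∑ m ∈ Finset.Icc (u2 - 2) (u2 + 2), cw m ≤ w0 → 24 * 10 ^ 15 * w0 ≤ τ →
      (u2 : ℝ) - u1 ≤ 1000 * ∑ m ∈ Finset.Icc (u1 - 2) (u2 + 2), g m +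
        2 * 10 ^ 5 * (10 ^ 15) ^ 2 * (∑ m ∈ Finset.Icc (u1 - 2) (u2 + 2), cw m) ^ 2 +
        (1 + 1000 * 10 ^ 15) * (∑ m ∈ Finset.Icc (u1 - 2) (u2 + 2), cw m) +
        3 * 10 ^ 6 * 10 ^ 15 * n * w0) :
    (n : ℝ) / 10 ^ 6 ≤ ∑ m ∈ Finset.Icc (-1 : ℤ) (n + 6), g m := by
  obtain ⟨N, hN⟩ : ∃ N : ℝ, N = (n : ℝ) := ⟨_, rfl⟩
  have hN1 : 1 ≤ N := by rw [hN]; exact_mod_cast hn
  rw [← hN] at hWn hτ ⊢
  have hW0 : 0 < W := by linarith
  have hN0 : 0 < N := by linarith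
  -- W ≤ N / 10^40
  have hWN : W ≤ N / 10 ^ 40 := by
    by_contra hcon
    push Not at hcon
    have h1 : (N / 10 ^ 40) ^ 5 < W ^ 5 := pow_lt_pow_left₀ hcon (by positivity) (by norm_num)
    rw [div_pow] at h1
    have h2 : N ^ 5 / (10 ^ 40) ^ 5 = N ^ 5 / 10 ^ 200 := by norm_num
    rw [h2, div_lt_iff₀ (by positivity)] at h1
    have h3 : N ^ 3 ≤ N ^ 5 := pow_le_pow_right₀ hN1 (by norm_num)
    linarith
  -- W^3 ≤ N^2 / 10^120
  have hW3 : W ^ 3 ≤ N ^ 2 / 10 ^ 120 := by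
    by_contra hcon
    push Not at hcon
    have h1 : (N ^ 2 / 10 ^ 120) ^ 5 < (W ^ 3) ^ 5 :=
      pow_lt_pow_left₀ hcon (by positivity) (by norm_num)
    have h2 : (10 ^ 200 * W ^ 5) ^ 3 ≤ (N ^ 3) ^ 3 := pow_le_pow_left₀ (by positivity) hWn 3
    have hA : ((10 : ℝ) ^ 200) ^ 3 = ((10 : ℝ) ^ 120) ^ 5 := by rw [← pow_mul, ← pow_mul]
    have h3 : (10 ^ 200 * W ^ 5) ^ 3 = ((10 : ℝ) ^ 120) ^ 5 * (W ^ 3) ^ 5 := by
      rw [← hA, mul_pow, ← pow_mul W 5 3, ← pow_mul W 3 5]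
    have h4 : (N ^ 2 / 10 ^ 120) ^ 5 = N ^ 10 / ((10 : ℝ) ^ 120) ^ 5 := by
      rw [div_pow, ← pow_mul N 2 5]
    rw [h4] at h1
    have hP : (0 : ℝ) < ((10 : ℝ) ^ 120) ^ 5 := by positivity
    obtain ⟨A, hAd⟩ : ∃ A : ℝ, A = ((10 : ℝ) ^ 120) ^ 5 := ⟨_, rfl⟩
    rw [← hAd] at h1 h3 hP
    rw [div_lt_iff₀ hP] at h1
    have h5 : (N ^ 3) ^ 3 = N ^ 9 := by rw [← pow_mul]
    rw [h3, h5] at h2
    have h6 : N ^ 9 ≤ N ^ 10 := pow_le_pow_right₀ hN1 (by norm_num)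
    linarith
  obtain ⟨L, hL⟩ : ∃ L : ℕ, L = ⌈10 ^ 27 * W⌉₊ := ⟨_, rfl⟩
  have hL1 : 10 ^ 27 * W ≤ L := by rw [hL]; exact Nat.le_ceil _
  have hL2 : (L : ℝ) ≤ 2 * 10 ^ 27 * W := by
    have := Nat.ceil_lt_add_one (show 0 ≤ 10 ^ 27 * W by positivity)
    rw [← hL] at this
    nlinarith
  have hLR0 : (0 : ℝ) < L := by nlinarith
  have hL4 : 4 ≤ L := by
    have : (4 : ℝ) ≤ L := by nlinarith
    exact_mod_cast this
  obtain ⟨R, hR⟩ : ∃ R : ℕ, R = n / (3 * L) := ⟨_, rfl⟩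
  have hR1 : 3 * L * R ≤ n := by rw [hR]; exact Nat.mul_div_le n (3 * L)
  have hR2 : n < 3 * L * (R + 1) := by
    rw [hR]
    exact Nat.lt_mul_div_succ n (by omega)
  have hR1' : 3 * (L : ℝ) * R ≤ N := by rw [hN]; exact_mod_cast hR1
  have hR2' : N < 3 * (L : ℝ) * (R + 1) := by rw [hN]; exact_mod_cast hR2
  have hLN : (L : ℝ) ≤ N / 10 ^ 12 := by
    rw [le_div_iff₀ (by positivity)]
    rw [le_div_iff₀ (by positivity)] at hWN
    nlinarith
  have hLN' : (L : ℝ) * 10 ^ 12 ≤ N := by rwa [le_div_iff₀ (by positivity)] at hLN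
  have hRL : N / 6 ≤ L * R := by linarith
  have hR0 : (0 : ℝ) < R := by
    by_contra hcon
    have : (R : ℝ) = 0 := le_antisymm (not_lt.1 hcon) (Nat.cast_nonneg _)
    rw [this] at hRL
    linarith
  -- blocks
  obtain ⟨θ, hθ⟩ : ∃ θ : ℝ, θ = 242 * W / R := ⟨_, rfl⟩
  have hθ0 : 0 < θ := by rw [hθ]; positivity
  have hθR : θ * R = 242 * W := by rw [hθ]; field_simp
  obtain ⟨B, hB⟩ : ∃ B : ℕ → Finset ℤ,
      B = fun t : ℕ => Finset.Icc (1 + 3 * (t : ℤ) * L) (3 * ((t : ℤ) + 1) * L) := ⟨_, rfl⟩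
  have hBsub : ∀ t ∈ Finset.range R, B t ⊆ Finset.Icc (1 : ℤ) n := by
    intro t ht
    rw [Finset.mem_range] at ht
    rw [hB]
    refine Finset.Icc_subset_Icc ?_ ?_
    · have : (0 : ℤ) ≤ 3 * (t : ℤ) * L := by positivity
      linarith
    · have h1 : ((t : ℤ) + 1) ≤ R := by omega
      have h2 : 3 * ((t : ℤ) + 1) * L ≤ 3 * (R : ℤ) * L := by
        have : (0 : ℤ) ≤ L := by positivity
        nlinarith
      have h3 : 3 * (L : ℤ) * R ≤ n := by exact_mod_cast hR1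
      linarith
  have hBdisj : ((Finset.range R : Finset ℕ) : Set ℕ).PairwiseDisjoint B := by
    intro s _ t _ hst
    have key : ∀ s t : ℕ, s < t → Disjoint (B s) (B t) := by
      intro s t hst
      rw [hB, Finset.disjoint_left]
      intro x hx hy
      simp only [Finset.mem_Icc] at hx hy
      have h1 : (s : ℤ) + 1 ≤ t := by omega
      have h2 : 3 * ((s : ℤ) + 1) * L ≤ 3 * (t : ℤ) * L := by
        have : (0 : ℤ) ≤ L := by positivity
        nlinarith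
      linarith [hx.2, hy.1]
    rcases lt_or_gt_of_ne hst with h1 | h1
    · exact key s t h1
    · exact (key t s h1).symm
  have hsumB : ∀ f : ℤ → ℝ, (∀ m, 0 ≤ f m) →
      ∑ t ∈ Finset.range R, ∑ m ∈ B t, f m ≤ ∑ m ∈ Finset.Icc (1 : ℤ) n, f m := by
    intro f hf
    rw [← Finset.sum_biUnion hBdisj]
    refine Finset.sum_le_sum_of_subset_of_nonneg ?_ (fun m _ _ => hf m)
    intro x hx
    rw [Finset.mem_biUnion] at hx
    obtain ⟨t, ht, hx⟩ := hx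
    exact hBsub t ht hx
  classical
  -- good blocks
  obtain ⟨Gd, hGd⟩ : ∃ Gd : Finset ℕ,
      Gd = (Finset.range R).filter (fun t => ∑ m ∈ B t, cw m ≤ θ) := ⟨_, rfl⟩
  have hbad : (((Finset.range R).filter (fun t => ¬ ∑ m ∈ B t, cw m ≤ θ)).card : ℝ) ≤ R / 2 := by
    have h1 : (((Finset.range R).filter (fun t => ¬ ∑ m ∈ B t, cw m ≤ θ)).card : ℝ) * θ ≤
        121 * W := by
      refine le_trans ?_ ((hsumB cw hcw).trans hsum)
      rw [← nsmul_eq_mul, ← Finset.sum_const]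
      refine le_trans ?_ (Finset.sum_le_sum_of_subset_of_nonneg (Finset.filter_subset
        (fun t => ¬ ∑ m ∈ B t, cw m ≤ θ) (Finset.range R))
        (fun t _ _ => Finset.sum_nonneg (fun m _ => hcw m)))
      refine Finset.sum_le_sum ?_
      intro t ht
      rw [Finset.mem_filter] at ht
      exact (not_le.1 ht.2).le
    have h2 : (((Finset.range R).filter (fun t => ¬ ∑ m ∈ B t, cw m ≤ θ)).card : ℝ) * θ ≤
        (R / 2) * θ := by
      rw [div_mul_eq_mul_div, mul_comm (R : ℝ) θ, hθR]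
      linarith
    exact le_of_mul_le_mul_right h2 hθ0
  have hgood : (R : ℝ) / 2 ≤ Gd.card := by
    have h1 := Finset.card_filter_add_card_filter_not (s := Finset.range R)
      (fun t => ∑ m ∈ B t, cw m ≤ θ)
    rw [Finset.card_range, ← hGd] at h1
    have h2 : (Gd.card : ℝ) +
        ((Finset.range R).filter (fun t => ¬ ∑ m ∈ B t, cw m ≤ θ)).card = R := by
      exact_mod_cast h1
    linarith
  -- energy of a good block
  have hθL : θ ≤ 1452 * W * L / N := by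
    rw [le_div_iff₀ hN0]
    have h1 : θ * N ≤ θ * (6 * (L * R)) := mul_le_mul_of_nonneg_left (by linarith) hθ0.le
    have h2 : θ * (6 * (L * R)) = 6 * L * (θ * R) := by ring
    rw [h2, hθR] at h1
    linarith
  have hθN : θ * N ≤ 1452 * W * L := by rwa [le_div_iff₀ hN0] at hθL
  have hen : ∀ t ∈ Gd, (L : ℝ) / 1600 ≤ ∑ m ∈ B t, g m := by
    intro t ht
    rw [hGd, Finset.mem_filter] at ht
    obtain ⟨htR, htθ⟩ := ht
    obtain ⟨a, ha⟩ : ∃ a : ℤ, a = 1 + 3 * (t : ℤ) * L := ⟨_, rfl⟩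
    have hBt : B t = Finset.Icc a (a + 3 * L - 1) := by
      rw [hB, ha]
      have e : 3 * ((t : ℤ) + 1) * L = 1 + 3 * (t : ℤ) * L + 3 * L - 1 := by ring
      simp only [e]
    have ha1 : 1 ≤ a := by
      rw [ha]
      have : (0 : ℤ) ≤ 3 * (t : ℤ) * L := by positivity
      linarith
    have hLz : (4 : ℤ) ≤ L := by exact_mod_cast hL4
    have han : a + 3 * L - 1 ≤ n := by
      have h1 : a + 3 * (L : ℤ) - 1 ∈ Finset.Icc (1 : ℤ) n := by
        refine hBsub t htR ?_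
        rw [hBt, Finset.mem_Icc]
        omega
      exact (Finset.mem_Icc.1 h1).2
    rw [hBt] at htθ ⊢
    obtain ⟨u1, hu1, hc1⟩ := cheap hcw (a + 2) (a + L - 1) a (a + 3 * L - 1) (by omega) (by omega)
      θ L hL4 (by omega) htθ hθ0
    obtain ⟨u2, hu2, hc2⟩ := cheap hcw (a + 2 * L) (a + 3 * L - 3) a (a + 3 * L - 1) (by omega)
      (by omega) θ L hL4 (by omega) htθ hθ0
    rw [Finset.mem_Icc] at hu1 hu2
    have hw0 : 10 * θ / L * N ≤ 14520 * W := by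
      rw [div_mul_eq_mul_div, div_le_iff₀ hLR0]
      nlinarith
    have hw0p : 0 ≤ 10 * θ / L := by positivity
    have hw := hwin u1 u2 (by omega) (by omega) (by omega) (10 * θ / L) hc1 hc2 (by
      have h1 : 24 * 10 ^ 15 * (10 * θ / L) * N ≤ τ * N := by nlinarith
      exact le_of_mul_le_mul_right h1 hN0)
    have hsub : Finset.Icc (u1 - 2) (u2 + 2) ⊆ Finset.Icc a (a + 3 * L - 1) :=
      Finset.Icc_subset_Icc (by omega) (by omega)
    have hS : ∑ m ∈ Finset.Icc (u1 - 2) (u2 + 2), cw m ≤ θ :=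
      (Finset.sum_le_sum_of_subset_of_nonneg hsub (fun m _ _ => hcw m)).trans htθ
    have hS0 : 0 ≤ ∑ m ∈ Finset.Icc (u1 - 2) (u2 + 2), cw m :=
      Finset.sum_nonneg (fun m _ => hcw m)
    have hG : ∑ m ∈ Finset.Icc (u1 - 2) (u2 + 2), g m ≤
        ∑ m ∈ Finset.Icc a (a + 3 * (L : ℤ) - 1), g m :=
      Finset.sum_le_sum_of_subset_of_nonneg hsub (fun m _ _ => hg m)
    have hlen : (L : ℝ) ≤ (u2 : ℝ) - u1 := by
      have : (L : ℤ) ≤ u2 - u1 := by omega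
      have h2 : ((L : ℤ) : ℝ) ≤ ((u2 - u1 : ℤ) : ℝ) := by exact_mod_cast this
      push_cast at h2
      exact h2
    obtain ⟨S, hSd⟩ : ∃ S : ℝ, S = ∑ m ∈ Finset.Icc (u1 - 2) (u2 + 2), cw m := ⟨_, rfl⟩
    rw [← hSd] at hS hS0 hw
    -- the three error terms
    have e1 : 3 * 10 ^ 6 * 10 ^ 15 * (n : ℝ) * (10 * θ / L) ≤ L / 8 := by
      rw [← hN]
      nlinarith
    have hθs : θ ≤ L / 10 ^ 30 := by
      have h1 : θ * N ≤ (L / 10 ^ 30) * N := by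
        refine hθN.trans ?_
        rw [div_mul_eq_mul_div, le_div_iff₀ (by positivity)]
        rw [le_div_iff₀ (by positivity)] at hWN
        nlinarith
      exact le_of_mul_le_mul_right h1 hN0
    have e2 : (1 + 1000 * 10 ^ 15) * S ≤ L / 8 := by
      rw [le_div_iff₀ (by positivity)] at hθs
      nlinarith
    have e3 : 2 * 10 ^ 5 * (10 ^ 15) ^ 2 * S ^ 2 ≤ L / 8 := by
      have h1 : S ^ 2 ≤ θ ^ 2 := pow_le_pow_left₀ hS0 hS 2
      have h2 : θ ^ 2 * N ^ 2 ≤ (1452 * W * L) ^ 2 := by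
        rw [← mul_pow]
        exact pow_le_pow_left₀ (by positivity) hθN 2
      have h3 : (1452 * W * L) ^ 2 ≤ (1452 ^ 2 * 2 * 10 ^ 27 * W ^ 3) * L := by
        have : (1452 * W * (L : ℝ)) ^ 2 = 1452 ^ 2 * W ^ 2 * L * L := by ring
        rw [this]
        have h4 : 1452 ^ 2 * W ^ 2 * (L : ℝ) ≤ 1452 ^ 2 * W ^ 2 * (2 * 10 ^ 27 * W) :=
          mul_le_mul_of_nonneg_left hL2 (by positivity)
        have h5 : 1452 ^ 2 * W ^ 2 * (2 * 10 ^ 27 * W) = 1452 ^ 2 * 2 * 10 ^ 27 * W ^ 3 := by ring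
        rw [h5] at h4
        exact mul_le_mul_of_nonneg_right h4 hLR0.le
      have h6 : (1452 ^ 2 * 2 * 10 ^ 27 * W ^ 3) * L ≤
          (1452 ^ 2 * 2 * 10 ^ 27 * (N ^ 2 / 10 ^ 120)) * L :=
        mul_le_mul_of_nonneg_right (mul_le_mul_of_nonneg_left hW3 (by positivity)) hLR0.le
      have h7 : θ ^ 2 * N ^ 2 ≤ ((1452 ^ 2 * 2 * 10 ^ 27 / 10 ^ 120) * L) * N ^ 2 := by
        refine (h2.trans (h3.trans h6)).trans (le_of_eq ?_)
        ring
      have h8 : θ ^ 2 ≤ (1452 ^ 2 * 2 * 10 ^ 27 / 10 ^ 120) * L :=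
        le_of_mul_le_mul_right h7 (by positivity)
      have h9 : 2 * 10 ^ 5 * (10 ^ 15) ^ 2 * S ^ 2 ≤
          2 * 10 ^ 5 * (10 ^ 15) ^ 2 * ((1452 ^ 2 * 2 * 10 ^ 27 / 10 ^ 120) * L) :=
        mul_le_mul_of_nonneg_left (h1.trans h8) (by positivity)
      refine h9.trans ?_
      have h10 : (2 * 10 ^ 5 * (10 ^ 15) ^ 2 * ((1452 ^ 2 * 2 * 10 ^ 27 / 10 ^ 120) * (L : ℝ))) =
          (2 * 10 ^ 5 * (10 ^ 15) ^ 2 * (1452 ^ 2 * 2 * 10 ^ 27 / 10 ^ 120)) * L := by ring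
      rw [h10]
      have h11 : (2 * 10 ^ 5 * (10 ^ 15) ^ 2 * (1452 ^ 2 * 2 * 10 ^ 27 / 10 ^ 120) : ℝ) ≤ 1 / 8 := by
        norm_num
      have := mul_le_mul_of_nonneg_right h11 hLR0.le
      linarith
    linarith
  -- total
  have htot : (R : ℝ) / 2 * (L / 1600) ≤ ∑ m ∈ Finset.Icc (1 : ℤ) n, g m := by
    refine le_trans ?_ (hsumB g hg)
    refine le_trans ?_ (Finset.sum_le_sum_of_subset_of_nonneg (s := Gd) ?_ ?_)
    · refine le_trans ?_ (Finset.sum_le_sum hen)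
      rw [Finset.sum_const, nsmul_eq_mul]
      exact mul_le_mul_of_nonneg_right hgood (by positivity)
    · rw [hGd]; exact Finset.filter_subset _ _
    · exact fun t _ _ => Finset.sum_nonneg (fun m _ => hg m)
  have hfin : ∑ m ∈ Finset.Icc (1 : ℤ) n, g m ≤ ∑ m ∈ Finset.Icc (-1 : ℤ) (n + 6), g m :=
    Finset.sum_le_sum_of_subset_of_nonneg (Finset.Icc_subset_Icc (by norm_num) (by omega))
      (fun m _ _ => hg m)
  have : N / 10 ^ 6 ≤ (R : ℝ) / 2 * (L / 1600) := by nlinarith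
  linarith

end Energy

/-- the energy of the small slopes is at least a constant times `n` -/
theorem energy_lower {n : ℕ} {o : ℝ × ℝ} {ι : Type} [Countable ι] {I : Finset ι} {Q : ι → USq} {W : ℝ}
    (h : Cvr n o I Q W)
    (hn : 1 ≤ n) (hW : 1 ≤ W) (hWn : 10 ^ 200 * W ^ 5 ≤ (n : ℝ) ^ 3)
    (τ : ℝ) (h1 : τ < 1 / 4) (hτ : 10 ^ 30 * W ≤ τ * n) :
    (n : ℝ) / 10 ^ 6 ≤ energy n Q τ := by
  classical
  have hom : ∀ c, 0 ≤ om Q c := fun c => wst_nonneg Q _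
  have hcw : ∀ m, 0 ≤ cw n Q m := fun m => Finset.sum_nonneg (fun k _ => hom _)
  have hE : energy n Q τ = ∑ m ∈ Finset.Icc (-1 : ℤ) (n + 6), ∑ k ∈ Finset.Icc (-1 : ℤ) (n + 6),
      (if gam Q (m, k) ≤ τ then gam Q (m, k) ^ 2 else 0) := by
    unfold energy cells
    rw [Finset.sum_product]
    refine Finset.sum_congr rfl (fun m _ => Finset.sum_congr rfl (fun k _ => ?_))
    by_cases hni : nice Q (m, k)
    · have hg : gam Q (m, k) = |bet Q (m, k)| := by unfold gam; rw [if_pos hni]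
      by_cases hgτ : gam Q (m, k) ≤ τ
      · rw [if_pos ⟨hni, hgτ⟩, if_pos hgτ, hg, sq_abs]
      · rw [if_neg (fun hh => hgτ hh.2), if_neg hgτ]
    · have hg : gam Q (m, k) = 1 / 4 := by unfold gam; rw [if_neg hni]
      rw [if_neg (fun hh => hni hh.1), if_neg]
      rw [hg]
      linarith
  rw [hE]
  refine Energy.count n hn W τ hW hWn hτ (cw n Q) _ hcw ?_ ?_ ?_
  · intro m
    refine Finset.sum_nonneg (fun k _ => ?_)
    split_ifs
    · positivity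
    · exact le_refl _
  · have h2 := sum_om h (Finset.Icc (1 : ℤ) n ×ˢ Finset.Icc (-1 : ℤ) (n + 6))
    rw [Finset.sum_product] at h2
    exact h2
  · intro u1 u2 hu1 hu hu2 w0 hw1 hw2 hw3
    have := window_low h hn u1 u2 hu1 hu hu2 w0 hw1 hw2 τ (by
      have e : (C0 : ℝ) = 10 ^ 15 := rfl
      rw [e]
      exact hw3)
    have e : (C0 : ℝ) = 10 ^ 15 := rfl
    rw [e] at this
    convert this using 4

end H282R5.PC
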