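import Pool.Agent.H282R5.PC.Defs
import Pool.Agent.H282R5.PC.Fin
import Pool.Agent.H282R5.PC.Geo
import Pool.Agent.H282R4.PK.Fmeas

/-!
Module Fmeas of project PC: measurability of the phases.
-/

namespace H282R5.PC

open MeasureTheory
open scoped Real ENNReal
open H282R3.SQ (USq Inside)
open H282R4.PK (slope rho tr F FH cell Rg Kg C0 Bx U V)

namespace Fmeas

/-- locally finite sums of measurable functions on the squares -/
theorem measurable_finsum {n : ℕ} {o : ℝ × ℝ} {ι : Type} [Countable ι] {I : Finset ι}
    {Q : ι → USq} {W : ℝ} (h : Cvr n o I Q W) (g : ι → ℝ × ℝ → ℂ) (hg : ∀ i, Measurable (g i)) :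
    Measurable (fun z => ∑ᶠ i, (Q i).C.indicator (g i) z) := by
  have hfin : ∀ z : ℝ × ℝ, (Function.support fun i => (Q i).C.indicator (g i) z).Finite := by
    intro z
    apply (fin_meet h {z} Bornology.isBounded_singleton).subset
    intro i hi
    refine ⟨z, ?_, rfl⟩
    by_contra hz
    exact hi (Set.indicator_of_notMem hz _)
  apply measurable_of_tendsto_metrizable' (Filter.atTop : Filter (Finset ι))
    (f := fun s z => ∑ i ∈ s, (Q i).C.indicator (g i) z)
  · intro s
    apply Finset.measurable_fun_sum
    intro i _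
    exact (hg i).indicator (H282R3.SQ.measurableSet_C (Q i))
  · rw [tendsto_pi_nhds]
    intro z
    have h1 := (summable_of_hasFiniteSupport (L := SummationFilter.unconditional ι)
      (hfin z)).hasSum
    rw [tsum_eq_finsum (hfin z)] at h1
    exact h1

theorem continuous_X (Q : USq) : Continuous Q.X := by
  unfold USq.X
  fun_prop

end Fmeas

theorem measurable_F {n : ℕ} {o : ℝ × ℝ} {ι : Type} [Countable ι] {I : Finset ι} {Q : ι → USq} {W : ℝ}
    (h : Cvr n o I Q W) :
    Measurable (F Q) := by
  unfold F
  apply Measurable.const_add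
  apply Fmeas.measurable_finsum h (fun i z => Complex.exp (2 * π * Complex.I * (Q i).Y z) + 1)
  intro i
  have := H282R3.SQ.continuous_Y (Q i)
  apply Continuous.measurable
  fun_prop

theorem measurable_FH {n : ℕ} {o : ℝ × ℝ} {ι : Type} [Countable ι] {I : Finset ι} {Q : ι → USq} {W : ℝ}
    (h : Cvr n o I Q W) :
    Measurable (FH Q) := by
  have h1 := measurable_F (Cvr.trans h)
  exact h1.comp measurable_swap

theorem measurable_Gs {n : ℕ} {o : ℝ × ℝ} {ι : Type} [Countable ι] {I : Finset ι} {Q : ι → USq} {W : ℝ}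
    (h : Cvr n o I Q W) :
    Measurable (Gs Q) := by
  unfold Gs
  apply Fmeas.measurable_finsum h (fun i z => Complex.exp (2 * π * Complex.I * (Q i).Y z) *
    (1 + Complex.exp (-(2 * π * Complex.I * (Q i).X z))))
  intro i
  have := H282R3.SQ.continuous_Y (Q i)
  have := Fmeas.continuous_X (Q i)
  apply Continuous.measurable
  fun_prop

end H282R5.PC
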