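import Pool.Agent.H282R5.PC.Defs
import Pool.Agent.H282R5.PC.Geo
import Pool.Agent.H282R5.PC.Fin
import Pool.Agent.H282R4.PK.Fnorm
import Pool.Agent.H282R4.PK.Fmeas
import Pool.Agent.H282R4.PK.Geo
import Pool.Agent.H282R3.SQ.Contact
import Pool.Agent.H282R3.SQ.Area

/-!
Module Fnorm of project PC: outside the overlaps the phases have modulus one almost everywhere,
and in general the modulus is at most `1 + 2 ov`.
-/

namespace H282R5.PC

open MeasureTheory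
open scoped Real ENNReal
open H282R3.SQ (USq Inside)
open H282R4.PK (slope rho tr F FH cell Rg Kg C0 Bx U V)

namespace Fnorm

theorem a_pos {n : ℕ} {o : ℝ × ℝ} {ι : Type} [Countable ι] {I : Finset ι} {Q : ι → USq} {W : ℝ}
    (h : Cvr n o I Q W) (i : ι) : 0 < (Q i).a := by
  have h1 := h.norm i
  have h2 := (Q i).unit
  have h3 : 0 ≤ (Q i).a := (abs_nonneg _).trans h1
  rcases h3.eq_or_lt with h4 | h4
  · rw [← h4] at h1 h2
    have h5 : (Q i).b = 0 := abs_nonpos_iff.1 h1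
    rw [h5] at h2
    norm_num at h2
  · exact h4

/-- almost every point of a horizontal line is off the lateral sides -/
theorem ae_X {n : ℕ} {o : ℝ × ℝ} {ι : Type} [Countable ι] {I : Finset ι} {Q : ι → USq} {W : ℝ}
    (h : Cvr n o I Q W) (y : ℝ) : ∀ᵐ X : ℝ, ∀ i, |(Q i).X (X, y)| ≠ 1 / 2 := by
  have hS : (⋃ i, ({(Q i).p + (1 / 2 - (Q i).b * (y - (Q i).q)) / (Q i).a,
      (Q i).p + (-(1 / 2) - (Q i).b * (y - (Q i).q)) / (Q i).a} : Set ℝ)).Countable :=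
    Set.countable_iUnion fun i => (Set.toFinite _).countable
  have hS0 := hS.measure_zero volume
  have hae : ∀ᵐ X : ℝ, X ∉ (⋃ i, ({(Q i).p + (1 / 2 - (Q i).b * (y - (Q i).q)) / (Q i).a,
      (Q i).p + (-(1 / 2) - (Q i).b * (y - (Q i).q)) / (Q i).a} : Set ℝ)) :=
    measure_eq_zero_iff_ae_notMem.1 hS0
  filter_upwards [hae] with X hX i hi
  apply hX
  have ha : 0 < (Q i).a := a_pos h i
  rw [Set.mem_iUnion]
  refine ⟨i, ?_⟩
  simp only [USq.X] at hi
  rcases (abs_eq (by norm_num : (0 : ℝ) ≤ 1 / 2)).1 hi with h1 | h1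
  · left
    field_simp
    linarith
  · right
    rw [Set.mem_singleton_iff]
    field_simp
    linarith

/-- almost every point of the plane is off the lateral sides (coordinates exchanged) -/
theorem swap_ae {n : ℕ} {o : ℝ × ℝ} {ι : Type} [Countable ι] {I : Finset ι} {Q : ι → USq} {W : ℝ}
    (h : Cvr n o I Q W) : ∀ᵐ z : ℝ × ℝ, ∀ i, |(Q i).X z.swap| ≠ 1 / 2 := by
  have hm : MeasurableSet {z : ℝ × ℝ | ∀ i, |(Q i).X z.swap| ≠ 1 / 2} := by
    have he : {z : ℝ × ℝ | ∀ i, |(Q i).X z.swap| ≠ 1 / 2} =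
        ⋂ i, {z : ℝ × ℝ | |(Q i).X z.swap| = 1 / 2}ᶜ := by
      ext z
      simp
    rw [he]
    refine MeasurableSet.iInter fun i => MeasurableSet.compl ?_
    have hc : Continuous fun z : ℝ × ℝ => |(Q i).X z.swap| := by
      simp only [USq.X]
      fun_prop
    exact measurableSet_eq_fun hc.measurable measurable_const
  rw [Measure.volume_eq_prod]
  exact (Measure.ae_prod_mem_iff_ae_ae_mem hm).2
    (Filter.Eventually.of_forall fun x => ae_X h x)

theorem plane_ae {n : ℕ} {o : ℝ × ℝ} {ι : Type} [Countable ι] {I : Finset ι} {Q : ι → USq} {W : ℝ}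
    (h : Cvr n o I Q W) : ∀ᵐ z : ℝ × ℝ, ∀ i, |(Q i).X z| ≠ 1 / 2 ∧ |(Q i).Y z| ≠ 1 / 2 := by
  have h1 : ∀ᵐ z : ℝ × ℝ, ∀ i, |(Q i).X z| ≠ 1 / 2 := by
    have hp : Measure.QuasiMeasurePreserving (Prod.swap : ℝ × ℝ → ℝ × ℝ) volume volume :=
      (Measure.measurePreserving_swap (μ := (volume : Measure ℝ))
        (ν := (volume : Measure ℝ))).quasiMeasurePreserving
    filter_upwards [hp.ae (swap_ae h)] with z hz
    rwa [Prod.swap_swap] at hz
  filter_upwards [h1, swap_ae (Cvr.trans h)] with z hz hz' i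
  refine ⟨hz i, ?_⟩
  have h2 := hz' i
  rwa [H282R4.PK.Geo.X_tr] at h2

/-- the open squares containing a point -/
theorem fin_O {n : ℕ} {o : ℝ × ℝ} {ι : Type} [Countable ι] {I : Finset ι} {Q : ι → USq} {W : ℝ}
    (h : Cvr n o I Q W) (z : ℝ × ℝ) : {i | z ∈ (Q i).O}.Finite := by
  apply (fin_meet h {z} Bornology.isBounded_singleton).subset
  intro i hi
  exact ⟨z, H282R3.SQ.O_subset_C _ hi, rfl⟩

theorem mult_eq {ι : Type} {Q : ι → USq} {z : ℝ × ℝ} (s : Finset ι)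
    (hs : ∀ i, i ∈ s ↔ z ∈ (Q i).O) : mult Q z = (s.card : ℝ≥0∞) := by
  unfold mult
  rw [tsum_eq_sum (s := s)]
  · rw [Finset.sum_congr rfl (g := fun _ => (1 : ℝ≥0∞))]
    · simp
    · intro i hi
      exact Set.indicator_of_mem ((hs i).1 hi) _
  · intro i hi
    exact Set.indicator_of_notMem (fun h => hi ((hs i).2 h)) _

theorem F_eq {ι : Type} {Q : ι → USq} {z : ℝ × ℝ} (s : Finset ι)
    (hs : ∀ i, i ∈ s ↔ z ∈ (Q i).O) (hz : ∀ i, |(Q i).X z| ≠ 1 / 2) :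
    F Q z = -1 + ∑ i ∈ s, (Complex.exp (2 * π * Complex.I * (Q i).Y z) + 1) := by
  unfold F
  congr 1
  rw [finsum_eq_sum_of_support_subset (s := s)]
  · refine Finset.sum_congr rfl fun i hi => ?_
    exact Set.indicator_of_mem (H282R3.SQ.O_subset_C _ ((hs i).1 hi)) _
  · intro i hi
    by_contra hi'
    apply hi
    show (Q i).C.indicator (fun z => Complex.exp (2 * π * Complex.I * (Q i).Y z) + 1) z = 0
    by_cases hC : z ∈ (Q i).C
    · rw [Set.indicator_of_mem hC]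
      refine H282R4.PK.Fnorm.exp_half ?_
      by_contra hY
      exact hi' (Finset.mem_coe.2 ((hs i).2
        ⟨lt_of_le_of_ne hC.1 (hz i), lt_of_le_of_ne hC.2 hY⟩))
    · exact Set.indicator_of_notMem hC _

theorem card_le_one {ι : Type} {Q : ι → USq} {z : ℝ × ℝ} (s : Finset ι)
    (hs : ∀ i, i ∈ s ↔ z ∈ (Q i).O) (ho : ov Q z = 0) : s.card ≤ 1 := by
  unfold ov at ho
  rw [mult_eq s hs, tsub_eq_zero_iff_le] at ho
  exact_mod_cast ho

theorem norm_F_of {ι : Type} {Q : ι → USq} {z : ℝ × ℝ} (s : Finset ι)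
    (hs : ∀ i, i ∈ s ↔ z ∈ (Q i).O) (hz : ∀ i, |(Q i).X z| ≠ 1 / 2) (ho : ov Q z = 0) :
    ‖F Q z‖ = 1 := by
  have h1 := card_le_one s hs ho
  rw [F_eq s hs hz]
  rcases Nat.le_one_iff_eq_zero_or_eq_one.1 h1 with h2 | h2
  · rw [Finset.card_eq_zero] at h2
    rw [h2]
    simp
  · obtain ⟨i, hi⟩ := Finset.card_eq_one.1 h2
    rw [hi, Finset.sum_singleton, neg_add_cancel_comm_assoc]
    exact H282R4.PK.Fnorm.norm_exp _

theorem norm_le_of {ι : Type} {Q : ι → USq} {z : ℝ × ℝ} (s : Finset ι)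
    (hs : ∀ i, i ∈ s ↔ z ∈ (Q i).O) (hz : ∀ i, |(Q i).X z| ≠ 1 / 2) :
    ‖F Q z‖ₑ ≤ 1 + 2 * ov Q z := by
  rw [F_eq s hs hz]
  unfold ov
  rw [mult_eq s hs]
  rcases Nat.eq_zero_or_pos s.card with h2 | h2
  · have h3 := h2
    rw [Finset.card_eq_zero] at h3
    rw [h3]
    simp
  · obtain ⟨m, hm⟩ : ∃ m, s.card = m + 1 := ⟨s.card - 1, by omega⟩
    have h4 : (-1 : ℂ) + ∑ i ∈ s, (Complex.exp (2 * π * Complex.I * (Q i).Y z) + 1) =
        (m : ℂ) + ∑ i ∈ s, Complex.exp (2 * π * Complex.I * (Q i).Y z) := by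
      rw [Finset.sum_add_distrib, Finset.sum_const, hm]
      simp
      ring
    have h5 : ‖(m : ℂ) + ∑ i ∈ s, Complex.exp (2 * π * Complex.I * (Q i).Y z)‖ ≤
        ((1 + 2 * m : ℕ) : ℝ) := by
      calc ‖(m : ℂ) + ∑ i ∈ s, Complex.exp (2 * π * Complex.I * (Q i).Y z)‖
          ≤ ‖(m : ℂ)‖ + ‖∑ i ∈ s, Complex.exp (2 * π * Complex.I * (Q i).Y z)‖ := norm_add_le _ _
        _ ≤ m + ∑ i ∈ s, ‖Complex.exp (2 * π * Complex.I * (Q i).Y z)‖ := by
            gcongr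
            · simp
            · exact norm_sum_le _ _
        _ = m + ∑ i ∈ s, (1 : ℝ) := by
            congr 1
            exact Finset.sum_congr rfl fun i _ => H282R4.PK.Fnorm.norm_exp _
        _ = ((1 + 2 * m : ℕ) : ℝ) := by
            rw [Finset.sum_const, hm]
            push_cast
            simp
            ring
    rw [h4, hm]
    have h6 : ((m + 1 : ℕ) : ℝ≥0∞) - 1 = m := by
      push_cast
      exact ENNReal.add_sub_cancel_right ENNReal.one_ne_top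
    rw [h6]
    have h7 : (1 : ℝ≥0∞) + 2 * m = ((1 + 2 * m : ℕ) : ℝ≥0∞) := by push_cast; rfl
    rw [h7, ← ofReal_norm, ← ENNReal.ofReal_natCast]
    exact ENNReal.ofReal_le_ofReal h5

end Fnorm

open Fnorm

/-- on every horizontal line the phase has modulus one almost everywhere outside the overlaps -/
theorem norm_F_horiz {n : ℕ} {o : ℝ × ℝ} {ι : Type} [Countable ι] {I : Finset ι} {Q : ι → USq} {W : ℝ}
    (h : Cvr n o I Q W)
    (y : ℝ) : ∀ᵐ X : ℝ, ov Q (X, y) = 0 → ‖F Q (X, y)‖ = 1 := by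
  filter_upwards [ae_X h y] with X hX ho
  exact norm_F_of (fin_O h (X, y)).toFinset (fun i => (fin_O h (X, y)).mem_toFinset) hX ho

theorem norm_F_le {n : ℕ} {o : ℝ × ℝ} {ι : Type} [Countable ι] {I : Finset ι} {Q : ι → USq} {W : ℝ}
    (h : Cvr n o I Q W)
    (y : ℝ) : ∀ᵐ X : ℝ, ‖F Q (X, y)‖ₑ ≤ 1 + 2 * ov Q (X, y) := by
  filter_upwards [ae_X h y] with X hX
  exact norm_le_of (fin_O h (X, y)).toFinset (fun i => (fin_O h (X, y)).mem_toFinset) hX

theorem norm_FH_vert {n : ℕ} {o : ℝ × ℝ} {ι : Type} [Countable ι] {I : Finset ι} {Q : ι → USq} {W : ℝ}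
    (h : Cvr n o I Q W)
    (x : ℝ) : ∀ᵐ Y : ℝ, ov Q (x, Y) = 0 → ‖FH Q (x, Y)‖ = 1 := by
  filter_upwards [norm_F_horiz (Cvr.trans h) x] with Y hY ho
  apply hY
  rw [ov_tr]
  exact ho

theorem norm_FH_le {n : ℕ} {o : ℝ × ℝ} {ι : Type} [Countable ι] {I : Finset ι} {Q : ι → USq} {W : ℝ}
    (h : Cvr n o I Q W)
    (x : ℝ) : ∀ᵐ Y : ℝ, ‖FH Q (x, Y)‖ₑ ≤ 1 + 2 * ov Q (x, Y) := by
  filter_upwards [norm_F_le (Cvr.trans h) x] with Y hY
  rw [ov_tr] at hY
  exact hY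

theorem good_ae {n : ℕ} {o : ℝ × ℝ} {ι : Type} [Countable ι] {I : Finset ι} {Q : ι → USq} {W : ℝ}
    (h : Cvr n o I Q W) :
    ∀ᵐ z : ℝ × ℝ, ov Q z = 0 → ‖F Q z‖ = 1 ∧ ‖FH Q z‖ = 1 ∧
      Gs Q z = F Q z * (1 + (starRingEnd ℂ) (FH Q z)) := by
  filter_upwards [plane_ae h] with z hz ho
  have hC : ∀ i, z ∈ (Q i).C → z ∈ (Q i).O := fun i hi =>
    ⟨lt_of_le_of_ne hi.1 (hz i).1, lt_of_le_of_ne hi.2 (hz i).2⟩
  obtain ⟨i, hi⟩ := cov h z
  have hcard := card_le_one (fin_O h z).toFinset (fun i => (fin_O h z).mem_toFinset) ho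
  have huniq : ∀ j, j ≠ i → z ∉ (Q j).C := by
    intro j hj hjC
    apply hj
    have h1 : j ∈ (fin_O h z).toFinset := (fin_O h z).mem_toFinset.2 (hC j hjC)
    have h2 : i ∈ (fin_O h z).toFinset := (fin_O h z).mem_toFinset.2 (hC i hi)
    exact Finset.card_le_one.1 hcard j h1 i h2
  have hF : F Q z = Complex.exp (2 * π * Complex.I * (Q i).Y z) := by
    rw [F, finsum_eq_single _ i (fun j hj => Set.indicator_of_notMem (huniq j hj) _),
      Set.indicator_of_mem hi, neg_add_cancel_comm_assoc]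
  have hFH : FH Q z = Complex.exp (2 * π * Complex.I * (Q i).X z) := by
    rw [H282R4.PK.FH_eq, finsum_eq_single _ i (fun j hj => Set.indicator_of_notMem (huniq j hj) _),
      Set.indicator_of_mem hi, neg_add_cancel_comm_assoc]
  have hG : Gs Q z = Complex.exp (2 * π * Complex.I * (Q i).Y z) *
      (1 + Complex.exp (-(2 * π * Complex.I * (Q i).X z))) := by
    rw [Gs, finsum_eq_single _ i (fun j hj => Set.indicator_of_notMem (huniq j hj) _),
      Set.indicator_of_mem hi]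
  refine ⟨?_, ?_, ?_⟩
  · rw [hF]
    exact H282R4.PK.Fnorm.norm_exp _
  · rw [hFH]
    exact H282R4.PK.Fnorm.norm_exp _
  · rw [hG, hF, hFH, ← Complex.exp_conj]
    congr 3
    simp only [map_mul, Complex.conj_I, Complex.conj_ofReal, map_ofNat]
    ring

end H282R5.PC
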