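import Pool.Agent.H282R4.PK.Defs

/-!
Coverings of the plane by unit squares around the box `[o, o+n]²`.
Project PC: a covering of `[0,n]²` by open unit squares uses at least `n² + c n^(3/5)` squares.
-/

namespace H282R5.PC

open MeasureTheory
open scoped Real ENNReal
open H282R3.SQ (USq Inside)
open H282R4.PK (slope rho tr F FH cell Rg Kg C0 Bx U V)

/-- number of open squares containing a point -/
noncomputable def mult {ι : Type} (Q : ι → USq) (z : ℝ × ℝ) : ℝ≥0∞ :=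
  ∑' i, (Q i).O.indicator (fun _ => (1 : ℝ≥0∞)) z

/-- the excess multiplicity -/
noncomputable def ov {ι : Type} (Q : ι → USq) (z : ℝ × ℝ) : ℝ≥0∞ := mult Q z - 1

/-- area plus length on the horizontal and vertical lines at integer height -/
noncomputable def lam : Measure (ℝ × ℝ) :=
  volume + Measure.sum (fun k : ℤ => (volume : Measure ℝ).map fun X => (X, (k : ℝ))) +
    Measure.sum (fun k : ℤ => (volume : Measure ℝ).map fun Y => ((k : ℝ), Y))

/-- the box `[o, o+n]²` -/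
def box (n : ℕ) (o : ℝ × ℝ) : Set (ℝ × ℝ) :=
  {z | o.1 ≤ z.1 ∧ z.1 ≤ o.1 + n ∧ o.2 ≤ z.2 ∧ z.2 ≤ o.2 + n}

/-- the axis-parallel unit square with lower left corner `o + c` -/
noncomputable def gsq (o : ℝ × ℝ) (c : ℤ × ℤ) : USq :=
  ⟨o.1 + c.1 + 1 / 2, o.2 + c.2 + 1 / 2, 1, 0, by norm_num⟩

/-- Covering of the plane by unit squares: finitely many squares (index set `I`) cover the box, the
others are the grid squares outside the box. -/
structure Cvr (n : ℕ) (o : ℝ × ℝ) {ι : Type} (I : Finset ι) (Q : ι → USq) (W : ℝ) : Prop where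
  o1 : 2 ≤ o.1
  o1' : o.1 ≤ 3
  o2 : 2 ≤ o.2
  o2' : o.2 ≤ 3
  norm : ∀ i, |(Q i).b| ≤ (Q i).a
  W_nonneg : 0 ≤ W
  waste : ∫⁻ z, ov Q z ∂lam ≤ ENNReal.ofReal W
  out : ∀ i, i ∉ I → ∃ c : ℤ × ℤ, ¬ Inside n c ∧ Q i = gsq o c
  out_ex : ∀ c : ℤ × ℤ, ¬ Inside n c → ∃ i, i ∉ I ∧ Q i = gsq o c
  out_inj : ∀ i j, i ∉ I → j ∉ I → Q i = Q j → i = j
  inner_cov : ∀ z ∈ box n o, ∃ i ∈ I, z ∈ (Q i).O
  inner_near : ∀ i ∈ I, ((Q i).C ∩ box n o).Nonempty

/-- waste in a set -/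
noncomputable def wst {ι : Type} (Q : ι → USq) (B : Set (ℝ × ℝ)) : ℝ :=
  (∫⁻ z in B, ov Q z ∂lam).toReal

/-- waste in the `11 × 11` window of a cell -/
noncomputable def om {ι : Type} (Q : ι → USq) (c : ℤ × ℤ) : ℝ := wst Q (Rg c)

/-- `sum of exp(2πi Y) (1 + exp(-2πi X))` over the squares containing the point; equal to
`F (1 + conj FH)` where there is no overlap -/
noncomputable def Gs {ι : Type} (Q : ι → USq) (z : ℝ × ℝ) : ℂ :=
  ∑ᶠ i, (Q i).C.indicator (fun z => Complex.exp (2 * π * Complex.I * (Q i).Y z) *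
    (1 + Complex.exp (-(2 * π * Complex.I * (Q i).X z)))) z

/-- a nice cell: little waste around and some square meeting it has slope at most `1/4` -/
def nice {ι : Type} (Q : ι → USq) (c : ℤ × ℤ) : Prop :=
  om Q c ≤ 1 / (16 * C0) ∧ ∃ i, ((Q i).C ∩ cell c).Nonempty ∧ |slope (Q i)| ≤ 1 / 4

open Classical in
/-- slope of a nice cell -/
noncomputable def bet {ι : Type} (Q : ι → USq) (c : ℤ × ℤ) : ℝ :=
  if h : nice Q c then slope (Q h.2.choose) else 0

open Classical in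
/-- absolute slope of a cell, `1/4` if not nice -/
noncomputable def gam {ι : Type} (Q : ι → USq) (c : ℤ × ℤ) : ℝ :=
  if nice Q c then |bet Q c| else 1 / 4

/-- waste in `B` plus sum of the deviations from the vertical reference vector `w` of all squares
meeting `B` -/
noncomputable def Dev {ι : Type} (Q : ι → USq) (w : ℝ × ℝ) (B : Set (ℝ × ℝ)) : ℝ :=
  wst Q B + ∑ᶠ i ∈ {i | ((Q i).C ∩ B).Nonempty}, |(Q i).a * w.1 + (Q i).b * w.2|

/-- waste along an L-shaped path of cells from `z` to `c` -/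
noncomputable def pathsum {ι : Type} (Q : ι → USq) (z c : ℤ × ℤ) : ℝ :=
  ∑ j ∈ Finset.uIcc z.1 c.1, om Q (j, z.2) + ∑ j ∈ Finset.uIcc z.2 c.2, om Q (c.1, j)

/-- total path waste in the box of size `L` at `z` -/
noncomputable def E {ι : Type} (Q : ι → USq) (L : ℕ) (z : ℤ × ℤ) : ℝ :=
  ∑ c ∈ Finset.Icc (z.1 - 4) (z.1 + L + 4) ×ˢ Finset.Icc (z.2 - 4) (z.2 + L + 4), pathsum Q z c

/-- the cell columns of the flow -/
noncomputable def cols (n : ℕ) : Finset ℤ := Finset.Icc (-(n : ℤ) - 6) (2 * n + 7)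

/-- all cells that carry energy -/
noncomputable def cells (n : ℕ) : Finset (ℤ × ℤ) :=
  Finset.Icc (-1 : ℤ) (n + 6) ×ˢ Finset.Icc (-1 : ℤ) (n + 6)

open Classical in
/-- energy of the slopes at most `τ` -/
noncomputable def energy {ι : Type} (n : ℕ) (Q : ι → USq) (τ : ℝ) : ℝ :=
  ∑ c ∈ cells n, if nice Q c ∧ gam Q c ≤ τ then bet Q c ^ 2 else 0

/-- total waste of the windows of the cells of level `k` -/
noncomputable def lvl {ι : Type} (n : ℕ) (Q : ι → USq) (k : ℤ) : ℝ := ∑ j ∈ cols n, om Q (j, k)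

/-- total waste of the windows of the cells of column `m` -/
noncomputable def cw {ι : Type} (n : ℕ) (Q : ι → USq) (m : ℤ) : ℝ :=
  ∑ k ∈ Finset.Icc (-1 : ℤ) (n + 6), om Q (m, k)

/-- the phase at the bottom -/
noncomputable def ph (o : ℝ × ℝ) : ℂ := -Complex.exp (-(2 * π * Complex.I * (o.2 : ℝ)))

/-- the cell of the centre of a square -/
noncomputable def cc (Q : USq) : ℤ × ℤ := (⌊Q.p⌋, ⌊Q.q⌋)

/-- The state of the flow at level `k`: alive set `P`, accumulated phase `Λ`, accumulated error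
`Er`, potential `m`; `s` is the total waste of the levels below `k`. -/
structure FS {ι : Type} (n : ℕ) (o : ℝ × ℝ) (Q : ι → USq) (τ : ℝ) (k : ℤ) (P : Set ℝ)
    (Λ Er m : ℝ → ℝ) (s : ℝ) : Prop where
  measP : MeasurableSet P
  measΛ : Measurable Λ
  measEr : Measurable Er
  measm : Measurable m
  sub : P ⊆ Set.Icc (o.1 - ((k : ℝ) + 1) / 4) (o.1 + n + ((k : ℝ) + 1) / 4)
  Λ_nonneg : ∀ X ∈ P, 0 ≤ Λ X
  Er_nonneg : ∀ X ∈ P, 0 ≤ Er X
  m_ge : ∀ X ∈ P, gam Q (⌊X⌋, k) ≤ m X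
  phase : ∀ X ∈ P, ‖F Q (X, (k : ℝ)) - ph o * Complex.exp (Complex.I * (Λ X : ℝ))‖ ≤ Er X
  err : ∫⁻ X in P, ENNReal.ofReal (Er X) ≤ ENNReal.ofReal (10 ^ 20 * s)
  pot : (∫⁻ X in P, ENNReal.ofReal (m X)) + ENNReal.ofReal (τ * n) ≤
    ENNReal.ofReal τ * volume P + ENNReal.ofReal (10 * C0 * s + 4 * C0 * lvl n Q k)
  left : volume (P ∩ Set.Iio o.1) ≤ ENNReal.ofReal (4 * C0 * s)
  right : volume (P ∩ Set.Ioi (o.1 + n)) ≤ ENNReal.ofReal (4 * C0 * s)
  var : eVariationOn Λ P ≤ ENNReal.ofReal (100 * τ * C0 * s)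

end H282R5.PC
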