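import Pool.Agent.H282R4.PK.LineG
import Pool.Agent.H282R5.PC.Defs
import Pool.Agent.H282R5.PC.Geo

/-! LineG (helper864): identity along one line in the row direction. -/

namespace H282R5.PC

open MeasureTheory
open scoped Real ENNReal
open H282R3.SQ (USq Inside)
open H282R4.PK (slope rho tr F FH cell Rg Kg C0 Bx U V)

namespace LineG

open Set

/-- The part of the overlaps in the identity along a line. -/
theorem ov_part {ι : Type} (J : Finset ι) (K : ι → Set ℝ) (hK : ∀ i, IsClosed (K i))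
    (ℓ : ℝ) (hℓ : 0 ≤ ℓ) (N : ℝ → ℝ≥0∞)
    (hN : ∀ᵐ s : ℝ, s ∈ Icc (0 : ℝ) ℓ →
      N s + 1 = ∑ i ∈ J, (K i).indicator (fun _ => (1 : ℝ≥0∞)) s)
    (D : ℝ → ℂ) (hD : Continuous D) (C : ℝ) (hC0 : 0 ≤ C) (hC : ∀ s, ‖D s‖ ≤ C) :
    ‖∑ i ∈ J, (∫ s in (0 : ℝ)..ℓ, (K i).indicator D s) - ∫ s in (0 : ℝ)..ℓ, D s‖ ≤
      C * (∫⁻ s in Icc (0 : ℝ) ℓ, N s).toReal := by
  classical
  have hDi : ∀ i, IntervalIntegrable ((K i).indicator D) volume 0 ℓ := by
    intro i
    have := (hD.intervalIntegrable (0 : ℝ) ℓ (μ := volume))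
    exact ⟨this.1.indicator (hK i).measurableSet, this.2.indicator (hK i).measurableSet⟩
  rw [← intervalIntegral.integral_finsetSum (fun i _ => hDi i),
    ← intervalIntegral.integral_sub (by
      have := IntervalIntegrable.sum J (fun i _ => hDi i)
      have h2 : (fun x => ∑ i ∈ J, (K i).indicator D x) = ∑ i ∈ J, (K i).indicator D := by
        ext x; rw [Finset.sum_apply]
      rw [h2]; exact this) (hD.intervalIntegrable _ _)]
  rw [intervalIntegral.integral_of_le hℓ, ← integral_Icc_eq_integral_Ioc]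
  refine (norm_integral_le_lintegral_norm _).trans ?_
  have hcount : ∀ s : ℝ, (∑ i ∈ J, (K i).indicator (fun _ => (1 : ℝ≥0∞)) s) =
      ((J.filter fun i => s ∈ K i).card : ℝ≥0∞) := by
    intro s
    rw [Finset.card_filter]
    push_cast
    apply Finset.sum_congr rfl
    intro i _
    by_cases h : s ∈ K i
    · rw [indicator_of_mem h, if_pos h]
    · rw [indicator_of_notMem h, if_neg h]
  have hcountD : ∀ s : ℝ, (∑ i ∈ J, (K i).indicator D s) =
      ((J.filter fun i => s ∈ K i).card : ℂ) * D s := by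
    intro s
    rw [Finset.card_filter]
    push_cast
    rw [Finset.sum_mul]
    apply Finset.sum_congr rfl
    intro i _
    by_cases h : s ∈ K i
    · rw [indicator_of_mem h, if_pos h, one_mul]
    · rw [indicator_of_notMem h, if_neg h, zero_mul]
  have hNc : ∀ᵐ s : ℝ, s ∈ Icc (0 : ℝ) ℓ → ∃ k : ℕ, k ≤ J.card ∧ N s = (k : ℝ≥0∞) ∧
      (J.filter fun i => s ∈ K i).card = k + 1 := by
    filter_upwards [hN] with s hs hsI
    have h1 := hs hsI
    rw [hcount] at h1
    have hpos : 1 ≤ (J.filter fun i => s ∈ K i).card := by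
      have : (1 : ℝ≥0∞) ≤ ((J.filter fun i => s ∈ K i).card : ℝ≥0∞) := by
        rw [← h1]; exact le_add_self
      exact_mod_cast this
    obtain ⟨k, hk⟩ : ∃ k, (J.filter fun i => s ∈ K i).card = k + 1 :=
      ⟨(J.filter fun i => s ∈ K i).card - 1, by omega⟩
    refine ⟨k, ?_, ?_, hk⟩
    · have := Finset.card_filter_le J (fun i => s ∈ K i)
      omega
    · rw [hk] at h1
      push_cast at h1
      exact (ENNReal.add_left_inj (by simp)).1 h1
  have hfin : ∫⁻ s in Icc (0 : ℝ) ℓ, N s ≠ ⊤ := by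
    have : ∫⁻ s in Icc (0 : ℝ) ℓ, N s ≤ ∫⁻ _ in Icc (0 : ℝ) ℓ, (J.card : ℝ≥0∞) := by
      apply setLIntegral_mono_ae' measurableSet_Icc
      filter_upwards [hNc] with s hs hsI
      obtain ⟨k, hk, hk2, -⟩ := hs hsI
      rw [hk2]
      exact_mod_cast hk
    refine ne_top_of_le_ne_top ?_ this
    rw [setLIntegral_const, Real.volume_Icc]
    exact ENNReal.mul_ne_top (by simp) ENNReal.ofReal_ne_top
  have hmain : ∫⁻ s in Icc (0 : ℝ) ℓ, ENNReal.ofReal ‖∑ i ∈ J, (K i).indicator D s - D s‖ ≤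
      ENNReal.ofReal C * ∫⁻ s in Icc (0 : ℝ) ℓ, N s := by
    rw [← lintegral_const_mul' _ _ ENNReal.ofReal_ne_top]
    apply setLIntegral_mono_ae' measurableSet_Icc
    filter_upwards [hNc] with s hs hsI
    obtain ⟨k, hk, hk2, hk3⟩ := hs hsI
    rw [hcountD, hk3, hk2]
    have e : (((k + 1 : ℕ) : ℂ) * D s - D s) = ((k : ℝ) : ℂ) * D s := by
      push_cast; ring
    rw [e, norm_mul, Complex.norm_real, Real.norm_eq_abs, abs_of_nonneg (Nat.cast_nonneg k),
      mul_comm, ENNReal.ofReal_mul (norm_nonneg _), ENNReal.ofReal_natCast]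
    gcongr
    exact hC s
  calc (∫⁻ s in Icc (0 : ℝ) ℓ, ENNReal.ofReal ‖∑ i ∈ J, (K i).indicator D s - D s‖).toReal
      ≤ (ENNReal.ofReal C * ∫⁻ s in Icc (0 : ℝ) ℓ, N s).toReal :=
        ENNReal.toReal_mono (ENNReal.mul_ne_top ENNReal.ofReal_ne_top hfin) hmain
    _ = C * (∫⁻ s in Icc (0 : ℝ) ℓ, N s).toReal := by
        rw [ENNReal.toReal_mul, ENNReal.toReal_ofReal hC0]

/-- `Gs` as a finite sum -/
theorem Gs_line {ι : Type} (Q : ι → USq) (J : Finset ι) (z : ℝ × ℝ)
    (hJ : ∀ i, z ∈ (Q i).C → i ∈ J) :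
    Gs Q z = ∑ i ∈ J, (Q i).C.indicator (fun z => Complex.exp (2 * π * Complex.I * (Q i).Y z) *
      (1 + Complex.exp (-(2 * π * Complex.I * (Q i).X z)))) z := by
  unfold Gs
  apply finsum_eq_sum_of_support_subset
  intro i hi
  apply hJ
  by_contra h
  exact hi (indicator_of_notMem h _)

/-- the excess multiplicity at a generic point -/
theorem ov_generic {ι : Type} (Q : ι → USq) (J : Finset ι) (z : ℝ × ℝ)
    (hJ : ∀ i, z ∈ (Q i).C → i ∈ J) (hg : ∀ i, z ∈ (Q i).C → z ∈ (Q i).O)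
    (hc : ∃ i, z ∈ (Q i).C) :
    ov Q z + 1 = ∑ i ∈ J, (Q i).C.indicator (fun _ => (1 : ℝ≥0∞)) z := by
  have hm : mult Q z = ∑ i ∈ J, (Q i).C.indicator (fun _ => (1 : ℝ≥0∞)) z := by
    unfold mult
    rw [tsum_eq_sum (s := J)]
    · apply Finset.sum_congr rfl
      intro i _
      by_cases h : z ∈ (Q i).C
      · rw [indicator_of_mem h, indicator_of_mem (hg i h)]
      · rw [indicator_of_notMem h, indicator_of_notMem
          (fun h' => h (H282R3.SQ.O_subset_C _ h'))]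
    · intro i hi
      exact indicator_of_notMem (fun h' => hi (hJ i (H282R3.SQ.O_subset_C _ h'))) _
  unfold ov
  rw [tsub_add_cancel_of_le, hm]
  obtain ⟨i, hi⟩ := hc
  rw [hm]
  refine le_trans ?_ (Finset.single_le_sum (f := fun i =>
    (Q i).C.indicator (fun _ => (1 : ℝ≥0∞)) z) (fun _ _ => zero_le) (hJ i hi))
  simp only [indicator_of_mem hi, le_refl]

end LineG

open H282R4.PK H282R4.PK.LineF H282R4.PK.LineG LineG in
/-- identity along one line in the row direction `u = (w.2, -w.1)` -/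
theorem line_G {n : ℕ} {o : ℝ × ℝ} {ι : Type} [Countable ι] {I : Finset ι} {Q : ι → USq} {W : ℝ}
    (h : Cvr n o I Q W)
    (z0 w : ℝ × ℝ) (hw : w.1 ^ 2 + w.2 ^ 2 = 1) (hw2 : |w.1| ≤ w.2 / 4) (ℓ : ℝ) (hℓ : 0 ≤ ℓ)
    (J : Finset ι)
    (hJ : ∀ i, ∀ s ∈ Set.Icc 0 ℓ, z0 + s • (w.2, -w.1) ∈ (Q i).C → i ∈ J)
    (hgen : ∀ᵐ s : ℝ, s ∈ Set.Icc 0 ℓ → ∀ i, z0 + s • (w.2, -w.1) ∈ (Q i).C →
      z0 + s • (w.2, -w.1) ∈ (Q i).O) :
    ‖Gs Q (z0 + ℓ • (w.2, -w.1)) * Complex.exp (2 * π * Complex.I * ℓ) - Gs Q z0 -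
        2 * π * Complex.I * ∫ s in (0 : ℝ)..ℓ,
          Complex.exp (2 * π * Complex.I * s) * F Q (z0 + s • (w.2, -w.1))‖ ≤
      2 * π * (∫⁻ s in Set.Icc (0 : ℝ) ℓ, ov Q (z0 + s • (w.2, -w.1))).toReal +
      ∑ i ∈ J, (6 * π * |(Q i).a * w.1 + (Q i).b * w.2| *
          (volume {s : ℝ | s ∈ Set.Icc 0 ℓ ∧ z0 + s • (w.2, -w.1) ∈ (Q i).C}).toReal +
        {i | ∃ s ∈ Set.Icc 0 ℓ, z0 + s • (w.2, -w.1) ∈ (Q i).C ∧
          |(Q i).Y (z0 + s • (w.2, -w.1))| = 1 / 2}.indicator (fun _ => (4 : ℝ)) i) := by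
  classical
  set u : ℝ × ℝ := (w.2, -w.1) with hu
  set κ : ι → ℝ := fun i => (Q i).a * u.1 + (Q i).b * u.2 with hκ
  set σ : ι → ℝ := fun i => -(Q i).b * u.1 + (Q i).a * u.2 with hσ
  set ψ : ι → ℝ → ℂ := fun i s =>
    Complex.exp (2 * π * Complex.I * (Q i).Y (z0 + s • u)) *
      (1 + Complex.exp (-(2 * π * Complex.I * (Q i).X (z0 + s • u)))) *
      Complex.exp (2 * π * Complex.I * s) with hψ
  set D0 : ℝ → ℂ := fun s => 2 * π * Complex.I * Complex.exp (2 * π * Complex.I * s) with hD0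
  set D : ι → ℝ → ℂ := fun i s => 2 * π * Complex.I * Complex.exp (2 * π * Complex.I * s) *
    Complex.exp (2 * π * Complex.I * (Q i).Y (z0 + s • u)) with hD
  set ψ' : ι → ℝ → ℂ := fun i s =>
    ((2 * π * Complex.I * σ i) * Complex.exp (2 * π * Complex.I * (Q i).Y (z0 + s • u)) *
      (1 + Complex.exp (-(2 * π * Complex.I * (Q i).X (z0 + s • u)))) +
      Complex.exp (2 * π * Complex.I * (Q i).Y (z0 + s • u)) *
      (-(2 * π * Complex.I * κ i) *
        Complex.exp (-(2 * π * Complex.I * (Q i).X (z0 + s • u))))) *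
      Complex.exp (2 * π * Complex.I * s) +
    Complex.exp (2 * π * Complex.I * (Q i).Y (z0 + s • u)) *
      (1 + Complex.exp (-(2 * π * Complex.I * (Q i).X (z0 + s • u)))) *
      (2 * π * Complex.I * Complex.exp (2 * π * Complex.I * s)) with hψ'
  have hYc : ∀ i, Continuous fun s : ℝ => (Q i).Y (z0 + s • u) := fun i =>
    (H282R3.SQ.continuous_Y (Q i)).comp (continuous_line z0 u)
  have hXc : ∀ i, Continuous fun s : ℝ => (Q i).X (z0 + s • u) := fun i =>
    (H282R3.SQ.continuous_X (Q i)).comp (continuous_line z0 u)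
  have hexpd : ∀ s : ℝ, HasDerivAt (fun s : ℝ => Complex.exp (2 * π * Complex.I * s))
      (2 * π * Complex.I * Complex.exp (2 * π * Complex.I * s)) s := by
    intro s
    have h1 : HasDerivAt (fun s : ℝ => (s : ℂ)) 1 s := Complex.ofRealCLM.hasDerivAt
    have h2 : HasDerivAt (fun s : ℝ => 2 * (π : ℂ) * Complex.I * s)
        (2 * (π : ℂ) * Complex.I * 1) s := h1.const_mul (2 * (π : ℂ) * Complex.I)
    refine HasDerivAt.congr_deriv h2.cexp ?_
    ring
  have hder : ∀ i s, HasDerivAt (ψ i) (ψ' i s) s := by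
    intro i s
    have h0 : HasDerivAt (fun s : ℝ => ((Q i).Y z0 + s * σ i : ℝ)) (σ i) s := by
      simpa using ((hasDerivAt_id s).mul_const (σ i)).const_add ((Q i).Y z0)
    have h1 : HasDerivAt (fun s : ℝ => (((Q i).Y (z0 + s • u) : ℝ) : ℂ)) (σ i : ℂ) s := by
      have := h0.ofReal_comp
      simpa only [Y_line] using this
    have h0' : HasDerivAt (fun s : ℝ => ((Q i).X z0 + s * κ i : ℝ)) (κ i) s := by
      simpa using ((hasDerivAt_id s).mul_const (κ i)).const_add ((Q i).X z0)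
    have h1' : HasDerivAt (fun s : ℝ => (((Q i).X (z0 + s • u) : ℝ) : ℂ)) (κ i : ℂ) s := by
      have := h0'.ofReal_comp
      simpa only [X_line] using this
    have h3 : HasDerivAt (fun s : ℝ => -(2 * (π : ℂ) * Complex.I *
        (((Q i).X (z0 + s • u) : ℝ) : ℂ))) (-(2 * (π : ℂ) * Complex.I * κ i)) s :=
      (h1'.const_mul (2 * (π : ℂ) * Complex.I)).neg
    have h4 := (((h1.const_mul (2 * (π : ℂ) * Complex.I)).cexp).mul (h3.cexp.const_add 1)).mul
      (hexpd s)
    refine HasDerivAt.congr_deriv h4 ?_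
    simp only [hψ', Pi.mul_apply]
    ring
  have hD0c : Continuous D0 := by
    rw [hD0]; fun_prop
  have hDc : ∀ i, Continuous (D i) := by
    intro i
    have := hYc i
    simp only [hD]
    fun_prop
  have hψ'c : ∀ i, Continuous (ψ' i) := by
    intro i
    have := hYc i
    have := hXc i
    simp only [hψ']
    fun_prop
  have hD0n : ∀ s, ‖D0 s‖ ≤ 2 * π := by
    intro s
    simp only [hD0]
    rw [norm_mul, norm_exp, mul_one, norm_mul, norm_mul, Complex.norm_I, mul_one]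
    simp [abs_of_pos Real.pi_pos]
  have hκσ : ∀ i, |1 - κ i| ≤ |σ i| := by
    intro i
    have h1 := (Q i).unit
    have h2 : κ i ^ 2 + σ i ^ 2 = 1 := by
      simp only [hκ, hσ, hu]
      calc ((Q i).a * w.2 + (Q i).b * -w.1) ^ 2 + (-(Q i).b * w.2 + (Q i).a * -w.1) ^ 2
          = ((Q i).a ^ 2 + (Q i).b ^ 2) * (w.1 ^ 2 + w.2 ^ 2) := by ring
        _ = 1 := by rw [h1, hw]; ring
    have h3 : 0 ≤ κ i := by
      simp only [hκ, hu]
      have hn := h.norm i
      have hw0 : |w.1| ≤ w.2 := by linarith [abs_nonneg w.1]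
      have e1 : (Q i).b * w.1 ≤ |(Q i).b| * |w.1| := by
        rw [← abs_mul]; exact le_abs_self _
      have e2 : |(Q i).b| * |w.1| ≤ (Q i).a * w.2 :=
        mul_le_mul hn hw0 (abs_nonneg _) ((abs_nonneg _).trans hn)
      linarith
    have h4 : κ i ≤ 1 := by nlinarith [sq_nonneg (σ i)]
    have h5 : |σ i| ≤ 1 := by
      rw [← sq_le_one_iff_abs_le_one]; nlinarith [sq_nonneg (κ i)]
    rw [abs_of_nonneg (by linarith)]
    have h6 : σ i ^ 2 = |σ i| ^ 2 := (sq_abs _).symm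
    nlinarith [abs_nonneg (σ i)]
  have hchord : ∀ i, ‖(K (Q i) z0 u).indicator (ψ i) ℓ - (K (Q i) z0 u).indicator (ψ i) 0 -
      ∫ s in (0 : ℝ)..ℓ, (K (Q i) z0 u).indicator (D i) s‖ ≤
      (6 * π * |(Q i).a * w.1 + (Q i).b * w.2|) *
        (volume {s : ℝ | s ∈ Set.Icc (0 : ℝ) ℓ ∧ s ∈ K (Q i) z0 u}).toReal +
      {i | ∃ s ∈ Set.Icc 0 ℓ, z0 + s • u ∈ (Q i).C ∧ |(Q i).Y (z0 + s • u)| = 1 / 2}.indicator
          (fun _ => (4 : ℝ)) i := by
    intro i
    have hσe : |(Q i).a * w.1 + (Q i).b * w.2| = |σ i| := by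
      rw [← abs_neg]; congr 1; simp only [hσ, hu]; ring
    rw [hσe]
    refine LineAux.chord (K (Q i) z0 u) {s : ℝ | z0 + s • u ∈ (Q i).O}
      {s : ℝ | |(Q i).Y (z0 + s • u)| = 1 / 2} (isClosed_K _ _ _) (ordConnected_K _ _ _)
      (isOpen_KO _ _ _) (fun s hs => H282R3.SQ.O_subset_C _ hs) (ψ i) (ψ' i) (D i) (hder i)
      (hψ'c i) (hDc i) _ ?_ ?_ ?_ ℓ hℓ _ ?_ ?_
    · intro s
      have : ψ' i s - D i s = (2 * π * Complex.I) *
          (Complex.exp (2 * π * Complex.I * (Q i).Y (z0 + s • u)) *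
            Complex.exp (2 * π * Complex.I * s)) *
          (((1 - κ i : ℝ) : ℂ) * Complex.exp (-(2 * π * Complex.I * (Q i).X (z0 + s • u))) +
            (σ i : ℂ) * (1 + Complex.exp (-(2 * π * Complex.I * (Q i).X (z0 + s • u))))) := by
        simp only [hψ', hD]
        push_cast
        ring
      rw [this, norm_mul, norm_mul, norm_mul, norm_mul _ (Complex.exp (2 * π * Complex.I * s)),
        norm_exp, norm_exp, Complex.norm_I]
      have hb : ‖((1 - κ i : ℝ) : ℂ) * Complex.exp (-(2 * π * Complex.I * (Q i).X (z0 + s • u))) +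
            (σ i : ℂ) * (1 + Complex.exp (-(2 * π * Complex.I * (Q i).X (z0 + s • u))))‖ ≤
            3 * |σ i| := by
        refine (norm_add_le _ _).trans ?_
        rw [norm_mul, norm_mul, norm_exp_neg, Complex.norm_real, Complex.norm_real,
          Real.norm_eq_abs, Real.norm_eq_abs, mul_one]
        have : ‖1 + Complex.exp (-(2 * π * Complex.I * (Q i).X (z0 + s • u)))‖ ≤ 2 := by
          refine (norm_add_le _ _).trans ?_
          rw [norm_exp_neg]; norm_num
        have := mul_le_mul_of_nonneg_left this (abs_nonneg (σ i))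
        linarith [hκσ i]
      have h2π : ‖2 * (π : ℂ)‖ = 2 * π := by
        rw [norm_mul, Complex.norm_real, Real.norm_eq_abs, abs_of_pos Real.pi_pos]; simp
      rw [h2π]
      have := mul_le_mul_of_nonneg_left hb (by positivity : (0 : ℝ) ≤ 2 * π)
      linarith
    · intro s hs hsO hsC
      have hX : |(Q i).X (z0 + s • u)| = 1 / 2 := by
        by_contra hcon
        exact hsO ⟨lt_of_le_of_ne hs.1 hcon, lt_of_le_of_ne hs.2 hsC⟩
      simp only [hψ]
      rw [exp_neg_half _ hX]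
      ring
    · intro s
      simp only [hψ]
      rw [norm_mul, norm_exp, mul_one, norm_mul, norm_exp, one_mul]
      refine (norm_add_le _ _).trans ?_
      rw [norm_exp_neg]
      norm_num
    · apply Set.indicator_nonneg
      intro _ _; norm_num
    · rintro ⟨s, hs1, hs2, hs3⟩
      exact Set.indicator_of_mem (s := {i | ∃ s ∈ Set.Icc 0 ℓ, z0 + s • u ∈ (Q i).C ∧
        |(Q i).Y (z0 + s • u)| = 1 / 2}) ⟨s, hs1, hs2, hs3⟩ _
  have hGe : ∀ s : ℝ, Gs Q (z0 + s • u) = ∑ i ∈ J, (Q i).C.indicator (fun z =>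
      Complex.exp (2 * π * Complex.I * (Q i).Y z) *
      (1 + Complex.exp (-(2 * π * Complex.I * (Q i).X z)))) (z0 + s • u) →
      Gs Q (z0 + s • u) * Complex.exp (2 * π * Complex.I * s) =
        ∑ i ∈ J, (K (Q i) z0 u).indicator (ψ i) s := by
    intro s hs
    rw [hs, Finset.sum_mul]
    apply Finset.sum_congr rfl
    intro i _
    by_cases hi : z0 + s • u ∈ (Q i).C
    · rw [Set.indicator_of_mem hi, Set.indicator_of_mem (show s ∈ K (Q i) z0 u from hi)]
    · rw [Set.indicator_of_notMem hi, Set.indicator_of_notMem (show s ∉ K (Q i) z0 u from hi),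
        zero_mul]
  have hG1 := hGe ℓ (LineG.Gs_line Q J _ (fun i hi => hJ i ℓ ⟨hℓ, le_refl _⟩ hi))
  have hG0 : Gs Q z0 = ∑ i ∈ J, (K (Q i) z0 u).indicator (ψ i) 0 := by
    have e : z0 + (0 : ℝ) • u = z0 := by simp
    have := hGe 0 (LineG.Gs_line Q J _ (fun i hi => hJ i 0 ⟨le_refl _, hℓ⟩ hi))
    rw [e] at this
    simpa using this
  have hKi : ∀ i (f : ℝ → ℂ), Continuous f →
      IntervalIntegrable ((K (Q i) z0 u).indicator f) volume 0 ℓ := by
    intro i f hf
    have := (hf.intervalIntegrable (0 : ℝ) ℓ (μ := volume))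
    exact ⟨this.1.indicator (isClosed_K _ _ _).measurableSet,
      this.2.indicator (isClosed_K _ _ _).measurableSet⟩
  have hFint : 2 * π * Complex.I * ∫ s in (0 : ℝ)..ℓ,
      Complex.exp (2 * π * Complex.I * s) * F Q (z0 + s • u) =
      (∑ i ∈ J, ∫ s in (0 : ℝ)..ℓ, (K (Q i) z0 u).indicator (D i) s) +
      (∑ i ∈ J, ∫ s in (0 : ℝ)..ℓ, (K (Q i) z0 u).indicator D0 s) - ∫ s in (0 : ℝ)..ℓ, D0 s := by
    rw [← intervalIntegral.integral_const_mul, ← Finset.sum_add_distrib]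
    have e1 : ∀ i ∈ J, (∫ s in (0 : ℝ)..ℓ, (K (Q i) z0 u).indicator (D i) s) +
        (∫ s in (0 : ℝ)..ℓ, (K (Q i) z0 u).indicator D0 s) =
        ∫ s in (0 : ℝ)..ℓ, ((K (Q i) z0 u).indicator (D i) s +
          (K (Q i) z0 u).indicator D0 s) := by
      intro i _
      rw [intervalIntegral.integral_add (hKi i _ (hDc i)) (hKi i _ hD0c)]
    rw [Finset.sum_congr rfl e1, ← intervalIntegral.integral_finsetSum
      (fun i _ => (hKi i _ (hDc i)).add (hKi i _ hD0c)),
      ← intervalIntegral.integral_sub (by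
        have := IntervalIntegrable.sum J (fun i _ => (hKi i _ (hDc i)).add (hKi i _ hD0c))
        have h2 : (fun x => ∑ i ∈ J, ((K (Q i) z0 u).indicator (D i) x +
            (K (Q i) z0 u).indicator D0 x)) =
            ∑ i ∈ J, ((K (Q i) z0 u).indicator (D i) + (K (Q i) z0 u).indicator D0) := by
          ext x; rw [Finset.sum_apply]; rfl
        rw [h2]; exact this) (hD0c.intervalIntegrable _ _)]
    apply intervalIntegral.integral_congr
    intro s hs
    rw [Set.uIcc_of_le hℓ] at hs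
    simp only
    rw [F_line Q J (z0 + s • u) (fun i hi => hJ i s hs hi)]
    have e2 : ∀ i ∈ J, (K (Q i) z0 u).indicator (D i) s + (K (Q i) z0 u).indicator D0 s =
        D0 s * (Q i).C.indicator
          (fun z => Complex.exp (2 * π * Complex.I * (Q i).Y z) + 1) (z0 + s • u) := by
      intro i _
      by_cases hi : z0 + s • u ∈ (Q i).C
      · rw [Set.indicator_of_mem hi, Set.indicator_of_mem (show s ∈ K (Q i) z0 u from hi),
          Set.indicator_of_mem (show s ∈ K (Q i) z0 u from hi)]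
        simp only [hD, hD0]
        ring
      · rw [Set.indicator_of_notMem hi, Set.indicator_of_notMem (show s ∉ K (Q i) z0 u from hi),
          Set.indicator_of_notMem (show s ∉ K (Q i) z0 u from hi)]
        ring
    rw [Finset.sum_congr rfl e2, ← Finset.mul_sum]
    simp only [hD0]
    ring
  have hgap := LineG.ov_part J (fun i => K (Q i) z0 u) (fun i => isClosed_K _ _ _) ℓ hℓ
    (fun s => ov Q (z0 + s • u)) (by
      filter_upwards [hgen] with s hs hsI
      rw [LineG.ov_generic Q J (z0 + s • u) (fun i hi => hJ i s hsI hi) (hs hsI)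
        (cov h (z0 + s • u))]
      apply Finset.sum_congr rfl
      intro i _
      by_cases hi : z0 + s • u ∈ (Q i).C
      · rw [Set.indicator_of_mem hi, Set.indicator_of_mem (show s ∈ K (Q i) z0 u from hi)]
      · rw [Set.indicator_of_notMem hi, Set.indicator_of_notMem (show s ∉ K (Q i) z0 u from hi)])
    D0 hD0c (2 * π) (by positivity) hD0n
  have hkey : Gs Q (z0 + ℓ • u) * Complex.exp (2 * π * Complex.I * ℓ) - Gs Q z0 -
        2 * π * Complex.I * ∫ s in (0 : ℝ)..ℓ,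
          Complex.exp (2 * π * Complex.I * s) * F Q (z0 + s • u) =
      -(∑ i ∈ J, (∫ s in (0 : ℝ)..ℓ, (K (Q i) z0 u).indicator D0 s) - ∫ s in (0 : ℝ)..ℓ, D0 s) +
      ∑ i ∈ J, ((K (Q i) z0 u).indicator (ψ i) ℓ - (K (Q i) z0 u).indicator (ψ i) 0 -
        ∫ s in (0 : ℝ)..ℓ, (K (Q i) z0 u).indicator (D i) s) := by
    rw [hG1, hG0, hFint, Finset.sum_sub_distrib, Finset.sum_sub_distrib]
    ring
  rw [hkey]
  refine (norm_add_le _ _).trans (add_le_add (by rw [norm_neg]; exact hgap) ?_)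
  refine (norm_sum_le _ _).trans (Finset.sum_le_sum fun i _ => ?_)
  exact hchord i

end H282R5.PC
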