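import Pool.Agent.H282R5.PC.Defs
import Pool.Agent.H282R5.PC.LineG
import Pool.Agent.H282R5.PC.Fin
import Pool.Agent.H282R4.PK.LineId
import Pool.Agent.H282R3.SQ.Area

/-!
Module LineId of project PC: the identity along the rows, integrated over the starting point
(helper368, adapted from the module of the same name of project PK).
-/

namespace H282R5.PC

open MeasureTheory
open scoped Real ENNReal
open H282R3.SQ (USq Inside)
open H282R4.PK (slope rho tr F FH cell Rg Kg C0 Bx U V)

namespace LineId

open H282R4.PK.LineId (fin_aff coordX coordY fub)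

/-- Fubini for the coordinates `(t, s)` -/
theorem fubL (z0 w : ℝ × ℝ) (hw : w.1 ^ 2 + w.2 ^ 2 = 1) (g : ℝ × ℝ → ℝ≥0∞)
    (hg : Measurable g) :
    (Measurable fun t : ℝ => ∫⁻ s : ℝ, g (z0 + t • w + s • (w.2, -w.1))) ∧
    ∫⁻ t : ℝ, ∫⁻ s : ℝ, g (z0 + t • w + s • (w.2, -w.1)) = ∫⁻ z, g z := by
  obtain ⟨Φ, hΦ⟩ : ∃ Φ : ℝ × ℝ → ℝ × ℝ, Φ = fun p => z0 + p.1 • w + p.2 • (w.2, -w.1) := ⟨_, rfl⟩
  have hΦm : Measurable Φ := by
    rw [hΦ]
    have : Continuous fun p : ℝ × ℝ => z0 + p.1 • w + p.2 • ((w.2, -w.1) : ℝ × ℝ) := by fun_prop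
    exact this.measurable
  have hmp : MeasurePreserving Φ (volume : Measure (ℝ × ℝ)) volume := by
    refine ⟨hΦm, ?_⟩
    ext A hA
    rw [Measure.map_apply hΦm hA, Measure.volume_eq_prod, Measure.prod_apply (hΦm hA),
      ← Measure.volume_eq_prod]
    rw [← (fub z0 w hw A hA).2, hΦ]
    rfl
  have hgm : Measurable fun p : ℝ × ℝ => g (Φ p) := hg.comp hΦm
  have e1 : (fun t : ℝ => ∫⁻ s : ℝ, g (z0 + t • w + s • (w.2, -w.1))) =
      fun t => ∫⁻ s : ℝ, g (Φ (t, s)) := by rw [hΦ]
  refine ⟨?_, ?_⟩
  · rw [e1]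
    exact hgm.lintegral_prod_right'
  · rw [e1, ← hmp.lintegral_comp hg, Measure.volume_eq_prod, lintegral_prod _ hgm.aemeasurable]

end LineId

open LineId H282R4.PK.LineId in
/-- integrated version -/
theorem line_id {n : ℕ} {o : ℝ × ℝ} {ι : Type} [Countable ι] {I : Finset ι} {Q : ι → USq} {W : ℝ}
    (h : Cvr n o I Q W)
    (z0 w : ℝ × ℝ) (hw : w.1 ^ 2 + w.2 ^ 2 = 1) (hw2 : |w.1| ≤ w.2 / 4) (t1 t2 ℓ : ℝ)
    (hℓ : 0 ≤ ℓ) (B : Set (ℝ × ℝ)) (hBm : MeasurableSet B) (hB : Bornology.IsBounded B)
    (hsub : ∀ t ∈ Set.Icc t1 t2, ∀ s ∈ Set.Icc 0 ℓ, z0 + t • w + s • (w.2, -w.1) ∈ B) :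
    ∫⁻ t in Set.Icc t1 t2, ‖Gs Q (z0 + t • w + ℓ • (w.2, -w.1)) *
        Complex.exp (2 * π * Complex.I * ℓ) - Gs Q (z0 + t • w) -
        2 * π * Complex.I * ∫ s in (0 : ℝ)..ℓ,
          Complex.exp (2 * π * Complex.I * s) * F Q (z0 + t • w + s • (w.2, -w.1))‖ₑ ≤
      ENNReal.ofReal (40 * Dev Q w B) := by
  classical
  -- constants of the squares
  set σ : ι → ℝ := fun i => (Q i).a * w.1 + (Q i).b * w.2 with hσ
  set κ : ι → ℝ := fun i => (Q i).a * w.2 - (Q i).b * w.1 with hκ
  have hw2pos : 0 < w.2 := by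
    rw [abs_le] at hw2
    nlinarith [hw2.1, hw2.2]
  have hκpos : ∀ i, 0 < κ i := by
    intro i
    have h1 := h.norm i
    have h2 := (Q i).unit
    rw [abs_le] at h1 hw2
    have ha : 0 < (Q i).a := by nlinarith [h1.1, h1.2]
    have h3 : |(Q i).b * w.1| ≤ (Q i).a * (w.2 / 4) := by
      rw [abs_mul]
      exact mul_le_mul (abs_le.2 h1) (abs_le.2 hw2) (abs_nonneg _) ha.le
    rw [abs_le] at h3
    have h4 : 0 < (Q i).a * w.2 := mul_pos ha hw2pos
    simp only [hκ]
    nlinarith [h3.1, h3.2]
  have hone : ∀ i, σ i ^ 2 + κ i ^ 2 = 1 := by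
    intro i
    have : σ i ^ 2 + κ i ^ 2 = ((Q i).a ^ 2 + (Q i).b ^ 2) * (w.1 ^ 2 + w.2 ^ 2) := by
      simp only [hσ, hκ]
      ring
    rw [this, (Q i).unit, hw, one_mul]
  have cX : ∀ i t s, (Q i).X (z0 + t • w + s • (w.2, -w.1)) =
      (Q i).X z0 + t * σ i + s * κ i := fun i t s => coordX (Q i) z0 w t s
  have cY : ∀ i t s, (Q i).Y (z0 + t • w + s • (w.2, -w.1)) =
      (Q i).Y z0 + t * κ i + s * (-σ i) := fun i t s => coordY (Q i) z0 w t s
  -- the finitely many squares meeting `B`
  have hfin := fin_meet h B hB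
  set J : Finset ι := hfin.toFinset with hJ
  -- exceptional parameters
  have hexc : ∀ᵐ t : ℝ, ∀ i, |(Q i).Y z0 + t * κ i| ≠ 1 / 2 := by
    rw [ae_all_iff]
    intro i
    have h2 := (fin_aff ((Q i).Y z0) (κ i) (hκpos i).ne').countable.ae_notMem volume
    filter_upwards [h2] with t ht heq
    exact ht heq
  -- the pointwise bound
  have hovm : Measurable (B.indicator (ov Q)) := (measurable_ov Q).indicator hBm
  set G1 : ℝ → ℝ≥0∞ := fun t => ∫⁻ s : ℝ, B.indicator (ov Q) (z0 + t • w + s • (w.2, -w.1))
    with hG1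
  set Gi : ι → ℝ → ℝ≥0∞ := fun i t =>
    volume {s : ℝ | z0 + t • w + s • (w.2, -w.1) ∈ (Q i).C} with hGi
  set m1 : ι → ℝ := fun i => κ i / 2 - σ i * (Q i).X z0 - κ i * (Q i).Y z0 with hm1
  set m2 : ι → ℝ := fun i => -(κ i / 2) - σ i * (Q i).X z0 - κ i * (Q i).Y z0 with hm2
  set T : ι → Set ℝ := fun i => Set.Icc (m1 i - |σ i| / 2) (m1 i + |σ i| / 2) ∪
    Set.Icc (m2 i - |σ i| / 2) (m2 i + |σ i| / 2) with hT
  have hTm : ∀ i, MeasurableSet (T i) := fun i => measurableSet_Icc.union measurableSet_Icc
  have hTv : ∀ i, volume (T i) ≤ ENNReal.ofReal (2 * |σ i|) := by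
    intro i
    refine (measure_union_le _ _).trans ?_
    rw [Real.volume_Icc, Real.volume_Icc, ← ENNReal.ofReal_add (by
      have := abs_nonneg (σ i); linarith) (by have := abs_nonneg (σ i); linarith)]
    apply le_of_eq
    congr 1
    ring
  have hbound : ∀ᵐ t : ℝ ∂(volume.restrict (Set.Icc t1 t2)),
      ‖Gs Q (z0 + t • w + ℓ • (w.2, -w.1)) *
        Complex.exp (2 * π * Complex.I * ℓ) - Gs Q (z0 + t • w) -
        2 * π * Complex.I * ∫ s in (0 : ℝ)..ℓ,
          Complex.exp (2 * π * Complex.I * s) * F Q (z0 + t • w + s • (w.2, -w.1))‖ₑ ≤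
      ENNReal.ofReal (2 * π) * G1 t + ∑ i ∈ J, (ENNReal.ofReal (6 * π * |σ i|) * Gi i t +
        4 * (T i).indicator (fun _ => (1 : ℝ≥0∞)) t) := by
    rw [ae_restrict_iff' measurableSet_Icc]
    filter_upwards [hexc] with t ht htI
    have hl := line_G h (z0 + t • w) w hw hw2 ℓ hℓ J ?_ ?_
    · rw [← ofReal_norm]
      refine (ENNReal.ofReal_le_ofReal hl).trans ?_
      refine (ENNReal.ofReal_add_le).trans ?_
      refine add_le_add ?_ ?_
      · rw [ENNReal.ofReal_mul (by positivity)]
        refine mul_le_mul' le_rfl ?_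
        refine ENNReal.ofReal_toReal_le.trans ?_
        rw [hG1]
        have e1 : ∫⁻ s in Set.Icc (0 : ℝ) ℓ, ov Q (z0 + t • w + s • (w.2, -w.1)) =
            ∫⁻ s in Set.Icc (0 : ℝ) ℓ, B.indicator (ov Q) (z0 + t • w + s • (w.2, -w.1)) := by
          refine setLIntegral_congr_fun measurableSet_Icc fun s hs => ?_
          rw [Set.indicator_of_mem (hsub t htI s hs)]
        rw [e1]
        exact setLIntegral_le_lintegral _ _
      · rw [ENNReal.ofReal_sum_of_nonneg]
        · refine Finset.sum_le_sum fun i _ => ?_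
          refine (ENNReal.ofReal_add_le).trans ?_
          refine add_le_add ?_ ?_
          · rw [ENNReal.ofReal_mul (by positivity)]
            refine mul_le_mul' le_rfl ?_
            refine ENNReal.ofReal_toReal_le.trans ?_
            refine measure_mono ?_
            rintro s ⟨hs1, hs2⟩
            exact hs2
          · by_cases hmem : i ∈ {i | ∃ s ∈ Set.Icc 0 ℓ, z0 + t • w + s • (w.2, -w.1) ∈ (Q i).C ∧
                |(Q i).Y (z0 + t • w + s • (w.2, -w.1))| = 1 / 2}
            · rw [Set.indicator_of_mem hmem]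
              have htT : t ∈ T i := by
                obtain ⟨s, hs, hzC, hY⟩ := hmem
                have hX := hzC.1
                rw [cX] at hX
                rw [cY] at hY
                have h1 : t = σ i * ((Q i).X z0 + t * σ i + s * κ i) +
                    κ i * ((Q i).Y z0 + t * κ i + s * (-σ i)) - σ i * (Q i).X z0 -
                    κ i * (Q i).Y z0 := by
                  linear_combination (-t) * hone i
                have h2 : |σ i * ((Q i).X z0 + t * σ i + s * κ i)| ≤ |σ i| / 2 := by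
                  rw [abs_mul]
                  have := mul_le_mul_of_nonneg_left hX (abs_nonneg (σ i))
                  linarith
                rw [abs_le] at h2
                rcases (abs_eq (by norm_num : (0 : ℝ) ≤ 1 / 2)).1 hY with h3 | h3
                · left
                  rw [h3] at h1
                  constructor
                  · rw [hm1]
                    simp only
                    linarith [h2.1]
                  · rw [hm1]
                    simp only
                    linarith [h2.2]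
                · right
                  rw [h3] at h1
                  constructor
                  · rw [hm2]
                    simp only
                    linarith [h2.1]
                  · rw [hm2]
                    simp only
                    linarith [h2.2]
              rw [Set.indicator_of_mem htT, mul_one]
              norm_num
            · rw [Set.indicator_of_notMem hmem]
              simp
        · intro i _
          refine add_nonneg (mul_nonneg (by positivity) ENNReal.toReal_nonneg) ?_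
          exact Set.indicator_nonneg (fun _ _ => by norm_num) i
    · intro i s hs hz
      rw [hJ, Set.Finite.mem_toFinset]
      exact ⟨_, hz, hsub t htI s hs⟩
    · -- a.e. on the line no point lies on a side
      have h1 : ∀ᵐ s : ℝ, ∀ i, |(Q i).X z0 + t * σ i + s * κ i| ≠ 1 / 2 ∧
          |(Q i).Y z0 + t * κ i + s * (-σ i)| ≠ 1 / 2 := by
        rw [ae_all_iff]
        intro i
        have h2 := (fin_aff ((Q i).X z0 + t * σ i) (κ i) (hκpos i).ne').countable.ae_notMem volume
        by_cases hσ0 : σ i = 0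
        · filter_upwards [h2] with s hs
          refine ⟨hs, ?_⟩
          have h3 := ht i
          rw [hσ0]
          simpa using h3
        · have h3 := (fin_aff ((Q i).Y z0 + t * κ i) (-σ i)
            (neg_ne_zero.2 hσ0)).countable.ae_notMem volume
          filter_upwards [h2, h3] with s hs hs'
          exact ⟨hs, hs'⟩
      filter_upwards [h1] with s hs _ i hi
      refine ⟨lt_of_le_of_ne hi.1 ?_, lt_of_le_of_ne hi.2 ?_⟩
      · rw [cX]; exact (hs i).1
      · rw [cY]; exact (hs i).2
  have f1 := fubL z0 w hw (B.indicator (ov Q)) hovm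
  have f2 := fun i => fub z0 w hw (Q i).C (H282R3.SQ.measurableSet_C (Q i))
  have harea : ∫⁻ z, B.indicator (ov Q) z ≤ ENNReal.ofReal (wst Q B) := by
    rw [lintegral_indicator hBm]
    exact area_le h B
  calc _ ≤ ∫⁻ t in Set.Icc t1 t2, (ENNReal.ofReal (2 * π) * G1 t +
        ∑ i ∈ J, (ENNReal.ofReal (6 * π * |σ i|) * Gi i t +
        4 * (T i).indicator (fun _ => (1 : ℝ≥0∞)) t)) := lintegral_mono_ae hbound
    _ ≤ ∫⁻ t, (ENNReal.ofReal (2 * π) * G1 t +
        ∑ i ∈ J, (ENNReal.ofReal (6 * π * |σ i|) * Gi i t +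
        4 * (T i).indicator (fun _ => (1 : ℝ≥0∞)) t)) := setLIntegral_le_lintegral _ _
    _ = ENNReal.ofReal (2 * π) * (∫⁻ z, B.indicator (ov Q) z) +
        ∑ i ∈ J, (ENNReal.ofReal (6 * π * |σ i|) * 1 + 4 * volume (T i)) := by
        rw [lintegral_add_left (f1.1.const_mul _), lintegral_const_mul _ f1.1, f1.2,
          lintegral_finsetSum']
        · congr 1
          refine Finset.sum_congr rfl fun i _ => ?_
          rw [lintegral_add_left ((f2 i).1.const_mul _), lintegral_const_mul _ (f2 i).1,
            (f2 i).2, H282R3.SQ.volume_C, lintegral_const_mul _ (measurable_const.indicator (hTm i)),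
            lintegral_indicator (hTm i)]
          simp
        · intro i _
          exact (((f2 i).1.const_mul _).add
            ((measurable_const.indicator (hTm i)).const_mul _)).aemeasurable
    _ ≤ ENNReal.ofReal (2 * π) * ENNReal.ofReal (wst Q B) +
        ∑ i ∈ J, (ENNReal.ofReal (6 * π * |σ i|) + 4 * ENNReal.ofReal (2 * |σ i|)) := by
        refine add_le_add (mul_le_mul' le_rfl harea) (Finset.sum_le_sum fun i _ => ?_)
        rw [mul_one]
        exact add_le_add le_rfl (mul_le_mul' le_rfl (hTv i))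
    _ = ENNReal.ofReal (2 * π * wst Q B +
        ∑ i ∈ J, (6 * π * |σ i| + 4 * (2 * |σ i|))) := by
        have e1 : ENNReal.ofReal (2 * π) * ENNReal.ofReal (wst Q B) =
            ENNReal.ofReal (2 * π * wst Q B) :=
          (ENNReal.ofReal_mul (by positivity)).symm
        have e2 : ∑ i ∈ J, (ENNReal.ofReal (6 * π * |σ i|) + 4 * ENNReal.ofReal (2 * |σ i|)) =
            ENNReal.ofReal (∑ i ∈ J, (6 * π * |σ i| + 4 * (2 * |σ i|))) := by
          rw [ENNReal.ofReal_sum_of_nonneg (fun i _ => by positivity)]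
          refine Finset.sum_congr rfl fun i _ => ?_
          rw [ENNReal.ofReal_add (by positivity) (by positivity)]
          congr 1
          rw [ENNReal.ofReal_mul (show (0 : ℝ) ≤ 4 by norm_num)]
          norm_num
        have hwn := wst_nonneg Q B
        rw [e1, e2, ← ENNReal.ofReal_add (by positivity) (Finset.sum_nonneg fun i _ => by positivity)]
    _ ≤ ENNReal.ofReal (40 * Dev Q w B) := by
        apply ENNReal.ofReal_le_ofReal
        unfold Dev
        rw [finsum_mem_eq_finite_toFinset_sum _ hfin, mul_add, Finset.mul_sum]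
        have hpi := Real.pi_lt_d2
        have hpi0 := Real.pi_pos
        refine add_le_add ?_ ?_
        · exact mul_le_mul_of_nonneg_right (by linarith) (wst_nonneg Q B)
        · apply Finset.sum_le_sum
          intro i _
          have h1 : 0 ≤ |σ i| := abs_nonneg _
          have h2 : 6 * π * |σ i| ≤ 6 * 3.15 * |σ i| :=
            mul_le_mul_of_nonneg_right (by linarith) h1
          show 6 * π * |σ i| + 4 * (2 * |σ i|) ≤ 40 * |σ i|
          linarith

end H282R5.PC
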