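import Pool.Agent.H282R5.PC.Defs
import Pool.Agent.H282R5.PC.Geo
import Pool.Agent.H282R4.PK.LineF

/-! The vertical phase along one line, for coverings (helper338). -/

namespace H282R5.PC

open MeasureTheory
open scoped Real ENNReal
open H282R3.SQ (USq Inside)
open H282R4.PK (slope rho tr F FH cell Rg Kg C0 Bx U V)

namespace LineF

open Set

/-- the part of the phase that comes from the overlap -/
theorem over_part {ι : Type} (I : Finset ι) (K : ι → Set ℝ) (hK : ∀ i, IsClosed (K i))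
    (ℓ : ℝ) (hℓ : 0 ≤ ℓ) (v : ℝ → ℝ≥0∞)
    (hgen : ∀ᵐ s : ℝ, s ∈ Icc (0 : ℝ) ℓ → v s ≠ ⊤ ∧
      ∑ i ∈ I, (K i).indicator (fun _ => (1 : ℝ)) s = 1 + (v s).toReal)
    (D : ℝ → ℂ) (hD : Continuous D) (C : ℝ) (hC : ∀ s, ‖D s‖ ≤ C) :
    ‖∑ i ∈ I, (∫ s in (0 : ℝ)..ℓ, (K i).indicator D s) - ∫ s in (0 : ℝ)..ℓ, D s‖ ≤
      C * (∫⁻ s in Icc (0 : ℝ) ℓ, v s).toReal := by
  classical
  have hC0 : 0 ≤ C := (norm_nonneg _).trans (hC 0)
  have hDi : ∀ i, IntervalIntegrable ((K i).indicator D) volume 0 ℓ := by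
    intro i
    have := (hD.intervalIntegrable (0 : ℝ) ℓ (μ := volume))
    exact ⟨this.1.indicator (hK i).measurableSet, this.2.indicator (hK i).measurableSet⟩
  rw [← intervalIntegral.integral_finsetSum (fun i _ => hDi i),
    ← intervalIntegral.integral_sub (by
      have := IntervalIntegrable.sum I (fun i _ => hDi i)
      have h2 : (fun x => ∑ i ∈ I, (K i).indicator D x) = ∑ i ∈ I, (K i).indicator D := by
        ext x; rw [Finset.sum_apply]
      rw [h2]; exact this) (hD.intervalIntegrable _ _)]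
  rw [intervalIntegral.integral_of_le hℓ, ← integral_Icc_eq_integral_Ioc]
  have hgen' : ∀ᵐ s ∂(volume.restrict (Icc (0 : ℝ) ℓ)), v s ≠ ⊤ ∧
      ∑ i ∈ I, (K i).indicator (fun _ => (1 : ℝ)) s = 1 + (v s).toReal :=
    (ae_restrict_iff' measurableSet_Icc).2 hgen
  have hfin : ∫⁻ s in Icc (0 : ℝ) ℓ, v s ≠ ⊤ := by
    have h1 : ∫⁻ s in Icc (0 : ℝ) ℓ, v s ≤ ∫⁻ _ in Icc (0 : ℝ) ℓ, (I.card : ℝ≥0∞) := by
      apply lintegral_mono_ae
      filter_upwards [hgen'] with s hs
      have h2 : (v s).toReal ≤ I.card := by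
        have h3 : ∑ i ∈ I, (K i).indicator (fun _ => (1 : ℝ)) s ≤ ∑ i ∈ I, (1 : ℝ) := by
          apply Finset.sum_le_sum
          intro i _
          by_cases h : s ∈ K i
          · rw [indicator_of_mem h]
          · rw [indicator_of_notMem h]; norm_num
        rw [hs.2] at h3
        simp only [Finset.sum_const, nsmul_eq_mul, mul_one] at h3
        linarith
      rw [← ENNReal.ofReal_toReal hs.1]
      refine (ENNReal.ofReal_le_ofReal h2).trans ?_
      rw [ENNReal.ofReal_natCast]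
    refine ne_top_of_le_ne_top ?_ h1
    rw [setLIntegral_const, Real.volume_Icc]
    exact ENNReal.mul_ne_top (ENNReal.natCast_ne_top _) ENNReal.ofReal_ne_top
  refine (norm_integral_le_lintegral_norm _).trans ?_
  have hle : ∫⁻ s in Icc (0 : ℝ) ℓ, ENNReal.ofReal ‖∑ i ∈ I, (K i).indicator D s - D s‖ ≤
      ENNReal.ofReal C * ∫⁻ s in Icc (0 : ℝ) ℓ, v s := by
    rw [← lintegral_const_mul' _ _ ENNReal.ofReal_ne_top]
    apply lintegral_mono_ae
    filter_upwards [hgen'] with s hs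
    have h1 : ∑ i ∈ I, (K i).indicator D s - D s = (((v s).toReal : ℝ) : ℂ) * D s := by
      have h2 : ∑ i ∈ I, (K i).indicator D s =
          ((∑ i ∈ I, (K i).indicator (fun _ => (1 : ℝ)) s : ℝ) : ℂ) * D s := by
        rw [Complex.ofReal_sum, Finset.sum_mul]
        apply Finset.sum_congr rfl
        intro i _
        by_cases h : s ∈ K i
        · rw [indicator_of_mem h, indicator_of_mem h]; simp
        · rw [indicator_of_notMem h, indicator_of_notMem h]; simp
      rw [h2, hs.2]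
      push_cast
      ring
    rw [h1, norm_mul, Complex.norm_real, Real.norm_eq_abs, abs_of_nonneg ENNReal.toReal_nonneg,
      mul_comm, ENNReal.ofReal_mul (norm_nonneg _), ENNReal.ofReal_toReal hs.1]
    gcongr
    exact hC s
  have := ENNReal.toReal_mono (ENNReal.mul_ne_top ENNReal.ofReal_ne_top hfin) hle
  rwa [ENNReal.toReal_mul, ENNReal.toReal_ofReal hC0] at this

/-- the excess multiplicity at a generic covered point -/
theorem ov_eq {ι : Type} (Q : ι → USq) (J : Finset ι) (z : ℝ × ℝ)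
    (hJ : ∀ i, z ∈ (Q i).C → i ∈ J) (hO : ∀ i, z ∈ (Q i).C → z ∈ (Q i).O)
    (hcov : ∃ i, z ∈ (Q i).C) :
    ov Q z ≠ ⊤ ∧ ∑ i ∈ J, (Q i).C.indicator (fun _ => (1 : ℝ)) z = 1 + (ov Q z).toReal := by
  classical
  have hCO : ∀ i, z ∈ (Q i).C ↔ z ∈ (Q i).O := fun i =>
    ⟨hO i, fun h => H282R3.SQ.O_subset_C _ h⟩
  have hm : mult Q z = ENNReal.ofReal (∑ i ∈ J, (Q i).C.indicator (fun _ => (1 : ℝ)) z) := by
    unfold mult
    rw [tsum_eq_sum (s := J)]
    · rw [ENNReal.ofReal_sum_of_nonneg]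
      · apply Finset.sum_congr rfl
        intro i _
        by_cases h : z ∈ (Q i).C
        · rw [indicator_of_mem h, indicator_of_mem ((hCO i).1 h)]; simp
        · rw [indicator_of_notMem h, indicator_of_notMem (fun h' => h ((hCO i).2 h'))]; simp
      · intro i _
        apply indicator_nonneg
        intro _ _; norm_num
    · intro i hi
      exact indicator_of_notMem (fun h' => hi (hJ i ((hCO i).2 h'))) _
  have h1 : (1 : ℝ) ≤ ∑ i ∈ J, (Q i).C.indicator (fun _ => (1 : ℝ)) z := by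
    obtain ⟨i, hi⟩ := hcov
    have h2 : (Q i).C.indicator (fun _ => (1 : ℝ)) z ≤
        ∑ i ∈ J, (Q i).C.indicator (fun _ => (1 : ℝ)) z := by
      apply Finset.single_le_sum (f := fun i => (Q i).C.indicator (fun _ => (1 : ℝ)) z)
      · intro j _
        apply indicator_nonneg
        intro _ _; norm_num
      · exact hJ i hi
    rwa [indicator_of_mem hi] at h2
  have h3 : ov Q z =
      ENNReal.ofReal (∑ i ∈ J, (Q i).C.indicator (fun _ => (1 : ℝ)) z - 1) := by
    unfold ov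
    rw [hm, ENNReal.ofReal_sub _ zero_le_one, ENNReal.ofReal_one]
  rw [h3]
  refine ⟨ENNReal.ofReal_ne_top, ?_⟩
  rw [ENNReal.toReal_ofReal (by linarith)]
  ring

end LineF

open LineF H282R4.PK.LineF in
/-- the phase along one line in the direction of the vertical reference vector `w` -/
theorem line_F {n : ℕ} {o : ℝ × ℝ} {ι : Type} [Countable ι] {I : Finset ι} {Q : ι → USq} {W : ℝ}
    (h : Cvr n o I Q W)
    (z0 w : ℝ × ℝ) (hw : w.1 ^ 2 + w.2 ^ 2 = 1) (hw2 : |w.1| ≤ w.2 / 4) (ℓ : ℝ) (hℓ : 0 ≤ ℓ)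
    (J : Finset ι) (hJ : ∀ i, ∀ s ∈ Set.Icc 0 ℓ, z0 + s • w ∈ (Q i).C → i ∈ J)
    (hgen : ∀ᵐ s : ℝ, s ∈ Set.Icc 0 ℓ → ∀ i, z0 + s • w ∈ (Q i).C → z0 + s • w ∈ (Q i).O) :
    ‖F Q (z0 + ℓ • w) * Complex.exp (-(2 * π * Complex.I * ℓ)) - F Q z0‖ ≤
      2 * π * (∫⁻ s in Set.Icc (0 : ℝ) ℓ, ov Q (z0 + s • w)).toReal +
      ∑ i ∈ J, (2 * π * |1 - (-(Q i).b * w.1 + (Q i).a * w.2)| *
          (volume {s : ℝ | s ∈ Set.Icc 0 ℓ ∧ z0 + s • w ∈ (Q i).C}).toReal +
        {i | ∃ s ∈ Set.Icc 0 ℓ, z0 + s • w ∈ (Q i).C ∧ |(Q i).X (z0 + s • w)| = 1 / 2}.indicator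
          (fun _ => (4 : ℝ)) i) := by
  classical
  set κ : ι → ℝ := fun i => -(Q i).b * w.1 + (Q i).a * w.2 with hκ
  set φ : ι → ℝ → ℂ := fun i s =>
    (Complex.exp (2 * π * Complex.I * (Q i).Y (z0 + s • w)) + 1) *
      Complex.exp (-(2 * π * Complex.I * s)) with hφ
  set D : ℝ → ℂ := fun s => -(2 * π * Complex.I) * Complex.exp (-(2 * π * Complex.I * s)) with hD
  set φ' : ι → ℝ → ℂ := fun i s =>
    (2 * π * Complex.I * κ i) * Complex.exp (2 * π * Complex.I * (Q i).Y (z0 + s • w)) *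
      Complex.exp (-(2 * π * Complex.I * s)) +
    (Complex.exp (2 * π * Complex.I * (Q i).Y (z0 + s • w)) + 1) *
      (-(2 * π * Complex.I) * Complex.exp (-(2 * π * Complex.I * s))) with hφ'
  have hYc : ∀ i, Continuous fun s : ℝ => (Q i).Y (z0 + s • w) := fun i =>
    (H282R3.SQ.continuous_Y (Q i)).comp (continuous_line z0 w)
  have hexpd : ∀ s : ℝ, HasDerivAt (fun s : ℝ => Complex.exp (-(2 * π * Complex.I * s)))
      (-(2 * π * Complex.I) * Complex.exp (-(2 * π * Complex.I * s))) s := by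
    intro s
    have h1 : HasDerivAt (fun s : ℝ => (s : ℂ)) 1 s := Complex.ofRealCLM.hasDerivAt
    have h2 : HasDerivAt (fun s : ℝ => -(2 * (π : ℂ) * Complex.I * s))
        (-(2 * (π : ℂ) * Complex.I * 1)) s := (h1.const_mul (2 * (π : ℂ) * Complex.I)).neg
    have h3 := h2.cexp
    convert h3 using 1
    ring
  have hder : ∀ i s, HasDerivAt (φ i) (φ' i s) s := by
    intro i s
    have h0 : HasDerivAt (fun s : ℝ => ((Q i).Y z0 + s * κ i : ℝ)) (κ i) s := by
      simpa using ((hasDerivAt_id s).mul_const (κ i)).const_add ((Q i).Y z0)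
    have h1 : HasDerivAt (fun s : ℝ => (((Q i).Y (z0 + s • w) : ℝ) : ℂ)) (κ i : ℂ) s := by
      have := h0.ofReal_comp
      simpa only [Y_line] using this
    have h2 := ((h1.const_mul (2 * (π : ℂ) * Complex.I)).cexp.add_const 1).mul (hexpd s)
    refine HasDerivAt.congr_deriv h2 ?_
    simp only [hφ']
    ring
  have hDc : Continuous D := by
    rw [hD]; fun_prop
  have hφ'c : ∀ i, Continuous (φ' i) := by
    intro i
    have := hYc i
    simp only [hφ']
    fun_prop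
  have hDn : ∀ s, ‖D s‖ ≤ 2 * π := by
    intro s
    simp only [hD]
    rw [norm_mul, norm_exp_neg, mul_one, norm_neg, norm_mul, norm_mul, Complex.norm_I, mul_one]
    simp [abs_of_pos Real.pi_pos]
  have hchord : ∀ i, ‖(K (Q i) z0 w).indicator (φ i) ℓ - (K (Q i) z0 w).indicator (φ i) 0 -
      ∫ s in (0 : ℝ)..ℓ, (K (Q i) z0 w).indicator D s‖ ≤
      (2 * π * |1 - κ i|) * (volume {s : ℝ | s ∈ Set.Icc (0 : ℝ) ℓ ∧ s ∈ K (Q i) z0 w}).toReal +
      {i | ∃ s ∈ Set.Icc 0 ℓ, z0 + s • w ∈ (Q i).C ∧ |(Q i).X (z0 + s • w)| = 1 / 2}.indicator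
          (fun _ => (4 : ℝ)) i := by
    intro i
    refine H282R4.PK.LineAux.chord (K (Q i) z0 w) {s : ℝ | z0 + s • w ∈ (Q i).O}
      {s : ℝ | |(Q i).X (z0 + s • w)| = 1 / 2} (isClosed_K _ _ _) (ordConnected_K _ _ _)
      (isOpen_KO _ _ _) (fun s hs => H282R3.SQ.O_subset_C _ hs) (φ i) (φ' i) D (hder i) (hφ'c i)
      hDc _ ?_ ?_ ?_ ℓ hℓ _ ?_ ?_
    · intro s
      have : φ' i s - D s = (2 * π * Complex.I * ((κ i - 1 : ℝ) : ℂ)) *
          (Complex.exp (2 * π * Complex.I * (Q i).Y (z0 + s • w)) *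
            Complex.exp (-(2 * π * Complex.I * s))) := by
        simp only [hφ', hD]
        push_cast
        ring
      rw [this]
      simp only [norm_mul, norm_exp, norm_exp_neg, Complex.norm_I, Complex.norm_real,
        Real.norm_eq_abs, abs_sub_comm (κ i) 1, mul_one, abs_of_pos Real.pi_pos]
      simp
    · intro s hs hsO hsC
      have hY : |(Q i).Y (z0 + s • w)| = 1 / 2 := by
        by_contra hcon
        exact hsO ⟨lt_of_le_of_ne hs.1 hsC, lt_of_le_of_ne hs.2 hcon⟩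
      simp only [hφ]
      rw [exp_half _ hY]
      ring
    · intro s
      simp only [hφ]
      rw [norm_mul, norm_exp_neg, mul_one]
      refine (norm_add_le _ _).trans ?_
      rw [norm_exp]
      norm_num
    · apply Set.indicator_nonneg
      intro _ _; norm_num
    · rintro ⟨s, hs1, hs2, hs3⟩
      exact Set.indicator_of_mem (s := {i | ∃ s ∈ Set.Icc 0 ℓ, z0 + s • w ∈ (Q i).C ∧
        |(Q i).X (z0 + s • w)| = 1 / 2}) ⟨s, hs1, hs2, hs3⟩ _
  have hH : ∀ s ∈ Set.Icc (0 : ℝ) ℓ, F Q (z0 + s • w) * Complex.exp (-(2 * π * Complex.I * s)) =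
      -Complex.exp (-(2 * π * Complex.I * s)) + ∑ i ∈ J, (K (Q i) z0 w).indicator (φ i) s := by
    intro s hs
    rw [F_line Q J (z0 + s • w) (fun i hi => hJ i s hs hi), add_mul, Finset.sum_mul]
    congr 1
    · ring
    · apply Finset.sum_congr rfl
      intro i _
      by_cases hi : z0 + s • w ∈ (Q i).C
      · rw [Set.indicator_of_mem hi, Set.indicator_of_mem (show s ∈ K (Q i) z0 w from hi)]
      · rw [Set.indicator_of_notMem hi, Set.indicator_of_notMem (show s ∉ K (Q i) z0 w from hi),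
          zero_mul]
  have hF0 : F Q z0 = -1 + ∑ i ∈ J, (K (Q i) z0 w).indicator (φ i) 0 := by
    have := hH 0 ⟨le_refl _, hℓ⟩
    simpa using this
  have hDint : ∫ s in (0 : ℝ)..ℓ, D s = Complex.exp (-(2 * π * Complex.I * ℓ)) - 1 := by
    rw [intervalIntegral.integral_eq_sub_of_hasDerivAt (fun s _ => hexpd s)
      (hDc.intervalIntegrable _ _)]
    simp
  have hgap := over_part J (fun i => K (Q i) z0 w) (fun i => isClosed_K _ _ _) ℓ hℓ
    (fun s => ov Q (z0 + s • w)) (by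
      filter_upwards [hgen] with s hs hsI
      exact ov_eq Q J (z0 + s • w) (fun i hi => hJ i s hsI hi) (fun i hi => hs hsI i hi)
        (cov h _)) D hDc (2 * π) hDn
  have hkey : F Q (z0 + ℓ • w) * Complex.exp (-(2 * π * Complex.I * ℓ)) - F Q z0 =
      (∑ i ∈ J, (∫ s in (0 : ℝ)..ℓ, (K (Q i) z0 w).indicator D s) - ∫ s in (0 : ℝ)..ℓ, D s) +
      ∑ i ∈ J, ((K (Q i) z0 w).indicator (φ i) ℓ - (K (Q i) z0 w).indicator (φ i) 0 -
        ∫ s in (0 : ℝ)..ℓ, (K (Q i) z0 w).indicator D s) := by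
    rw [hH ℓ ⟨hℓ, le_refl _⟩, hF0, hDint, Finset.sum_sub_distrib, Finset.sum_sub_distrib]
    ring
  rw [hkey]
  refine (norm_add_le _ _).trans (add_le_add hgap ?_)
  refine (norm_sum_le _ _).trans (Finset.sum_le_sum fun i _ => ?_)
  exact hchord i

end H282R5.PC
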