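import Pool.Agent.H282R4.PK.LineInt
import Pool.Agent.H282R5.PC.Defs
import Pool.Agent.H282R5.PC.LineF
import Pool.Agent.H282R5.PC.Fin

/-! Module LineInt of project PC (helper617): the integrated version of `line_F`. -/

namespace H282R5.PC

open MeasureTheory
open scoped Real ENNReal
open H282R3.SQ (USq Inside)
open H282R4.PK (slope rho tr F FH cell Rg Kg C0 Bx U V)

namespace LineInt

open H282R4.PK.LineInt (volume_bd Ps Ps_cont vol_pre fubini fubini_meas Tc Tc_meas Tc_vol Tc_sub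
  kap_le)

/-- Fubini for functions -/
theorem fubini_fun (z0 e w : ℝ × ℝ) (hdet : e.1 * w.2 - e.2 * w.1 ≠ 0) {f : ℝ × ℝ → ℝ≥0∞}
    (hf : Measurable f) :
    ∫⁻ t : ℝ, ∫⁻ s : ℝ, f (z0 + t • e + s • w) =
      ENNReal.ofReal |(e.1 * w.2 - e.2 * w.1)⁻¹| * ∫⁻ z, f z := by
  have hP : Measurable (Ps z0 e w) := (Ps_cont z0 e w).measurable
  have hmap : (volume : Measure (ℝ × ℝ)).map (Ps z0 e w) =
      ENNReal.ofReal |(e.1 * w.2 - e.2 * w.1)⁻¹| • (volume : Measure (ℝ × ℝ)) := by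
    ext S hS
    rw [Measure.map_apply hP hS, vol_pre z0 e w hdet S]
    rfl
  have h1 : ∫⁻ p, f (Ps z0 e w p) = ∫⁻ t : ℝ, ∫⁻ s : ℝ, f (z0 + t • e + s • w) := by
    rw [Measure.volume_eq_prod]
    exact lintegral_prod (fun p => f (Ps z0 e w p)) (hf.comp hP).aemeasurable
  rw [← h1, ← lintegral_map hf hP, hmap, lintegral_smul_measure]
  rfl

theorem fubini_fun_meas (z0 e w : ℝ × ℝ) {f : ℝ × ℝ → ℝ≥0∞} (hf : Measurable f) :
    Measurable (fun t : ℝ => ∫⁻ s : ℝ, f (z0 + t • e + s • w)) :=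
  Measurable.lintegral_prod_right' (f := fun p : ℝ × ℝ => f (Ps z0 e w p))
    (hf.comp (Ps_cont z0 e w).measurable)

/-- almost every line is generic -/
theorem ae_gen {ι : Type} [Countable ι] (Q : ι → USq)
    (z0 e w : ℝ × ℝ) (hdet : e.1 * w.2 - e.2 * w.1 ≠ 0) :
    ∀ᵐ t : ℝ, ∀ᵐ s : ℝ, ∀ i, z0 + t • e + s • w ∈ (Q i).C → z0 + t • e + s • w ∈ (Q i).O := by
  have h1 : ∀ᵐ p : ℝ × ℝ, ∀ i, Ps z0 e w p ∈ (Q i).C → Ps z0 e w p ∈ (Q i).O := by
    rw [ae_all_iff]
    intro i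
    have h2 : volume (Ps z0 e w ⁻¹' ((Q i).C \ (Q i).O)) = 0 := by
      rw [vol_pre z0 e w hdet, volume_bd, mul_zero]
    rw [ae_iff]
    refine measure_mono_null ?_ h2
    intro p hp
    simp only [Set.mem_ofPred_eq] at hp
    push Not at hp
    exact ⟨hp.1, hp.2⟩
  rw [Measure.volume_eq_prod] at h1
  exact Measure.ae_ae_of_ae_prod h1

end LineInt

open LineInt H282R4.PK.LineInt in
/-- integrated version (Fubini), start points `z0 + t e`, end points at distance `ℓ t` -/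
theorem line_int {n : ℕ} {o : ℝ × ℝ} {ι : Type} [Countable ι] {I : Finset ι} {Q : ι → USq} {W : ℝ}
    (h : Cvr n o I Q W)
    (z0 e w : ℝ × ℝ) (hw : w.1 ^ 2 + w.2 ^ 2 = 1) (hw2 : |w.1| ≤ w.2 / 4) (J : ℝ) (hJ : 0 < J)
    (hdet : J ≤ |e.1 * w.2 - e.2 * w.1|) (t1 t2 : ℝ) (ℓ : ℝ → ℝ) (hℓ : ∀ t, 0 ≤ ℓ t)
    (B : Set (ℝ × ℝ)) (hBm : MeasurableSet B) (hB : Bornology.IsBounded B)
    (hsub : ∀ t ∈ Set.Icc t1 t2, ∀ s ∈ Set.Icc 0 (ℓ t), z0 + t • e + s • w ∈ B) :
    ∫⁻ t in Set.Icc t1 t2, ‖F Q (z0 + t • e + ℓ t • w) *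
        Complex.exp (-(2 * π * Complex.I * (ℓ t : ℝ))) - F Q (z0 + t • e)‖ₑ ≤
      ENNReal.ofReal (20 / J * Dev Q w B) := by
  classical
  have hdp : 0 < |e.1 * w.2 - e.2 * w.1| := hJ.trans_le hdet
  have hd0 : e.1 * w.2 - e.2 * w.1 ≠ 0 := abs_pos.mp hdp
  have hfin := fin_meet h B hB
  set K : Finset ι := hfin.toFinset with hK
  have hmemK : ∀ i, i ∈ K ↔ ((Q i).C ∩ B).Nonempty := by
    intro i
    rw [hK, Set.Finite.mem_toFinset]
    rfl
  have hpi := Real.pi_pos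
  have hovm : Measurable (B.indicator (ov Q)) := (measurable_ov Q).indicator hBm
  -- the dominating function
  set g : ℝ → ℝ≥0∞ := fun t => ENNReal.ofReal (2 * π) *
      (∫⁻ s : ℝ, B.indicator (ov Q) (z0 + t • e + s • w)) +
    ∑ i ∈ K, (ENNReal.ofReal (2 * π * |1 - (-(Q i).b * w.1 + (Q i).a * w.2)|) *
      volume {s : ℝ | z0 + t • e + s • w ∈ (Q i).C} +
      4 * (Tc (Q i) z0 e w).indicator 1 t) with hg
  have hbound : ∀ᵐ t : ℝ, t ∈ Set.Icc t1 t2 →
      ‖F Q (z0 + t • e + ℓ t • w) * Complex.exp (-(2 * π * Complex.I * (ℓ t : ℝ))) -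
        F Q (z0 + t • e)‖ₑ ≤ g t := by
    filter_upwards [LineInt.ae_gen Q z0 e w hd0] with t ht hti
    have hline := line_F h (z0 + t • e) w hw hw2 (ℓ t) (hℓ t) K
      (by
        intro i s hs hsC
        rw [hmemK]
        exact ⟨_, hsC, hsub t hti s hs⟩)
      (by
        filter_upwards [ht] with s hs _
        exact hs)
    have e1 : ‖F Q (z0 + t • e + ℓ t • w) * Complex.exp (-(2 * π * Complex.I * (ℓ t : ℝ))) -
        F Q (z0 + t • e)‖ₑ ≤ ENNReal.ofReal (2 * π *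
          (∫⁻ s in Set.Icc (0 : ℝ) (ℓ t), ov Q (z0 + t • e + s • w)).toReal +
      ∑ i ∈ K, (2 * π * |1 - (-(Q i).b * w.1 + (Q i).a * w.2)| *
          (volume {s : ℝ | s ∈ Set.Icc 0 (ℓ t) ∧ z0 + t • e + s • w ∈ (Q i).C}).toReal +
        {i | ∃ s ∈ Set.Icc 0 (ℓ t), z0 + t • e + s • w ∈ (Q i).C ∧
          |(Q i).X (z0 + t • e + s • w)| = 1 / 2}.indicator (fun _ => (4 : ℝ)) i)) := by
      rw [← ofReal_norm]
      exact ENNReal.ofReal_le_ofReal hline
    refine e1.trans ?_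
    have hind : ∀ i, (0:ℝ) ≤ {i | ∃ s ∈ Set.Icc 0 (ℓ t), z0 + t • e + s • w ∈ (Q i).C ∧
          |(Q i).X (z0 + t • e + s • w)| = 1 / 2}.indicator (fun _ => (4 : ℝ)) i :=
      fun i => Set.indicator_nonneg (fun _ _ => by norm_num) i
    rw [ENNReal.ofReal_add (by positivity) (Finset.sum_nonneg fun i _ =>
      add_nonneg (by positivity) (hind i)), ENNReal.ofReal_mul (by positivity),
      ENNReal.ofReal_sum_of_nonneg fun i _ => add_nonneg (by positivity) (hind i)]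
    rw [hg]
    refine add_le_add ?_ (Finset.sum_le_sum fun i _ => ?_)
    · refine mul_le_mul_right ?_ _
      refine ENNReal.ofReal_toReal_le.trans ?_
      refine (setLIntegral_mono' measurableSet_Icc ?_).trans (setLIntegral_le_lintegral _ _)
      intro s hs
      rw [Set.indicator_of_mem (hsub t hti s hs)]
    · rw [ENNReal.ofReal_add (by positivity) (hind i), ENNReal.ofReal_mul (by positivity)]
      refine add_le_add ?_ ?_
      · refine mul_le_mul_right ?_ _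
        refine ENNReal.ofReal_toReal_le.trans (measure_mono ?_)
        rintro s ⟨hs, hsG⟩
        exact hsG
      · by_cases hi : i ∈ {i | ∃ s ∈ Set.Icc 0 (ℓ t), z0 + t • e + s • w ∈ (Q i).C ∧
          |(Q i).X (z0 + t • e + s • w)| = 1 / 2}
        · rw [Set.indicator_of_mem hi]
          obtain ⟨s, _, hs1, hs2⟩ := hi
          rw [Set.indicator_of_mem (Tc_sub (Q i) z0 e w hd0 t s hs1 hs2)]
          simp
        · rw [Set.indicator_of_notMem hi]
          simp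
  -- integrate
  have h1 : ∫⁻ t in Set.Icc t1 t2, ‖F Q (z0 + t • e + ℓ t • w) *
        Complex.exp (-(2 * π * Complex.I * (ℓ t : ℝ))) - F Q (z0 + t • e)‖ₑ ≤ ∫⁻ t, g t := by
    refine (lintegral_mono_ae ?_).trans (setLIntegral_le_lintegral _ _)
    rw [ae_restrict_iff' measurableSet_Icc]
    exact hbound
  refine h1.trans ?_
  have hms : ∀ i, Measurable (fun t : ℝ => ENNReal.ofReal (2 * π *
      |1 - (-(Q i).b * w.1 + (Q i).a * w.2)|) * volume {s : ℝ | z0 + t • e + s • w ∈ (Q i).C}) :=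
    fun i => (fubini_meas z0 e w (H282R3.SQ.measurableSet_C (Q i))).const_mul _
  have hmi : ∀ i, Measurable (fun t : ℝ => (4 : ℝ≥0∞) * (Tc (Q i) z0 e w).indicator 1 t) :=
    fun i => (measurable_one.indicator (Tc_meas (Q i) z0 e w)).const_mul _
  have hadd : ∀ i ∈ K, Measurable (fun t : ℝ => ENNReal.ofReal (2 * π *
      |1 - (-(Q i).b * w.1 + (Q i).a * w.2)|) * volume {s : ℝ | z0 + t • e + s • w ∈ (Q i).C} +
      (4 : ℝ≥0∞) * (Tc (Q i) z0 e w).indicator 1 t) := fun i _ => (hms i).add (hmi i)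
  have h2 : ∫⁻ t, g t = ENNReal.ofReal (2 * π) * (ENNReal.ofReal |(e.1 * w.2 - e.2 * w.1)⁻¹| *
      ∫⁻ z, B.indicator (ov Q) z) +
    ∑ i ∈ K, (ENNReal.ofReal (2 * π * |1 - (-(Q i).b * w.1 + (Q i).a * w.2)|) *
      (ENNReal.ofReal |(e.1 * w.2 - e.2 * w.1)⁻¹| * volume (Q i).C) +
      4 * volume (Tc (Q i) z0 e w)) := by
    rw [hg]
    rw [lintegral_add_left ((fubini_fun_meas z0 e w hovm).const_mul _),
      lintegral_const_mul _ (fubini_fun_meas z0 e w hovm), fubini_fun z0 e w hd0 hovm,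
      lintegral_finsetSum _ hadd]
    congr 1
    refine Finset.sum_congr rfl fun i _ => ?_
    rw [lintegral_add_left (hms i),
      lintegral_const_mul _ (fubini_meas z0 e w (H282R3.SQ.measurableSet_C (Q i))),
      fubini z0 e w hd0 (H282R3.SQ.measurableSet_C (Q i)),
      lintegral_const_mul _ (measurable_one.indicator (Tc_meas (Q i) z0 e w)),
      lintegral_indicator_one (Tc_meas (Q i) z0 e w)]
  rw [h2]
  set d := |e.1 * w.2 - e.2 * w.1| with hd
  have hinv : |(e.1 * w.2 - e.2 * w.1)⁻¹| = 1 / d := by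
    rw [abs_inv, one_div]
  rw [hinv]
  set G := wst Q B with hG
  have hG' : ∫⁻ z, B.indicator (ov Q) z ≤ ENNReal.ofReal G := by
    rw [lintegral_indicator hBm]
    exact area_le h B
  have hG0 : 0 ≤ G := wst_nonneg Q B
  have h3 : ENNReal.ofReal (2 * π) * (ENNReal.ofReal (1 / d) * ∫⁻ z, B.indicator (ov Q) z) +
    ∑ i ∈ K, (ENNReal.ofReal (2 * π * |1 - (-(Q i).b * w.1 + (Q i).a * w.2)|) *
      (ENNReal.ofReal (1 / d) * volume (Q i).C) + 4 * volume (Tc (Q i) z0 e w)) ≤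
      ENNReal.ofReal (2 * π * (1 / d * G) + ∑ i ∈ K,
        (2 * π * |1 - (-(Q i).b * w.1 + (Q i).a * w.2)| * (1 / d) +
          4 * (2 * |(Q i).a * w.1 + (Q i).b * w.2| / d))) := by
    rw [ENNReal.ofReal_add (by positivity) (Finset.sum_nonneg fun i _ => by positivity),
      ENNReal.ofReal_sum_of_nonneg fun i _ => by positivity]
    refine add_le_add ?_ (Finset.sum_le_sum fun i _ => ?_)
    · have h9 : ENNReal.ofReal (2 * π * (1 / d * G)) =
          ENNReal.ofReal (2 * π) * (ENNReal.ofReal (1 / d) * ENNReal.ofReal G) := by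
        rw [← ENNReal.ofReal_mul (by positivity), ← ENNReal.ofReal_mul (by positivity)]
      rw [h9]
      exact mul_le_mul_right (mul_le_mul_right hG' _) _
    · rw [ENNReal.ofReal_add (by positivity) (by positivity)]
      refine add_le_add ?_ ?_
      · rw [H282R3.SQ.volume_C, mul_one, ← ENNReal.ofReal_mul (by positivity)]
      · rw [ENNReal.ofReal_mul (by norm_num)]
        have h4 : ENNReal.ofReal 4 = 4 := by norm_num
        rw [h4]
        exact mul_le_mul_right (Tc_vol (Q i) z0 e w hd0) _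
  refine h3.trans (ENNReal.ofReal_le_ofReal ?_)
  -- the real inequality
  have hDev : Dev Q w B = G + ∑ i ∈ K, |(Q i).a * w.1 + (Q i).b * w.2| := by
    unfold Dev
    rw [finsum_mem_eq_finite_toFinset_sum _ hfin]
  rw [hDev]
  have h5 : ∀ i ∈ K, 2 * π * |1 - (-(Q i).b * w.1 + (Q i).a * w.2)| * (1 / d) +
      4 * (2 * |(Q i).a * w.1 + (Q i).b * w.2| / d) ≤ 20 / J * |(Q i).a * w.1 + (Q i).b * w.2| := by
    intro i _
    have hk := kap_le (Q i) (h.norm i) w hw hw2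
    have hp4 := Real.pi_lt_d2
    set σ := |(Q i).a * w.1 + (Q i).b * w.2| with hσ
    have hσ0 : 0 ≤ σ := abs_nonneg _
    have h6 : 2 * π * |1 - (-(Q i).b * w.1 + (Q i).a * w.2)| * (1 / d) + 4 * (2 * σ / d) ≤
        20 * σ / d := by
      rw [mul_one_div, mul_div_assoc', ← add_div]
      refine div_le_div_of_nonneg_right ?_ hdp.le
      nlinarith
    refine h6.trans ?_
    rw [div_mul_eq_mul_div]
    exact div_le_div_of_nonneg_left (by positivity) hJ hdet
  have h7 : 2 * π * (1 / d * G) ≤ 20 / J * G := by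
    have hp4 := Real.pi_lt_d2
    have h8 : 2 * π * (1 / d * G) ≤ 20 * G / d := by
      rw [one_div_mul_eq_div, mul_div_assoc']
      refine div_le_div_of_nonneg_right ?_ hdp.le
      nlinarith
    refine h8.trans ?_
    rw [div_mul_eq_mul_div]
    exact div_le_div_of_nonneg_left (by positivity) hJ hdet
  rw [mul_add, Finset.mul_sum]
  exact add_le_add h7 (Finset.sum_le_sum h5)

end H282R5.PC
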