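import Pool.Agent.H282R5.PC.Defs
import Pool.Agent.H282R4.PK.Core
import Pool.Agent.H282R5.PC.Geo
import Pool.Agent.H282R5.PC.Fin
import Pool.Agent.H282R5.PC.Fmeas
import Pool.Agent.H282R5.PC.Fnorm
import Pool.Agent.H282R5.PC.LineInt
import Pool.Agent.H282R5.PC.LineId

/-! Module Core of project PC: the core of the local lemma. -/

namespace H282R5.PC

open MeasureTheory
open scoped Real ENNReal
open H282R3.SQ (USq Inside)
open H282R4.PK (slope rho tr F FH cell Rg Kg C0 Bx U V)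

namespace Core

open H282R4.PK.Core (P ee ee_add norm_ee ee_zero conj_ee measurable_ee continuous_ee AA BB BB_eq
  continuous_P mem_Bx isBounded_Bx measurableSet_Bx lint_scale alg3 μs bd_s bd_t Good)

variable {ι : Type}

theorem lam_swap : lam.map (MeasurableEquiv.prodComm : ℝ × ℝ ≃ᵐ ℝ × ℝ) = lam := by
  have hm : Measurable (MeasurableEquiv.prodComm : ℝ × ℝ ≃ᵐ ℝ × ℝ) :=
    MeasurableEquiv.measurable _
  have h : (volume : Measure (ℝ × ℝ)).map (MeasurableEquiv.prodComm : ℝ × ℝ ≃ᵐ ℝ × ℝ) =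
      volume := by
    have := Measure.measurePreserving_swap (μ := (volume : Measure ℝ)) (ν := (volume : Measure ℝ))
    exact this.map_eq
  unfold lam
  rw [Measure.map_add _ _ hm, Measure.map_add _ _ hm, h, Measure.map_sum hm.aemeasurable,
    Measure.map_sum hm.aemeasurable]
  have e1 : ∀ k : ℤ, ((volume : Measure ℝ).map fun X => (X, (k : ℝ))).map
      (MeasurableEquiv.prodComm : ℝ × ℝ ≃ᵐ ℝ × ℝ) =
      (volume : Measure ℝ).map fun Y => ((k : ℝ), Y) := by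
    intro k
    rw [Measure.map_map hm (by fun_prop)]
    rfl
  have e2 : ∀ k : ℤ, ((volume : Measure ℝ).map fun Y => ((k : ℝ), Y)).map
      (MeasurableEquiv.prodComm : ℝ × ℝ ≃ᵐ ℝ × ℝ) =
      (volume : Measure ℝ).map fun X => (X, (k : ℝ)) := by
    intro k
    rw [Measure.map_map hm (by fun_prop)]
    rfl
  simp only [e1, e2]
  rw [add_assoc, add_assoc, add_comm (Measure.sum fun k : ℤ => (volume : Measure ℝ).map
    fun Y => ((k : ℝ), Y))]

theorem Dev_tr (Q : ι → USq) (w : ℝ × ℝ) (L : ℕ) (z : ℤ × ℤ) :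
    Dev (fun i => tr (Q i)) (-w.1, w.2) (Bx L (z.2, z.1)) = Dev Q w (Bx L z) := by
  have hB : ∀ x : ℝ × ℝ, x ∈ Bx L (z.2, z.1) ↔ (x.2, x.1) ∈ Bx L z := by
    intro x
    simp only [Bx, Set.mem_ofPred_eq]
    tauto
  unfold Dev
  congr 1
  · unfold wst
    congr 1
    conv_rhs => rw [← lam_swap, MeasurableEquiv.restrict_map, lintegral_map_equiv]
    have hs : (MeasurableEquiv.prodComm : ℝ × ℝ ≃ᵐ ℝ × ℝ) ⁻¹' (Bx L z) = Bx L (z.2, z.1) := by
      ext x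
      exact (hB x).symm
    rw [hs]
    refine lintegral_congr fun x => ?_
    rw [ov_tr]
    rfl
  · have hs : {i | ((tr (Q i)).C ∩ Bx L (z.2, z.1)).Nonempty} = {i | ((Q i).C ∩ Bx L z).Nonempty} := by
      ext i
      simp only [Set.mem_ofPred_eq]
      constructor
      · rintro ⟨x, hx1, hx2⟩
        exact ⟨(x.2, x.1), (H282R4.PK.mem_tr_C _ _).1 hx1, (hB x).1 hx2⟩
      · rintro ⟨x, hx1, hx2⟩
        exact ⟨(x.2, x.1), (H282R4.PK.mem_tr_C _ _).2 hx1, (hB _).2 hx2⟩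
    rw [hs]
    refine finsum_congr fun i => finsum_congr fun _ => ?_
    simp only [tr]
    rw [← abs_neg]
    congr 1
    ring

theorem F_bdd {n : ℕ} {o : ℝ × ℝ} [Countable ι] {I : Finset ι} {Q : ι → USq} {W : ℝ}
    (h : Cvr n o I Q W) (B : Set (ℝ × ℝ))
    (hB : Bornology.IsBounded B) : ∃ M : ℝ, ∀ z ∈ B, ‖F Q z‖ ≤ M := by
  classical
  have hfin := fin_meet h B hB
  refine ⟨1 + ∑ i ∈ hfin.toFinset, 2, fun z hz => ?_⟩
  unfold F
  rw [finsum_eq_sum_of_support_subset (s := hfin.toFinset)]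
  · refine (norm_add_le _ _).trans ?_
    rw [norm_neg, norm_one]
    gcongr
    refine (norm_sum_le _ _).trans ?_
    refine Finset.sum_le_sum fun i _ => ?_
    by_cases hi : z ∈ (Q i).C
    · rw [Set.indicator_of_mem hi]
      refine (norm_add_le _ _).trans ?_
      have := norm_ee ((Q i).Y z)
      unfold ee at this
      rw [this, norm_one]; norm_num
    · rw [Set.indicator_of_notMem hi]
      simp
  · intro i hi
    rw [Function.mem_support] at hi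
    have : z ∈ (Q i).C := by
      by_contra hc
      exact hi (Set.indicator_of_notMem hc _)
    simp only [Set.Finite.coe_toFinset, Set.mem_ofPred_eq]
    exact ⟨z, this, hz⟩

/-- the line lemma in the frame -/
theorem LA {n : ℕ} {o : ℝ × ℝ} [Countable ι] {I : Finset ι} {Q : ι → USq} {W : ℝ}
    (h : Cvr n o I Q W)
    (z : ℤ × ℤ) (w : ℝ × ℝ) (hw : w.1 ^ 2 + w.2 ^ 2 = 1) (hw2 : |w.1| ≤ w.2 / 4)
    (L : ℕ) (α β c t1 t2 : ℝ) (hα : 0 < α) (d : ℝ → ℝ) (hd : ∀ t ∈ Set.Icc t1 t2, c ≤ d t)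
    (hsub : ∀ t ∈ Set.Icc t1 t2, ∀ ζ ∈ Set.Icc c (d t), P z w (t * α + β) ζ ∈ Bx L z) :
    ∫⁻ t in Set.Icc t1 t2, ‖AA Q z w (t * α + β) (d t) - AA Q z w (t * α + β) c‖ₑ ≤
      ENNReal.ofReal (20 / α) * ENNReal.ofReal (Dev Q w (Bx L z)) := by
  have key := line_int h (P z w β c) (α * w.2, -(α * w.1)) w hw hw2 α hα
    (by
      have : α * w.2 * w.2 - -(α * w.1) * w.1 = α := by
        linear_combination α * hw
      simp only []
      rw [this]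
      exact le_abs_self _) t1 t2 (fun t => max (d t - c) 0) (fun t => le_max_right _ _)
    (Bx L z) (measurableSet_Bx L z) (isBounded_Bx L z)
    (by
      intro t ht s hs
      simp only [max_eq_left (sub_nonneg.2 (hd t ht))] at hs
      have := hsub t ht (c + s) ⟨by linarith [hs.1], by linarith [hs.2]⟩
      convert this using 1
      unfold P
      ext
      · simp only [Prod.fst_add, Prod.smul_fst, smul_eq_mul]; ring
      · simp only [Prod.snd_add, Prod.smul_snd, smul_eq_mul]; ring)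
  rw [← ENNReal.ofReal_mul (by positivity)]
  refine le_trans (le_of_eq ?_) key
  refine setLIntegral_congr_fun measurableSet_Icc ?_
  intro t ht
  simp only [max_eq_left (sub_nonneg.2 (hd t ht))]
  have e1 : P z w β c + t • (α * w.2, -(α * w.1)) + (d t - c) • w = P z w (t * α + β) (d t) := by
    unfold P
    ext
    · simp only [Prod.fst_add, Prod.smul_fst, smul_eq_mul]; ring
    · simp only [Prod.snd_add, Prod.smul_snd, smul_eq_mul]; ring
  have e2 : P z w β c + t • (α * w.2, -(α * w.1)) = P z w (t * α + β) c := by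
    unfold P
    ext
    · simp only [Prod.fst_add, Prod.smul_fst, smul_eq_mul]; ring
    · simp only [Prod.snd_add, Prod.smul_snd, smul_eq_mul]; ring
  rw [e1, e2]
  unfold AA
  have e3 : F Q (P z w (t * α + β) (d t)) * ee (-(d t)) - F Q (P z w (t * α + β) c) * ee (-c) =
      (F Q (P z w (t * α + β) (d t)) * Complex.exp (-(2 * π * Complex.I * ((d t - c : ℝ) : ℂ))) -
        F Q (P z w (t * α + β) c)) * ee (-c) := by
    have : ee (-(d t)) = Complex.exp (-(2 * π * Complex.I * ((d t - c : ℝ) : ℂ))) * ee (-c) := by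
      have h1 : ee (-(d t)) = ee (-(d t - c)) * ee (-c) := by
        rw [← ee_add]; congr 1; ring
      rw [h1]
      congr 1
      unfold ee
      congr 1
      push_cast
      ring
    rw [this]; ring
  rw [e3, ← ofReal_norm, ← ofReal_norm, norm_mul, norm_ee, mul_one]

/-- the transposed line lemma in the frame -/
theorem LB {n : ℕ} {o : ℝ × ℝ} [Countable ι] {I : Finset ι} {Q : ι → USq} {W : ℝ}
    (h : Cvr n o I Q W)
    (z : ℤ × ℤ) (w : ℝ × ℝ) (hw : w.1 ^ 2 + w.2 ^ 2 = 1) (hw2 : |w.1| ≤ w.2 / 4)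
    (L : ℕ) (α β c t1 t2 : ℝ) (hα : 0 < α) (d : ℝ → ℝ) (hd : ∀ t ∈ Set.Icc t1 t2, c ≤ d t)
    (hsub : ∀ t ∈ Set.Icc t1 t2, ∀ ξ ∈ Set.Icc c (d t), P z w ξ (t * α + β) ∈ Bx L z) :
    ∫⁻ t in Set.Icc t1 t2, ‖BB Q z w (d t) (t * α + β) - BB Q z w c (t * α + β)‖ₑ ≤
      ENNReal.ofReal (20 / α) * ENNReal.ofReal (Dev Q w (Bx L z)) := by
  have key := LA h.trans (z.2, z.1) (-w.1, w.2) (by simpa using hw) (by simpa using hw2) L α β c
    t1 t2 hα d hd (by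
      intro t ht ξ hξ
      have := hsub t ht ξ hξ
      simp only [Bx, P, Set.mem_ofPred_eq] at this ⊢
      refine ⟨?_, ?_, ?_, ?_⟩ <;> linarith [this.1, this.2.1, this.2.2.1, this.2.2.2])
  rw [Dev_tr] at key
  simp only [BB_eq]
  exact key

/-- sum in the frame -/
noncomputable def GG (Q : ι → USq) (z : ℤ × ℤ) (w : ℝ × ℝ) (ξ ζ : ℝ) : ℂ :=
  Gs Q (P z w ξ ζ) * ee (ξ - ζ)

theorem GG_eq (Q : ι → USq) (z : ℤ × ℤ) (w : ℝ × ℝ) (ξ ζ : ℝ)
    (h : Gs Q (P z w ξ ζ) = F Q (P z w ξ ζ) * (1 + (starRingEnd ℂ) (FH Q (P z w ξ ζ)))) :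
    GG Q z w ξ ζ = AA Q z w ξ ζ * (ee ξ + (starRingEnd ℂ) (BB Q z w ξ ζ)) := by
  unfold GG
  rw [h]
  unfold AA BB
  rw [map_mul, conj_ee, neg_neg, sub_eq_add_neg, ee_add]
  ring

/-- the error in the identity -/
noncomputable def EE (Q : ι → USq) (z : ℤ × ℤ) (w : ℝ × ℝ) (ℓ ξ ζ : ℝ) : ℂ :=
  GG Q z w (ξ + ℓ) ζ - GG Q z w ξ ζ -
    2 * π * Complex.I * ∫ σ in (0 : ℝ)..ℓ, ee (ξ + σ) * AA Q z w (ξ + σ) ζ

theorem norm_EE (Q : ι → USq) (z : ℤ × ℤ) (w : ℝ × ℝ) (ℓ ξ ζ : ℝ) :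
    ‖EE Q z w ℓ ξ ζ‖ = ‖Gs Q (P z w (ξ + ℓ) ζ) * ee ℓ - Gs Q (P z w ξ ζ) -
        2 * π * Complex.I * ∫ σ in (0 : ℝ)..ℓ, ee σ * F Q (P z w (ξ + σ) ζ)‖ := by
  have hI : ∫ σ in (0 : ℝ)..ℓ, ee (ξ + σ) * AA Q z w (ξ + σ) ζ =
      (∫ σ in (0 : ℝ)..ℓ, ee σ * F Q (P z w (ξ + σ) ζ)) * ee (ξ - ζ) := by
    rw [← intervalIntegral.integral_mul_const]
    congr 1
    ext σ
    unfold AA
    rw [show ξ - ζ = ξ + -ζ by ring, ee_add ξ σ, ee_add ξ (-ζ)]
    ring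
  have : EE Q z w ℓ ξ ζ = (Gs Q (P z w (ξ + ℓ) ζ) * ee ℓ - Gs Q (P z w ξ ζ) -
        2 * π * Complex.I * ∫ σ in (0 : ℝ)..ℓ, ee σ * F Q (P z w (ξ + σ) ζ)) * ee (ξ - ζ) := by
    unfold EE GG
    rw [hI, show ξ + ℓ - ζ = ℓ + (ξ - ζ) by ring, ee_add ℓ (ξ - ζ)]
    ring
  rw [this, norm_mul, norm_ee, mul_one]

theorem LE {n : ℕ} {o : ℝ × ℝ} [Countable ι] {I : Finset ι} {Q : ι → USq} {W : ℝ}
    (h : Cvr n o I Q W)
    (z : ℤ × ℤ) (w : ℝ × ℝ) (hw : w.1 ^ 2 + w.2 ^ 2 = 1) (hw2 : |w.1| ≤ w.2 / 4)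
    (L : ℕ) (ξ ℓ a c : ℝ) (ha : 0 < a) (hℓ : 0 ≤ ℓ)
    (hsub : ∀ ζ ∈ Set.Icc c (c + a), ∀ s ∈ Set.Icc 0 ℓ, P z w (ξ + s) ζ ∈ Bx L z) :
    ∫⁻ s in Set.Icc (0 : ℝ) 1, ‖EE Q z w ℓ ξ (s * a + c)‖ₑ ≤
      ENNReal.ofReal (40 / a) * ENNReal.ofReal (Dev Q w (Bx L z)) := by
  have e : ∀ ζ s : ℝ, P z w ξ 0 + ζ • w + s • (w.2, -w.1) = P z w (ξ + s) ζ := by
    intro ζ s
    unfold P
    ext
    · simp only [Prod.fst_add, Prod.smul_fst, smul_eq_mul]; ring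
    · simp only [Prod.snd_add, Prod.smul_snd, smul_eq_mul]; ring
  have e0 : ∀ ζ : ℝ, P z w ξ 0 + ζ • w = P z w ξ ζ := by
    intro ζ
    unfold P
    ext
    · simp only [Prod.fst_add, Prod.smul_fst, smul_eq_mul]; ring
    · simp only [Prod.snd_add, Prod.smul_snd, smul_eq_mul]; ring
  have e1 : ∀ ζ s : ℝ, P z w ξ ζ + s • (w.2, -w.1) = P z w (ξ + s) ζ := by
    intro ζ s
    rw [← e, e0]
  have key := line_id h (P z w ξ 0) w hw hw2 c (c + a) ℓ hℓ (Bx L z) (measurableSet_Bx L z)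
    (isBounded_Bx L z) (by
      intro t ht s hs
      rw [e]
      exact hsub t ht s hs)
  simp only [e0, e1] at key
  rw [lint_scale (fun x => ‖EE Q z w ℓ ξ x‖ₑ) a c ha]
  have k2 : ∫⁻ x in Set.Icc c (c + a), ‖EE Q z w ℓ ξ x‖ₑ ≤ ENNReal.ofReal (40 * Dev Q w (Bx L z)) := by
    refine le_trans (le_of_eq ?_) key
    refine lintegral_congr fun x => ?_
    rw [← ofReal_norm, ← ofReal_norm, norm_EE]
    rfl
  calc _ ≤ ENNReal.ofReal (1 / a) * ENNReal.ofReal (40 * Dev Q w (Bx L z)) := by gcongr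
    _ = _ := by
      rw [← ENNReal.ofReal_mul (by positivity), ← ENNReal.ofReal_mul (by positivity)]
      congr 1
      ring

theorem Tdiff {n : ℕ} {o : ℝ × ℝ} [Countable ι] {I : Finset ι} {Q : ι → USq} {W : ℝ}
    (h : Cvr n o I Q W)
    (z : ℤ × ℤ) (w : ℝ × ℝ) (hw : w.1 ^ 2 + w.2 ^ 2 = 1) (hw2 : |w.1| ≤ w.2 / 4)
    (L : ℕ) (ξ ℓ ζ0 ζ1 : ℝ) (hℓ : 0 ≤ ℓ) (hζ : ζ0 ≤ ζ1)
    (hsub : ∀ t ∈ Set.Icc 0 ℓ, ∀ ζ ∈ Set.Icc ζ0 ζ1, P z w (ξ + t) ζ ∈ Bx L z) :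
    ‖(2 * π * Complex.I * ∫ σ in (0 : ℝ)..ℓ, ee (ξ + σ) * AA Q z w (ξ + σ) ζ1) -
      2 * π * Complex.I * ∫ σ in (0 : ℝ)..ℓ, ee (ξ + σ) * AA Q z w (ξ + σ) ζ0‖ₑ ≤
      ENNReal.ofReal (40 * π) * ENNReal.ofReal (Dev Q w (Bx L z)) := by
  obtain ⟨M, hM⟩ := F_bdd h (Bx L z) (isBounded_Bx L z)
  have hFm := measurable_F h
  have hmeas : ∀ ζ : ℝ, Measurable fun σ : ℝ => ee (ξ + σ) * AA Q z w (ξ + σ) ζ := by
    intro ζ
    unfold AA
    have h1 : Measurable fun σ : ℝ => P z w (ξ + σ) ζ := by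
      unfold P; fun_prop
    have h2 : Measurable fun σ : ℝ => ee (ξ + σ) := measurable_ee.comp (by fun_prop)
    exact h2.mul ((hFm.comp h1).mul_const _)
  have hint : ∀ ζ ∈ Set.Icc ζ0 ζ1, IntervalIntegrable
      (fun σ : ℝ => ee (ξ + σ) * AA Q z w (ξ + σ) ζ) volume 0 ℓ := by
    intro ζ hζm
    rw [intervalIntegrable_iff_integrableOn_Ioc_of_le hℓ]
    refine Measure.integrableOn_of_bounded (M := M) (by simp)
      (hmeas ζ).aestronglyMeasurable ?_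
    filter_upwards [ae_restrict_mem measurableSet_Ioc] with σ hσ
    unfold AA
    rw [norm_mul, norm_mul, norm_ee, norm_ee, one_mul, mul_one]
    exact hM _ (hsub σ ⟨hσ.1.le, hσ.2⟩ ζ hζm)
  rw [← mul_sub, ← intervalIntegral.integral_sub (hint ζ1 ⟨hζ, le_refl _⟩)
    (hint ζ0 ⟨le_refl _, hζ⟩), intervalIntegral.integral_of_le hℓ]
  have key := LA h z w hw hw2 L 1 ξ ζ0 0 ℓ one_pos (fun _ => ζ1) (fun _ _ => hζ) (by
    intro t ht ζ hζ'
    have := hsub t ht ζ hζ'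
    rwa [add_comm, ← mul_one t] at this)
  have e1 : ‖(2 * π * Complex.I : ℂ)‖ₑ = ENNReal.ofReal (2 * π) := by
    rw [← ofReal_norm]
    congr 1
    simp [abs_of_pos Real.pi_pos]
  rw [enorm_mul, e1]
  calc ENNReal.ofReal (2 * π) * ‖∫ σ in Set.Ioc 0 ℓ, (ee (ξ + σ) * AA Q z w (ξ + σ) ζ1 -
        ee (ξ + σ) * AA Q z w (ξ + σ) ζ0)‖ₑ
      ≤ ENNReal.ofReal (2 * π) * ∫⁻ σ in Set.Ioc 0 ℓ, ‖ee (ξ + σ) * AA Q z w (ξ + σ) ζ1 -
        ee (ξ + σ) * AA Q z w (ξ + σ) ζ0‖ₑ := by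
        gcongr
        exact enorm_integral_le_lintegral_enorm _
    _ ≤ ENNReal.ofReal (2 * π) * ∫⁻ σ in Set.Icc 0 ℓ, ‖ee (ξ + σ) * AA Q z w (ξ + σ) ζ1 -
        ee (ξ + σ) * AA Q z w (ξ + σ) ζ0‖ₑ := by
        gcongr
        exact Set.Ioc_subset_Icc_self
    _ = ENNReal.ofReal (2 * π) * ∫⁻ σ in Set.Icc 0 ℓ, ‖AA Q z w (σ * 1 + ξ) ζ1 -
        AA Q z w (σ * 1 + ξ) ζ0‖ₑ := by
        congr 1
        refine lintegral_congr fun σ => ?_
        rw [← mul_sub, ← ofReal_norm, ← ofReal_norm, norm_mul, norm_ee, one_mul,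
          show ξ + σ = σ * 1 + ξ by ring]
    _ ≤ ENNReal.ofReal (2 * π) * (ENNReal.ofReal (20 / 1) * ENNReal.ofReal (Dev Q w (Bx L z))) := by
        gcongr
    _ = _ := by
        rw [← mul_assoc, ← ENNReal.ofReal_mul (by positivity)]
        congr 2
        ring

theorem measurable_AA {n : ℕ} {o : ℝ × ℝ} [Countable ι] {I : Finset ι} {Q : ι → USq} {W : ℝ}
    (h : Cvr n o I Q W)
    (z : ℤ × ℤ) (w : ℝ × ℝ) : Measurable fun p : ℝ × ℝ => AA Q z w p.1 p.2 := by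
  unfold AA
  exact ((measurable_F h).comp (continuous_P z w).measurable).mul
    (measurable_ee.comp measurable_snd.neg)

theorem measurable_BB {n : ℕ} {o : ℝ × ℝ} [Countable ι] {I : Finset ι} {Q : ι → USq} {W : ℝ}
    (h : Cvr n o I Q W)
    (z : ℤ × ℤ) (w : ℝ × ℝ) : Measurable fun p : ℝ × ℝ => BB Q z w p.1 p.2 := by
  unfold BB
  exact ((measurable_FH h).comp (continuous_P z w).measurable).mul
    (measurable_ee.comp measurable_fst.neg)

theorem measurable_GG {n : ℕ} {o : ℝ × ℝ} [Countable ι] {I : Finset ι} {Q : ι → USq} {W : ℝ}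
    (h : Cvr n o I Q W)
    (z : ℤ × ℤ) (w : ℝ × ℝ) : Measurable fun p : ℝ × ℝ => GG Q z w p.1 p.2 := by
  unfold GG
  exact ((measurable_Gs h).comp (continuous_P z w).measurable).mul
    (measurable_ee.comp (measurable_fst.sub measurable_snd))

theorem measurable_EE {n : ℕ} {o : ℝ × ℝ} [Countable ι] {I : Finset ι} {Q : ι → USq} {W : ℝ}
    (h : Cvr n o I Q W)
    (z : ℤ × ℤ) (w : ℝ × ℝ) (ℓ : ℝ) (hℓ : 0 ≤ ℓ) :
    Measurable fun p : ℝ × ℝ => EE Q z w ℓ p.1 p.2 := by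
  have hA := measurable_AA h z w
  have hG := measurable_GG h z w
  unfold EE
  have m1 : Measurable fun p : ℝ × ℝ => GG Q z w (p.1 + ℓ) p.2 :=
    hG.comp (f := fun p : ℝ × ℝ => (p.1 + ℓ, p.2)) (by fun_prop)
  have m5 : Measurable fun p : ℝ × ℝ => ∫ σ in (0 : ℝ)..ℓ, ee (p.1 + σ) * AA Q z w (p.1 + σ) p.2 := by
    simp only [intervalIntegral.integral_of_le hℓ]
    have : StronglyMeasurable fun q : (ℝ × ℝ) × ℝ =>
        ee (q.1.1 + q.2) * AA Q z w (q.1.1 + q.2) q.1.2 := by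
      refine Measurable.stronglyMeasurable ?_
      have k1 : Measurable fun q : (ℝ × ℝ) × ℝ => ee (q.1.1 + q.2) :=
        measurable_ee.comp (by fun_prop)
      have k2 : Measurable fun q : (ℝ × ℝ) × ℝ => AA Q z w (q.1.1 + q.2) q.1.2 :=
        hA.comp (f := fun q : (ℝ × ℝ) × ℝ => (q.1.1 + q.2, q.1.2)) (by fun_prop)
      exact k1.mul k2
    exact (this.integral_prod_right' (ν := volume.restrict (Set.Ioc 0 ℓ))).measurable
  exact (m1.sub hG).sub (m5.const_mul _)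

/-- affine change of variables, null sets -/
theorem ae_aff (z : ℤ × ℤ) (w : ℝ × ℝ) (hw : w.1 ^ 2 + w.2 ^ 2 = 1) (a c d : ℝ) (ha : 0 < a)
    (p : ℝ × ℝ → Prop) (h0 : ∀ᵐ x : ℝ × ℝ, p x) :
    ∀ᵐ x : ℝ × ℝ, p (P z w (x.1 * a + c) (x.2 * a + d)) := by
  rw [ae_iff] at h0 ⊢
  set N : Set (ℝ × ℝ) := {x | ¬ p x} with hN
  set M := H282R3.SQ.linM (a * w.2) (a * w.1) (-(a * w.1)) (a * w.2) with hM
  have hdet : LinearMap.det M = a ^ 2 := by
    rw [hM, H282R3.SQ.linM_det]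
    linear_combination a ^ 2 * hw
  have hset : {x : ℝ × ℝ | ¬ p (P z w (x.1 * a + c) (x.2 * a + d))} =
      M ⁻¹' ((fun x => x + P z w c d) ⁻¹' N) := by
    ext x
    have : M x + P z w c d = P z w (x.1 * a + c) (x.2 * a + d) := by
      rw [hM, H282R3.SQ.linM_apply]
      unfold P
      ext
      · simp only [Prod.fst_add]; ring
      · simp only [Prod.snd_add]; ring
    simp only [Set.mem_preimage, this, hN, Set.mem_ofPred_eq]
  rw [hset, Measure.addHaar_preimage_linearMap volume (by rw [hdet]; positivity),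
    measure_preimage_add_right, h0, mul_zero]

/-- affine change of variables, integrals -/
theorem lint_aff (z : ℤ × ℤ) (w : ℝ × ℝ) (hw : w.1 ^ 2 + w.2 ^ 2 = 1) (a c d : ℝ) (ha : 0 < a)
    (g : ℝ × ℝ → ℝ≥0∞) (hg : Measurable g) :
    ∫⁻ x : ℝ × ℝ, g (P z w (x.1 * a + c) (x.2 * a + d)) =
      ENNReal.ofReal (1 / a ^ 2) * ∫⁻ x : ℝ × ℝ, g x := by
  set M := H282R3.SQ.linM (a * w.2) (a * w.1) (-(a * w.1)) (a * w.2) with hM
  have hdet : LinearMap.det M = a ^ 2 := by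
    rw [hM, H282R3.SQ.linM_det]
    linear_combination a ^ 2 * hw
  have hdet0 : LinearMap.det M ≠ 0 := by rw [hdet]; positivity
  have hMP : ∀ x : ℝ × ℝ, M x + P z w c d = P z w (x.1 * a + c) (x.2 * a + d) := by
    intro x
    rw [hM, H282R3.SQ.linM_apply]
    unfold P
    ext
    · simp only [Prod.fst_add]; ring
    · simp only [Prod.snd_add]; ring
  have h1 : ∫⁻ x : ℝ × ℝ, g (P z w (x.1 * a + c) (x.2 * a + d)) =
      ∫⁻ x : ℝ × ℝ, g (M x + P z w c d) := by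
    refine lintegral_congr fun x => ?_
    rw [hMP]
  have hMm : Measurable (fun x : ℝ × ℝ => M x) :=
    (LinearMap.continuous_of_finiteDimensional M).measurable
  have h2 : ∫⁻ x : ℝ × ℝ, g (M x + P z w c d) =
      ∫⁻ y, g (y + P z w c d) ∂((volume : Measure (ℝ × ℝ)).map M) := by
    exact (lintegral_map (f := fun y => g (y + P z w c d)) (hg.comp (measurable_add_const _))
      hMm).symm
  rw [h1, h2, Measure.map_linearMap_addHaar_eq_smul_addHaar volume hdet0, lintegral_smul_measure,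
    lintegral_add_right_eq_self g (P z w c d), hdet, smul_eq_mul]
  congr 2
  rw [abs_of_pos (by positivity), one_div]

/-- the overlap at a corner of the frame -/
theorem Gov {n : ℕ} {o : ℝ × ℝ} [Countable ι] {I : Finset ι} {Q : ι → USq} {W : ℝ}
    (h : Cvr n o I Q W)
    (z : ℤ × ℤ) (w : ℝ × ℝ) (hw : w.1 ^ 2 + w.2 ^ 2 = 1) (L : ℕ) (a c d : ℝ) (ha : 24 / 25 ≤ a)
    (hsub : ∀ x ∈ Set.Icc (0 : ℝ) 1 ×ˢ Set.Icc (0 : ℝ) 1,
      P z w (x.1 * a + c) (x.2 * a + d) ∈ Bx L z) :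
    Good (ENNReal.ofReal (Dev Q w (Bx L z)))
      (fun x => ov Q (P z w (x.1 * a + c) (x.2 * a + d))) 2 := by
  have hap : 0 < a := by linarith
  have hPm : Measurable fun x : ℝ × ℝ => P z w (x.1 * a + c) (x.2 * a + d) :=
    (continuous_P z w).measurable.comp (f := fun x : ℝ × ℝ => (x.1 * a + c, x.2 * a + d))
      (by fun_prop)
  have hom := measurable_ov Q
  refine ⟨hom.comp hPm, by norm_num, ?_⟩
  have hμs : μs = (volume : Measure (ℝ × ℝ)).restrict (Set.Icc (0 : ℝ) 1 ×ˢ Set.Icc (0 : ℝ) 1) := by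
    unfold μs
    rw [Measure.prod_restrict]
    rfl
  have hsm : MeasurableSet (Set.Icc (0 : ℝ) 1 ×ˢ Set.Icc (0 : ℝ) 1) :=
    measurableSet_Icc.prod measurableSet_Icc
  have hBm := measurableSet_Bx L z
  calc ∫⁻ x, ov Q (P z w (x.1 * a + c) (x.2 * a + d)) ∂μs
      = ∫⁻ x in Set.Icc (0 : ℝ) 1 ×ˢ Set.Icc (0 : ℝ) 1,
          (Bx L z).indicator (ov Q) (P z w (x.1 * a + c) (x.2 * a + d)) := by
        rw [hμs]
        refine setLIntegral_congr_fun hsm fun x hx => ?_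
        rw [Set.indicator_of_mem (hsub x hx)]
    _ ≤ ∫⁻ x : ℝ × ℝ, (Bx L z).indicator (ov Q) (P z w (x.1 * a + c) (x.2 * a + d)) :=
        setLIntegral_le_lintegral _ _
    _ = ENNReal.ofReal (1 / a ^ 2) * ∫⁻ x : ℝ × ℝ, (Bx L z).indicator (ov Q) x :=
        lint_aff z w hw a c d hap _ (hom.indicator hBm)
    _ = ENNReal.ofReal (1 / a ^ 2) * ∫⁻ x in Bx L z, ov Q x := by
        rw [lintegral_indicator hBm]
    _ ≤ ENNReal.ofReal 2 * ENNReal.ofReal (Dev Q w (Bx L z)) := by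
        gcongr
        · rw [div_le_iff₀ (by positivity)]
          nlinarith
        · refine (area_le h _).trans (ENNReal.ofReal_le_ofReal ?_)
          unfold Dev
          have : 0 ≤ ∑ᶠ i ∈ {i | ((Q i).C ∩ Bx L z).Nonempty}, |(Q i).a * w.1 + (Q i).b * w.2| :=
            finsum_nonneg fun i => finsum_nonneg fun _ => abs_nonneg _
          linarith

/-- the overlap is an integer -/
theorem one_le_ov (Q : ι → USq) (x : ℝ × ℝ) (h : ov Q x ≠ 0) : 1 ≤ ov Q x := by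
  classical
  have e : mult Q x = (({i | x ∈ (Q i).O} : Set ι).encard : ℝ≥0∞) := by
    rw [← ENNReal.tsum_set_one, tsum_subtype ({i | x ∈ (Q i).O} : Set ι) (fun _ => (1 : ℝ≥0∞))]
    unfold mult
    refine tsum_congr fun i => ?_
    by_cases hi : x ∈ (Q i).O
    · rw [Set.indicator_of_mem hi, Set.indicator_of_mem (by exact hi)]
    · rw [Set.indicator_of_notMem hi, Set.indicator_of_notMem (by exact hi)]
  unfold ov at h ⊢
  rw [e] at h ⊢
  rcases eq_or_ne ({i | x ∈ (Q i).O} : Set ι).encard ⊤ with ht | ht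
  · rw [ht]; simp
  · obtain ⟨m, hm⟩ := ENat.ne_top_iff_exists.1 ht
    rw [← hm] at h ⊢
    have hc : ((m : ℕ∞) : ℝ≥0∞) = (m : ℝ≥0∞) := by simp
    rw [hc] at h ⊢
    have hm2 : 2 ≤ m := by
      by_contra hc'
      apply h
      have : m ≤ 1 := by omega
      exact tsub_eq_zero_of_le (by exact_mod_cast this)
    refine ENNReal.le_sub_of_add_le_left ENNReal.one_ne_top ?_
    have : ((2 : ℕ) : ℝ≥0∞) ≤ (m : ℝ≥0∞) := by exact_mod_cast hm2
    refine le_trans (le_of_eq ?_) this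
    norm_num

/-- difference of two numbers of norm at most one -/
theorem enorm_sub_two (a b : ℂ) (ha : ‖a‖ ≤ 1) (hb : ‖b‖ ≤ 1) : ‖a - b‖ₑ ≤ 2 := by
  rw [← ofReal_norm, show (2 : ℝ≥0∞) = ENNReal.ofReal 2 by simp]
  exact ENNReal.ofReal_le_ofReal ((norm_sub_le _ _).trans (by linarith))

end Core

open H282R4.PK.Core (P ee ee_add norm_ee ee_zero conj_ee measurable_ee continuous_ee AA BB BB_eq
  continuous_P mem_Bx isBounded_Bx measurableSet_Bx lint_scale alg3 μs bd_s bd_t Good) in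
open H282R5.PC.Core in
/-- core of the local lemma; `w = (-b, a)` is the vertical reference vector, `b = -w.1` -/
theorem LL_core {n : ℕ} {o : ℝ × ℝ} {ι : Type} [Countable ι] {I : Finset ι} {Q : ι → USq} {W : ℝ}
    (h : Cvr n o I Q W)
    (z : ℤ × ℤ) (w : ℝ × ℝ) (hw : w.1 ^ 2 + w.2 ^ 2 = 1) (hw2 : |w.1| ≤ w.2 / 4)
    (L : ℕ) (hL : 1 ≤ L) (hLw : L * |w.1| ≤ 1 / 8) (T S : Set ℝ) (hT : MeasurableSet T)
    (hS : MeasurableSet S) (hT1 : T ⊆ Set.Icc 0 1) (hS1 : S ⊆ Set.Icc 0 1)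
    (hTg : ∀ t ∈ T, ov Q (z.1 + t, (z.2 : ℝ)) = 0 ∧ ov Q (z.1 + t + L, (z.2 : ℝ)) = 0)
    (hSg : ∀ s ∈ S, ov Q ((z.1 : ℝ), z.2 + s) = 0 ∧ ov Q ((z.1 : ℝ), z.2 + s + L) = 0) :
    (∫⁻ t in T, ‖F Q (z.1 + t + L, (z.2 : ℝ)) *
        Complex.exp (2 * π * Complex.I * (-(L * w.1) : ℝ)) - F Q (z.1 + t, (z.2 : ℝ))‖ₑ) *
      (∫⁻ s in S, ‖FH Q ((z.1 : ℝ), z.2 + s + L) *
        Complex.exp (2 * π * Complex.I * (L * w.1 : ℝ)) - FH Q ((z.1 : ℝ), z.2 + s)‖ₑ) ≤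
      ENNReal.ofReal (2000 * Dev Q w (Bx L z)) := by
  -- numerical facts
  have hL' : (1 : ℝ) ≤ L := by exact_mod_cast hL
  have hb := abs_nonneg w.1
  have ha0 : 0 ≤ w.2 := by linarith
  have ha : 24 / 25 ≤ w.2 := by
    have h1 : w.1 ^ 2 ≤ (w.2 / 4) ^ 2 := by
      rw [← sq_abs]
      gcongr
    by_contra hc
    push Not at hc
    nlinarith
  have ha1 : w.2 ≤ 1 := by nlinarith [sq_nonneg w.1]
  have hapos : 0 < w.2 := by linarith
  have hb8 : |w.1| ≤ 1 / 8 := by nlinarith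
  obtain ⟨ℓ, hℓdef⟩ : ∃ ℓ : ℝ, ℓ = L * w.2 := ⟨_, rfl⟩
  have hℓ0 : 0 ≤ ℓ := by rw [hℓdef]; positivity
  have hℓL : ℓ ≤ L := by rw [hℓdef]; nlinarith
  have hbb := abs_le.1 hb8
  have hLb := abs_le.1 (show |L * w.1| ≤ 1 / 8 by rwa [abs_mul, Nat.abs_cast])
  have htb : ∀ t ∈ Set.Icc (0 : ℝ) 1, -(1 / 8) ≤ t * w.1 ∧ t * w.1 ≤ 1 / 8 := by
    intro t ht
    refine abs_le.1 ?_
    rw [abs_mul, abs_of_nonneg ht.1]
    nlinarith [ht.1, ht.2]
  obtain ⟨D, hD⟩ : ∃ D, D = ENNReal.ofReal (Dev Q w (Bx L z)) := ⟨_, rfl⟩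
  have hta : ∀ t ∈ Set.Icc (0 : ℝ) 1, 0 ≤ t * w.2 ∧ t * w.2 ≤ 1 := by
    intro t ht
    exact ⟨mul_nonneg ht.1 ha0, by nlinarith [ht.1, ht.2]⟩
  have hAm := measurable_AA h z w
  have hBm := measurable_BB h z w
  have hEm := measurable_EE h z w ℓ hℓ0
  have mm : ∀ {ξ ζ : ℝ}, -1 ≤ ξ → ξ ≤ L + 1 → -1 ≤ ζ → ζ ≤ L + 1 → P z w ξ ζ ∈ Bx L z :=
    fun h1 h2 h3 h4 => mem_Bx hw hw2 hL hLw h1 h2 h3 h4
  have mA : ∀ f g f' g' : ℝ × ℝ → ℝ, Measurable f → Measurable g → Measurable f' →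
      Measurable g' → Measurable fun p => ‖AA Q z w (f p) (g p) - AA Q z w (f' p) (g' p)‖ₑ := by
    intro f g f' g' hf hg hf' hg'
    exact ((hAm.comp (hf.prodMk hg)).sub (hAm.comp (hf'.prodMk hg'))).enorm
  have mB : ∀ f g f' g' : ℝ × ℝ → ℝ, Measurable f → Measurable g → Measurable f' →
      Measurable g' → Measurable fun p => ‖BB Q z w (f p) (g p) - BB Q z w (f' p) (g' p)‖ₑ := by
    intro f g f' g' hf hg hf' hg'
    exact ((hBm.comp (hf.prodMk hg)).sub (hBm.comp (hf'.prodMk hg'))).enorm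
  have c20 : (0 : ℝ) ≤ 20 / w.2 := by positivity
  have c40 : (0 : ℝ) ≤ 40 / w.2 := by positivity
  have G1 : Good D (fun p => ‖EE Q z w ℓ (p.1 * w.2 + 0) (p.2 * w.2 + 0)‖ₑ) (40 / w.2) := by
    refine ⟨(hEm.comp (f := fun p : ℝ × ℝ => (p.1 * w.2 + 0, p.2 * w.2 + 0))
      (by fun_prop)).enorm, c40, ?_⟩
    refine bd_s _ (hEm.comp (f := fun p : ℝ × ℝ => (p.1 * w.2 + 0, p.2 * w.2 + 0))
      (by fun_prop)).enorm _ ?_
    intro t ht
    rw [hD]
    refine LE h z w hw hw2 L (t * w.2 + 0) ℓ w.2 0 hapos hℓ0 ?_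
    intro ζ hζ s hs
    have := hta t ht
    exact mm (by linarith [hs.1]) (by linarith [hs.2]) (by linarith [hζ.1])
      (by linarith [hζ.2])
  have G2 : Good D (fun p => ‖EE Q z w ℓ (p.1 * w.2 + 0) (p.2 * w.2 + ℓ)‖ₑ) (40 / w.2) := by
    refine ⟨(hEm.comp (f := fun p : ℝ × ℝ => (p.1 * w.2 + 0, p.2 * w.2 + ℓ))
      (by fun_prop)).enorm, c40, ?_⟩
    refine bd_s _ (hEm.comp (f := fun p : ℝ × ℝ => (p.1 * w.2 + 0, p.2 * w.2 + ℓ))
      (by fun_prop)).enorm _ ?_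
    intro t ht
    rw [hD]
    refine LE h z w hw hw2 L (t * w.2 + 0) ℓ w.2 ℓ hapos hℓ0 ?_
    intro ζ hζ s hs
    have := hta t ht
    exact mm (by linarith [hs.1]) (by linarith [hs.2]) (by linarith [hζ.1])
      (by linarith [hζ.2])
  have GA : ∀ β : ℝ, 0 ≤ β → β ≤ ℓ → Good D (fun p => ‖AA Q z w (p.1 * w.2 + β) (p.2 * w.2 + ℓ) -
      AA Q z w (p.1 * w.2 + β) (p.2 * w.2 + 0)‖ₑ) (20 / w.2) := by
    intro β hβ hβ'
    refine ⟨mA _ _ _ _ (by fun_prop) (by fun_prop) (by fun_prop) (by fun_prop), c20,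
      bd_t _ (mA _ _ _ _ (by fun_prop) (by fun_prop) (by fun_prop) (by fun_prop)) _ ?_⟩
    intro s hs
    rw [hD]
    have hs' := hta s hs
    refine LA h z w hw hw2 L w.2 β (s * w.2 + 0) 0 1 hapos (fun _ => s * w.2 + ℓ)
      (fun _ _ => by linarith) ?_
    intro t ht ζ hζ
    have := hta t ht
    exact mm (by linarith) (by linarith) (by linarith [hζ.1]) (by linarith [hζ.2])
  have GB : ∀ β : ℝ, 0 ≤ β → β ≤ ℓ → Good D (fun p => ‖BB Q z w (p.1 * w.2 + ℓ) (p.2 * w.2 + β) -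
      BB Q z w (p.1 * w.2 + 0) (p.2 * w.2 + β)‖ₑ) (20 / w.2) := by
    intro β hβ hβ'
    refine ⟨mB _ _ _ _ (by fun_prop) (by fun_prop) (by fun_prop) (by fun_prop), c20,
      bd_s _ (mB _ _ _ _ (by fun_prop) (by fun_prop) (by fun_prop) (by fun_prop)) _ ?_⟩
    intro t ht
    rw [hD]
    have ht' := hta t ht
    refine LB h z w hw hw2 L w.2 β (t * w.2 + 0) 0 1 hapos (fun _ => t * w.2 + ℓ)
      (fun _ _ => by linarith) ?_
    intro s hs ξ hξ
    have := hta s hs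
    exact mm (by linarith [hξ.1]) (by linarith [hξ.2]) (by linarith) (by linarith)
  have G7a : Good D (fun p => ‖AA Q z w (p.1 * w.2 + 0) (p.1 * w.1) -
      AA Q z w (p.1 * w.2 + 0) (-1)‖ₑ) (20 / w.2) := by
    refine ⟨mA _ _ _ _ (by fun_prop) (by fun_prop) (by fun_prop) (by fun_prop), c20,
      bd_t _ (mA _ _ _ _ (by fun_prop) (by fun_prop) (by fun_prop) (by fun_prop)) _ ?_⟩
    intro s hs
    rw [hD]
    refine LA h z w hw hw2 L w.2 0 (-1) 0 1 hapos (fun t => t * w.1)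
      (fun t ht => by linarith [(htb t ht).1]) ?_
    intro t ht ζ hζ
    have := hta t ht
    have := htb t ht
    exact mm (by linarith) (by linarith) (by linarith [hζ.1]) (by linarith [hζ.2])
  have G8a : Good D (fun p => ‖AA Q z w (p.1 * w.2 + ℓ) ((p.1 + L) * w.1) -
      AA Q z w (p.1 * w.2 + ℓ) (-1)‖ₑ) (20 / w.2) := by
    refine ⟨mA _ _ _ _ (by fun_prop) (by fun_prop) (by fun_prop) (by fun_prop), c20,
      bd_t _ (mA _ _ _ _ (by fun_prop) (by fun_prop) (by fun_prop) (by fun_prop)) _ ?_⟩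
    intro s hs
    rw [hD]
    refine LA h z w hw hw2 L w.2 ℓ (-1) 0 1 hapos (fun t => (t + L) * w.1)
      (fun t ht => by linarith [(htb t ht).1, add_mul t (L : ℝ) w.1]) ?_
    intro t ht ζ hζ
    have := hta t ht
    have := htb t ht
    exact mm (by linarith) (by linarith) (by linarith [hζ.1])
      (by linarith [hζ.2, add_mul t (L : ℝ) w.1])
  have GAm : ∀ β : ℝ, 0 ≤ β → β ≤ ℓ → Good D (fun p => ‖AA Q z w (p.1 * w.2 + β) (p.2 * w.2 + 0) -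
      AA Q z w (p.1 * w.2 + β) (-1)‖ₑ) (20 / w.2) := by
    intro β hβ hβ'
    refine ⟨mA _ _ _ _ (by fun_prop) (by fun_prop) (by fun_prop) (by fun_prop), c20,
      bd_t _ (mA _ _ _ _ (by fun_prop) (by fun_prop) (by fun_prop) (by fun_prop)) _ ?_⟩
    intro s hs
    rw [hD]
    have hs' := hta s hs
    refine LA h z w hw hw2 L w.2 β (-1) 0 1 hapos (fun _ => s * w.2 + 0)
      (fun _ _ => by linarith) ?_
    intro t ht ζ hζ
    have := hta t ht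
    exact mm (by linarith) (by linarith) (by linarith [hζ.1]) (by linarith [hζ.2])
  have G9a : Good D (fun p => ‖BB Q z w (-(p.2 * w.1)) (p.2 * w.2 + 0) -
      BB Q z w (-1) (p.2 * w.2 + 0)‖ₑ) (20 / w.2) := by
    refine ⟨mB _ _ _ _ (by fun_prop) (by fun_prop) (by fun_prop) (by fun_prop), c20,
      bd_s _ (mB _ _ _ _ (by fun_prop) (by fun_prop) (by fun_prop) (by fun_prop)) _ ?_⟩
    intro t ht
    rw [hD]
    refine LB h z w hw hw2 L w.2 0 (-1) 0 1 hapos (fun s => -(s * w.1))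
      (fun s hs => by linarith [(htb s hs).2]) ?_
    intro s hs ξ hξ
    have := hta s hs
    have := htb s hs
    exact mm (by linarith [hξ.1]) (by linarith [hξ.2]) (by linarith) (by linarith)
  have G10a : Good D (fun p => ‖BB Q z w (-((p.2 + L) * w.1)) (p.2 * w.2 + ℓ) -
      BB Q z w (-1) (p.2 * w.2 + ℓ)‖ₑ) (20 / w.2) := by
    refine ⟨mB _ _ _ _ (by fun_prop) (by fun_prop) (by fun_prop) (by fun_prop), c20,
      bd_s _ (mB _ _ _ _ (by fun_prop) (by fun_prop) (by fun_prop) (by fun_prop)) _ ?_⟩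
    intro t ht
    rw [hD]
    refine LB h z w hw hw2 L w.2 ℓ (-1) 0 1 hapos (fun s => -((s + L) * w.1))
      (fun s hs => by linarith [(htb s hs).2, add_mul s (L : ℝ) w.1]) ?_
    intro s hs ξ hξ
    have := hta s hs
    have := htb s hs
    exact mm (by linarith [hξ.1]) (by linarith [hξ.2, add_mul s (L : ℝ) w.1]) (by linarith)
      (by linarith)
  have GBm : ∀ β : ℝ, 0 ≤ β → β ≤ ℓ → Good D (fun p => ‖BB Q z w (p.1 * w.2 + 0) (p.2 * w.2 + β) -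
      BB Q z w (-1) (p.2 * w.2 + β)‖ₑ) (20 / w.2) := by
    intro β hβ hβ'
    refine ⟨mB _ _ _ _ (by fun_prop) (by fun_prop) (by fun_prop) (by fun_prop), c20,
      bd_s _ (mB _ _ _ _ (by fun_prop) (by fun_prop) (by fun_prop) (by fun_prop)) _ ?_⟩
    intro t ht
    rw [hD]
    have ht' := hta t ht
    refine LB h z w hw hw2 L w.2 β (-1) 0 1 hapos (fun _ => t * w.2 + 0)
      (fun _ _ => by linarith) ?_
    intro s hs ξ hξ
    have := hta s hs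
    exact mm (by linarith [hξ.1]) (by linarith [hξ.2]) (by linarith) (by linarith)
  have GC : Good D (fun _ => ENNReal.ofReal (40 * π) * D) (40 * π) := by
    refine ⟨measurable_const, by positivity, bd_s _ measurable_const _ ?_⟩
    intro t _
    simp
  have GO : ∀ c d : ℝ, 0 ≤ c → c ≤ ℓ → 0 ≤ d → d ≤ ℓ →
      Good D (fun p => ov Q (P z w (p.1 * w.2 + c) (p.2 * w.2 + d))) 2 := by
    intro c d hc hc' hd hd'
    rw [hD]
    refine Gov h z w hw L w.2 c d ha ?_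
    rintro x ⟨hx1, hx2⟩
    have h1 := hta x.1 hx1
    have h2 := hta x.2 hx2
    exact mm (by linarith) (by linarith) (by linarith) (by linarith)
  have GOt := ((((GO 0 0 le_rfl hℓ0 le_rfl hℓ0).add (GO 0 ℓ le_rfl hℓ0 hℓ0 le_rfl)).add
    (GO ℓ 0 hℓ0 le_rfl le_rfl hℓ0)).add (GO ℓ ℓ hℓ0 le_rfl hℓ0 le_rfl)).two.two
  have Gtot := ((((((((G1.add G2).add GC).add (GA ℓ hℓ0 le_rfl).two).add (GA 0 le_rfl hℓ0).two).add
    (GB 0 le_rfl hℓ0)).add (GB ℓ hℓ0 le_rfl)).add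
    (((G7a.add (GAm 0 le_rfl hℓ0)).add G8a).add (GAm ℓ hℓ0 le_rfl)).two).add
    (((G9a.add (GBm 0 le_rfl hℓ0)).add G10a).add (GBm ℓ hℓ0 le_rfl)).two).add GOt
  -- the two factors
  have fA : ∀ t : ℝ, ‖F Q (z.1 + t + L, (z.2 : ℝ)) *
        Complex.exp (2 * π * Complex.I * (-(L * w.1) : ℝ)) - F Q (z.1 + t, (z.2 : ℝ))‖ₑ =
      ‖AA Q z w (t * w.2 + ℓ) ((t + L) * w.1) - AA Q z w (t * w.2 + 0) (t * w.1)‖ₑ := by
    intro t
    have p1 : P z w (t * w.2 + 0) (t * w.1) = (z.1 + t, (z.2 : ℝ)) := by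
      unfold P
      ext
      · simp only []; linear_combination t * hw
      · simp only []; ring
    have p2 : P z w (t * w.2 + ℓ) ((t + L) * w.1) = (z.1 + t + L, (z.2 : ℝ)) := by
      unfold P
      rw [hℓdef]
      ext
      · simp only []; linear_combination (t + L) * hw
      · simp only []; ring
    unfold AA
    rw [p1, p2, show -((t + L) * w.1) = -(L * w.1) + -(t * w.1) by ring, ee_add, ← mul_assoc,
      ← sub_mul, ← ofReal_norm, ← ofReal_norm, norm_mul, norm_ee, mul_one]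
    rfl
  have fB : ∀ s : ℝ, ‖FH Q ((z.1 : ℝ), z.2 + s + L) *
        Complex.exp (2 * π * Complex.I * (L * w.1 : ℝ)) - FH Q ((z.1 : ℝ), z.2 + s)‖ₑ =
      ‖BB Q z w (-((s + L) * w.1)) (s * w.2 + ℓ) - BB Q z w (-(s * w.1)) (s * w.2 + 0)‖ₑ := by
    intro s
    have p1 : P z w (-(s * w.1)) (s * w.2 + 0) = ((z.1 : ℝ), z.2 + s) := by
      unfold P
      ext
      · simp only []; ring
      · simp only []; linear_combination s * hw
    have p2 : P z w (-((s + L) * w.1)) (s * w.2 + ℓ) = ((z.1 : ℝ), z.2 + s + L) := by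
      unfold P
      rw [hℓdef]
      ext
      · simp only []; ring
      · simp only []; linear_combination (s + L) * hw
    unfold BB
    rw [p1, p2, neg_neg, neg_neg, show (s + L) * w.1 = L * w.1 + s * w.1 by ring, ee_add,
      ← mul_assoc, ← sub_mul, ← ofReal_norm, ← ofReal_norm, norm_mul, norm_ee, mul_one]
    rfl
  simp only [fA, fB]
  obtain ⟨μT, hμT⟩ : ∃ μT : Measure (ℝ × ℝ), μT = (volume.restrict T).prod (volume.restrict S) :=
    ⟨_, rfl⟩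
  have hprod : (∫⁻ t in T,
        ‖AA Q z w (t * w.2 + ℓ) ((t + L) * w.1) - AA Q z w (t * w.2 + 0) (t * w.1)‖ₑ) *
      (∫⁻ s in S,
        ‖BB Q z w (-((s + L) * w.1)) (s * w.2 + ℓ) - BB Q z w (-(s * w.1)) (s * w.2 + 0)‖ₑ) =
      ∫⁻ p, ‖AA Q z w (p.1 * w.2 + ℓ) ((p.1 + L) * w.1) -
        AA Q z w (p.1 * w.2 + 0) (p.1 * w.1)‖ₑ *
        ‖BB Q z w (-((p.2 + L) * w.1)) (p.2 * w.2 + ℓ) -
        BB Q z w (-(p.2 * w.1)) (p.2 * w.2 + 0)‖ₑ ∂μT := by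
    rw [hμT]
    rw [← lintegral_prod_mul]
    · refine (Measurable.aemeasurable ?_)
      exact ((hAm.comp (f := fun t : ℝ => (t * w.2 + ℓ, (t + L) * w.1)) (by fun_prop)).sub
        (hAm.comp (f := fun t : ℝ => (t * w.2 + 0, t * w.1)) (by fun_prop))).enorm
    · refine (Measurable.aemeasurable ?_)
      exact ((hBm.comp (f := fun s : ℝ => (-((s + L) * w.1), s * w.2 + ℓ)) (by fun_prop)).sub
        (hBm.comp (f := fun s : ℝ => (-(s * w.1), s * w.2 + 0)) (by fun_prop))).enorm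
  rw [hprod]
  have hμs : μs = (volume : Measure (ℝ × ℝ)).restrict (Set.Icc (0 : ℝ) 1 ×ˢ Set.Icc (0 : ℝ) 1) := by
    unfold μs
    rw [Measure.prod_restrict]
    rfl
  have hμT' : μT = (volume : Measure (ℝ × ℝ)).restrict (T ×ˢ S) := by
    rw [hμT, Measure.prod_restrict]
    rfl
  have hle : μT ≤ μs := by
    rw [hμs, hμT']
    exact Measure.restrict_mono (Set.prod_mono hT1 hS1) le_rfl
  have hmem : ∀ᵐ p ∂μT, p ∈ T ×ˢ S := by
    rw [hμT']
    exact ae_restrict_mem (hT.prod hS)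
  have hfr : ∀ c d : ℝ, ∀ᵐ p ∂μT, ov Q (P z w (p.1 * w.2 + c) (p.2 * w.2 + d)) = 0 →
      ‖F Q (P z w (p.1 * w.2 + c) (p.2 * w.2 + d))‖ = 1 ∧
      ‖FH Q (P z w (p.1 * w.2 + c) (p.2 * w.2 + d))‖ = 1 ∧
      Gs Q (P z w (p.1 * w.2 + c) (p.2 * w.2 + d)) =
        F Q (P z w (p.1 * w.2 + c) (p.2 * w.2 + d)) *
          (1 + (starRingEnd ℂ) (FH Q (P z w (p.1 * w.2 + c) (p.2 * w.2 + d)))) := by
    intro c d
    rw [hμT']
    exact ae_restrict_of_ae (ae_aff z w hw w.2 c d hapos (fun x => ov Q x = 0 → ‖F Q x‖ = 1 ∧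
      ‖FH Q x‖ = 1 ∧ Gs Q x = F Q x * (1 + (starRingEnd ℂ) (FH Q x))) (good_ae h))
  have hhor : ∀ c : ℝ, ∀ᵐ p : ℝ × ℝ ∂μT, ov Q (c + p.1, (z.2 : ℝ)) = 0 →
      ‖F Q (c + p.1, (z.2 : ℝ))‖ = 1 := by
    intro c
    have h1 := norm_F_horiz h (z.2 : ℝ)
    have h2 : ∀ᵐ t : ℝ, ov Q (c + t, (z.2 : ℝ)) = 0 → ‖F Q (c + t, (z.2 : ℝ))‖ = 1 :=
      (measurePreserving_add_left volume c).quasiMeasurePreserving.ae h1
    have h3 : ∀ᵐ t ∂(volume.restrict T), ov Q (c + t, (z.2 : ℝ)) = 0 →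
        ‖F Q (c + t, (z.2 : ℝ))‖ = 1 :=
      ae_restrict_of_ae h2
    rw [hμT]
    exact Measure.quasiMeasurePreserving_fst.ae h3
  have hver : ∀ c : ℝ, ∀ᵐ p : ℝ × ℝ ∂μT, ov Q ((z.1 : ℝ), c + p.2) = 0 →
      ‖FH Q ((z.1 : ℝ), c + p.2)‖ = 1 := by
    intro c
    have h1 := norm_FH_vert h (z.1 : ℝ)
    have h2 : ∀ᵐ t : ℝ, ov Q ((z.1 : ℝ), c + t) = 0 → ‖FH Q ((z.1 : ℝ), c + t)‖ = 1 :=
      (measurePreserving_add_left volume c).quasiMeasurePreserving.ae h1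
    have h3 : ∀ᵐ t ∂(volume.restrict S), ov Q ((z.1 : ℝ), c + t) = 0 →
        ‖FH Q ((z.1 : ℝ), c + t)‖ = 1 :=
      ae_restrict_of_ae h2
    rw [hμT]
    exact Measure.quasiMeasurePreserving_snd.ae h3
  refine le_trans ((lintegral_mono_ae ?_).trans ((lintegral_mono' hle le_rfl).trans Gtot.2.2)) ?_
  · filter_upwards [hmem, hfr 0 0, hfr 0 ℓ, hfr ℓ 0, hfr ℓ ℓ, hhor z.1, hhor (z.1 + L), hver z.2,
      hver (z.2 + L)] with p hp h00 h01 h10 h11 hx hx' hy hy'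
    have hnA : ∀ ξ ζ : ℝ, ‖F Q (P z w ξ ζ)‖ = 1 → ‖AA Q z w ξ ζ‖ ≤ 1 := by
      intro ξ ζ h1
      unfold AA
      rw [norm_mul, norm_ee, h1, mul_one]
    have hnB : ∀ ξ ζ : ℝ, ‖FH Q (P z w ξ ζ)‖ = 1 → ‖BB Q z w ξ ζ‖ ≤ 1 := by
      intro ξ ζ h1
      unfold BB
      rw [norm_mul, norm_ee, h1, mul_one]
    have p1 : P z w (p.1 * w.2 + 0) (p.1 * w.1) = (z.1 + p.1, (z.2 : ℝ)) := by
      unfold P
      ext
      · simp only []; linear_combination p.1 * hw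
      · simp only []; ring
    have p2 : P z w (p.1 * w.2 + ℓ) ((p.1 + L) * w.1) = (z.1 + L + p.1, (z.2 : ℝ)) := by
      unfold P
      rw [hℓdef]
      ext
      · simp only []; linear_combination (p.1 + L) * hw
      · simp only []; ring
    have p3 : P z w (-(p.2 * w.1)) (p.2 * w.2 + 0) = ((z.1 : ℝ), z.2 + p.2) := by
      unfold P
      ext
      · simp only []; ring
      · simp only []; linear_combination p.2 * hw
    have p4 : P z w (-((p.2 + L) * w.1)) (p.2 * w.2 + ℓ) = ((z.1 : ℝ), z.2 + L + p.2) := by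
      unfold P
      rw [hℓdef]
      ext
      · simp only []; ring
      · simp only []; linear_combination (p.2 + L) * hw
    have hp1 := hTg p.1 hp.1
    have hp2 := hSg p.2 hp.2
    have na1 := hnA (p.1 * w.2 + 0) (p.1 * w.1) (by rw [p1]; exact hx hp1.1)
    have na2 := hnA (p.1 * w.2 + ℓ) ((p.1 + L) * w.1) (by
      rw [p2]
      apply hx'
      rw [show (z.1 : ℝ) + L + p.1 = z.1 + p.1 + L by ring]
      exact hp1.2)
    have nb1 := hnB (-(p.2 * w.1)) (p.2 * w.2 + 0) (by rw [p3]; exact hy hp2.1)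
    have nb2 := hnB (-((p.2 + L) * w.1)) (p.2 * w.2 + ℓ) (by
      rw [p4]
      apply hy'
      rw [show (z.2 : ℝ) + L + p.2 = z.2 + p.2 + L by ring]
      exact hp2.2)
    by_cases hov : ov Q (P z w (p.1 * w.2 + 0) (p.2 * w.2 + 0)) = 0 ∧
        ov Q (P z w (p.1 * w.2 + 0) (p.2 * w.2 + ℓ)) = 0 ∧
        ov Q (P z w (p.1 * w.2 + ℓ) (p.2 * w.2 + 0)) = 0 ∧
        ov Q (P z w (p.1 * w.2 + ℓ) (p.2 * w.2 + ℓ)) = 0
    · obtain ⟨o00, o01, o10, o11⟩ := hov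
      replace h00 := h00 o00
      replace h01 := h01 o01
      replace h10 := h10 o10
      replace h11 := h11 o11
      have key := alg3 (AA Q z w (p.1 * w.2 + 0) (p.1 * w.1))
        (AA Q z w (p.1 * w.2 + ℓ) ((p.1 + L) * w.1))
        (BB Q z w (-(p.2 * w.1)) (p.2 * w.2 + 0))
        (BB Q z w (-((p.2 + L) * w.1)) (p.2 * w.2 + ℓ))
        (AA Q z w (p.1 * w.2 + 0) (p.2 * w.2 + 0)) (AA Q z w (p.1 * w.2 + 0) (p.2 * w.2 + ℓ))
        (AA Q z w (p.1 * w.2 + ℓ) (p.2 * w.2 + 0)) (AA Q z w (p.1 * w.2 + ℓ) (p.2 * w.2 + ℓ))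
        (BB Q z w (p.1 * w.2 + 0) (p.2 * w.2 + 0)) (BB Q z w (p.1 * w.2 + 0) (p.2 * w.2 + ℓ))
        (BB Q z w (p.1 * w.2 + ℓ) (p.2 * w.2 + 0)) (BB Q z w (p.1 * w.2 + ℓ) (p.2 * w.2 + ℓ))
        (ee (p.1 * w.2 + 0)) (ee (p.1 * w.2 + ℓ))
        (2 * π * Complex.I * ∫ σ in (0 : ℝ)..ℓ, ee (p.1 * w.2 + 0 + σ) *
          AA Q z w (p.1 * w.2 + 0 + σ) (p.2 * w.2 + 0))
        (2 * π * Complex.I * ∫ σ in (0 : ℝ)..ℓ, ee (p.1 * w.2 + 0 + σ) *
          AA Q z w (p.1 * w.2 + 0 + σ) (p.2 * w.2 + ℓ))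
        (AA Q z w (p.1 * w.2 + 0) (-1)) (AA Q z w (p.1 * w.2 + ℓ) (-1))
        (BB Q z w (-1) (p.2 * w.2 + 0)) (BB Q z w (-1) (p.2 * w.2 + ℓ))
        (norm_ee _).le (norm_ee _).le (hnB _ _ h11.2.1) (hnB _ _ h01.2.1) (hnA _ _ h10.1)
        na1 na2 (hnB _ _ h00.2.1)
      refine (key.trans ?_).trans le_self_add
      have hEE : ∀ ζ : ℝ, GG Q z w (p.1 * w.2 + ℓ) ζ = AA Q z w (p.1 * w.2 + ℓ) ζ *
            (ee (p.1 * w.2 + ℓ) + (starRingEnd ℂ) (BB Q z w (p.1 * w.2 + ℓ) ζ)) →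
          GG Q z w (p.1 * w.2 + 0) ζ = AA Q z w (p.1 * w.2 + 0) ζ *
            (ee (p.1 * w.2 + 0) + (starRingEnd ℂ) (BB Q z w (p.1 * w.2 + 0) ζ)) →
          EE Q z w ℓ (p.1 * w.2 + 0) ζ =
          AA Q z w (p.1 * w.2 + ℓ) ζ * (ee (p.1 * w.2 + ℓ) +
            (starRingEnd ℂ) (BB Q z w (p.1 * w.2 + ℓ) ζ)) -
          AA Q z w (p.1 * w.2 + 0) ζ * (ee (p.1 * w.2 + 0) +
            (starRingEnd ℂ) (BB Q z w (p.1 * w.2 + 0) ζ)) -
          2 * π * Complex.I * ∫ σ in (0 : ℝ)..ℓ, ee (p.1 * w.2 + 0 + σ) *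
            AA Q z w (p.1 * w.2 + 0 + σ) ζ := by
        intro ζ e1 e2
        unfold EE
        rw [show p.1 * w.2 + 0 + ℓ = p.1 * w.2 + ℓ by ring, e1, e2]
      have hT := Tdiff h z w hw hw2 L (p.1 * w.2 + 0) ℓ (p.2 * w.2 + 0) (p.2 * w.2 + ℓ) hℓ0
        (by linarith) (by
          intro t ht ζ hζ
          have h1 := hta p.1 (hT1 hp.1)
          have h2 := hta p.2 (hS1 hp.2)
          exact mm (by linarith [ht.1]) (by linarith [ht.2]) (by linarith [hζ.1])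
            (by linarith [hζ.2]))
      rw [← hD] at hT
      rw [hEE (p.2 * w.2 + 0) (GG_eq Q z w _ _ h10.2.2) (GG_eq Q z w _ _ h00.2.2),
        hEE (p.2 * w.2 + ℓ) (GG_eq Q z w _ _ h11.2.2) (GG_eq Q z w _ _ h01.2.2)]
      gcongr
    · refine le_trans ?_ le_add_self
      have h4 : ‖AA Q z w (p.1 * w.2 + ℓ) ((p.1 + L) * w.1) -
            AA Q z w (p.1 * w.2 + 0) (p.1 * w.1)‖ₑ *
          ‖BB Q z w (-((p.2 + L) * w.1)) (p.2 * w.2 + ℓ) -
            BB Q z w (-(p.2 * w.1)) (p.2 * w.2 + 0)‖ₑ ≤ 2 * 2 := by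
        gcongr
        · exact enorm_sub_two _ _ na2 na1
        · exact enorm_sub_two _ _ nb2 nb1
      refine h4.trans ?_
      have h5 : 1 ≤ ov Q (P z w (p.1 * w.2 + 0) (p.2 * w.2 + 0)) +
          ov Q (P z w (p.1 * w.2 + 0) (p.2 * w.2 + ℓ)) +
          ov Q (P z w (p.1 * w.2 + ℓ) (p.2 * w.2 + 0)) +
          ov Q (P z w (p.1 * w.2 + ℓ) (p.2 * w.2 + ℓ)) := by
        by_cases o00 : ov Q (P z w (p.1 * w.2 + 0) (p.2 * w.2 + 0)) = 0
        · by_cases o01 : ov Q (P z w (p.1 * w.2 + 0) (p.2 * w.2 + ℓ)) = 0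
          · by_cases o10 : ov Q (P z w (p.1 * w.2 + ℓ) (p.2 * w.2 + 0)) = 0
            · exact (one_le_ov Q _ (fun o11 => hov ⟨o00, o01, o10, o11⟩)).trans le_add_self
            · exact ((one_le_ov Q _ o10).trans le_add_self).trans le_self_add
          · exact (((one_le_ov Q _ o01).trans le_add_self).trans le_self_add).trans le_self_add
        · exact (((one_le_ov Q _ o00).trans le_self_add).trans le_self_add).trans le_self_add
      calc (2 : ℝ≥0∞) * 2 = 2 * (2 * 1) := by ring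
        _ ≤ _ := by gcongr
  rw [hD, ← ENNReal.ofReal_mul Gtot.2.1]
  have hDev : 0 ≤ Dev Q w (Bx L z) := by
    unfold Dev
    refine add_nonneg (wst_nonneg Q _) ?_
    exact finsum_nonneg fun i => finsum_nonneg fun _ => abs_nonneg _
  refine ENNReal.ofReal_le_ofReal ?_
  refine mul_le_mul_of_nonneg_right ?_ hDev
  have q1 : 20 / w.2 ≤ 21 := by
    rw [div_le_iff₀ hapos]; linarith
  have q2 : 40 / w.2 ≤ 42 := by
    rw [div_le_iff₀ hapos]; linarith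
  have q3 : π ≤ 4 := Real.pi_le_four
  linarith

end H282R5.PC
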