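import Pool.Agent.H282R5.PC.Defs
import Pool.Agent.H282R4.PK.DevBound
import Pool.Agent.H282R5.PC.Geo
import Pool.Agent.H282R5.PC.Fin
import Pool.Agent.H282R5.PC.Rig

/-! Total deviation in a box. -/

namespace H282R5.PC

open MeasureTheory
open scoped Real ENNReal
open H282R3.SQ (USq Inside)
open H282R4.PK (slope rho tr F FH cell Rg Kg C0 Bx U V)

namespace DevBound

open H282R4.PK.DevBound (inKg inRg seg_sum bounded_Bx cell_of_mem cell_subset_Rg)

variable {n : ℕ} {o : ℝ × ℝ} {ι : Type} {I : Finset ι} {Q : ι → USq} {W : ℝ}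

theorem om_nonneg (Q : ι → USq) (c : ℤ × ℤ) : 0 ≤ om Q c := ENNReal.toReal_nonneg

theorem pathsum_nonneg (Q : ι → USq) (z c : ℤ × ℤ) : 0 ≤ pathsum Q z c :=
  add_nonneg (Finset.sum_nonneg fun _ _ => om_nonneg _ _)
    (Finset.sum_nonneg fun _ _ => om_nonneg _ _)

/-- some square meets a given cell -/
theorem exists_meet [Countable ι] (h : Cvr n o I Q W) (c : ℤ × ℤ) :
    ∃ i, ((Q i).C ∩ cell c).Nonempty := by
  obtain ⟨i, hi⟩ := cov h ((c.1 : ℝ), (c.2 : ℝ))
  exact ⟨i, _, hi, le_rfl, by simp, le_rfl, by simp⟩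

/-- the walk -/
theorem walk [Countable ι] (h : Cvr n o I Q W) (e : ℕ → ℤ × ℤ)
    (he : ∀ k, |(e k).1 - (e (k + 1)).1| ≤ 1 ∧ |(e k).2 - (e (k + 1)).2| ≤ 1) (i0 : ι)
    (h0 : ((Q i0).C ∩ cell (e 0)).Nonempty) (m : ℕ) :
    ∀ i, ((Q i).C ∩ cell (e m)).Nonempty →
      rho (Q i0) (Q i) ≤ C0 * ∑ k ∈ Finset.range (m + 1), om Q (e k) := by
  induction m with
  | zero =>
    intro i hi
    have h1 := rig h (e 0) i0 i (inKg Q _ _ (by simp) (by simp) i0 h0)
      (inKg Q _ _ (by simp) (by simp) i hi)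
    simpa using h1
  | succ m ih =>
    intro i hi
    obtain ⟨r, hr⟩ := exists_meet h (e m)
    have h1 := ih r hr
    have h2 := rig h (e (m + 1)) r i (inKg Q _ _ (he m).1 (he m).2 r hr)
      (inKg Q _ _ (by simp) (by simp) i hi)
    have h3 := H282R4.PK.rho_tri (Q i0) (Q r) (Q i)
    rw [Finset.sum_range_succ, mul_add]
    linarith

/-- the deviation of a square from a nice cell -/
theorem rho_path [Countable ι] (h : Cvr n o I Q W) (z c : ℤ × ℤ) (i0 i : ι)
    (h0 : ((Q i0).C ∩ cell z).Nonempty) (hi : ((Q i).C ∩ cell c).Nonempty) :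
    rho (Q i0) (Q i) ≤ C0 * pathsum Q z c := by
  unfold pathsum
  have s1 := seg_sum (fun j => om Q (j, z.2)) (fun _ => om_nonneg _ _) z.1 c.1
  have s2 := seg_sum (fun j => om Q (c.1, j)) (fun _ => om_nonneg _ _) z.2 c.2
  -- horizontal
  set e1 : ℕ → ℤ × ℤ := fun k => (z.1 + (c.1 - z.1).sign * k, z.2) with he1
  set e2 : ℕ → ℤ × ℤ := fun k => (c.1, z.2 + (c.2 - z.2).sign * k) with he2
  have hsg : ∀ t : ℤ, |t.sign| ≤ 1 := by
    intro t
    rcases lt_trichotomy t 0 with h | h | h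
    · rw [Int.sign_eq_neg_one_of_neg h]; simp
    · rw [h]; simp
    · rw [Int.sign_eq_one_of_pos h]; simp
  have ha1 : ∀ k, |(e1 k).1 - (e1 (k + 1)).1| ≤ 1 ∧ |(e1 k).2 - (e1 (k + 1)).2| ≤ 1 := by
    intro k
    simp only [he1]
    constructor
    · have : z.1 + (c.1 - z.1).sign * (k : ℤ) - (z.1 + (c.1 - z.1).sign * ((k + 1 : ℕ) : ℤ)) =
          -(c.1 - z.1).sign := by push_cast; ring
      rw [this, abs_neg]
      exact hsg _
    · simp
  have ha2 : ∀ k, |(e2 k).1 - (e2 (k + 1)).1| ≤ 1 ∧ |(e2 k).2 - (e2 (k + 1)).2| ≤ 1 := by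
    intro k
    simp only [he2]
    constructor
    · simp
    · have : z.2 + (c.2 - z.2).sign * (k : ℤ) - (z.2 + (c.2 - z.2).sign * ((k + 1 : ℕ) : ℤ)) =
          -(c.2 - z.2).sign := by push_cast; ring
      rw [this, abs_neg]
      exact hsg _
  have hend1 : e1 ((c.1 - z.1).natAbs) = (c.1, z.2) := by
    simp only [he1]
    have : z.1 + (c.1 - z.1).sign * ((c.1 - z.1).natAbs : ℤ) = c.1 := by
      rw [Int.sign_mul_natAbs]; ring
    rw [this]
  have hend2 : e2 ((c.2 - z.2).natAbs) = c := by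
    simp only [he2]
    have : z.2 + (c.2 - z.2).sign * ((c.2 - z.2).natAbs : ℤ) = c.2 := by
      rw [Int.sign_mul_natAbs]; ring
    rw [this]
  have hst1 : e1 0 = z := by simp [he1]
  have hst2 : e2 0 = (c.1, z.2) := by simp [he2]
  obtain ⟨r, hr⟩ := exists_meet h (c.1, z.2)
  have w1 := walk h e1 ha1 i0 (by rw [hst1]; exact h0) _ r (by rw [hend1]; exact hr)
  have w2 := walk h e2 ha2 r (by rw [hst2]; exact hr) _ i (by rw [hend2]; exact hi)
  have w3 := H282R4.PK.rho_tri (Q i0) (Q r) (Q i)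
  have hC : (0 : ℝ) ≤ C0 := by unfold C0; positivity
  have t1 := mul_le_mul_of_nonneg_left s1 hC
  have t2 := mul_le_mul_of_nonneg_left s2 hC
  rw [mul_add]
  have w1' : rho (Q i0) (Q r) ≤ C0 * ∑ k ∈ Finset.range ((c.1 - z.1).natAbs + 1),
      (fun j => om Q (j, z.2)) (z.1 + (c.1 - z.1).sign * (k : ℤ)) := w1
  have w2' : rho (Q r) (Q i) ≤ C0 * ∑ k ∈ Finset.range ((c.2 - z.2).natAbs + 1),
      (fun j => om Q (c.1, j)) (z.2 + (c.2 - z.2).sign * (k : ℤ)) := w2
  linarith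

theorem om_le_pathsum (Q : ι → USq) (z c : ℤ × ℤ) : om Q c ≤ pathsum Q z c := by
  unfold pathsum
  have h1 : 0 ≤ ∑ j ∈ Finset.uIcc z.1 c.1, om Q (j, z.2) :=
    Finset.sum_nonneg fun _ _ => om_nonneg _ _
  have h2 : om Q c ≤ ∑ j ∈ Finset.uIcc z.2 c.2, om Q (c.1, j) :=
    Finset.single_le_sum (f := fun j => om Q (c.1, j)) (fun _ _ => om_nonneg _ _)
      Finset.right_mem_uIcc
  linarith

theorem wst_le [Countable ι] (h : Cvr n o I Q W) (L : ℕ) (z : ℤ × ℤ) :
    wst Q (Bx L z) ≤ E Q L z := by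
  have hsub : Bx L z ⊆
      ⋃ c ∈ Finset.Icc (z.1 - 4) (z.1 + L + 4) ×ˢ Finset.Icc (z.2 - 4) (z.2 + L + 4), Rg c := by
    intro x hx
    obtain ⟨c, hc, hxc⟩ := cell_of_mem L z x hx
    rw [Set.mem_iUnion₂]
    exact ⟨c, hc, cell_subset_Rg c hxc⟩
  have h1 : ∫⁻ x in Bx L z, ov Q x ∂lam ≤
      ∑ c ∈ Finset.Icc (z.1 - 4) (z.1 + L + 4) ×ˢ Finset.Icc (z.2 - 4) (z.2 + L + 4),
        ∫⁻ x in Rg c, ov Q x ∂lam := by
    refine (lintegral_mono_set hsub).trans ?_
    rw [← Finset.sum_coe_sort]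
    have h2 : (⋃ c ∈ Finset.Icc (z.1 - 4) (z.1 + L + 4) ×ˢ
        Finset.Icc (z.2 - 4) (z.2 + L + 4), Rg c) =
        ⋃ c : {x // x ∈ Finset.Icc (z.1 - 4) (z.1 + L + 4) ×ˢ
          Finset.Icc (z.2 - 4) (z.2 + L + 4)}, Rg c.1 := by
      ext x
      simp only [Set.mem_iUnion, Subtype.exists]
    rw [h2]
    refine (lintegral_iUnion_le _ _).trans (le_of_eq ?_)
    rw [tsum_fintype]
  have h2 : wst Q (Bx L z) ≤
      ∑ c ∈ Finset.Icc (z.1 - 4) (z.1 + L + 4) ×ˢ Finset.Icc (z.2 - 4) (z.2 + L + 4),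
        om Q c := by
    unfold om wst
    rw [← ENNReal.toReal_sum fun c _ => wst_ne_top h (Rg c)]
    exact ENNReal.toReal_mono (ENNReal.sum_ne_top.2 fun c _ => wst_ne_top h (Rg c)) h1
  refine h2.trans ?_
  unfold E
  exact Finset.sum_le_sum fun c _ => om_le_pathsum Q z c

end DevBound

open DevBound in
open H282R4.PK.DevBound (inRg bounded_Bx cell_of_mem) in
theorem dev_bound {n : ℕ} {o : ℝ × ℝ} {ι : Type} [Countable ι] {I : Finset ι} {Q : ι → USq} {W : ℝ}
    (h : Cvr n o I Q W)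
    (z : ℤ × ℤ) (hz : nice Q z) (L : ℕ) :
    Dev Q (-(bet Q z) / Real.sqrt (1 + bet Q z ^ 2), 1 / Real.sqrt (1 + bet Q z ^ 2)) (Bx L z) ≤
      1000 * C0 * E Q L z := by
  classical
  have hC : (1 : ℝ) ≤ C0 := by unfold C0; norm_num
  have hE : 0 ≤ E Q L z := Finset.sum_nonneg fun _ _ => pathsum_nonneg _ _ _
  -- the reference square
  set i0 := hz.2.choose with hi0
  obtain ⟨hm, hs⟩ := hz.2.choose_spec
  rw [← hi0] at hm hs
  have hbet : bet Q z = slope (Q i0) := by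
    unfold bet
    rw [dif_pos hz]
  have hu := (Q i0).unit
  have ha : 0 < (Q i0).a := by
    have h1 := h.norm i0
    have h2 : 0 ≤ (Q i0).a := (abs_nonneg _).trans h1
    rcases h2.lt_or_eq with h3 | h3
    · exact h3
    · rw [← h3] at h1 hu
      have : (Q i0).b = 0 := abs_eq_zero.1 (le_antisymm h1 (abs_nonneg _))
      rw [this] at hu
      norm_num at hu
  have hsq : Real.sqrt (1 + bet Q z ^ 2) = 1 / (Q i0).a := by
    rw [hbet]
    unfold H282R4.PK.slope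
    have : 1 + ((Q i0).b / (Q i0).a) ^ 2 = (1 / (Q i0).a) ^ 2 := by
      field_simp
      linarith
    rw [this, Real.sqrt_sq (by positivity)]
  have hw1 : -(bet Q z) / Real.sqrt (1 + bet Q z ^ 2) = -(Q i0).b := by
    rw [hsq, hbet]
    unfold H282R4.PK.slope
    field_simp
  have hw2 : 1 / Real.sqrt (1 + bet Q z ^ 2) = (Q i0).a := by
    rw [hsq, one_div_one_div]
  unfold Dev
  rw [hw1, hw2]
  have hfin := fin_meet h (Bx L z) (bounded_Bx L z)
  rw [finsum_mem_eq_finite_toFinset_sum _ hfin]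
  have hgap := wst_le h L z
  -- the deviation of one square
  have hdev : ∀ i c, ((Q i).C ∩ cell c).Nonempty →
      |(Q i).a * (-(Q i0).b) + (Q i).b * (Q i0).a| ≤ min 1 (4 * C0 * pathsum Q z c) := by
    intro i c hic
    rw [le_min_iff]
    constructor
    · have hui := (Q i).unit
      rw [abs_le]
      constructor <;>
        nlinarith [sq_nonneg ((Q i).a * (Q i0).a + (Q i).b * (Q i0).b),
          sq_nonneg ((Q i).a * (-(Q i0).b) + (Q i).b * (Q i0).a - 1),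
          sq_nonneg ((Q i).a * (-(Q i0).b) + (Q i).b * (Q i0).a + 1),
          sq_nonneg ((Q i).a + (Q i0).b), sq_nonneg ((Q i).b - (Q i0).a),
          sq_nonneg ((Q i).a - (Q i0).b), sq_nonneg ((Q i).b + (Q i0).a)]
    · have h1 := rho_path h z c i0 i hm hic
      have h2 := H282R4.PK.dev_le_rho (Q i0) (Q i) (h.norm i0) (h.norm i) hs
      have h3 : (Q i).a * (-(Q i0).b) + (Q i).b * (Q i0).a =
        (Q i0).a * (Q i).b - (Q i0).b * (Q i).a := by ring
      rw [h3]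
      have hp := pathsum_nonneg Q z c
      nlinarith
  -- choose the cells
  have hex : ∀ i : ι, ∃ c : ℤ × ℤ, i ∈ hfin.toFinset →
      (c ∈ Finset.Icc (z.1 - 4) (z.1 + L + 4) ×ˢ Finset.Icc (z.2 - 4) (z.2 + L + 4) ∧
        ((Q i).C ∩ cell c).Nonempty) := by
    intro i
    by_cases hi : i ∈ hfin.toFinset
    · obtain ⟨x, hx1, hx2⟩ := (Set.Finite.mem_toFinset hfin).1 hi
      obtain ⟨c, hc, hxc⟩ := cell_of_mem L z x hx2
      exact ⟨c, fun _ => ⟨hc, x, hx1, hxc⟩⟩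
    · exact ⟨(0, 0), fun h => absurd h hi⟩
  choose f hf using hex
  have hsum : ∑ i ∈ hfin.toFinset, |(Q i).a * (-(Q i0).b) + (Q i).b * (Q i0).a| ≤
      ∑ i ∈ hfin.toFinset, min 1 (4 * C0 * pathsum Q z (f i)) :=
    Finset.sum_le_sum fun i hi => hdev i (f i) (hf i hi).2
  have hfib : ∑ i ∈ hfin.toFinset, min 1 (4 * C0 * pathsum Q z (f i)) =
      ∑ c ∈ Finset.Icc (z.1 - 4) (z.1 + L + 4) ×ˢ Finset.Icc (z.2 - 4) (z.2 + L + 4),
        ∑ i ∈ hfin.toFinset with f i = c, min 1 (4 * C0 * pathsum Q z (f i)) :=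
    (Finset.sum_fiberwise_of_maps_to (fun i hi => (hf i hi).1) _).symm
  have hle : ∑ c ∈ Finset.Icc (z.1 - 4) (z.1 + L + 4) ×ˢ Finset.Icc (z.2 - 4) (z.2 + L + 4),
        ∑ i ∈ hfin.toFinset with f i = c, min 1 (4 * C0 * pathsum Q z (f i)) ≤
      ∑ c ∈ Finset.Icc (z.1 - 4) (z.1 + L + 4) ×ˢ Finset.Icc (z.2 - 4) (z.2 + L + 4),
        122 * (4 * C0 * pathsum Q z c) := by
    refine Finset.sum_le_sum fun c _ => ?_
    have e1 : ∑ i ∈ hfin.toFinset with f i = c, min 1 (4 * C0 * pathsum Q z (f i)) =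
        ∑ i ∈ hfin.toFinset with f i = c, min 1 (4 * C0 * pathsum Q z c) := by
      refine Finset.sum_congr rfl fun i hi => ?_
      rw [(Finset.mem_filter.1 hi).2]
    rw [e1, Finset.sum_const, nsmul_eq_mul]
    have hcard := card_Rg h c (hfin.toFinset.filter (fun i => f i = c)) (fun i hi => by
      rw [Finset.mem_filter] at hi
      have := (hf i hi.1).2
      rw [hi.2] at this
      exact inRg Q c i this)
    have hp := pathsum_nonneg Q z c
    have hop := om_le_pathsum Q z c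
    have ho := om_nonneg Q c
    have hmin0 : 0 ≤ min 1 (4 * C0 * pathsum Q z c) := le_min (by norm_num) (by positivity)
    have hmin1 : min 1 (4 * C0 * pathsum Q z c) ≤ 1 := min_le_left _ _
    have hmin2 : min 1 (4 * C0 * pathsum Q z c) ≤ 4 * C0 * pathsum Q z c := min_le_right _ _
    have hC1 : pathsum Q z c ≤ 4 * C0 * pathsum Q z c := by nlinarith
    refine (mul_le_mul_of_nonneg_right hcard hmin0).trans ?_
    by_cases hom : om Q c ≤ 1
    · have g1 : (121 + om Q c) * min 1 (4 * C0 * pathsum Q z c) ≤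
          122 * min 1 (4 * C0 * pathsum Q z c) :=
        mul_le_mul_of_nonneg_right (by linarith) hmin0
      linarith
    · rw [not_le] at hom
      have g1 : (121 + om Q c) * min 1 (4 * C0 * pathsum Q z c) ≤ (121 + om Q c) * 1 :=
        mul_le_mul_of_nonneg_left hmin1 (by linarith)
      linarith
  have hlast : ∑ c ∈ Finset.Icc (z.1 - 4) (z.1 + L + 4) ×ˢ Finset.Icc (z.2 - 4) (z.2 + L + 4),
        122 * (4 * C0 * pathsum Q z c) = 488 * C0 * E Q L z := by
    unfold E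
    rw [Finset.mul_sum]
    exact Finset.sum_congr rfl fun c _ => by ring
  have : wst Q (Bx L z) +
      ∑ i ∈ hfin.toFinset, |(Q i).a * (-(Q i0).b) + (Q i).b * (Q i0).a| ≤
      E Q L z + 488 * C0 * E Q L z := by linarith
  refine this.trans ?_
  nlinarith

end H282R5.PC
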