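import Pool.Agent.H282R5.PC.Defs
import Pool.Agent.H282R5.PC.Fin
import Pool.Agent.H282R5.PC.Core
import Pool.Agent.H282R5.PC.DevBound
import Pool.Agent.H282R5.PC.Fnorm
import Pool.Agent.H282R5.PC.Fmeas
import Pool.Agent.H282R5.PC.Slopes
import Pool.Agent.H282R4.PK.Local

/-! The local lemma for coverings. -/

namespace H282R5.PC

open MeasureTheory
open scoped Real ENNReal
open H282R3.SQ (USq Inside)
open H282R4.PK (slope rho tr F FH cell Rg Kg C0 Bx U V)

namespace Local

/-- the excess multiplicity is zero or at least one -/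
lemma one_le_ov {ι : Type} (Q : ι → USq) (z : ℝ × ℝ) (hz : ov Q z ≠ 0) : 1 ≤ ov Q z := by
  have h1 : 1 < mult Q z := by
    by_contra hcon
    push Not at hcon
    exact hz (tsub_eq_zero_of_le hcon)
  have h2 : ∃ i j, i ≠ j ∧ z ∈ (Q i).O ∧ z ∈ (Q j).O := by
    by_contra hcon
    push Not at hcon
    have h3 : mult Q z ≤ 1 := by
      unfold mult
      by_cases hi : ∃ i, z ∈ (Q i).O
      · obtain ⟨i, hi⟩ := hi
        rw [tsum_eq_single i]
        · rw [Set.indicator_of_mem hi]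
        · intro j hj
          exact Set.indicator_of_notMem (fun hj' => hcon i j (Ne.symm hj) hi hj') _
      · push Not at hi
        have h4 : ∀ i, (Q i).O.indicator (fun _ => (1 : ℝ≥0∞)) z = 0 :=
          fun i => Set.indicator_of_notMem (hi i) _
        simp only [h4, tsum_zero]
        exact zero_le
    exact absurd h1 (not_lt.2 h3)
  obtain ⟨i, j, hij, hi, hj⟩ := h2
  have h3 : (2 : ℝ≥0∞) ≤ mult Q z := by
    classical
    have h4 := ENNReal.sum_le_tsum (f := fun i => (Q i).O.indicator (fun _ => (1 : ℝ≥0∞)) z) {i, j}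
    rw [Finset.sum_pair hij] at h4
    simp only [Set.indicator_of_mem hi, Set.indicator_of_mem hj] at h4
    calc (2 : ℝ≥0∞) = 1 + 1 := by norm_num
      _ ≤ _ := h4
  have h5 : (1 : ℝ≥0∞) = 2 - 1 := by
    rw [← one_add_one_eq_two]
    exact (ENNReal.add_sub_cancel_right ENNReal.one_ne_top).symm
  rw [h5]
  exact tsub_le_tsub_right h3 1

/-- most points of the interval are good -/
lemma good_vol (f g : ℝ → ℝ≥0∞) (hf : Measurable f) (hg : Measurable g)
    (hf1 : ∀ t, f t ≠ 0 → 1 ≤ f t) (hg1 : ∀ t, g t ≠ 0 → 1 ≤ g t) (a b : ℝ)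
    (ha : ∫⁻ t in Set.Icc (0 : ℝ) 1, f t ≤ ENNReal.ofReal a)
    (hb : ∫⁻ t in Set.Icc (0 : ℝ) 1, g t ≤ ENNReal.ofReal b) (ha0 : 0 ≤ a) (hb0 : 0 ≤ b)
    (hab : a + b ≤ 1 / 1000) :
    ENNReal.ofReal 0.999 ≤ volume {t : ℝ | t ∈ Set.Icc (0 : ℝ) 1 ∧ f t = 0 ∧ g t = 0} := by
  set T := {t : ℝ | t ∈ Set.Icc (0 : ℝ) 1 ∧ f t = 0 ∧ g t = 0} with hT
  have hTm : MeasurableSet T :=
    measurableSet_Icc.inter ((measurableSet_eq_fun hf measurable_const).inter
      (measurableSet_eq_fun hg measurable_const))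
  have h1 : (1 : ℝ≥0∞) = ∫⁻ _ in Set.Icc (0 : ℝ) 1, (1 : ℝ≥0∞) := by
    rw [setLIntegral_const, Real.volume_Icc]
    simp
  have h2 : (1 : ℝ≥0∞) ≤ volume T + (ENNReal.ofReal a + ENNReal.ofReal b) := by
    calc (1 : ℝ≥0∞) = ∫⁻ _ in Set.Icc (0 : ℝ) 1, (1 : ℝ≥0∞) := h1
      _ ≤ ∫⁻ t in Set.Icc (0 : ℝ) 1, (T.indicator (fun _ => (1 : ℝ≥0∞)) t + (f t + g t)) := by
          apply setLIntegral_mono' measurableSet_Icc
          intro t ht
          by_cases hf0 : f t = 0
          · by_cases hg0 : g t = 0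
            · have : t ∈ T := ⟨ht, hf0, hg0⟩
              rw [Set.indicator_of_mem this]
              exact le_self_add
            · exact (hg1 t hg0).trans (le_add_left le_add_self)
          · exact (hf1 t hf0).trans (le_add_left le_self_add)
      _ = (∫⁻ t in Set.Icc (0 : ℝ) 1, T.indicator (fun _ => (1 : ℝ≥0∞)) t) +
          ((∫⁻ t in Set.Icc (0 : ℝ) 1, f t) + ∫⁻ t in Set.Icc (0 : ℝ) 1, g t) := by
          rw [lintegral_add_left (measurable_const.indicator hTm), lintegral_add_left hf]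
      _ ≤ volume T + (ENNReal.ofReal a + ENNReal.ofReal b) := by
          refine add_le_add ?_ (add_le_add ha hb)
          refine (setLIntegral_le_lintegral _ _).trans ?_
          rw [lintegral_indicator hTm, setLIntegral_one]
  have h3 : ENNReal.ofReal 0.999 + ENNReal.ofReal (1 / 1000) ≤
      volume T + ENNReal.ofReal (1 / 1000) := by
    rw [← ENNReal.ofReal_add (by norm_num) (by norm_num)]
    have h4 : ENNReal.ofReal (0.999 + 1 / 1000) = 1 := by
      rw [← ENNReal.ofReal_one]; congr 1; norm_num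
    rw [h4]
    refine h2.trans ?_
    gcongr
    rw [← ENNReal.ofReal_add ha0 hb0]
    exact ENNReal.ofReal_le_ofReal hab
  exact (ENNReal.add_le_add_iff_right ENNReal.ofReal_ne_top).1 h3

/-- the comparison on a line -/
lemma line (g : ℝ → ℂ) (ω : ℝ → ℝ≥0∞) (hω : Measurable ω) (hω1 : ∀ t, ω t ≠ 0 → 1 ≤ ω t)
    (hg : ∀ᵐ X : ℝ, ω X = 0 → ‖g X‖ = 1) (hm : Measurable g) (a : ℝ) (L : ℕ) (x e1 e2 : ℝ)
    (hx : |x| ≤ 1 / 2)
    (h1 : ∫⁻ X in Set.Icc a (a + 1), ω X ≤ ENNReal.ofReal e1)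
    (h2 : ∫⁻ X in Set.Icc (a + L) (a + L + 1), ω X ≤ ENNReal.ofReal e2)
    (he1 : 0 ≤ e1) (he2 : 0 ≤ e2) (he : e1 + e2 ≤ 1 / 1000) :
    ENNReal.ofReal (3.99 * |x|) ≤
      (∫⁻ t in {t : ℝ | t ∈ Set.Icc (0 : ℝ) 1 ∧ ω (a + t) = 0 ∧ ω (a + t + L) = 0},
        ‖g (a + t + L) * Complex.exp (2 * π * Complex.I * (x : ℝ)) - g (a + t)‖ₑ) +
      ∫⁻ X in Set.Icc a (a + 1), ‖g (X + L) - g X‖ₑ := by
  rw [H282R4.PK.Local.cov] at h1 h2
  rw [H282R4.PK.Local.cov (fun X => ‖g (X + L) - g X‖ₑ) a]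
  have h2' : ∫⁻ t in Set.Icc (0 : ℝ) 1, ω (a + t + L) ≤ ENNReal.ofReal e2 := by
    refine le_trans (le_of_eq ?_) h2
    congr 1
    ext t
    congr 1
    ring
  have hm1 : Measurable fun t : ℝ => ω (a + t) := hω.comp (measurable_const_add a)
  have hm2 : Measurable fun t : ℝ => ω (a + t + L) :=
    hω.comp ((measurable_const_add a).add_const _)
  have hvol := good_vol (fun t => ω (a + t)) (fun t => ω (a + t + L)) hm1 hm2
    (fun t => hω1 _) (fun t => hω1 _) e1 e2 h1 h2' he1 he2 he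
  set T := {t : ℝ | t ∈ Set.Icc (0 : ℝ) 1 ∧ ω (a + t) = 0 ∧ ω (a + t + L) = 0} with hT
  have hTm : MeasurableSet T :=
    measurableSet_Icc.inter ((measurableSet_eq_fun hm1 measurable_const).inter
      (measurableSet_eq_fun hm2 measurable_const))
  have hTsub : T ⊆ Set.Icc (0 : ℝ) 1 := fun t ht => ht.1
  have hmA : Measurable fun t : ℝ => ‖g (a + t + L) - g (a + t)‖ₑ := by
    apply Measurable.enorm
    apply Measurable.sub
    · exact hm.comp ((measurable_const_add a).add_const _)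
    · exact hm.comp (measurable_const_add a)
  have h3 : ENNReal.ofReal (3.99 * |x|) ≤ ∫⁻ _ in T, ENNReal.ofReal (4 * |x|) := by
    rw [setLIntegral_const]
    calc ENNReal.ofReal (3.99 * |x|) ≤ ENNReal.ofReal (4 * |x| * 0.999) := by
          apply ENNReal.ofReal_le_ofReal
          nlinarith [abs_nonneg x]
      _ = ENNReal.ofReal (4 * |x|) * ENNReal.ofReal 0.999 := by
          rw [ENNReal.ofReal_mul (by positivity)]
      _ ≤ _ := by gcongr
  have h4 : ∫⁻ _ in T, ENNReal.ofReal (4 * |x|) ≤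
      ∫⁻ t in T, (‖g (a + t + L) * Complex.exp (2 * π * Complex.I * (x : ℝ)) - g (a + t)‖ₑ +
        ‖g (a + t + L) - g (a + t)‖ₑ) := by
    apply lintegral_mono_ae
    have h5 : ∀ᵐ t : ℝ, ω (a + t) = 0 → ‖g (a + t)‖ = 1 :=
      (measurePreserving_add_left volume a).quasiMeasurePreserving.ae hg
    filter_upwards [ae_restrict_of_ae h5, ae_restrict_mem hTm] with t ht htT
    refine le_trans ?_ (H282R4.PK.Local.pt (g (a + t)) (g (a + t + L)) _ ?_ (ht htT.2.1))
    · rw [← ofReal_norm]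
      exact ENNReal.ofReal_le_ofReal (H282R4.PK.Local.chord x hx)
    · have : (2 * π * Complex.I * (x : ℝ) : ℂ) = ((2 * π * x : ℝ) : ℂ) * Complex.I := by
        push_cast; ring
      rw [this, Complex.norm_exp_ofReal_mul_I]
  refine (h3.trans h4).trans ?_
  rw [lintegral_add_right _ hmA]
  gcongr

/-- the numerical end of the argument -/
lemma num (A B : ℝ≥0∞) (l D E : ℝ) (hl : 0 < l) (hA : ENNReal.ofReal (2.8 * l) ≤ A)
    (hB : ENNReal.ofReal (2.8 * l) ≤ B) (hAB : A * B ≤ ENNReal.ofReal (2000 * D))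
    (hD : D ≤ 1000 * C0 * E) : l ^ 2 ≤ 10 ^ 22 * E := by
  have h1 : ENNReal.ofReal (2.8 * l) * ENNReal.ofReal (2.8 * l) ≤ ENNReal.ofReal (2000 * D) :=
    (mul_le_mul' hA hB).trans hAB
  rw [← ENNReal.ofReal_mul (by positivity)] at h1
  have hC : C0 = 10 ^ 15 := rfl
  rw [hC] at hD
  have h2 : (2.8 * l) * (2.8 * l) ≤ 2000 * D := by
    by_contra hcon
    push Not at hcon
    have h3 := (ENNReal.ofReal_le_ofReal_iff' ).1 h1
    rcases h3 with h3 | h3
    · linarith
    · have : 0 < (2.8 * l) * (2.8 * l) := by positivity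
      linarith
  nlinarith [sq_nonneg l]

end Local

/-- local lemma -/
theorem local_lemma {n : ℕ} {o : ℝ × ℝ} {ι : Type} [Countable ι] {I : Finset ι} {Q : ι → USq} {W : ℝ}
    (h : Cvr n o I Q W)
    (z : ℤ × ℤ) (hz : nice Q z) (L : ℕ) (hL : 1 ≤ L) (hLb : L * |bet Q z| ≤ 1 / 8) :
    ENNReal.ofReal (L * |bet Q z|) ≤ U Q L z ∨ ENNReal.ofReal (L * |bet Q z|) ≤ V Q L z ∨
      (L * bet Q z) ^ 2 ≤ 10 ^ 22 * E Q L z := by
  by_cases hb0 : bet Q z = 0
  · left; simp [hb0]
  by_contra hcon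
  push Not at hcon
  obtain ⟨hU, hV, hE⟩ := hcon
  have hLr : (1 : ℝ) ≤ L := by exact_mod_cast hL
  have hLz : (1 : ℤ) ≤ L := by exact_mod_cast hL
  set β := bet Q z with hβ
  -- the waste is small
  have hEs : E Q L z ≤ 1 / 1000 := by
    by_contra hcon
    push Not at hcon
    have h1 : (L * β) ^ 2 ≤ 1 := by
      have h2 : |(L : ℝ) * β| ≤ 1 / 8 := by
        rw [abs_mul, abs_of_nonneg (by linarith : (0:ℝ) ≤ L)]
        exact hLb
      have h3 := sq_le_sq' (by linarith [abs_nonneg ((L : ℝ) * β)]) h2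
      rw [sq_abs] at h3
      linarith
    linarith
  have hom0 : ∀ c, 0 ≤ om Q c := fun c => wst_nonneg Q _
  have hps0 : ∀ c, 0 ≤ pathsum Q z c := fun c =>
    add_nonneg (Finset.sum_nonneg fun j _ => hom0 _) (Finset.sum_nonneg fun j _ => hom0 _)
  have hE1 : om Q z + om Q (z.1 + L, z.2) ≤ E Q L z := by
    have h1 : pathsum Q z (z.1 + L, z.2) ≤ E Q L z := by
      unfold E
      refine Finset.single_le_sum (f := fun c => pathsum Q z c) (fun c _ => hps0 c) ?_
      simp only [Finset.mem_product, Finset.mem_Icc]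
      refine ⟨⟨by omega, by omega⟩, by omega, by omega⟩
    refine le_trans ?_ h1
    unfold pathsum
    simp only
    refine add_le_add ?_ ?_
    · exact Finset.single_le_sum (f := fun j => om Q (j, z.2)) (fun j _ => hom0 _)
        (Finset.left_mem_uIcc)
    · simp
  have hE2 : om Q z + om Q (z.1, z.2 + L) ≤ E Q L z := by
    have h1 : pathsum Q z (z.1, z.2 + L) ≤ E Q L z := by
      unfold E
      refine Finset.single_le_sum (f := fun c => pathsum Q z c) (fun c _ => hps0 c) ?_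
      simp only [Finset.mem_product, Finset.mem_Icc]
      refine ⟨⟨by omega, by omega⟩, by omega, by omega⟩
    refine le_trans ?_ h1
    unfold pathsum
    simp only
    refine add_le_add ?_ ?_
    · simp
    · exact Finset.single_le_sum (f := fun j => om Q (z.1, j)) (fun j _ => hom0 _)
        (Finset.right_mem_uIcc)
  have hβ4 : |β| ≤ 1 / 4 := bet_le Q z
  set r := Real.sqrt (1 + β ^ 2) with hr
  have hr2 : r ^ 2 = 1 + β ^ 2 := Real.sq_sqrt (by positivity)
  have hβsq : β ^ 2 ≤ 1 / 16 := by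
    have := sq_le_sq' (by linarith [abs_nonneg β]) hβ4
    rw [sq_abs] at this
    linarith
  have hr1 : 1 ≤ r := by
    rw [hr, Real.one_le_sqrt]; nlinarith [sq_nonneg β]
  have hrpos : 0 < r := by linarith
  have hr3 : r ≤ 1.03125 := by
    rw [hr, Real.sqrt_le_left (by norm_num)]
    norm_num
    linarith
  have hw : (-β / r) ^ 2 + (1 / r) ^ 2 = 1 := by
    field_simp
    linarith
  have habs : |(-β / r)| = |β| / r := by
    rw [abs_div, abs_neg, abs_of_pos hrpos]
  have hw2 : |(-β / r)| ≤ (1 / r) / 4 := by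
    rw [habs, div_le_div_iff₀ hrpos (by norm_num)]
    field_simp
    linarith
  have hx : |((L : ℝ) * (-β / r))| ≤ 1 / 8 := by
    rw [abs_mul, habs, abs_of_nonneg (by linarith : (0:ℝ) ≤ L)]
    calc (L : ℝ) * (|β| / r) ≤ L * |β| := by
          gcongr
          exact div_le_self (abs_nonneg _) hr1
      _ ≤ 1 / 8 := hLb
  have hlow : 3.87 * (L * |β|) ≤ 4 * |((L : ℝ) * (-β / r))| := by
    rw [abs_mul, habs, abs_of_nonneg (by linarith : (0:ℝ) ≤ L)]
    have h1 : |β| / r ≥ |β| / 1.03125 := by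
      gcongr
    have h2 : |β| / 1.03125 ≥ 0.969 * |β| := by
      rw [ge_iff_le, le_div_iff₀ (by norm_num)]
      nlinarith [abs_nonneg β]
    have h3 : (L : ℝ) * (0.969 * |β|) ≤ L * (|β| / r) :=
      mul_le_mul_of_nonneg_left (by linarith) (by linarith)
    have h4 : 0 ≤ (L : ℝ) * |β| := by positivity
    nlinarith
  have hmh : Measurable fun X : ℝ => ov Q (X, (z.2 : ℝ)) :=
    (measurable_ov Q).comp (measurable_id.prodMk measurable_const)
  have hmv : Measurable fun Y : ℝ => ov Q ((z.1 : ℝ), Y) :=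
    (measurable_ov Q).comp (measurable_const.prodMk measurable_id)
  have hRg : ∀ c : ℤ × ℤ, MeasurableSet (Rg c) := fun c =>
    (measurableSet_le measurable_const measurable_fst).inter
      ((measurableSet_lt measurable_fst measurable_const).inter
        ((measurableSet_le measurable_const measurable_snd).inter
          (measurableSet_lt measurable_snd measurable_const)))
  -- waste on the lines
  have w1 : ∫⁻ X in Set.Icc (z.1 : ℝ) (z.1 + 1), ov Q (X, (z.2 : ℝ)) ≤
      ENNReal.ofReal (om Q z) := by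
    refine hor_le h z.2 _ measurableSet_Icc (Rg z) (hRg z) ?_
    intro X hX
    simp only [Set.mem_Icc] at hX
    refine ⟨?_, ?_, ?_, ?_⟩ <;> simp only <;> linarith [hX.1, hX.2]
  have w2 : ∫⁻ X in Set.Icc ((z.1 : ℝ) + L) (z.1 + L + 1), ov Q (X, (z.2 : ℝ)) ≤
      ENNReal.ofReal (om Q (z.1 + L, z.2)) := by
    refine hor_le h z.2 _ measurableSet_Icc (Rg (z.1 + L, z.2)) (hRg _) ?_
    intro X hX
    simp only [Set.mem_Icc] at hX
    refine ⟨?_, ?_, ?_, ?_⟩ <;> push_cast <;> linarith [hX.1, hX.2]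
  have w3 : ∫⁻ Y in Set.Icc (z.2 : ℝ) (z.2 + 1), ov Q ((z.1 : ℝ), Y) ≤
      ENNReal.ofReal (om Q z) := by
    refine ver_le h z.1 _ measurableSet_Icc (Rg z) (hRg z) ?_
    intro X hX
    simp only [Set.mem_Icc] at hX
    refine ⟨?_, ?_, ?_, ?_⟩ <;> simp only <;> linarith [hX.1, hX.2]
  have w4 : ∫⁻ Y in Set.Icc ((z.2 : ℝ) + L) (z.2 + L + 1), ov Q ((z.1 : ℝ), Y) ≤
      ENNReal.ofReal (om Q (z.1, z.2 + L)) := by
    refine ver_le h z.1 _ measurableSet_Icc (Rg (z.1, z.2 + L)) (hRg _) ?_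
    intro X hX
    simp only [Set.mem_Icc] at hX
    refine ⟨?_, ?_, ?_, ?_⟩ <;> push_cast <;> linarith [hX.1, hX.2]
  -- the good sets
  set T := {t : ℝ | t ∈ Set.Icc (0 : ℝ) 1 ∧ ov Q ((z.1 : ℝ) + t, (z.2 : ℝ)) = 0 ∧
    ov Q ((z.1 : ℝ) + t + L, (z.2 : ℝ)) = 0} with hT
  set S := {s : ℝ | s ∈ Set.Icc (0 : ℝ) 1 ∧ ov Q ((z.1 : ℝ), (z.2 : ℝ) + s) = 0 ∧
    ov Q ((z.1 : ℝ), (z.2 : ℝ) + s + L) = 0} with hS
  have hTm : MeasurableSet T :=
    measurableSet_Icc.inter ((measurableSet_eq_fun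
      (hmh.comp (measurable_const_add (z.1 : ℝ))) measurable_const).inter
      (measurableSet_eq_fun (hmh.comp ((measurable_const_add (z.1 : ℝ)).add_const (L : ℝ)))
        measurable_const))
  have hSm : MeasurableSet S :=
    measurableSet_Icc.inter ((measurableSet_eq_fun
      (hmv.comp (measurable_const_add (z.2 : ℝ))) measurable_const).inter
      (measurableSet_eq_fun (hmv.comp ((measurable_const_add (z.2 : ℝ)).add_const (L : ℝ)))
        measurable_const))
  have hcore := LL_core h z (-β / r, 1 / r) hw hw2 L hL (by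
    simp only
    rw [habs]
    calc (L : ℝ) * (|β| / r) ≤ L * |β| := by
          gcongr
          exact div_le_self (abs_nonneg _) hr1
      _ ≤ 1 / 8 := hLb) T S hTm hSm (fun t ht => ht.1) (fun t ht => ht.1)
      (fun t ht => ht.2) (fun t ht => ht.2)
  have hdev := dev_bound h z hz L
  simp only at hcore
  have hlineA := Local.line (fun X => F Q (X, (z.2 : ℝ))) (fun X => ov Q (X, (z.2 : ℝ))) hmh
    (fun t => Local.one_le_ov Q _) (norm_F_horiz h _)
    ((measurable_F h).comp (measurable_id.prodMk measurable_const)) (z.1 : ℝ) L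
    (-(L * (-β / r))) (om Q z) (om Q (z.1 + L, z.2)) (by rw [abs_neg]; linarith) w1 w2
    (hom0 _) (hom0 _) (by linarith)
  have hlineB := Local.line (fun Y => FH Q ((z.1 : ℝ), Y)) (fun Y => ov Q ((z.1 : ℝ), Y)) hmv
    (fun t => Local.one_le_ov Q _) (norm_FH_vert h _)
    ((measurable_FH h).comp (measurable_const.prodMk measurable_id)) (z.2 : ℝ) L
    (L * (-β / r)) (om Q z) (om Q (z.1, z.2 + L)) (by linarith) w3 w4
    (hom0 _) (hom0 _) (by linarith)
  rw [abs_neg] at hlineA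
  have key : ∀ A u : ℝ≥0∞, ENNReal.ofReal (3.99 * |((L : ℝ) * (-β / r))|) ≤ A + u →
      u < ENNReal.ofReal (L * |β|) → ENNReal.ofReal (2.8 * (L * |β|)) ≤ A := by
    intro A u h1 h2
    have h3 : ENNReal.ofReal (2.8 * (L * |β|)) + ENNReal.ofReal (L * |β|) ≤
        A + ENNReal.ofReal (L * |β|) := by
      rw [← ENNReal.ofReal_add (by positivity) (by positivity)]
      refine le_trans (ENNReal.ofReal_le_ofReal ?_) (h1.trans (by gcongr))
      have h4 : 0 ≤ (L : ℝ) * |β| := by positivity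
      nlinarith
    exact (ENNReal.add_le_add_iff_right ENNReal.ofReal_ne_top).1 h3
  have hA := key _ _ hlineA hU
  have hB := key _ _ hlineB hV
  have hfin := Local.num _ _ (L * |β|) _ _
    (mul_pos (by linarith) (abs_pos.2 hb0)) hA hB hcore hdev
  rw [mul_pow, sq_abs, ← mul_pow] at hfin
  linarith

end H282R5.PC
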