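import Pool.Agent.H282R5.PC.Defs
import Pool.Agent.H282R5.PC.SumOm

/-!
# Module SumE: the sum of the path wastes
-/

namespace H282R5.PC

open MeasureTheory
open scoped Real ENNReal
open H282R3.SQ (USq Inside)
open H282R4.PK (slope rho tr F FH cell Rg Kg C0 Bx U V)

namespace SumE

theorem shift {n : ℕ} {o : ℝ × ℝ} {ι : Type} [Countable ι] {I : Finset ι} {Q : ι → USq} {W : ℝ}
    (h : Cvr n o I Q W)
    (Z : Finset (ℤ × ℤ)) (v : ℤ × ℤ) : ∑ z ∈ Z, om Q (z + v) ≤ 121 * W := by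
  have := sum_om h (Z.map (addRightEmbedding v))
  rwa [Finset.sum_map] at this

theorem uIcc_shift (x d : ℤ) (f : ℤ → ℝ) :
    ∑ j ∈ Finset.uIcc x (x + d), f j = ∑ j ∈ Finset.uIcc 0 d, f (x + j) := by
  have h : Finset.uIcc x (x + d) = (Finset.uIcc 0 d).map (addLeftEmbedding x) := by
    ext y
    simp only [Finset.mem_map, addLeftEmbedding_apply, Finset.mem_uIcc]
    constructor
    · intro hy
      refine ⟨y - x, ?_, by ring⟩
      constructor <;> omega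
    · rintro ⟨j, hj, rfl⟩
      constructor <;> omega
  rw [h, Finset.sum_map]
  rfl

theorem uIcc_card (d : ℤ) (L : ℕ) (h1 : -4 ≤ d) (h2 : d ≤ L + 4) :
    ((Finset.uIcc 0 d).card : ℝ) ≤ L + 5 := by
  rw [Int.card_uIcc]
  have : ((d - 0).natAbs + 1 : ℕ) ≤ L + 5 := by omega
  exact_mod_cast this

theorem Icc_shift (x : ℤ) (L : ℕ) (y : ℤ) (f : ℤ × ℤ → ℝ) :
    ∑ c ∈ Finset.Icc (x - 4) (x + L + 4) ×ˢ Finset.Icc (y - 4) (y + L + 4), f c =
      ∑ d ∈ Finset.Icc (-4 : ℤ) (L + 4) ×ˢ Finset.Icc (-4 : ℤ) (L + 4), f ((x, y) + d) := by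
  have h : Finset.Icc (x - 4) (x + L + 4) ×ˢ Finset.Icc (y - 4) (y + L + 4) =
      (Finset.Icc (-4 : ℤ) (L + 4) ×ˢ Finset.Icc (-4 : ℤ) (L + 4)).map
        (addLeftEmbedding ((x, y) : ℤ × ℤ)) := by
    ext ⟨u, v⟩
    simp only [Finset.mem_map, addLeftEmbedding_apply, Finset.mem_product, Finset.mem_Icc]
    constructor
    · rintro ⟨hu, hv⟩
      refine ⟨(u - x, v - y), ?_, ?_⟩
      · simp only
        constructor <;> constructor <;> omega
      · simp only [Prod.mk_add_mk, Prod.mk.injEq]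
        constructor <;> ring
    · rintro ⟨⟨j, k⟩, ⟨hj, hk⟩, he⟩
      simp only [Prod.mk_add_mk, Prod.mk.injEq] at he
      obtain ⟨rfl, rfl⟩ := he
      simp only at hj hk
      constructor <;> constructor <;> omega
  rw [h, Finset.sum_map]
  rfl

theorem one {n : ℕ} {o : ℝ × ℝ} {ι : Type} [Countable ι] {I : Finset ι} {Q : ι → USq} {W : ℝ}
    (h : Cvr n o I Q W)
    (L : ℕ) (Z : Finset (ℤ × ℤ)) (d : ℤ × ℤ)
    (hd : d ∈ Finset.Icc (-4 : ℤ) (L + 4) ×ˢ Finset.Icc (-4 : ℤ) (L + 4)) :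
    ∑ z ∈ Z, pathsum Q z (z + d) ≤ 2 * (L + 5) * (121 * W) := by
  obtain ⟨hd1, hd2⟩ := Finset.mem_product.1 hd
  rw [Finset.mem_Icc] at hd1 hd2
  have hW : 0 ≤ 121 * W := by have := h.W_nonneg; linarith
  unfold pathsum
  rw [Finset.sum_add_distrib]
  have e1 : ∑ z ∈ Z, ∑ j ∈ Finset.uIcc z.1 (z + d).1, om Q (j, z.2) ≤
      (L + 5) * (121 * W) := by
    have : ∀ z : ℤ × ℤ, ∑ j ∈ Finset.uIcc z.1 (z + d).1, om Q (j, z.2) =
        ∑ j ∈ Finset.uIcc 0 d.1, om Q (z + (j, 0)) := by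
      intro z
      rw [Prod.fst_add, uIcc_shift]
      refine Finset.sum_congr rfl fun j _ => ?_
      congr 1
      ext <;> simp
    simp only [this]
    rw [Finset.sum_comm]
    refine (Finset.sum_le_sum fun j _ => shift h Z (j, 0)).trans ?_
    rw [Finset.sum_const, nsmul_eq_mul]
    exact mul_le_mul_of_nonneg_right (uIcc_card _ _ hd1.1 hd1.2) hW
  have e2 : ∑ z ∈ Z, ∑ j ∈ Finset.uIcc z.2 (z + d).2, om Q ((z + d).1, j) ≤
      (L + 5) * (121 * W) := by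
    have : ∀ z : ℤ × ℤ, ∑ j ∈ Finset.uIcc z.2 (z + d).2, om Q ((z + d).1, j) =
        ∑ j ∈ Finset.uIcc 0 d.2, om Q (z + (d.1, j)) := by
      intro z
      rw [Prod.snd_add, uIcc_shift]
      refine Finset.sum_congr rfl fun j _ => ?_
      congr 1
    simp only [this]
    rw [Finset.sum_comm]
    refine (Finset.sum_le_sum fun j _ => shift h Z (d.1, j)).trans ?_
    rw [Finset.sum_const, nsmul_eq_mul]
    exact mul_le_mul_of_nonneg_right (uIcc_card _ _ hd2.1 hd2.2) hW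
  linarith

end SumE

open SumE

/-- T14 -/
theorem sum_E {n : ℕ} {o : ℝ × ℝ} {ι : Type} [Countable ι] {I : Finset ι} {Q : ι → USq} {W : ℝ}
    (h : Cvr n o I Q W)
    (L : ℕ) (hL : 1 ≤ L) (Z : Finset (ℤ × ℤ)) :
    ∑ z ∈ Z, E Q L z ≤ 2 * 10 ^ 5 * (L : ℝ) ^ 3 * W := by
  have hW := h.W_nonneg
  have hL' : (1 : ℝ) ≤ L := by exact_mod_cast hL
  unfold E
  have : ∀ z : ℤ × ℤ, ∑ c ∈ Finset.Icc (z.1 - 4) (z.1 + L + 4) ×ˢ
      Finset.Icc (z.2 - 4) (z.2 + L + 4), pathsum Q z c =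
      ∑ d ∈ Finset.Icc (-4 : ℤ) (L + 4) ×ˢ Finset.Icc (-4 : ℤ) (L + 4),
        pathsum Q z (z + d) := fun z => Icc_shift z.1 L z.2 _
  simp only [this]
  rw [Finset.sum_comm]
  refine (Finset.sum_le_sum fun d hd => one h L Z d hd).trans ?_
  rw [Finset.sum_const, nsmul_eq_mul, Finset.card_product, Int.card_Icc]
  have hc : ((L : ℤ) + 4 + 1 - -4).toNat = L + 9 := by omega
  rw [hc]
  push_cast
  have h1 : ((L : ℝ) + 9) * (L + 9) ≤ 100 * L ^ 2 := by nlinarith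
  have h2 : 2 * ((L : ℝ) + 5) ≤ 12 * L := by linarith
  have h3 : ((L : ℝ) + 9) * (L + 9) * (2 * (L + 5)) ≤ (100 * L ^ 2) * (12 * L) :=
    mul_le_mul h1 h2 (by positivity) (by positivity)
  have h4 : (0 : ℝ) ≤ (L : ℝ) ^ 3 * W := by positivity
  calc ((L : ℝ) + 9) * (L + 9) * (2 * (L + 5) * (121 * W))
      = ((L : ℝ) + 9) * (L + 9) * (2 * (L + 5)) * (121 * W) := by ring
    _ ≤ (100 * L ^ 2) * (12 * L) * (121 * W) :=
        mul_le_mul_of_nonneg_right h3 (by positivity)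
    _ = 145200 * ((L : ℝ) ^ 3 * W) := by ring
    _ ≤ 2 * 10 ^ 5 * (L : ℝ) ^ 3 * W := by nlinarith

end H282R5.PC
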