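import Pool.Agent.H282R5.PC.Defs
import Pool.Agent.H282R5.PC.Geo

/-! Values of the vertical phase below the box. -/

namespace H282R5.PC

open MeasureTheory
open scoped Real ENNReal
open H282R3.SQ (USq Inside)
open H282R4.PK (slope rho tr F FH cell Rg Kg C0 Bx U V)

namespace Fends

theorem gsq_X (o : ℝ × ℝ) (c : ℤ × ℤ) (z : ℝ × ℝ) :
    (gsq o c).X z = z.1 - (o.1 + c.1 + 1 / 2) := by
  simp only [USq.X, gsq]; ring

theorem gsq_Y (o : ℝ × ℝ) (c : ℤ × ℤ) (z : ℝ × ℝ) :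
    (gsq o c).Y z = z.2 - (o.2 + c.2 + 1 / 2) := by
  simp only [USq.Y, gsq]; ring

theorem exp_val (o : ℝ × ℝ) (m : ℤ) :
    Complex.exp (2 * π * Complex.I * ((-1 - (o.2 + m + 1 / 2) : ℝ) : ℂ)) = ph o := by
  unfold ph
  have e : 2 * π * Complex.I * ((-1 - (o.2 + m + 1 / 2) : ℝ) : ℂ) =
      -(2 * π * Complex.I * (o.2 : ℝ)) +
        (((-(m + 2) : ℤ) : ℂ) * (2 * π * Complex.I) + π * Complex.I) := by
    push_cast
    ring
  rw [e, Complex.exp_add, Complex.exp_add, Complex.exp_pi_mul_I,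
    Complex.exp_int_mul_two_pi_mul_I]
  ring

theorem ph_int (o : ℝ × ℝ) (m : ℤ) (hm : -1 - o.2 = m) : ph o = -1 := by
  unfold ph
  have h2 : o.2 = ((-(m + 1) : ℤ) : ℝ) := by push_cast; linarith
  have e : -(2 * π * Complex.I * (o.2 : ℝ)) = ((m + 1 : ℤ) : ℂ) * (2 * π * Complex.I) := by
    rw [h2]
    push_cast
    ring
  rw [e, Complex.exp_int_mul_two_pi_mul_I]

end Fends

open Fends

theorem F_bottom {n : ℕ} {o : ℝ × ℝ} {ι : Type} [Countable ι] {I : Finset ι} {Q : ι → USq} {W : ℝ}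
    (h : Cvr n o I Q W) (X : ℝ)
    (hX : ∀ m : ℤ, X ≠ o.1 + m) : F Q (X, -1) = ph o := by
  have hin : ∀ i, ((X, -1) : ℝ × ℝ) ∈ (Q i).C → ∃ c : ℤ × ℤ, i ∉ I ∧ ¬ Inside n c ∧
      Q i = gsq o c ∧ ⌊X - o.1⌋ = c.1 ∧ (c.2 : ℝ) ≤ -1 - o.2 ∧ -1 - o.2 ≤ c.2 + 1 := by
    intro i hi
    have hiI : i ∉ I := by
      intro hI
      have := (inner_sub h i hI _ hi).2.2.1
      norm_num at this
    obtain ⟨c, hc, hQ⟩ := h.out i hiI
    rw [hQ] at hi
    obtain ⟨ha, hb⟩ := hi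
    rw [gsq_X, abs_le] at ha
    rw [gsq_Y, abs_le] at hb
    simp only at ha hb
    refine ⟨c, hiI, hc, hQ, ?_, by linarith [hb.1], by linarith [hb.2]⟩
    rw [Int.floor_eq_iff]
    refine ⟨by linarith [ha.1], lt_of_le_of_ne (by linarith [ha.2]) ?_⟩
    intro he
    apply hX (c.1 + 1)
    push_cast
    linarith
  have hval : ∀ i, ((X, -1) : ℝ × ℝ) ∈ (Q i).C →
      Complex.exp (2 * π * Complex.I * (Q i).Y (X, -1)) = ph o := by
    intro i hi
    obtain ⟨c, _, _, hQ, _⟩ := hin i hi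
    rw [hQ, gsq_Y]
    exact exp_val o c.2
  unfold F
  by_cases hint : ∃ m : ℤ, -1 - o.2 = m
  · obtain ⟨m, hm⟩ := hint
    have hph := ph_int o m hm
    rw [finsum_eq_zero_of_forall_eq_zero, add_zero, hph]
    intro i
    by_cases hi : ((X, -1) : ℝ × ℝ) ∈ (Q i).C
    · rw [Set.indicator_of_mem hi, hval i hi, hph]; ring
    · rw [Set.indicator_of_notMem hi]
  · push Not at hint
    have hc0 : ¬ Inside n (⌊X - o.1⌋, ⌊-1 - o.2⌋) := by
      intro hI
      have h1 : 0 ≤ ⌊-1 - o.2⌋ := hI.2.2.1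
      have h2 : (0 : ℝ) ≤ -1 - o.2 := Int.floor_nonneg.1 h1
      linarith [h.o2]
    obtain ⟨i0, hi0, hQ0⟩ := h.out_ex _ hc0
    have hmem : ((X, -1) : ℝ × ℝ) ∈ (Q i0).C := by
      rw [hQ0]
      have f1 := Int.floor_le (X - o.1)
      have f2 := Int.lt_floor_add_one (X - o.1)
      have f3 := Int.floor_le (-1 - o.2)
      have f4 := Int.lt_floor_add_one (-1 - o.2)
      constructor
      · rw [gsq_X, abs_le]
        simp only
        constructor <;> linarith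
      · rw [gsq_Y, abs_le]
        simp only
        constructor <;> linarith
    rw [finsum_eq_single _ i0]
    · rw [Set.indicator_of_mem hmem, hval i0 hmem]; ring
    · intro j hj
      rw [Set.indicator_of_notMem]
      intro hjm
      obtain ⟨c, hjI, _, hQ, hc1, hc2, hc3⟩ := hin j hjm
      apply hj
      refine h.out_inj j i0 hjI hi0 ?_
      rw [hQ, hQ0]
      have h2 : ⌊-1 - o.2⌋ = c.2 := by
        rw [Int.floor_eq_iff]
        refine ⟨hc2, lt_of_le_of_ne hc3 ?_⟩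
        intro he
        apply hint (c.2 + 1)
        push_cast
        exact he
      have : c = (⌊X - o.1⌋, ⌊-1 - o.2⌋) := Prod.ext hc1.symm h2.symm
      rw [this]

end H282R5.PC
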