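import Pool.Agent.H282R5.PC.Defs
import Pool.Agent.H282R5.PC.Fends
import Pool.Agent.H282R5.PC.Slopes

/-! Start of the flow. -/

namespace H282R5.PC

open MeasureTheory
open scoped Real ENNReal
open H282R3.SQ (USq Inside)
open H282R4.PK (slope rho tr F FH cell Rg Kg C0 Bx U V)

namespace FlowStart

private theorem C0_pos : (0 : ℝ) < C0 := by unfold C0; positivity

private theorem om_nonneg {ι : Type} (Q : ι → USq) (c : ℤ × ℤ) : 0 ≤ om Q c :=
  ENNReal.toReal_nonneg

/-- the points of the bottom that are not on grid lines -/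
private def PS (n : ℕ) (o : ℝ × ℝ) : Set ℝ :=
  Set.Ioo o.1 (o.1 + n) \ Set.range (fun m : ℤ => o.1 + m)

private theorem meas_PS (n : ℕ) (o : ℝ × ℝ) : MeasurableSet (PS n o) :=
  measurableSet_Ioo.diff (Set.countable_range _).measurableSet

private theorem vol_PS (n : ℕ) (o : ℝ × ℝ) : volume (PS n o) = ENNReal.ofReal (n : ℝ) := by
  unfold PS
  rw [measure_diff_null ((Set.countable_range _).measure_zero _), Real.volume_Ioo]
  simp

private theorem pot_aux {n : ℕ} {o : ℝ × ℝ} (o1 : 2 ≤ o.1) (o1' : o.1 ≤ 3) {ι : Type}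
    (Q : ι → USq) :
    ∫⁻ X in PS n o, ENNReal.ofReal (4 * C0 * om Q (⌊X⌋, -1)) ≤
      ENNReal.ofReal (4 * C0 * lvl n Q (-1)) := by
  have hsub : PS n o ⊆ ⋃ j ∈ Finset.Icc (0 : ℤ) (n + 3), Set.Ico (j : ℝ) (j + 1) := by
    rintro X ⟨hX, -⟩
    simp only [Set.mem_iUnion, Finset.mem_Icc, Set.mem_Ico, exists_prop]
    refine ⟨⌊X⌋, ⟨Int.floor_nonneg.2 (by linarith [hX.1]), ?_⟩, Int.floor_le X,
      Int.lt_floor_add_one X⟩
    have h1 : (⌊X⌋ : ℝ) ≤ X := Int.floor_le X
    have h2 : (⌊X⌋ : ℝ) < (n : ℝ) + 4 := by linarith [hX.2]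
    have h3 : ⌊X⌋ < (n : ℤ) + 4 := by exact_mod_cast h2
    omega
  calc ∫⁻ X in PS n o, ENNReal.ofReal (4 * C0 * om Q (⌊X⌋, -1))
      ≤ ∫⁻ X in ⋃ j ∈ Finset.Icc (0 : ℤ) (n + 3), Set.Ico (j : ℝ) (j + 1),
          ENNReal.ofReal (4 * C0 * om Q (⌊X⌋, -1)) :=
        lintegral_mono_set hsub
    _ = ∑ j ∈ Finset.Icc (0 : ℤ) (n + 3), ∫⁻ X in Set.Ico (j : ℝ) (j + 1),
          ENNReal.ofReal (4 * C0 * om Q (⌊X⌋, -1)) := by
        rw [lintegral_biUnion_finset]
        · intro i _ j _ hij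
          rw [Function.onFun, Set.disjoint_left]
          intro x hx hx'
          apply hij
          have h1 : ⌊x⌋ = i := Int.floor_eq_iff.2 ⟨hx.1, hx.2⟩
          have h2 : ⌊x⌋ = j := Int.floor_eq_iff.2 ⟨hx'.1, hx'.2⟩
          omega
        · intro i _
          exact measurableSet_Ico
    _ = ∑ j ∈ Finset.Icc (0 : ℤ) (n + 3), ENNReal.ofReal (4 * C0 * om Q (j, -1)) := by
        refine Finset.sum_congr rfl fun j _ => ?_
        have : ∫⁻ X in Set.Ico (j : ℝ) (j + 1), ENNReal.ofReal (4 * C0 * om Q (⌊X⌋, -1)) =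
            ∫⁻ _X in Set.Ico (j : ℝ) (j + 1), ENNReal.ofReal (4 * C0 * om Q (j, -1)) := by
          refine setLIntegral_congr_fun measurableSet_Ico fun x hx => ?_
          have h1 : ⌊x⌋ = j := Int.floor_eq_iff.2 ⟨hx.1, hx.2⟩
          simp only [h1]
        rw [this, setLIntegral_const, Real.volume_Ico]
        simp
    _ = ENNReal.ofReal (∑ j ∈ Finset.Icc (0 : ℤ) (n + 3), 4 * C0 * om Q (j, -1)) := by
        rw [ENNReal.ofReal_sum_of_nonneg]
        intro i _
        have := om_nonneg Q (i, -1)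
        have := C0_pos
        positivity
    _ ≤ ENNReal.ofReal (4 * C0 * lvl n Q (-1)) := by
        apply ENNReal.ofReal_le_ofReal
        rw [← Finset.mul_sum]
        have := C0_pos
        refine mul_le_mul_of_nonneg_left ?_ (by positivity)
        unfold lvl cols
        refine Finset.sum_le_sum_of_subset_of_nonneg ?_ fun j _ _ => om_nonneg Q _
        intro j hj
        rw [Finset.mem_Icc] at hj ⊢
        omega

end FlowStart

open FlowStart in
theorem flow_start {n : ℕ} {o : ℝ × ℝ} {ι : Type} [Countable ι] {I : Finset ι} {Q : ι → USq} {W : ℝ}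
    (h : Cvr n o I Q W)
    (τ : ℝ) (h0 : 0 < τ) (h1 : τ < 1 / 4) :
    ∃ (P : Set ℝ) (Λ Er m : ℝ → ℝ), FS n o Q τ (-1) P Λ Er m 0 := by
  refine ⟨PS n o, fun _ => 0, fun _ => 0, fun X => 4 * C0 * om Q (⌊X⌋, -1), ?_⟩
  constructor
  · exact meas_PS n o
  · exact measurable_const
  · exact measurable_const
  · have : Measurable (fun k : ℤ => 4 * C0 * om Q (k, -1)) := measurable_from_top
    exact this.comp Int.measurable_floor
  · rintro X ⟨hX, -⟩
    constructor
    · push_cast
      linarith [hX.1]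
    · push_cast
      linarith [hX.2]
  · intro X _
    exact le_refl _
  · intro X _
    exact le_refl _
  · intro X hX
    have hw := wall h (⌊X⌋, -1) (X, -1 / 2) (by
      intro hb
      have h2 := hb.2.2.1
      have h3 := h.o2
      simp only at h2
      linarith) (by
        have := Int.floor_le X
        simp only
        linarith) (by
        have := Int.lt_floor_add_one X
        simp only
        linarith) (by norm_num) (by norm_num)
    exact hw.1
  · rintro X ⟨hX, hX'⟩
    have := F_bottom h X (fun m hm => hX' ⟨m, hm.symm⟩)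
    push_cast
    rw [this]
    simp
  · simp
  · rw [vol_PS, ← ENNReal.ofReal_mul h0.le]
    have h5 := pot_aux (n := n) h.o1 h.o1' Q
    have h6 : (10 : ℝ) * C0 * 0 + 4 * C0 * lvl n Q (-1) = 4 * C0 * lvl n Q (-1) := by ring
    rw [h6]
    exact (add_le_add_left h5 _).trans_eq (add_comm _ _)
  · have : PS n o ∩ Set.Iio o.1 = ∅ := by
      ext x
      simp only [PS, Set.mem_inter_iff, Set.mem_sdiff, Set.mem_Ioo, Set.mem_Iio,
        Set.mem_empty_iff_false, iff_false]
      rintro ⟨⟨⟨h1, _⟩, -⟩, h2⟩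
      linarith
    rw [this]
    simp
  · have : PS n o ∩ Set.Ioi (o.1 + n) = ∅ := by
      ext x
      simp only [PS, Set.mem_inter_iff, Set.mem_sdiff, Set.mem_Ioo, Set.mem_Ioi,
        Set.mem_empty_iff_false, iff_false]
      rintro ⟨⟨⟨_, h1⟩, -⟩, h2⟩
      linarith
    rw [this]
    simp
  · have : eVariationOn (fun _ : ℝ => (0 : ℝ)) (PS n o) = 0 := by
      apply eVariationOn.constant_on
      intro x hx y hy
      obtain ⟨_, _, rfl⟩ := hx
      obtain ⟨_, _, rfl⟩ := hy
      rfl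
    rw [this]
    exact zero_le

end H282R5.PC
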