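import Pool.Agent.H282R5.PC.Defs
import Pool.Agent.H282R5.PC.FlowStart
import Pool.Agent.H282R5.PC.FlowStep
import Pool.Agent.H282R5.PC.SumOm

/-! The flow at all levels (induction on the level). -/

namespace H282R5.PC

open MeasureTheory
open scoped Real ENNReal
open H282R3.SQ (USq Inside)
open H282R4.PK (slope rho tr F FH cell Rg Kg C0 Bx U V)

namespace Flow

/-- the levels `-1, ..., t - 2` -/
private noncomputable def lv (t : ℕ) : Finset ℤ := Finset.Ico (-1) ((t : ℤ) - 1)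

private theorem lv_succ (t : ℕ) : lv (t + 1) = insert ((t : ℤ) - 1) (lv t) := by
  ext x
  simp only [lv, Finset.mem_Ico, Finset.mem_insert]
  push_cast
  omega

private theorem lv_notMem (t : ℕ) : ((t : ℤ) - 1) ∉ lv t := by
  simp [lv]

private theorem om_nonneg {ι : Type} (Q : ι → USq) (c : ℤ × ℤ) : 0 ≤ om Q c :=
  ENNReal.toReal_nonneg

private theorem lvl_nonneg {ι : Type} (n : ℕ) (Q : ι → USq) (k : ℤ) : 0 ≤ lvl n Q k :=
  Finset.sum_nonneg fun _ _ => om_nonneg _ _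

private theorem flow_aux {n : ℕ} {o : ℝ × ℝ} {ι : Type} [Countable ι] {I : Finset ι} {Q : ι → USq}
    {W : ℝ} (h : Cvr n o I Q W) (hn : 1 ≤ n)
    (τ : ℝ) (h0 : 0 < τ) (h1 : τ < 1 / 4) (t : ℕ) (ht : (t : ℤ) - 1 ≤ n + 6) :
    ∃ (P : Set ℝ) (Λ Er m : ℝ → ℝ), FS n o Q τ ((t : ℤ) - 1) P Λ Er m
      (∑ k ∈ lv t, lvl n Q k) := by
  induction t with
  | zero =>
    have : lv 0 = ∅ := by simp [lv]
    rw [this]
    simpa using flow_start h τ h0 h1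
  | succ t ih =>
    obtain ⟨P, Λ, Er, m, hF⟩ := ih (by push_cast at ht; omega)
    have hs : 0 ≤ ∑ k ∈ lv t, lvl n Q k := Finset.sum_nonneg fun _ _ => lvl_nonneg _ _ _
    obtain ⟨P', Λ', Er', m', hF'⟩ := flow_step h hn τ h0 h1 ((t : ℤ) - 1) (by omega)
      (by push_cast at ht; omega) P Λ Er m _ hs hF
    refine ⟨P', Λ', Er', m', ?_⟩
    rw [lv_succ, Finset.sum_insert (lv_notMem t), add_comm (lvl n Q _)]
    have e : ((t + 1 : ℕ) : ℤ) - 1 = (t : ℤ) - 1 + 1 := by push_cast; ring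
    rw [e]
    exact hF'

end Flow

/-- the flow at level `k`. -/
theorem flow {n : ℕ} {o : ℝ × ℝ} {ι : Type} [Countable ι] {I : Finset ι} {Q : ι → USq} {W : ℝ}
    (h : Cvr n o I Q W)
    (hn : 1 ≤ n) (τ : ℝ) (h0 : 0 < τ) (h1 : τ < 1 / 4) (k : ℤ) (hk : -1 ≤ k) (hk2 : k ≤ n + 6) :
    ∃ (P : Set ℝ) (Λ Er m : ℝ → ℝ) (s : ℝ), FS n o Q τ k P Λ Er m s ∧ 0 ≤ s ∧
      s ≤ 121 * W ∧ lvl n Q k ≤ 121 * W := by
  obtain ⟨t, ht⟩ : ∃ t : ℕ, (t : ℤ) - 1 = k := ⟨(k + 1).toNat, by omega⟩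
  subst ht
  obtain ⟨P, Λ, Er, m, hF⟩ := Flow.flow_aux h hn τ h0 h1 t hk2
  refine ⟨P, Λ, Er, m, _, hF, Finset.sum_nonneg fun _ _ => Flow.lvl_nonneg _ _ _, ?_, ?_⟩
  · have := sum_om h (Finset.Icc (-(n : ℤ) - 6) (2 * n + 7) ×ˢ Flow.lv t)
    rw [Finset.sum_product_right] at this
    exact this
  · have := sum_om h (Finset.Icc (-(n : ℤ) - 6) (2 * n + 7) ×ˢ {(t : ℤ) - 1})
    rw [Finset.sum_product_right, Finset.sum_singleton] at this
    exact this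

end H282R5.PC
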