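import Pool.Agent.H282R5.PC.Defs
import Pool.Agent.H282R4.PK.Pinwheel
import Pool.Agent.H282R3.SQ.Area
import Pool.Agent.H282R3.SQ.Contact

/-! A covering of `[0,n]²` gives a covering of the plane. -/

set_option autoImplicit false

namespace H282R5.PC

open MeasureTheory Set
open scoped Real ENNReal
open H282R3.SQ (USq Inside)
open H282R4.PK (slope rho tr F FH cell Rg Kg C0 Bx U V)

namespace Exists

/-- the translate of a square -/
def sh (o : ℝ × ℝ) (Q : USq) : USq := ⟨Q.p + o.1, Q.q + o.2, Q.a, Q.b, Q.unit⟩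

theorem sh_X (o z : ℝ × ℝ) (Q : USq) : (sh o Q).X z = Q.X (z - o) := by
  unfold USq.X sh
  simp only [Prod.fst_sub, Prod.snd_sub]
  ring

theorem sh_Y (o z : ℝ × ℝ) (Q : USq) : (sh o Q).Y z = Q.Y (z - o) := by
  unfold USq.Y sh
  simp only [Prod.fst_sub, Prod.snd_sub]
  ring

theorem mem_sh_O (o z : ℝ × ℝ) (Q : USq) : z ∈ (sh o Q).O ↔ z - o ∈ Q.O := by
  show |(sh o Q).X z| < 1 / 2 ∧ |(sh o Q).Y z| < 1 / 2 ↔ |Q.X (z - o)| < 1 / 2 ∧ |Q.Y (z - o)| < 1 / 2
  rw [sh_X, sh_Y]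

theorem mem_sh_C (o z : ℝ × ℝ) (Q : USq) : z ∈ (sh o Q).C ↔ z - o ∈ Q.C := by
  show |(sh o Q).X z| ≤ 1 / 2 ∧ |(sh o Q).Y z| ≤ 1 / 2 ↔ |Q.X (z - o)| ≤ 1 / 2 ∧ |Q.Y (z - o)| ≤ 1 / 2
  rw [sh_X, sh_Y]

/-- `[0,n]²` -/
def bx (n : ℕ) : Set (ℝ × ℝ) := {z | 0 ≤ z.1 ∧ z.1 ≤ n ∧ 0 ≤ z.2 ∧ z.2 ≤ n}

theorem bx_eq (n : ℕ) : bx n = Icc (0 : ℝ) n ×ˢ Icc (0 : ℝ) n := by
  ext z
  simp only [bx, mem_ofPred_eq, mem_prod, mem_Icc, and_assoc]

theorem measurable_bx (n : ℕ) : MeasurableSet (bx n) := by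
  rw [bx_eq]
  exact measurableSet_Icc.prod measurableSet_Icc

theorem volume_bx (n : ℕ) : volume (bx n) = ENNReal.ofReal ((n : ℝ) ^ 2) := by
  rw [bx_eq, Measure.volume_eq_prod, Measure.prod_prod, Real.volume_Icc, sub_zero,
    ← ENNReal.ofReal_mul (Nat.cast_nonneg n), sq]

variable {N : ℕ}

/-- number of squares minus the box -/
noncomputable def SS (J : Finset (Fin N)) (Q0 : Fin N → USq) (z : ℝ × ℝ) : ℝ≥0∞ :=
  ∑ i ∈ J, (Q0 i).O.indicator (fun _ => (1 : ℝ≥0∞)) z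

noncomputable def gg (n : ℕ) (J : Finset (Fin N)) (Q0 : Fin N → USq) (z : ℝ × ℝ) : ℝ≥0∞ :=
  SS J Q0 z + (bx n)ᶜ.indicator (fun _ => (1 : ℝ≥0∞)) z - 1

theorem measurable_SS (J : Finset (Fin N)) (Q0 : Fin N → USq) : Measurable (SS J Q0) := by
  unfold SS
  apply Finset.measurable_fun_sum
  intro i _
  exact measurable_const.indicator (H282R3.SQ.isOpen_O _).measurableSet

theorem measurable_gg (n : ℕ) (J : Finset (Fin N)) (Q0 : Fin N → USq) : Measurable (gg n J Q0) := by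
  unfold gg
  exact ((measurable_SS J Q0).add
    (measurable_const.indicator (measurable_bx n).compl)).sub_const 1

theorem gg_add (n : ℕ) (J : Finset (Fin N)) (Q0 : Fin N → USq)
    (hc : ∀ z ∈ bx n, ∃ i ∈ J, z ∈ (Q0 i).O) (z : ℝ × ℝ) :
    gg n J Q0 z + (bx n).indicator (fun _ => (1 : ℝ≥0∞)) z = SS J Q0 z := by
  unfold gg
  by_cases hz : z ∈ bx n
  · obtain ⟨i, hi, hzi⟩ := hc z hz
    have h1 : (1 : ℝ≥0∞) ≤ SS J Q0 z := by
      unfold SS
      calc (1 : ℝ≥0∞) = (Q0 i).O.indicator (fun _ => (1 : ℝ≥0∞)) z := by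
            rw [indicator_of_mem hzi]
        _ ≤ _ := Finset.single_le_sum
            (f := fun i => (Q0 i).O.indicator (fun _ => (1 : ℝ≥0∞)) z)
            (fun _ _ => zero_le) hi
    rw [indicator_of_mem hz, indicator_of_notMem (by simpa using hz), add_zero,
      tsub_add_cancel_of_le h1]
  · rw [indicator_of_notMem hz, indicator_of_mem (show z ∈ (bx n)ᶜ from hz), add_zero,
      ENNReal.add_sub_cancel_right ENNReal.one_ne_top]

theorem lint_gg (n : ℕ) (J : Finset (Fin N)) (Q0 : Fin N → USq)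
    (hc : ∀ z ∈ bx n, ∃ i ∈ J, z ∈ (Q0 i).O) :
    (∫⁻ z, gg n J Q0 z) + ENNReal.ofReal ((n : ℝ) ^ 2) ≤ N := by
  have h1 : (∫⁻ z, gg n J Q0 z) + ENNReal.ofReal ((n : ℝ) ^ 2) = ∫⁻ z, SS J Q0 z := by
    rw [← volume_bx, ← lintegral_indicator_one (measurable_bx n),
      ← lintegral_add_left (measurable_gg n J Q0)]
    apply lintegral_congr
    intro z
    exact gg_add n J Q0 hc z
  rw [h1]
  unfold SS
  rw [lintegral_finsetSum]
  · calc ∑ i ∈ J, ∫⁻ z, (Q0 i).O.indicator (fun _ => (1 : ℝ≥0∞)) z ≤ ∑ _i ∈ J, (1 : ℝ≥0∞) := by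
          apply Finset.sum_le_sum
          intro i _
          have : (fun z => (Q0 i).O.indicator (fun _ => (1 : ℝ≥0∞)) z) = (Q0 i).O.indicator 1 := rfl
          rw [this, lintegral_indicator_one (H282R3.SQ.isOpen_O _).measurableSet,
            ← H282R3.SQ.volume_C (Q0 i)]
          apply measure_mono
          intro z hz
          exact ⟨hz.1.le, hz.2.le⟩
      _ = J.card := by simp
      _ ≤ N := by
          have := J.card_le_univ
          rw [Fintype.card_fin] at this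
          exact_mod_cast this
  · intro i _
    exact measurable_const.indicator (H282R3.SQ.isOpen_O _).measurableSet

/-- choice of the offset -/
theorem avg (f : ℝ → ℝ≥0∞) (hf : Measurable f) :
    ∃ t ∈ Ioc (2 : ℝ) 3, ∑' k : ℤ, f (k - t) ≤ ∫⁻ x, f x := by
  have h1 : ∀ k : ℤ, ∫⁻ t in Ioc (2 : ℝ) 3, f (k - t) =
      ∫⁻ x in Ico (-3 + (k : ℝ)) (-3 + k + 1), f x := by
    intro k
    rw [← lintegral_indicator measurableSet_Ioc, ← lintegral_indicator measurableSet_Ico,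
      ← lintegral_sub_left_eq_self (μ := volume)
        (fun x => (Ico (-3 + (k : ℝ)) (-3 + k + 1)).indicator f x) (k : ℝ)]
    apply lintegral_congr
    intro t
    by_cases ht : t ∈ Ioc (2 : ℝ) 3
    · rw [indicator_of_mem ht, indicator_of_mem]
      constructor
      · linarith [ht.2]
      · linarith [ht.1]
    · rw [indicator_of_notMem ht, indicator_of_notMem]
      intro h
      apply ht
      constructor
      · linarith [h.2]
      · linarith [h.1]
  have h2 : ∫⁻ t in Ioc (2 : ℝ) 3, ∑' k : ℤ, f (k - t) = ∫⁻ x, f x := by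
    have hmk : ∀ k : ℤ, AEMeasurable (fun t : ℝ => f (k - t)) (volume.restrict (Ioc (2 : ℝ) 3)) :=
      fun k => (hf.comp (measurable_const.sub measurable_id)).aemeasurable
    rw [lintegral_tsum hmk]
    simp only [h1]
    rw [← lintegral_iUnion (fun k => measurableSet_Ico)
      (pairwise_disjoint_Ico_add_intCast (-3 : ℝ)), iUnion_Ico_add_intCast, Measure.restrict_univ]
  have hv : volume (Ioc (2 : ℝ) 3) = 1 := by
    rw [Real.volume_Ioc]; norm_num
  have hm : Measurable fun t : ℝ => ∑' k : ℤ, f (k - t) :=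
    Measurable.ennreal_tsum fun k => hf.comp (measurable_const.sub measurable_id)
  obtain ⟨t, ht, h3⟩ := exists_le_setLAverage (μ := volume) (s := Ioc (2 : ℝ) 3)
    (f := fun t => ∑' k : ℤ, f (k - t)) (by rw [hv]; exact one_ne_zero)
    (by rw [hv]; exact ENNReal.one_ne_top) hm.aemeasurable
  refine ⟨t, ht, h3.trans ?_⟩
  rw [setLAverage_eq, hv, h2, div_one]

theorem lint_lam (h : ℝ × ℝ → ℝ≥0∞) (hh : Measurable h) :
    ∫⁻ z, h z ∂lam = (∫⁻ z, h z) + (∑' k : ℤ, ∫⁻ X, h (X, (k : ℝ))) +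
      ∑' k : ℤ, ∫⁻ Y, h ((k : ℝ), Y) := by
  unfold lam
  rw [lintegral_add_measure, lintegral_add_measure, lintegral_sum_measure, lintegral_sum_measure]
  congr 1
  · congr 1
    apply tsum_congr
    intro k
    rw [lintegral_map hh (by fun_prop)]
  · apply tsum_congr
    intro k
    rw [lintegral_map hh (by fun_prop)]

theorem mem_gsq_O (o z : ℝ × ℝ) (c : ℤ × ℤ) : z ∈ (gsq o c).O ↔
    ((c.1 : ℝ) < z.1 - o.1 ∧ z.1 - o.1 < c.1 + 1) ∧ ((c.2 : ℝ) < z.2 - o.2 ∧ z.2 - o.2 < c.2 + 1) := by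
  show |(gsq o c).X z| < 1 / 2 ∧ |(gsq o c).Y z| < 1 / 2 ↔ _
  unfold USq.X USq.Y gsq
  simp only [one_mul, zero_mul, add_zero, neg_zero, zero_add]
  rw [abs_lt, abs_lt]
  constructor
  · rintro ⟨⟨h1, h2⟩, h3, h4⟩
    refine ⟨⟨?_, ?_⟩, ?_, ?_⟩ <;> linarith
  · rintro ⟨⟨h1, h2⟩, h3, h4⟩
    refine ⟨⟨?_, ?_⟩, ?_, ?_⟩ <;> linarith

/-- the index set -/
abbrev Ind (n : ℕ) (J : Finset (Fin N)) : Type := {i // i ∈ J} ⊕ {c : ℤ × ℤ // ¬ Inside n c}

/-- the squares -/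
noncomputable def QQ (n : ℕ) (J : Finset (Fin N)) (R : Fin N → USq) (o : ℝ × ℝ) :
    Ind n J → USq
  | Sum.inl i => sh o (R i.1)
  | Sum.inr c => gsq o c.1

theorem tsum_out (n : ℕ) (o z : ℝ × ℝ) :
    ∑' c : {c : ℤ × ℤ // ¬ Inside n c}, (gsq o c.1).O.indicator (fun _ => (1 : ℝ≥0∞)) z ≤
      (bx n)ᶜ.indicator (fun _ => (1 : ℝ≥0∞)) (z - o) := by
  by_cases h : ∃ c : {c : ℤ × ℤ // ¬ Inside n c}, z ∈ (gsq o c.1).O
  · obtain ⟨c, hc⟩ := h
    have huniq : ∀ c' : {c : ℤ × ℤ // ¬ Inside n c}, c' ≠ c →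
        (gsq o c'.1).O.indicator (fun _ => (1 : ℝ≥0∞)) z = 0 := by
      intro c' hne
      rw [indicator_of_notMem]
      intro hc'
      apply hne
      rw [mem_gsq_O] at hc hc'
      have e1 : c'.1.1 = c.1.1 := by
        have a1 : (c'.1.1 : ℝ) < c.1.1 + 1 := by linarith [hc.1.2, hc'.1.1]
        have a2 : (c.1.1 : ℝ) < c'.1.1 + 1 := by linarith [hc'.1.2, hc.1.1]
        have b1 : c'.1.1 < c.1.1 + 1 := by exact_mod_cast a1
        have b2 : c.1.1 < c'.1.1 + 1 := by exact_mod_cast a2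
        omega
      have e2 : c'.1.2 = c.1.2 := by
        have a1 : (c'.1.2 : ℝ) < c.1.2 + 1 := by linarith [hc.2.2, hc'.2.1]
        have a2 : (c.1.2 : ℝ) < c'.1.2 + 1 := by linarith [hc'.2.2, hc.2.1]
        have b1 : c'.1.2 < c.1.2 + 1 := by exact_mod_cast a1
        have b2 : c.1.2 < c'.1.2 + 1 := by exact_mod_cast a2
        omega
      exact Subtype.ext (Prod.ext e1 e2)
    rw [tsum_eq_single c huniq, indicator_of_mem hc]
    have hz : z - o ∈ (bx n)ᶜ := by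
      intro hz
      rw [mem_gsq_O] at hc
      obtain ⟨h1, h2, h3, h4⟩ := hz
      simp only [Prod.fst_sub, Prod.snd_sub] at h1 h2 h3 h4
      apply c.2
      have a1 : (-1 : ℝ) < c.1.1 := by linarith [hc.1.2]
      have a2 : (c.1.1 : ℝ) < n := by linarith [hc.1.1]
      have a3 : (-1 : ℝ) < c.1.2 := by linarith [hc.2.2]
      have a4 : (c.1.2 : ℝ) < n := by linarith [hc.2.1]
      have b1 : (-1 : ℤ) < c.1.1 := by exact_mod_cast a1
      have b2 : c.1.1 < (n : ℤ) := by exact_mod_cast a2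
      have b3 : (-1 : ℤ) < c.1.2 := by exact_mod_cast a3
      have b4 : c.1.2 < (n : ℤ) := by exact_mod_cast a4
      exact ⟨by omega, b2, by omega, b4⟩
    rw [indicator_of_mem hz]
  · push Not at h
    have : ∀ c : {c : ℤ × ℤ // ¬ Inside n c},
        (gsq o c.1).O.indicator (fun _ => (1 : ℝ≥0∞)) z = 0 := fun c =>
      indicator_of_notMem (h c) _
    simp only [this, tsum_zero]
    exact zero_le

theorem ov_le (n : ℕ) (J : Finset (Fin N)) (R Q0 : Fin N → USq) (o : ℝ × ℝ)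
    (hR : ∀ i, (R i).O = (Q0 i).O) (z : ℝ × ℝ) :
    ov (QQ n J R o) z ≤ gg n J Q0 (z - o) := by
  unfold ov gg
  apply tsub_le_tsub_right
  unfold mult
  rw [Summable.tsum_sum ENNReal.summable ENNReal.summable]
  apply add_le_add
  · rw [tsum_fintype]
    unfold SS
    rw [← Finset.sum_coe_sort J (fun i => (Q0 i).O.indicator (fun _ => (1 : ℝ≥0∞)) (z - o))]
    apply Finset.sum_le_sum
    intro i _
    by_cases hz : z - o ∈ (Q0 i.1).O
    · rw [indicator_of_mem hz]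
      exact indicator_le_self' (fun _ _ => zero_le) z
    · rw [indicator_of_notMem hz, indicator_of_notMem]
      intro h
      apply hz
      rw [← hR]
      exact (mem_sh_O o z (R i.1)).mp h
  · exact tsum_out n o z

end Exists

open H282R5.PC.Exists in
/-- a covering of `[0,n]²` by `N` open unit squares gives a covering of the plane -/
theorem exists_Cvr (n N : ℕ) (hn : 1 ≤ n) (Q0 : Fin N → USq) (hc : H282R3.SQ.Cov n Q0) :
    ∃ (ι : Type) (_ : Countable ι) (o : ℝ × ℝ) (I : Finset ι) (Q : ι → USq),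
      Cvr n o I Q (5 * ((N : ℝ) - (n : ℝ) ^ 2)) := by
  classical
  -- normal forms
  choose R hR1 hR2 hR3 using fun i => H282R4.PK.Pinwheel.exists_nf (Q0 i)
  set J : Finset (Fin N) := Finset.univ.filter fun i => ((Q0 i).C ∩ bx n).Nonempty with hJ
  have hcov : ∀ z ∈ bx n, ∃ i ∈ J, z ∈ (Q0 i).O := by
    rintro ⟨x, y⟩ ⟨h1, h2, h3, h4⟩
    obtain ⟨i, hi⟩ := hc x y h1 h2 h3 h4
    refine ⟨i, ?_, hi⟩
    rw [hJ, Finset.mem_filter]
    exact ⟨Finset.mem_univ _, (x, y), ⟨hi.1.le, hi.2.le⟩, h1, h2, h3, h4⟩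
  have hg := lint_gg n J Q0 hcov
  set W0 := ∫⁻ z, gg n J Q0 z with hW0
  have hmeas := measurable_gg n J Q0
  have hnN : (n : ℝ) ^ 2 ≤ N := by
    have h1 : ENNReal.ofReal ((n : ℝ) ^ 2) ≤ N := le_trans le_add_self hg
    have h2 : ENNReal.ofReal ((n : ℝ) ^ 2) ≤ ENNReal.ofReal (N : ℝ) := by
      rwa [ENNReal.ofReal_natCast]
    exact (ENNReal.ofReal_le_ofReal_iff (Nat.cast_nonneg N)).mp h2
  have hW : W0 ≤ ENNReal.ofReal ((N : ℝ) - (n : ℝ) ^ 2) := by
    rw [ENNReal.ofReal_sub _ (by positivity), ENNReal.ofReal_natCast]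
    exact ENNReal.le_sub_of_add_le_right ENNReal.ofReal_ne_top hg
  -- offsets
  obtain ⟨o2, ho2, h2⟩ := avg (fun s => ∫⁻ X, gg n J Q0 (X, s))
    (Measurable.lintegral_prod_left' hmeas)
  obtain ⟨o1, ho1, h1⟩ := avg (fun s => ∫⁻ Y, gg n J Q0 (s, Y))
    (Measurable.lintegral_prod_right' hmeas)
  have e2 : ∫⁻ s, ∫⁻ X, gg n J Q0 (X, s) = W0 := by
    rw [hW0, Measure.volume_eq_prod, lintegral_prod_symm' _ hmeas]
  have e1 : ∫⁻ s, ∫⁻ Y, gg n J Q0 (s, Y) = W0 := by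
    rw [hW0, Measure.volume_eq_prod, lintegral_prod _ hmeas.aemeasurable]
  rw [e2] at h2
  rw [e1] at h1
  set o : ℝ × ℝ := (o1, o2) with ho
  refine ⟨Ind n J, inferInstance, o, Finset.univ.map Function.Embedding.inl, QQ n J R o, ?_⟩
  have hmemI : ∀ i : Ind n J, i ∉ (Finset.univ.map Function.Embedding.inl : Finset (Ind n J)) →
      ∃ c, i = Sum.inr c := by
    intro i hi
    cases i with
    | inl i =>
      exact absurd (Finset.mem_map_of_mem Function.Embedding.inl (Finset.mem_univ i)) hi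
    | inr c => exact ⟨c, rfl⟩
  have hnotI : ∀ c, (Sum.inr c : Ind n J) ∉
      (Finset.univ.map Function.Embedding.inl : Finset (Ind n J)) := by
    intro c hc'
    rw [Finset.mem_map] at hc'
    obtain ⟨a, -, ha⟩ := hc'
    exact absurd ha (by simp)
  constructor
  · exact ho1.1.le
  · exact ho1.2
  · exact ho2.1.le
  · exact ho2.2
  · rintro (i | c)
    · exact hR1 i.1
    · show |(0 : ℝ)| ≤ 1
      simp
  · nlinarith
  · calc ∫⁻ z, ov (QQ n J R o) z ∂lam ≤ ∫⁻ z, gg n J Q0 (z - o) ∂lam :=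
          lintegral_mono fun z => ov_le n J R Q0 o hR3 z
      _ = (∫⁻ z, gg n J Q0 (z - o)) + (∑' k : ℤ, ∫⁻ X, gg n J Q0 ((X, (k : ℝ)) - o)) +
            ∑' k : ℤ, ∫⁻ Y, gg n J Q0 (((k : ℝ), Y) - o) :=
          lint_lam (fun z => gg n J Q0 (z - o)) (hmeas.comp (measurable_id.sub_const o))
      _ = W0 + (∑' k : ℤ, ∫⁻ X, gg n J Q0 (X, (k : ℝ) - o2)) +
            ∑' k : ℤ, ∫⁻ Y, gg n J Q0 ((k : ℝ) - o1, Y) := by
          congr 1
          · congr 1
            · exact lintegral_sub_right_eq_self (μ := volume) (fun z => gg n J Q0 z) o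
            · apply tsum_congr
              intro k
              exact lintegral_sub_right_eq_self (μ := volume)
                (fun X => gg n J Q0 (X, (k : ℝ) - o2)) o1
          · apply tsum_congr
            intro k
            exact lintegral_sub_right_eq_self (μ := volume)
              (fun Y => gg n J Q0 ((k : ℝ) - o1, Y)) o2
      _ ≤ W0 + W0 + W0 := add_le_add (add_le_add le_rfl h2) h1
      _ ≤ ENNReal.ofReal ((N : ℝ) - (n : ℝ) ^ 2) + ENNReal.ofReal ((N : ℝ) - (n : ℝ) ^ 2) +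
            ENNReal.ofReal ((N : ℝ) - (n : ℝ) ^ 2) := add_le_add (add_le_add hW hW) hW
      _ = ENNReal.ofReal (3 * ((N : ℝ) - (n : ℝ) ^ 2)) := by
          rw [← ENNReal.ofReal_add (by linarith) (by linarith),
            ← ENNReal.ofReal_add (by linarith) (by linarith)]
          congr 1
          ring
      _ ≤ ENNReal.ofReal (5 * ((N : ℝ) - (n : ℝ) ^ 2)) := ENNReal.ofReal_le_ofReal (by linarith)
  · intro i hi
    obtain ⟨c, rfl⟩ := hmemI i hi
    exact ⟨c.1, c.2, rfl⟩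
  · intro c hc'
    exact ⟨Sum.inr ⟨c, hc'⟩, hnotI _, rfl⟩
  · intro i j hi hj hij
    obtain ⟨c, rfl⟩ := hmemI i hi
    obtain ⟨c', rfl⟩ := hmemI j hj
    have h3 : gsq o c.1 = gsq o c'.1 := hij
    have hp := congrArg USq.p h3
    have hq := congrArg USq.q h3
    unfold gsq at hp hq
    simp only at hp hq
    have hp' : (c.1.1 : ℝ) = c'.1.1 := by linarith
    have hq' : (c.1.2 : ℝ) = c'.1.2 := by linarith
    have hp'' : c.1.1 = c'.1.1 := by exact_mod_cast hp'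
    have hq'' : c.1.2 = c'.1.2 := by exact_mod_cast hq'
    congr 1
    exact Subtype.ext (Prod.ext hp'' hq'')
  · rintro z ⟨z1, z2, z3, z4⟩
    have hz : z - o ∈ bx n := by
      refine ⟨?_, ?_, ?_, ?_⟩
      · simp only [Prod.fst_sub]; linarith
      · simp only [Prod.fst_sub]; linarith
      · simp only [Prod.snd_sub]; linarith
      · simp only [Prod.snd_sub]; linarith
    obtain ⟨i, hi, hzi⟩ := hcov _ hz
    refine ⟨Sum.inl ⟨i, hi⟩, Finset.mem_map_of_mem _ (Finset.mem_univ _), ?_⟩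
    show z ∈ (sh o (R i)).O
    rw [mem_sh_O, hR3]
    exact hzi
  · intro i hi
    rw [Finset.mem_map] at hi
    obtain ⟨a, -, rfl⟩ := hi
    obtain ⟨-, w, hw1, hw2⟩ := Finset.mem_filter.mp (hJ ▸ a.2 : a.1 ∈ Finset.univ.filter
      fun i => ((Q0 i).C ∩ bx n).Nonempty)
    refine ⟨w + o, ?_, ?_⟩
    · show w + o ∈ (sh o (R a.1)).C
      rw [mem_sh_C, hR2, add_sub_cancel_right]
      exact hw1
    · obtain ⟨w1, w2, w3, w4⟩ := hw2
      refine ⟨?_, ?_, ?_, ?_⟩
      · simp only [Prod.fst_add]; linarith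
      · simp only [Prod.fst_add]; linarith
      · simp only [Prod.snd_add]; linarith
      · simp only [Prod.snd_add]; linarith

end H282R5.PC
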