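import Pool.Agent.H282R5.PC.Defs
import Pool.Agent.H282R5.PC.Combine
import Pool.Agent.H282R5.PC.Exists
import Pool.Agent.H282R3.SQ.Chord
import Pool.Agent.H282R3.SQ.Lines
import Pool.Agent.H282R3.SQ.Cluster
import Pool.Agent.H282R3.SQ.Area
import Pool.Agent.H282R3.SQ.Waste
import Pool.Agent.H282R3.SQ.Overlap
import Pool.Agent.H282R3.SQ.Sobolev
import Pool.Agent.H282R3.SQ.Window
import Pool.Agent.H282R3.SQ.Field
import Pool.Agent.H282R3.SQ.Energy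
import Pool.Agent.H282R3.SQ.Main
import Pool.Agent.H282R3.SQ.Iso
import Pool.Agent.H282R3.SQ.Grid
import Pool.Agent.H282R3.SQ.Scale
import Pool.Agent.H282R3.SQ.Final

/-! Coverings of a square of side `n` by open unit squares: at least `n² + c n^(3/5)` squares. -/

namespace H282R5.PC

open MeasureTheory
open scoped Real ENNReal
open H282R3.SQ (USq Inside)
open H282R4.PK (slope rho tr F FH cell Rg Kg C0 Bx U V)

namespace Final

open H282R3.SQ in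
theorem sq_main (n N : ℕ) (Q : Fin N → USq) (h : Cov n Q) :
    (n : ℝ) ≤ ((N : ℝ) - (n : ℝ) ^ 2) +
      2 * (164 * (81 * H282R3.SQ.C0 * ((N : ℝ) - (n : ℝ) ^ 2)) ^ 2 +
      162 * H282R3.SQ.C0 ^ 2 * ((N : ℝ) - (n : ℝ) ^ 2)) := by
  have hO : Win.Overlap := ⟨fun n _ Q h z i j hij hi => overlap_orig n Q h z i j hij hi,
    fun n _ Q h z i c hc hout => overlap_cell n Q h z i c hc hout,
    fun c c' hc => overlap_cells c c' hc,
    fun n _ Q h z I hI => count_le n Q h z I hI⟩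
  have hA : Win.Area := ⟨volume_C, convex_C, fun S hS hf z1 z2 z3 h1 h2 h3 =>
    tri_area S hS hf z1 z2 z3 h1 h2 h3⟩
  have hC : Win.Cluster := fun M hM F S hS hcov τ h0 h1 htri A B hAS hBS =>
    cluster M hM F S hS hcov τ h0 h1 htri A B hAS hBS
  have hW : Win.WNonneg := fun n _ Q h c => w_nonneg n Q h c
  refine main_ineq_of n N Q h (lines_of chord_sum n N Q h)
    (exists_field_of n Q h (w_nonneg n Q h)
      (fun z hz i j hi hj => Win.orig_orig hW hC hA hO n Q h z hz i j hi hj)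
      (fun z hz i hi c hc hout => Win.orig_cell hW hC hA hO n Q h z hz i hi c hc hout))
    (fun t ht0 hsupp ht => energy_of n Q t (w_nonneg n Q h) (sum_om_le n Q h)
      (fun z I hI => count_le n Q h z I hI) ht0 hsupp ht)
    (fun t ht hsupp => sobolev n t ht hsupp) (sum_om_le n Q h)

/-- more than `n²` squares are needed -/
theorem one_le (n N : ℕ) (hn : 1 ≤ n) (Q : Fin N → USq) (h : H282R3.SQ.Cov n Q) :
    (1 : ℝ) ≤ (N : ℝ) - (n : ℝ) ^ 2 := by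
  have h0 : 0 ≤ (N : ℝ) - (n : ℝ) ^ 2 := by
    simpa using H282R3.SQ.sum_w_le n Q h ∅
  have h1 := sq_main n N Q h
  obtain ⟨k, hk⟩ : ∃ k : ℤ, (k : ℝ) = (N : ℝ) - (n : ℝ) ^ 2 :=
    ⟨(N : ℤ) - (n : ℤ) ^ 2, by push_cast; rfl⟩
  rw [← hk] at h0 h1 ⊢
  have hn1 : (1 : ℝ) ≤ n := by exact_mod_cast hn
  have hk1 : 1 ≤ k := by
    have hk0' : 0 ≤ k := by exact_mod_cast h0
    rcases hk0'.eq_or_lt with h | h
    · exfalso
      rw [← h] at h1
      norm_num at h1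
      linarith
    · omega
  exact_mod_cast hk1

end Final

/-- a covering of `[0,n]²` by open unit squares uses at least `n² + c n^(3/5)` squares -/
theorem cov_lower (n N : ℕ) (hn : 1 ≤ n) (Q0 : Fin N → USq) (hc : H282R3.SQ.Cov n Q0) :
    1 / 10 ^ 201 * (n : ℝ) ^ ((3 : ℝ) / 5) ≤ (N : ℝ) - (n : ℝ) ^ 2 := by
  obtain ⟨ι, hι, o, I, Q, h⟩ := exists_Cvr n N hn Q0 hc
  have h1 := Final.one_le n N hn Q0 hc
  have h2 := combine n o ι I Q (5 * ((N : ℝ) - (n : ℝ) ^ 2)) hn (by linarith) h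
  obtain ⟨x, hx⟩ : ∃ x : ℝ, x = (n : ℝ) ^ ((3 : ℝ) / 5) := ⟨_, rfl⟩
  have hx0 : 0 ≤ x := by rw [hx]; positivity
  rw [← hx] at h2 ⊢
  obtain ⟨y, hy⟩ : ∃ y : ℝ, y = 1 / 10 ^ 200 * x := ⟨_, rfl⟩
  have hy0 : 0 ≤ y := by rw [hy]; positivity
  have e1 : (1 : ℝ) / 10 ^ 201 * x = y / 10 := by
    rw [hy, pow_succ]
    ring
  rw [← hy] at h2
  rw [e1]
  linarith

/-- the lower bound for `P(n)` -/
theorem P_lower (n : ℕ) (hn : 1 ≤ n) :
    1 / 10 ^ 201 * (n : ℝ) ^ ((3 : ℝ) / 5) ≤ (H282R3.SQ.P n : ℝ) - (n : ℝ) ^ 2 := by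
  obtain ⟨ε, hε, hP⟩ := H282R3.SQ.P_attained n
  have hcc : H282R3.SQ.CanCover (n + ε) (H282R3.SQ.P n) := by
    rw [hP]; exact H282R3.SQ.Nc_mem H282R3.SQ.exists_cover _
  obtain ⟨Q, hQ⟩ := H282R3.SQ.scale' H282R3.SQ.exists_USq n (H282R3.SQ.P n) hn ε hε hcc
  exact cov_lower n (H282R3.SQ.P n) hn Q hQ

end H282R5.PC
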